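import Pool.Agent.MP_0c1703_gt.H58.Spec

/-! Row Aff: along an axis some Busemann function is affine. -/

namespace Pool.Agent.MP_0c1703_gt.H58

open Set Filter Topology
open scoped NNReal ENNReal Real

namespace AffA

theorem slope_lim {β : ℝ → ℝ} {σ : ℝ} (h : Tendsto (fun t => β t / t) atTop (𝓝 σ)) (a : ℝ) :
    Tendsto (fun T => (β T - β a) / (T - a)) atTop (𝓝 σ) := by
  have h1 : ∀ c : ℝ, Tendsto (fun T : ℝ => c / T) atTop (𝓝 0) := fun c =>
    tendsto_const_nhds.div_atTop tendsto_id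
  have h2 := (h.sub (h1 (β a))).div ((tendsto_const_nhds (x := (1 : ℝ))).sub (h1 a)) (by simp)
  simp only [sub_zero, div_one] at h2
  refine h2.congr' ?_
  filter_upwards [eventually_gt_atTop 0, eventually_gt_atTop a] with T h3 h4
  have h5 : T - a ≠ 0 := by linarith [sub_pos.2 h4] |> fun h : 0 < T - a => h.ne'
  simp only [Pi.div_apply]
  field_simp

theorem incr_pos {β : ℝ → ℝ} {σ : ℝ} (hc : ConvexOn ℝ univ β)
    (h : Tendsto (fun t => β t / t) atTop (𝓝 σ)) {u : ℝ} (hu : 0 < u) :
    Tendsto (fun a => β (u + a) - β a) atTop (𝓝 (σ * u)) := by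
  have h1 : Tendsto (fun a => (β (u + a) - β a) / u) atTop (𝓝 σ) := by
    refine tendsto_of_tendsto_of_tendsto_of_le_of_le' (slope_lim h 0) tendsto_const_nhds ?_ ?_
    · filter_upwards [eventually_gt_atTop 0] with a ha
      have := hc.slope_mono_adjacent (mem_univ 0) (mem_univ (u + a)) ha (by linarith)
      simpa using this
    · refine Eventually.of_forall fun a => ge_of_tendsto (slope_lim h a) ?_
      filter_upwards [eventually_ge_atTop (u + a)] with T hT
      have := hc.secant_mono (a := a) (x := u + a) (y := T) (mem_univ _) (mem_univ _) (mem_univ _)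
        (by linarith) (by linarith) hT
      simpa using this
  refine (h1.mul_const u).congr fun a => ?_
  field_simp

theorem incr {β : ℝ → ℝ} {σ : ℝ} (hc : ConvexOn ℝ univ β)
    (h : Tendsto (fun t => β t / t) atTop (𝓝 σ)) (u : ℝ) :
    Tendsto (fun a => β (u + a) - β a) atTop (𝓝 (σ * u)) := by
  rcases lt_trichotomy u 0 with hu | rfl | hu
  · have h1 := ((incr_pos hc h (neg_pos.2 hu)).comp (tendsto_atTop_add_const_left _ u tendsto_id)).neg
    rw [show -(σ * -u) = σ * u by ring] at h1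
    refine h1.congr fun a => ?_
    simp
  · simp
  · exact incr_pos hc h hu

theorem pow_line {X : Type} [MetricSpace X] {φ : X ≃ᵢ X} {l : ℝ → X} {τ : ℝ}
    (h : ∀ t, φ (l t) = l (t + τ)) (k : ℕ) (t : ℝ) : (φ ^ k) (l t) = l (t + k * τ) := by
  induction k generalizing t with
  | zero => simp
  | succ k ih =>
    rw [pow_succ, IsometryEquiv.mul_apply, h, ih]
    congr 1
    push_cast
    ring

theorem convex {X : Type} [MetricSpace X] (h3 : C3 X) {l : ℝ → X} (hl : Isometry l) (η : Bd X) :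
    ConvexOn ℝ univ fun t => bus η (l 0) (l t) := by
  have hd : ∀ s t, dist (l s) (l t) = |s - t| := fun s t => by
    rw [hl.dist_eq, Real.dist_eq]
  refine ⟨convex_univ, fun x _ y _ p q hp hq hpq => ?_⟩
  obtain rfl : p = 1 - q := by linarith
  simp only [smul_eq_mul]
  refine h3.conv η (l 0) (l x) (l y) _ q hq (by linarith) ?_ ?_
  · rw [hd, hd, show x - ((1 - q) * x + q * y) = q * (x - y) by ring, abs_mul, abs_of_nonneg hq]
  · rw [hd, hd, show (1 - q) * x + q * y - y = (1 - q) * (x - y) by ring, abs_mul,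
      abs_of_nonneg hp]

theorem shift {X : Type} [MetricSpace X] (h3 : C3 X) {φ : X ≃ᵢ X} {l : ℝ → X} {τ : ℝ}
    (h : ∀ t, φ (l t) = l (t + τ)) (η : Bd X) (k : ℕ) (t : ℝ) :
    bus (act (φ ^ k)⁻¹ η) (l 0) (l t) =
      bus η (l 0) (l (t + k * τ)) - bus η (l 0) (l (k * τ)) := by
  rw [← h3.equi (φ ^ k), act_inv', pow_line h, pow_line h, zero_add,
    h3.add η (l 0) (l (k * τ)) (l (t + k * τ))]
  ring

theorem limit {Z : Type} [TopologicalSpace Z] [CompactSpace Z] (w : ℕ → Z) (F : Z → ℝ → ℝ)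
    (g : ℝ → ℝ) (hF : ∀ t, Continuous fun z => F z t)
    (h : ∀ t, Tendsto (fun k => F (w k) t) atTop (𝓝 (g t))) : ∃ z, ∀ t, F z t = g t := by
  obtain ⟨z, -, hz⟩ := isCompact_univ.ultrafilter_le_nhds ((Ultrafilter.of atTop).map w) (by simp)
  exact ⟨z, fun t => tendsto_nhds_unique (((hF t).tendsto z).comp hz)
    ((h t).mono_left (Ultrafilter.of_le atTop))⟩

end AffA

theorem sAff : SAff := by
  intro X _ φ l τ a η hC hτ hφ hl
  have hlim : Tendsto (fun t => bus η (l 0) (l t) / t) atTop (𝓝 (-Real.cos (ang a η))) := by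
    refine (hC.c4.buslim (l 0) a η).congr' ?_
    filter_upwards [eventually_ge_atTop 0] with t ht
    rw [hC.c2.rpline a l hl 0 t ht, zero_add]
  have := hC.c2.cpt
  refine AffA.limit (fun k => act (φ ^ k)⁻¹ η) (fun z t => bus z (l 0) (l t)) _ (fun t => ?_)
    fun t => ?_
  · exact hC.c3.cont.comp (f := fun z : Bd X => (z, l 0, l t)) (continuous_id.prodMk continuous_const)
  · have h2 : Tendsto (fun k : ℕ => (k : ℝ) * τ) atTop atTop :=
      tendsto_natCast_atTop_atTop.atTop_mul_const hτ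
    have h3 := (AffA.incr (AffA.convex hC.c3 hl.1 η) hlim t).comp h2
    rw [show -Real.cos (ang a η) * t = -t * Real.cos (ang a η) by ring] at h3
    refine h3.congr fun k => ?_
    rw [AffA.shift hC.c3 hφ η k t]
    rfl

end Pool.Agent.MP_0c1703_gt.H58
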