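import Pool.Agent.MP_0c1703_gt.H58.Spec

/-! First consequences of the CAT(0) inequality. -/

namespace Pool.Agent.MP_0c1703_gt.H58

open Set Filter Topology
open scoped NNReal ENNReal Real

namespace C1A

variable {X : Type} [MetricSpace X]

theorem seg_spec (hX : CAT0 X) (x y : X) : seg x y 0 = x ∧ seg x y (dist x y) = y ∧
    ∀ s ∈ Icc 0 (dist x y), ∀ t ∈ Icc 0 (dist x y), dist (seg x y s) (seg x y t) = |s - t| := by
  rw [seg, dif_pos (hX.1 x y)]
  exact (hX.1 x y).choose_spec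

theorem cmp (hX : CAT0 X) (o x y a b : X) (s t : ℝ) (s0 : 0 ≤ s) (s1 : s ≤ 1) (t0 : 0 ≤ t)
    (t1 : t ≤ 1) (h1 : dist o a = s * dist o x) (h2 : dist a x = (1 - s) * dist o x)
    (h3 : dist o b = t * dist o y) (h4 : dist b y = (1 - t) * dist o y) :
    dist a b ^ 2 ≤ dist o a ^ 2 + dist o b ^ 2 -
      s * t * (dist o x ^ 2 + dist o y ^ 2 - dist x y ^ 2) := by
  have k1 := hX.2 a o y b t t0 t1 h3 h4
  have k2 := mul_le_mul_of_nonneg_left (hX.2 y o x a s s0 s1 h1 h2) t0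
  rw [dist_comm a o, h1] at k1
  rw [dist_comm y a, dist_comm y o, dist_comm y x] at k2
  rw [h1, h3]
  linarith

theorem thales (hX : CAT0 X) (o x y a b : X) (t : ℝ) (t0 : 0 ≤ t) (t1 : t ≤ 1)
    (h1 : dist o a = t * dist o x) (h2 : dist a x = (1 - t) * dist o x)
    (h3 : dist o b = t * dist o y) (h4 : dist b y = (1 - t) * dist o y) :
    dist a b ≤ t * dist x y := by
  have k := cmp hX o x y a b t t t0 t1 t0 t1 h1 h2 h3 h4
  rw [h1, h3] at k
  exact le_of_sq_le_sq (by linarith) (mul_nonneg t0 dist_nonneg)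

theorem conv (hX : CAT0 X) (x y m x' y' m' : X) (t : ℝ) (t0 : 0 ≤ t) (t1 : t ≤ 1)
    (h1 : dist x m = t * dist x y) (h2 : dist m y = (1 - t) * dist x y)
    (h3 : dist x' m' = t * dist x' y') (h4 : dist m' y' = (1 - t) * dist x' y') :
    dist m m' ≤ (1 - t) * dist x x' + t * dist y y' := by
  obtain ⟨a0, a1, ad⟩ := seg_spec hX x y'
  have d0 : (0 : ℝ) ≤ dist x y' := dist_nonneg
  have hm : t * dist x y' ∈ Icc 0 (dist x y') := ⟨mul_nonneg t0 d0, by nlinarith⟩
  have b1 := ad 0 ⟨le_rfl, d0⟩ _ hm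
  have b2 := ad _ hm _ ⟨d0, le_rfl⟩
  rw [a0, zero_sub, abs_neg, abs_of_nonneg hm.1] at b1
  rw [a1, abs_sub_comm, abs_of_nonneg (sub_nonneg.2 hm.2)] at b2
  generalize seg x y' (t * dist x y') = z at b1 b2
  have k1 := thales hX x y y' m z t t0 t1 h1 h2 b1 (by linarith)
  have k2 := thales hX y' x x' z m' (1 - t) (by linarith) (by linarith)
    (by rw [dist_comm y' z, dist_comm y' x]; linarith)
    (by rw [dist_comm z x, dist_comm y' x]; linarith)
    (by rw [dist_comm y' m', dist_comm y' x']; linarith)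
    (by rw [dist_comm m' x', dist_comm y' x']; linarith)
  linarith [dist_triangle m z m']

theorem eqv : Equivalence fun c e : Ray X =>
    Metric.hausdorffEDist (range c.1) (range e.1) ≠ ⊤ where
  refl c := by simp
  symm h := by rwa [Metric.hausdorffEDist_comm]
  trans h h' := ne_top_of_le_ne_top (ENNReal.add_ne_top.2 ⟨h, h'⟩) Metric.hausdorffEDist_triangle

theorem rd (c : Ray X) (s t : ℝ≥0) : dist (c.1 s) (c.1 t) = |(s : ℝ) - t| := c.2.dist_eq s t

theorem asym (c e : Ray X) : mk c = mk e ↔ ∃ C : ℝ, ∀ t, dist (c.1 t) (e.1 t) ≤ C := by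
  rw [mk, mk, Quot.eq, eqv.eqvGen_iff]
  constructor
  · intro h
    obtain ⟨r, hr, -⟩ := ENNReal.lt_iff_exists_nnreal_btwn.1 (lt_top_iff_ne_top.2 h)
    refine ⟨r + (dist (c.1 0) (e.1 0) + r), fun t => ?_⟩
    obtain ⟨_, ⟨s, rfl⟩, hs⟩ := Metric.exists_edist_lt_of_hausdorffEDist_lt (mem_range_self t) hr
    have h1 : dist (c.1 t) (e.1 s) < r := by
      rw [edist_lt_coe] at hs
      exact_mod_cast hs
    have h2 := dist_dist_dist_le (c.1 t) (c.1 0) (e.1 s) (e.1 0)
    rw [rd, rd, Real.dist_eq] at h2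
    simp only [NNReal.coe_zero, sub_zero, NNReal.abs_eq] at h2
    have h3 := dist_triangle (c.1 t) (e.1 s) (e.1 t)
    rw [rd, abs_sub_comm] at h3
    linarith
  · rintro ⟨C, hC⟩
    refine ne_top_of_le_ne_top (ENNReal.ofReal_ne_top (r := C))
      (Metric.hausdorffEDist_le_of_mem_edist ?_ ?_)
    · rintro _ ⟨t, rfl⟩
      exact ⟨_, mem_range_self t, by rw [edist_dist]; exact ENNReal.ofReal_le_ofReal (hC t)⟩
    · rintro _ ⟨t, rfl⟩
      exact ⟨_, mem_range_self t, by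
        rw [edist_dist, dist_comm]; exact ENNReal.ofReal_le_ofReal (hC t)⟩

theorem anti (hX : CAT0 X) (c e : Ray X) (h : mk c = mk e) (s t : ℝ≥0) (hst : s ≤ t) :
    dist (c.1 t) (e.1 t) ≤ dist (c.1 s) (e.1 s) := by
  obtain ⟨C, hC⟩ := (asym c e).1 h
  have C0 : 0 ≤ C := dist_nonneg.trans (hC 0)
  have h0 : (0 : ℝ) ≤ t - s := sub_nonneg.2 (by exact_mod_cast hst)
  refine le_of_forall_pos_le_add fun ε hε => ?_
  have h1 : 0 ≤ (t - s) * C / ε := by positivity
  set T : ℝ≥0 := t + ⟨(t - s) * C / ε + 1, by positivity⟩ with hT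
  have eT : (T : ℝ) = t + ((t - s) * C / ε + 1) := rfl
  have hD : (0 : ℝ) < T - s := by linarith
  have l0 : 0 ≤ ((t : ℝ) - s) / (T - s) := by positivity
  have l1 : ((t : ℝ) - s) / (T - s) ≤ 1 := by rw [div_le_one hD]; linarith
  have key : ∀ f : Ray X, dist (f.1 s) (f.1 t) = (t - s) / (T - s) * dist (f.1 s) (f.1 T) ∧
      dist (f.1 t) (f.1 T) = (1 - (t - s) / (T - s)) * dist (f.1 s) (f.1 T) := by
    intro f
    rw [rd, rd, rd, abs_sub_comm, abs_of_nonneg h0, abs_sub_comm, abs_of_pos hD, abs_sub_comm,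
      abs_of_nonneg (by linarith)]
    constructor <;> field_simp
    ring
  have k := conv hX _ _ _ _ _ _ _ l0 l1 (key c).1 (key c).2 (key e).1 (key e).2
  have k1 : (t - s) / (T - s) * C ≤ ε := by
    rw [div_mul_eq_mul_div, div_le_iff₀ hD]
    have : ε * ((t - s) * C / ε) = (t - s) * C := by field_simp
    nlinarith
  have k2 := mul_le_mul_of_nonneg_left (hC T) l0
  have k3 := mul_nonneg l0 (dist_nonneg (x := c.1 s) (y := e.1 s))
  linarith

end C1A

open C1A in
theorem sC1 : SC1 := fun _ _ hX =>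
  { seg0 := fun x y => (seg_spec hX x y).1
    seg1 := fun x y => (seg_spec hX x y).2.1
    segd := fun x y => (seg_spec hX x y).2.2
    cn := hX.2
    conv := conv hX
    cmp := C1A.cmp hX
    asym := asym
    anti := anti hX }

end Pool.Agent.MP_0c1703_gt.H58
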