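import Pool.Agent.MP_0c1703_gt.H58.Spec

/-! Row C2: rays from a base point, the visual boundary is compact Hausdorff. -/

namespace Pool.Agent.MP_0c1703_gt.H58

open Set Filter Topology
open scoped NNReal

namespace C2A

variable {X : Type} [MetricSpace X]

theorem rd (c : Ray X) (s t : ℝ≥0) : dist (c.1 s) (c.1 t) = |(s : ℝ) - t| := by
  rw [c.2.dist_eq, NNReal.dist_eq]

theorem seg_l (h : C1 X) (x y : X) (T : ℝ) (h0 : 0 ≤ T) (h1 : T ≤ dist x y) :
    dist x (seg x y T) = T := by
  have := h.segd x y 0 ⟨le_rfl, dist_nonneg⟩ T ⟨h0, h1⟩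
  rw [h.seg0] at this
  rw [this, zero_sub, abs_neg, abs_of_nonneg h0]

theorem seg_r (h : C1 X) (x y : X) (T : ℝ) (h0 : 0 ≤ T) (h1 : T ≤ dist x y) :
    dist (seg x y T) y = dist x y - T := by
  have := h.segd x y T ⟨h0, h1⟩ (dist x y) ⟨dist_nonneg, le_rfl⟩
  rw [h.seg1] at this
  rw [this, abs_sub_comm, abs_of_nonneg (sub_nonneg.2 h1)]

theorem segray (h : C1 X) (e : Ray X) (o p : X) (s T : ℝ≥0) (hT : (T : ℝ) ≤ dist o p)
    (hp : 0 < dist o p) :
    dist (seg o p T) (e.1 T) ≤ dist o (e.1 0) + 2 * (T / dist o p) * dist p (e.1 s) := by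
  set lam : ℝ := T / dist o p with hlam
  have l0 : 0 ≤ lam := div_nonneg T.2 hp.le
  have l1 : lam ≤ 1 := (div_le_one hp).2 hT
  have lT : lam * dist o p = T := div_mul_cancel₀ _ hp.ne'
  have s0 : (0 : ℝ) ≤ s := s.2
  let s' : ℝ≥0 := ⟨lam * s, mul_nonneg l0 s0⟩
  have hs' : (s' : ℝ) = lam * s := rfl
  have es : dist (e.1 0) (e.1 s) = s := by
    rw [rd, NNReal.coe_zero, zero_sub, abs_neg, abs_of_nonneg s0]
  have k := h.conv o p (seg o p T) (e.1 0) (e.1 s) (e.1 s') lam l0 l1
    (by rw [seg_l h o p T T.2 hT, lT]) (by rw [seg_r h o p T T.2 hT, ← lT]; ring)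
    (by rw [es, rd, hs', NNReal.coe_zero, zero_sub, abs_neg, abs_of_nonneg (mul_nonneg l0 s0)])
    (by
      rw [es, rd, hs', abs_sub_comm, abs_of_nonneg (by nlinarith)]
      ring)
  have t1 : dist o p ≤ dist o (e.1 0) + s + dist p (e.1 s) := by
    have := dist_triangle4 o (e.1 0) (e.1 s) p
    rw [es, dist_comm (e.1 s) p] at this
    exact this
  have t2 : (s : ℝ) ≤ dist o (e.1 0) + dist o p + dist p (e.1 s) := by
    have := dist_triangle4 (e.1 0) o p (e.1 s)
    rw [es, dist_comm (e.1 0) o] at this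
    exact this
  have k2 : dist (e.1 s') (e.1 T) ≤ lam * (dist o (e.1 0) + dist p (e.1 s)) := by
    rw [rd, hs', ← lT, ← mul_sub, abs_mul, abs_of_nonneg l0]
    refine mul_le_mul_of_nonneg_left (abs_le.2 ⟨by linarith, by linarith⟩) l0
  have := dist_triangle (seg o p T) (e.1 s') (e.1 T)
  nlinarith

theorem ulim [ProperSpace X] {ι : Type} (U : Ultrafilter ι) (o : X) (f : ι → ℝ≥0 → X)
    (h0 : ∀ i, f i 0 = o)
    (hd : ∀ s t : ℝ≥0, ∀ᶠ i in (U : Filter ι), dist (f i s) (f i t) = |(s : ℝ) - t|) :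
    ∃ c : Ray X, c.1 0 = o ∧ ∀ T, Tendsto (fun i => f i T) U (𝓝 (c.1 T)) := by
  have ex : ∀ T : ℝ≥0, ∃ z, Tendsto (fun i => f i T) U (𝓝 z) := fun T => by
    have hm : (↑(U.map fun i => f i T) : Filter X) ≤ 𝓟 (Metric.closedBall o T) := by
      rw [Ultrafilter.coe_map, le_principal_iff, mem_map]
      filter_upwards [hd T 0] with i hi
      rw [h0, NNReal.coe_zero, sub_zero, NNReal.abs_eq] at hi
      exact hi.le
    obtain ⟨z, -, hz⟩ := (isCompact_closedBall o (T : ℝ)).ultrafilter_le_nhds _ hm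
    exact ⟨z, hz⟩
  choose c hc using ex
  refine ⟨⟨c, Isometry.of_dist_eq fun s t => ?_⟩, ?_, hc⟩
  · rw [NNReal.dist_eq]
    exact tendsto_nhds_unique ((hc s).dist (hc t))
      (tendsto_const_nhds.congr' (by filter_upwards [hd s t] with i hi using hi.symm))
  · exact tendsto_nhds_unique (hc 0) (tendsto_const_nhds.congr fun i => (h0 i).symm)

theorem rawlim [ProperSpace X] (h : C1 X) {ι : Type} (U : Ultrafilter ι) (o : X) (x : ι → X)
    (hx : Tendsto (fun i => dist o (x i)) U atTop) :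
    ∃ c : Ray X, c.1 0 = o ∧ ∀ T : ℝ≥0, Tendsto (fun i => seg o (x i) T) U (𝓝 (c.1 T)) := by
  refine ulim U o (fun i T => seg o (x i) T) (fun i => h.seg0 _ _) fun s t => ?_
  filter_upwards [hx.eventually_ge_atTop s, hx.eventually_ge_atTop t] with i hs ht
  exact h.segd o (x i) s ⟨s.2, hs⟩ t ⟨t.2, ht⟩

theorem raylim [ProperSpace X] {ι : Type} (U : Ultrafilter ι) (o : X) (r : ι → Ray X)
    (h0 : ∀ i, (r i).1 0 = o) : ∃ c : Ray X, c.1 0 = o ∧ Tendsto r U (𝓝 c) := by
  obtain ⟨c, c0, hc⟩ := ulim U o (fun i => (r i).1) h0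
    fun s t => Eventually.of_forall fun i => rd _ s t
  exact ⟨c, c0, tendsto_subtype_rng.2 (tendsto_pi_nhds.2 hc)⟩

theorem exray [ProperSpace X] (h : C1 X) (x : X) (u : Bd X) :
    ∃ c : Ray X, c.1 0 = x ∧ mk c = u := by
  obtain ⟨e, rfl⟩ := mk_surj u
  have hU : (↑(Ultrafilter.of (atTop : Filter ℕ)) : Filter ℕ) ≤ atTop := Ultrafilter.of_le _
  have hx : Tendsto (fun i : ℕ => dist x (e.1 i)) atTop atTop := by
    refine tendsto_atTop_mono (f := fun i : ℕ => (i : ℝ) + -dist x (e.1 0)) (fun i => ?_)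
      (tendsto_atTop_add_const_right _ _ tendsto_natCast_atTop_atTop)
    have := dist_triangle (e.1 0) x (e.1 i)
    rw [rd, NNReal.coe_zero, zero_sub, abs_neg, NNReal.coe_natCast,
      abs_of_nonneg (Nat.cast_nonneg i), dist_comm (e.1 0) x] at this
    linarith
  obtain ⟨c, c0, hc⟩ := rawlim h (Ultrafilter.of (atTop : Filter ℕ)) x (fun i => e.1 i)
    (hx.mono_left hU)
  refine ⟨c, c0, (h.asym c e).2 ⟨dist x (e.1 0), fun T => ?_⟩⟩
  refine le_of_tendsto ((hc T).dist tendsto_const_nhds) ?_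
  filter_upwards [(hx.mono_left hU).eventually_ge_atTop T,
    (hx.mono_left hU).eventually_gt_atTop 0] with i h1 h2
  have := segray h e x (e.1 i) i T h1 h2
  rwa [dist_self, mul_zero, add_zero] at this

theorem ray_spec [ProperSpace X] (h : C1 X) (x : X) (u : Bd X) :
    (ray x u).1 0 = x ∧ mk (ray x u) = u := by
  have ex := exray h x u
  unfold ray
  rw [dif_pos ex]
  exact ex.choose_spec

theorem uniq (h : C1 X) (c e : Ray X) (h0 : c.1 0 = e.1 0) (hm : mk c = mk e) : c = e := by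
  refine Subtype.ext (funext fun t => ?_)
  have := h.anti c e hm 0 t zero_le
  rw [h0, dist_self] at this
  exact dist_le_zero.1 this

theorem ray_eq [ProperSpace X] (h : C1 X) (c : Ray X) (x : X) (u : Bd X) (h0 : c.1 0 = x)
    (hm : mk c = u) : ray x u = c :=
  uniq h _ _ ((ray_spec h x u).1.trans h0.symm) ((ray_spec h x u).2.trans hm.symm)

theorem ray_cont [ProperSpace X] (h : C1 X) (x : X) : Continuous (ray x : Bd X → Ray X) := by
  refine isQuotientMap_quot_mk.continuous_iff.2 ?_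
  refine continuous_iff_ultrafilter.2 fun c U hU => ?_
  obtain ⟨r, r0, hr⟩ := raylim U x (fun e => ray x (mk e)) fun e => (ray_spec h x _).1
  have ev : ∀ t : ℝ≥0, Continuous fun e : Ray X => e.1 t := fun t =>
    (continuous_apply t).comp continuous_subtype_val
  have hm : mk r = mk c := by
    refine (h.asym r c).2 ⟨dist x (c.1 0), fun t => ?_⟩
    refine le_of_tendsto_of_tendsto' ((((ev t).tendsto r).comp hr).dist
      (((ev t).tendsto c).mono_left hU))
      (tendsto_const_nhds.dist (((ev 0).tendsto c).mono_left hU)) fun e => ?_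
    have := h.anti (ray x (mk e)) e (ray_spec h x _).2 0 t zero_le
    rw [(ray_spec h x _).1] at this
    exact this
  have : ray x (mk c) = r := ray_eq h r x _ r0 hm
  change Tendsto (fun e => ray x (mk e)) U (𝓝 (ray x (mk c)))
  rw [this]
  exact hr

/-- a line restricted to a half line -/
def shift (l : ℝ → X) (hl : Isometry l) (s : ℝ) : Ray X :=
  ⟨fun t => l (s + t), Isometry.of_dist_eq fun a b => by
    rw [hl.dist_eq, Real.dist_eq, NNReal.dist_eq, add_sub_add_left_eq_sub]⟩

/-- the tail of a ray -/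
def tail (c : Ray X) (s : ℝ≥0) : Ray X :=
  ⟨fun t => c.1 (s + t), Isometry.of_dist_eq fun a b => by
    rw [rd, NNReal.dist_eq, NNReal.coe_add, NNReal.coe_add, add_sub_add_left_eq_sub]⟩

theorem rplip [ProperSpace X] (h : C1 X) (x y : X) (u : Bd X) (t : ℝ) :
    dist (rp x u t) (rp y u t) ≤ dist x y := by
  have := h.anti (ray x u) (ray y u) ((ray_spec h x u).2.trans (ray_spec h y u).2.symm) 0
    t.toNNReal zero_le
  rwa [(ray_spec h x u).1, (ray_spec h y u).1] at this

theorem rp_cont [ProperSpace X] (h : C1 X) :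
    Continuous fun p : X × Bd X × ℝ => rp p.1 p.2.1 p.2.2 := by
  refine continuous_iff_continuousAt.2 fun p₀ => tendsto_iff_dist_tendsto_zero.2 ?_
  have c1 : Continuous fun p : X × Bd X × ℝ => rp p₀.1 p.2.1 p₀.2.2 :=
    ((continuous_apply _).comp continuous_subtype_val).comp
      ((ray_cont h p₀.1).comp (continuous_fst.comp continuous_snd))
  have c2 : Continuous fun p : X × Bd X × ℝ => dist p.1 p₀.1 +
      dist p.2.2.toNNReal p₀.2.2.toNNReal +
      dist (rp p₀.1 p.2.1 p₀.2.2) (rp p₀.1 p₀.2.1 p₀.2.2) :=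
    ((continuous_fst.dist continuous_const).add
      ((continuous_real_toNNReal.comp (continuous_snd.comp continuous_snd)).dist
        continuous_const)).add (c1.dist continuous_const)
  have t0 := c2.tendsto p₀
  rw [dist_self, dist_self, dist_self, add_zero, add_zero] at t0
  refine squeeze_zero (fun _ => dist_nonneg) (fun p => ?_) t0
  have a1 := rplip h p.1 p₀.1 p.2.1 p.2.2
  have a2 : dist (rp p₀.1 p.2.1 p.2.2) (rp p₀.1 p.2.1 p₀.2.2) =
      dist p.2.2.toNNReal p₀.2.2.toNNReal := (ray p₀.1 p.2.1).2.dist_eq _ _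
  have := dist_triangle4 (rp p.1 p.2.1 p.2.2) (rp p₀.1 p.2.1 p.2.2) (rp p₀.1 p.2.1 p₀.2.2)
    (rp p₀.1 p₀.2.1 p₀.2.2)
  linarith

theorem rp_coe (x : X) (u : Bd X) (t : ℝ≥0) : rp x u t = (ray x u).1 t := by
  rw [rp, Real.toNNReal_coe]

theorem near [ProperSpace X] (h : C1 X) (ι : Type) (l : Filter ι) (o : X) (x : ι → X) (u : Bd X)
    (t : ι → ℝ) (D : ℝ) (ht : Tendsto t l atTop)
    (hD : ∀ᶠ i in l, dist (x i) (rp o u (t i)) ≤ D) : Conv l o x u := by
  have hx : Tendsto (fun i => dist o (x i)) l atTop := by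
    refine tendsto_atTop_mono' l (f₁ := fun i => t i + -D) ?_
      (tendsto_atTop_add_const_right _ _ ht)
    filter_upwards [hD, ht.eventually_ge_atTop 0] with i h1 h2
    have := dist_triangle o (x i) (rp o u (t i))
    have e : dist o (rp o u (t i)) = t i := by
      have := rd (ray o u) 0 (t i).toNNReal
      rw [(ray_spec h o u).1, NNReal.coe_zero, zero_sub, abs_neg, Real.coe_toNNReal _ h2,
        abs_of_nonneg h2] at this
      exact this
    linarith
  refine ⟨hx, fun T hT => tendsto_iff_dist_tendsto_zero.2 ?_⟩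
  have t0 : Tendsto (fun i => 2 * (T / dist o (x i)) * D) l (𝓝 0) := by
    have := ((hx.const_div_atTop T).const_mul 2).mul_const D
    rwa [mul_zero, zero_mul] at this
  refine squeeze_zero' (Eventually.of_forall fun _ => dist_nonneg) ?_ t0
  filter_upwards [hD, hx.eventually_ge_atTop T, hx.eventually_gt_atTop 0] with i h1 h2 h3
  have := segray h (ray o u) o (x i) (t i).toNNReal T.toNNReal
    (by rwa [Real.coe_toNNReal _ hT]) h3
  rw [(ray_spec h o u).1, dist_self, zero_add, Real.coe_toNNReal _ hT] at this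
  exact this.trans (mul_le_mul_of_nonneg_left h1 (by positivity))

end C2A

open C2A in
theorem sC2 : SC2 := by
  intro X _ _ h
  refine
    { ray0 := fun x u => (ray_spec h x u).1
      rayu := fun x u => (ray_spec h x u).2
      rayc := fun c => ray_eq h c _ _ rfl rfl
      rp0 := fun x u => by rw [rp, Real.toNNReal_zero, (ray_spec h x u).1]
      rpd := fun x u s t hs ht => by
        rw [rp, rp, rd, Real.coe_toNNReal _ hs, Real.coe_toNNReal _ ht]
      rplip := rplip h
      rpadd := fun x u s t hs ht => ?_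
      rpact := fun φ x u t => ?_
      rpline := fun n l hl s t ht => ?_
      rpinj := fun x u v huv => ?_
      cont := rp_cont h
      cpt := ⟨isCompact_iff_ultrafilter_le_nhds.2 fun U _ => ?_⟩
      t2 := ?_
      tend := fun ι l o w u hw => ?_
      lim := fun ι U o x hx => ?_
      near := near h }
  · have e : ray (rp x u s) u = tail (ray x u) s.toNNReal := by
      refine ray_eq h _ _ _ (by rw [rp]; exact congrArg _ (add_zero _)) ?_
      refine Eq.trans ((h.asym _ _).2 ⟨s, fun r => ?_⟩) (ray_spec h x u).2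
      change dist ((ray x u).1 (s.toNNReal + r)) _ ≤ s
      rw [rd, NNReal.coe_add, add_sub_cancel_right, Real.coe_toNNReal _ hs, abs_of_nonneg hs]
    rw [rp, e, rp, Real.toNNReal_add hs ht]
    rfl
  · have e : ray (φ x) (act φ u) = rmap φ (ray x u) := by
      refine ray_eq h _ _ _ (congrArg φ (ray_spec h x u).1) ?_
      rw [← act_mk, (ray_spec h x u).2]
    rw [rp, e]
    rfl
  · obtain ⟨hi, c, hc, hn⟩ := hl
    have e : ray (l s) n = shift l hi s := by
      refine ray_eq h _ _ _ (congrArg l (add_zero s)) ?_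
      refine Eq.trans ((h.asym _ _).2 ⟨|s|, fun r => ?_⟩) hn
      change dist (l (s + r)) _ ≤ |s|
      rw [hc, hi.dist_eq, Real.dist_eq, add_sub_cancel_right]
    rw [rp, e]
    change l (s + t.toNNReal) = _
    rw [Real.coe_toNNReal _ ht]
  · have e : ray x u = ray x v := Subtype.ext (funext fun t => by
      rw [← rp_coe, ← rp_coe]; exact huv t t.2)
    rw [← (ray_spec h x u).2, e, (ray_spec h x v).2]
  · obtain ⟨u₀⟩ : Nonempty (Bd X) := nonempty_of_neBot (U : Filter (Bd X))
    obtain ⟨c₀, -⟩ := mk_surj u₀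
    obtain ⟨r, -, hr⟩ := raylim U (c₀.1 0) (ray (c₀.1 0)) fun u => (ray_spec h _ u).1
    refine ⟨mk r, mem_univ _, ?_⟩
    exact tendsto_id'.1 (((mk_cont.tendsto r).comp hr).congr fun u => (ray_spec h _ u).2)
  · rcases isEmpty_or_nonempty (Bd X) with he | ⟨⟨u₀⟩⟩
    · exact ⟨fun x => isEmptyElim x⟩
    · obtain ⟨c₀, -⟩ := mk_surj u₀
      refine T2Space.of_injective_continuous (f := ray (c₀.1 0)) (fun u v e => ?_)
        (ray_cont h _)
      rw [← (ray_spec h (c₀.1 0) u).2, e, (ray_spec h (c₀.1 0) v).2]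
  · have hr : Tendsto (fun i => ray o (w i)) l (𝓝 (ray o u)) := by
      refine tendsto_subtype_rng.2 (tendsto_pi_nhds.2 fun t => ?_)
      have := hw t t.2
      simp only [rp_coe] at this
      exact this
    have := (mk_cont.tendsto _).comp hr
    rw [(ray_spec h o u).2] at this
    exact this.congr fun i => (ray_spec h o (w i)).2
  · obtain ⟨c, c0, hc⟩ := rawlim h U o x hx
    refine ⟨mk c, hx, fun T hT => ?_⟩
    have := hc T.toNNReal
    rw [Real.coe_toNNReal _ hT] at this
    rwa [rp, ray_eq h c o _ c0 rfl]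

end Pool.Agent.MP_0c1703_gt.H58
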