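import Pool.Agent.MP_0c1703_gt.H58.Spec

/-! Busemann functions. -/

namespace Pool.Agent.MP_0c1703_gt.H58

open Set Filter Topology
open scoped NNReal

namespace C3A

variable {X : Type} [MetricSpace X]

theorem dist_rp (h2 : C2 X) (x : X) (u : Bd X) {t : ℝ} (ht : 0 ≤ t) : dist x (rp x u t) = t := by
  have h := h2.rpd x u 0 t le_rfl ht
  rwa [h2.rp0, zero_sub, abs_neg, abs_of_nonneg ht] at h

theorem low (h2 : C2 X) (u : Bd X) (x y : X) {t : ℝ} (ht : 0 ≤ t) :
    -dist x y ≤ dist y (rp x u t) - t := by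
  have h := dist_triangle x y (rp x u t)
  rw [dist_rp h2 x u ht] at h
  linarith

theorem bus_eq (u : Bd X) (x y : X) :
    bus u x y = ⨅ t : ℝ≥0, (dist y (rp x u t) - t) := by
  simp only [bus, rp, Real.toNNReal_coe]

theorem bdd (h2 : C2 X) (u : Bd X) (x y : X) :
    BddBelow (range fun t : ℝ≥0 => dist y (rp x u t) - t) :=
  ⟨-dist x y, by rintro _ ⟨t, rfl⟩; exact low h2 u x y t.2⟩

theorem le (h2 : C2 X) (u : Bd X) (x y : X) (t : ℝ) (ht : 0 ≤ t) :
    bus u x y ≤ dist y (rp x u t) - t := by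
  rw [bus_eq]
  exact ciInf_le (bdd h2 u x y) ⟨t, ht⟩

theorem lim (h2 : C2 X) (u : Bd X) (x y : X) :
    Tendsto (fun t : ℝ => dist y (rp x u t) - t) atTop (𝓝 (bus u x y)) := by
  have a : Antitone fun t : ℝ≥0 => dist y (rp x u t) - t := fun s t hst => by
    have h := dist_triangle y (rp x u s) (rp x u t)
    have h' : (s : ℝ) ≤ t := hst
    rw [h2.rpd x u s t s.2 t.2, abs_of_nonpos (by linarith)] at h
    simp only
    linarith
  rw [bus_eq]
  refine ((tendsto_atTop_ciInf a (bdd h2 u x y)).comp Real.tendsto_toNNReal_atTop).congr' ?_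
  filter_upwards [eventually_ge_atTop 0] with t ht
  simp only [Function.comp, Real.coe_toNNReal t ht]

theorem lip (h2 : C2 X) (u : Bd X) (x y : X) : |bus u x y| ≤ dist x y := by
  refine abs_le.2 ⟨?_, ?_⟩
  · rw [bus_eq]
    exact le_ciInf fun t => low h2 u x y t.2
  · have h := le h2 u x y 0 le_rfl
    rwa [h2.rp0, sub_zero, dist_comm] at h

theorem core (h1 : C1 X) (x y p m : X) {T : ℝ} (h0 : 0 < dist x p) (hT : 0 ≤ T)
    (hD : T ≤ dist x p) (e1 : dist x m = T) (e2 : dist m p = dist x p - T) :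
    dist y m ^ 2 ≤ dist x y ^ 2 + T ^ 2 + 2 * T * (dist y p - dist x p) := by
  obtain ⟨l, hl⟩ : ∃ l, T = l * dist x p := ⟨T / dist x p, by field_simp⟩
  have l0 : 0 ≤ l := nonneg_of_mul_nonneg_left (hl ▸ hT) h0
  have l1 : l ≤ 1 := le_of_mul_le_mul_right (by linarith) h0
  have h := h1.cn y x p m l l0 l1 (by rw [e1, hl]) (by rw [e2, hl]; ring)
  have hb : (dist y p - dist x p) ^ 2 ≤ dist x y ^ 2 := by
    rw [← sq_abs]
    refine pow_le_pow_left₀ (abs_nonneg _) ?_ 2
    rw [dist_comm x y]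
    exact abs_dist_sub_le y x p
  rw [dist_comm y x] at h
  have := mul_le_mul_of_nonneg_left hb l0
  rw [hl]
  nlinarith

theorem key (h1 : C1 X) (h2 : C2 X) (u : Bd X) (x y : X) (r : ℝ) (hr : 0 ≤ r) :
    dist y (rp x u r) ^ 2 ≤ dist x y ^ 2 + r ^ 2 + 2 * r * bus u x y := by
  refine ge_of_tendsto (((lim h2 u x y).const_mul (2 * r)).const_add (dist x y ^ 2 + r ^ 2)) ?_
  filter_upwards [eventually_gt_atTop r] with t ht
  have e := dist_rp h2 x u (hr.trans ht.le)
  have h := core h1 x y (rp x u t) (rp x u r) (by linarith) hr (by linarith) (dist_rp h2 x u hr)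
    (by rw [h2.rpd x u r t hr (hr.trans ht.le), abs_of_nonpos (by linarith), e]; ring)
  rwa [e] at h

theorem big (h2 : C2 X) (u : Bd X) (x y : X) {a : ℝ} (ha : a < bus u x y) :
    ∃ T, 0 < T ∧ dist x y ^ 2 + T ^ 2 + 2 * T * a < dist y (rp x u T) ^ 2 := by
  obtain ⟨T, h0, h1, h3⟩ : ∃ T, 0 < T ∧ dist x y ≤ T ∧ dist x y ^ 2 / (2 * (bus u x y - a)) < T :=
    ((eventually_gt_atTop _).and ((eventually_ge_atTop _).and (eventually_gt_atTop _))).exists
  refine ⟨T, h0, ?_⟩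
  rw [div_lt_iff₀ (by linarith)] at h3
  have h4 := le h2 u x y T h0.le
  have h5 := (abs_le.1 (lip h2 u x y)).1
  have h6 : (T + bus u x y) ^ 2 ≤ dist y (rp x u T) ^ 2 :=
    pow_le_pow_left₀ (by linarith) (by linarith) 2
  nlinarith [sq_nonneg (bus u x y)]

theorem small (h2 : C2 X) (u : Bd X) (x y : X) {a : ℝ} (ha : bus u x y < a) :
    ∃ T, 0 < T ∧ dist y (rp x u T) - T < a :=
  ((eventually_gt_atTop _).and ((lim h2 u x y).eventually (gt_mem_nhds ha))).exists

theorem hor (h1 : C1 X) (h2 : C2 X) (ι : Type) (l : Filter ι) (x y : X) (p : ι → X) (u : Bd X)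
    (h : Conv l x p u) :
    Tendsto (fun i => dist y (p i) - dist x (p i)) l (𝓝 (bus u x y)) := by
  have e1 : ∀ (q : X) (T : ℝ), 0 ≤ T → T ≤ dist x q → dist x (seg x q T) = T := by
    intro q T h0 hT
    have := h1.segd x q 0 ⟨le_rfl, dist_nonneg⟩ T ⟨h0, hT⟩
    rwa [h1.seg0, zero_sub, abs_neg, abs_of_nonneg h0] at this
  have e2 : ∀ (q : X) (T : ℝ), 0 ≤ T → T ≤ dist x q → dist (seg x q T) q = dist x q - T := by
    intro q T h0 hT
    have := h1.segd x q T ⟨h0, hT⟩ _ ⟨dist_nonneg, le_rfl⟩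
    rwa [h1.seg1, abs_of_nonpos (by linarith), neg_sub] at this
  refine tendsto_order.2 ⟨fun a ha => ?_, fun a ha => ?_⟩
  · obtain ⟨T, h0, hT⟩ := big h2 u x y ha
    filter_upwards [h.1.eventually_ge_atTop T, (((tendsto_const_nhds (x := y)).dist
      (h.2 T h0.le)).pow 2).eventually (lt_mem_nhds hT)] with i i1 i2
    have := core h1 x y (p i) _ (h0.trans_le i1) h0.le i1 (e1 _ _ h0.le i1) (e2 _ _ h0.le i1)
    exact lt_of_mul_lt_mul_left (a := 2 * T) (by linarith) (by linarith)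
  · obtain ⟨T, h0, hT⟩ := small h2 u x y ha
    filter_upwards [h.1.eventually_ge_atTop T, (((tendsto_const_nhds (x := y)).dist
      (h.2 T h0.le)).sub_const T).eventually (gt_mem_nhds hT)] with i i1 i2
    have := dist_triangle y (seg x (p i) T) (p i)
    rw [e2 _ _ h0.le i1] at this
    linarith

theorem add (h1 : C1 X) (h2 : C2 X) (u : Bd X) (x y z : X) :
    bus u x z = bus u x y + bus u y z := by
  have c : ∀ w, Conv atTop w (rp x u) u := fun w =>
    h2.near ℝ atTop w _ u id (dist x w) tendsto_id (Eventually.of_forall fun t => h2.rplip x w u t)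
  refine tendsto_nhds_unique (hor h1 h2 ℝ atTop x z _ u (c x))
    (((hor h1 h2 ℝ atTop x y _ u (c x)).add (hor h1 h2 ℝ atTop y z _ u (c y))).congr fun t => ?_)
  ring

theorem self (h2 : C2 X) (u : Bd X) (x : X) (t : ℝ) (ht : 0 ≤ t) : bus u x (rp x u t) = -t := by
  refine tendsto_nhds_unique (lim h2 u x _) (tendsto_const_nhds.congr' ?_)
  filter_upwards [eventually_ge_atTop t] with s hs
  rw [h2.rpd x u t s ht (ht.trans hs), abs_of_nonpos (by linarith)]
  ring

theorem conv (h1 : C1 X) (h2 : C2 X) (u : Bd X) (o x y m : X) (t : ℝ) (t0 : 0 ≤ t) (t1 : t ≤ 1)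
    (e1 : dist x m = t * dist x y) (e2 : dist m y = (1 - t) * dist x y) :
    bus u o m ≤ (1 - t) * bus u o x + t * bus u o y := by
  refine le_of_tendsto_of_tendsto' (lim h2 u o m)
    (((lim h2 u o x).const_mul (1 - t)).add ((lim h2 u o y).const_mul t)) fun s => ?_
  have := h1.conv x y m (rp o u s) (rp o u s) (rp o u s) t t0 t1 e1 e2 (by simp) (by simp)
  linarith

theorem cont (h1 : C1 X) (h2 : C2 X) :
    Continuous fun p : Bd X × X × X => bus p.1 p.2.1 p.2.2 := by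
  have c : ∀ T : ℝ, Continuous fun p : Bd X × X × X => dist p.2.2 (rp p.2.1 p.1 T) := fun T =>
    continuous_snd.snd.dist (h2.cont.comp (f := fun p : Bd X × X × X => (p.2.1, p.1, T))
      (by fun_prop))
  refine continuous_iff_continuousAt.2 fun q => tendsto_order.2 ⟨fun a ha => ?_, fun a ha => ?_⟩
  · obtain ⟨T, h0, hT⟩ := big h2 q.1 q.2.1 q.2.2 ha
    have c' : Continuous fun p : Bd X × X × X => dist p.2.1 p.2.2 ^ 2 + T ^ 2 + 2 * T * a := by
      fun_prop
    filter_upwards [(isOpen_lt c' ((c T).pow 2)).mem_nhds hT] with p hp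
    have := lt_of_lt_of_le hp (key h1 h2 p.1 p.2.1 p.2.2 T h0.le)
    exact lt_of_mul_lt_mul_left (a := 2 * T) (by linarith) (by linarith)
  · obtain ⟨T, h0, hT⟩ := small h2 q.1 q.2.1 q.2.2 ha
    filter_upwards [(isOpen_lt ((c T).sub continuous_const) continuous_const).mem_nhds hT] with p hp
    exact (le h2 p.1 p.2.1 p.2.2 T h0.le).trans_lt hp

theorem equi (h2 : C2 X) (φ : X ≃ᵢ X) (u : Bd X) (x y : X) :
    bus (act φ u) (φ x) (φ y) = bus u x y :=
  tendsto_nhds_unique (lim h2 _ _ _) ((lim h2 u x y).congr fun t => by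
    rw [h2.rpact, φ.dist_eq])

end C3A

theorem sC3 : SC3 := fun _ _ h1 h2 =>
  ⟨C3A.lim h2, C3A.le h2, C3A.hor h1 h2, C3A.add h1 h2, C3A.lip h2, C3A.self h2, C3A.conv h1 h2,
    C3A.key h1 h2, C3A.cont h1 h2, C3A.equi h2⟩

end Pool.Agent.MP_0c1703_gt.H58
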