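import Pool.Agent.MP_0c1703_gt.H58.Spec

/-! The angle metric is the arc cosine of the limit of the comparison cosines. -/

namespace Pool.Agent.MP_0c1703_gt.H58

open Set Filter Topology
open scoped NNReal ENNReal Real

namespace C4A

variable {X : Type} [MetricSpace X]

theorem rp_coe (x : X) (u : Bd X) (t : ℝ≥0) : (ray x u).1 t = rp x u t := by
  rw [rp, Real.toNNReal_coe]

theorem alex_le (h4 : C4a X) (x : X) (u v : Bd X) :
    alex (ray x u) (ray x v) ≤ Real.arccos (kap x u v) := by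
  refine limsup_le_of_le (isCoboundedUnder_le_of_le _ fun p => Real.arccos_nonneg _) ?_
  filter_upwards [prod_mem_prod self_mem_nhdsWithin self_mem_nhdsWithin] with p hp
  have h1 : (0 : ℝ) < p.1 := hp.1
  have h2 : (0 : ℝ) < p.2 := hp.2
  refine Real.arccos_le_arccos ?_
  rw [le_div_iff₀ (by positivity), rp_coe, rp_coe]
  have := h4.cmp x u v p.1 p.2 h1.le h2.le
  linarith

theorem alex_nonneg (c e : Ray X) : 0 ≤ alex c e := by
  refine le_limsup_of_frequently_le (Frequently.of_forall fun p => Real.arccos_nonneg _) ?_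
  exact isBoundedUnder_of ⟨π, fun p => Real.arccos_le_pi _⟩

theorem mem_le (h2 : C2 X) (h4 : C4a X) (o : X) (u v : Bd X) {a : ℝ}
    (ha : a ∈ {a | ∃ c e : Ray X, Quot.mk _ c = u ∧ Quot.mk _ e = v ∧ c.1 0 = e.1 0 ∧
      a = alex c e}) : a ≤ Real.arccos (kap o u v) := by
  obtain ⟨c, e, rfl, rfl, h0, rfl⟩ := ha
  have h := alex_le h4 (c.1 0) (mk c) (mk e)
  rw [h2.rayc c, h4.indep _ o] at h
  rw [h0, h2.rayc e] at h
  exact h

theorem alex_mem (h2 : C2 X) (x : X) (u v : Bd X) : alex (ray x u) (ray x v) ∈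
    {a | ∃ c e : Ray X, Quot.mk _ c = u ∧ Quot.mk _ e = v ∧ c.1 0 = e.1 0 ∧ a = alex c e} :=
  ⟨ray x u, ray x v, h2.rayu x u, h2.rayu x v, by rw [h2.ray0, h2.ray0], rfl⟩

theorem alex_le_ang (h2 : C2 X) (h4 : C4a X) (x : X) (u v : Bd X) :
    alex (ray x u) (ray x v) ≤ ang u v :=
  le_csSup ⟨_, fun _ ha => mem_le h2 h4 x u v ha⟩ (alex_mem h2 x u v)

theorem ang_le (h2 : C2 X) (h4 : C4a X) (o : X) (u v : Bd X) :
    ang u v ≤ Real.arccos (kap o u v) :=
  csSup_le ⟨_, alex_mem h2 o u v⟩ fun _ ha => mem_le h2 h4 o u v ha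

/-- small comparison triangles of a given shape -/
theorem small {x : X} {u v : Bd X} {a : ℝ} (ha0 : 0 ≤ a) (hapi : a ≤ π)
    (ha : alex (ray x u) (ray x v) < a) {k : ℝ} (hk : 0 < k) :
    ∃ h : ℝ, 0 < h ∧ dist (rp x u h) (rp x v (k * h)) ^ 2 <
      h ^ 2 + (k * h) ^ 2 - 2 * h * (k * h) * Real.cos a := by
  have h1 := eventually_lt_of_limsup_lt ha (isBoundedUnder_of ⟨π, fun p => Real.arccos_le_pi _⟩)
  lift k to ℝ≥0 using hk.le
  have hk' : (0 : ℝ≥0) < k := hk
  have h2 : Tendsto (fun h : ℝ≥0 => (h, k * h)) (𝓝[>] 0)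
      (𝓝[>] 0 ×ˢ 𝓝[>] 0) := by
    refine tendsto_id.prodMk (tendsto_nhdsWithin_iff.2 ⟨?_, ?_⟩)
    · have : Tendsto (fun h : ℝ≥0 => k * h) (𝓝 0) (𝓝 (k * 0)) :=
        (continuous_const.mul continuous_id).tendsto 0
      rw [mul_zero] at this
      exact this.mono_left nhdsWithin_le_nhds
    · filter_upwards [self_mem_nhdsWithin] with h hh
      exact mul_pos hk' hh
  obtain ⟨h, hh, hpos⟩ := ((h2.eventually h1).and self_mem_nhdsWithin).exists
  have hpos' : (0 : ℝ) < h := hpos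
  refine ⟨h, hpos', ?_⟩
  rw [rp_coe, rp_coe] at hh
  simp only [NNReal.coe_mul] at hh
  by_contra hcon
  refine not_le.2 hh ?_
  rw [← Real.arccos_cos ha0 hapi]
  refine Real.arccos_le_arccos ?_
  rw [div_le_iff₀ (by positivity)]
  linarith [not_lt.1 hcon]

/-- far out on the ray the Busemann function has almost the limit slope -/
theorem slope (h2 : C2 X) (h3 : C3 X) (h4 : C4a X) (o : X) (u v : Bd X) {ε : ℝ} (hε : 0 < ε) :
    ∃ x : X, ∀ h t : ℝ, 0 < h → 0 ≤ t →
      h * (-kap o u v - ε) ≤ dist (rp x u h) (rp x v t) - t := by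
  have h1 := (h4.buslim o u v).eventually (lt_mem_nhds (show -kap o u v - ε < -kap o u v by linarith))
  obtain ⟨s, hs, hs0⟩ := (h1.and (eventually_gt_atTop 0)).exists
  refine ⟨rp o u s, fun h t hh ht => le_trans ?_ (h3.le v _ _ t ht)⟩
  have hsh : 0 < s + h := by linarith
  have e0 : bus v o o = 0 := by
    have := h3.add v o o o
    linarith
  have d1 : dist o (rp o u s) = s := by
    have := h2.rpd o u 0 s le_rfl hs0.le
    rwa [h2.rp0, zero_sub, abs_neg, abs_of_pos hs0] at this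
  have d2 : dist o (rp o u (s + h)) = s + h := by
    have := h2.rpd o u 0 (s + h) le_rfl hsh.le
    rwa [h2.rp0, zero_sub, abs_neg, abs_of_pos hsh] at this
  have d3 : dist (rp o u s) (rp o u (s + h)) = h := by
    have := h2.rpd o u s (s + h) hs0.le hsh.le
    rwa [show s - (s + h) = -h by ring, abs_neg, abs_of_pos hh] at this
  have hc := h3.conv v o o (rp o u (s + h)) (rp o u s) (s / (s + h)) (by positivity)
    ((div_le_one hsh).2 (by linarith)) (by rw [d1, d2]; field_simp)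
    (by rw [d2, d3]; field_simp; ring)
  have ha := h3.add v o (rp o u s) (rp o u (s + h))
  rw [h2.rpadd o u s h hs0.le hh.le]
  rw [e0, mul_zero, zero_add, div_mul_eq_mul_div, le_div_iff₀ hsh] at hc
  rw [lt_div_iff₀ hs0] at hs
  have h5 : s * (h * (-kap o u v - ε)) ≤ s * bus v (rp o u s) (rp o u (s + h)) := by
    nlinarith
  exact le_of_mul_le_mul_left h5 hs0

theorem ang_eq (h2 : C2 X) (h3 : C3 X) (h4 : C4a X) (o : X) (u v : Bd X) :
    ang u v = Real.arccos (kap o u v) := by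
  refine le_antisymm (ang_le h2 h4 o u v) (not_lt.1 fun hlt => ?_)
  obtain ⟨a, ha1, ha2⟩ := exists_between hlt
  have ha0 : 0 ≤ a := ((alex_nonneg _ _).trans (alex_le_ang h2 h4 o u v)).trans ha1.le
  have hapi : a ≤ π := ha2.le.trans (Real.arccos_le_pi _)
  have hcos : kap o u v < Real.cos a := by
    have := Real.cos_lt_cos_of_nonneg_of_le_pi ha0 (Real.arccos_le_pi _) ha2
    rwa [Real.cos_arccos (h4.ge o u v) (h4.le o u v)] at this
  obtain ⟨ε, hε, he⟩ : ∃ ε : ℝ, 0 < ε ∧ Real.cos a = kap o u v + 2 * ε :=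
    ⟨(Real.cos a - kap o u v) / 2, by linarith, by ring⟩
  obtain ⟨x, hx⟩ := slope h2 h3 h4 o u v hε
  have hk : 0 < 1 + 1 / ε := by positivity
  obtain ⟨h, hh, hd⟩ := small ha0 hapi ((alex_le_ang h2 h4 x u v).trans_lt ha1) hk
  have h5 := hx h ((1 + 1 / ε) * h) hh (by positivity)
  have h6 : kap o u v + ε ≤ 1 := by linarith [Real.cos_le_one a]
  have h7 : ε * (1 + 1 / ε) = ε + 1 := by field_simp
  generalize hK : 1 + 1 / ε = k at hk hd h5 h7
  have hk1 : 1 ≤ k := by rw [← hK]; linarith [one_div_pos.2 hε]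
  have h8 : h * (k - (kap o u v + ε)) ≤ dist (rp x u h) (rp x v (k * h)) := by linarith
  have h9 : (h * (k - (kap o u v + ε))) ^ 2 ≤ dist (rp x u h) (rp x v (k * h)) ^ 2 :=
    pow_le_pow_left₀ (mul_nonneg hh.le (by linarith)) h8 2
  have h10 : h ^ 2 * (k - (kap o u v + ε)) ^ 2 <
      h ^ 2 * (1 + k ^ 2 - 2 * k * (kap o u v + 2 * ε)) := by
    rw [he] at hd
    nlinarith
  have h11 := lt_of_mul_lt_mul_left h10 (sq_nonneg h)
  nlinarith [sq_nonneg (kap o u v + ε)]

theorem cos_ang (h2 : C2 X) (h3 : C3 X) (h4 : C4a X) (o : X) (u v : Bd X) :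
    Real.cos (ang u v) = kap o u v := by
  rw [ang_eq h2 h3 h4 o, Real.cos_arccos (h4.ge o u v) (h4.le o u v)]

end C4A

open C4A

theorem sC4 : SC4 := by
  intro X _ _ h2 h3 h4
  refine ⟨fun u v => ?_, fun u v => ?_, fun x u v s t hs ht => ?_, fun x y u v s t hs ht => ?_,
    fun x u v t ht => ?_, fun x u v => ?_⟩
  · rw [ang_eq h2 h3 h4 ((Quot.out u).1 0)]
    exact Real.arccos_nonneg _
  · rw [ang_eq h2 h3 h4 ((Quot.out u).1 0)]
    exact Real.arccos_le_pi _
  · rw [cos_ang h2 h3 h4 x]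
    exact h4.cmp x u v s t hs ht
  · rw [cos_ang h2 h3 h4 x]
    exact h4.lim x x y u v s t hs ht
  · rw [cos_ang h2 h3 h4 x]
    exact h4.busle x u v t ht
  · rw [cos_ang h2 h3 h4 x]
    exact h4.buslim x u v

end Pool.Agent.MP_0c1703_gt.H58
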