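import Pool.Agent.MP_0c1703_gt.H58.Spec

/-! The infimum of the cosines of the comparison angles. -/

namespace Pool.Agent.MP_0c1703_gt.H58

open Set Filter Topology

namespace C4aA

variable {X : Type} [MetricSpace X]

/-- the cosine of the comparison angle -/
noncomputable def cm (x : X) (u v : Bd X) (s t : ℝ) : ℝ :=
  (s ^ 2 + t ^ 2 - dist (rp x u s) (rp x v t) ^ 2) / (2 * s * t)

theorem d0 (h2 : C2 X) (x : X) (u : Bd X) {s : ℝ} (hs : 0 ≤ s) : dist x (rp x u s) = s := by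
  have := h2.rpd x u 0 s le_rfl hs
  rwa [h2.rp0, zero_sub, abs_neg, abs_of_nonneg hs] at this

theorem cm_ge (h2 : C2 X) (x : X) (u v : Bd X) {s t : ℝ} (hs : 0 < s) (ht : 0 < t) :
    -1 ≤ cm x u v s t := by
  have h := dist_triangle_left (rp x u s) (rp x v t) x
  rw [d0 h2 x u hs.le, d0 h2 x v ht.le] at h
  rw [cm, le_div_iff₀ (by positivity)]
  nlinarith [dist_nonneg (x := rp x u s) (y := rp x v t)]

theorem bdd (h2 : C2 X) (x : X) (u v : Bd X) :
    BddBelow (range fun p : Ioi (0 : ℝ) × Ioi (0 : ℝ) => cm x u v p.1 p.2) :=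
  ⟨-1, by rintro _ ⟨p, rfl⟩; exact cm_ge h2 x u v p.1.2 p.2.2⟩

theorem kap_le (h2 : C2 X) (x : X) (u v : Bd X) {s t : ℝ} (hs : 0 < s) (ht : 0 < t) :
    kap x u v ≤ cm x u v s t :=
  ciInf_le (bdd h2 x u v) (⟨s, hs⟩, ⟨t, ht⟩)

theorem anti (h1 : C1 X) (h2 : C2 X) (x : X) (u v : Bd X) {s t s' t' : ℝ} (hs : 0 < s)
    (ht : 0 < t) (hs' : s ≤ s') (ht' : t ≤ t') : cm x u v s' t' ≤ cm x u v s t := by
  have a1 : 0 < s' := hs.trans_le hs'
  have a2 : 0 < t' := ht.trans_le ht'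
  have key : ∀ (w : Bd X) {a b : ℝ}, 0 < a → a ≤ b → dist x (rp x w a) = a / b * dist x (rp x w b) ∧
      dist (rp x w a) (rp x w b) = (1 - a / b) * dist x (rp x w b) := fun w a b ha hab => by
    have hb : 0 < b := ha.trans_le hab
    rw [d0 h2 x w ha.le, d0 h2 x w hb.le, h2.rpd x w a b ha.le hb.le, abs_sub_comm,
      abs_of_nonneg (sub_nonneg.2 hab)]
    constructor <;> field_simp
  have h := h1.cmp x (rp x u s') (rp x v t') (rp x u s) (rp x v t) (s / s') (t / t')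
    (by positivity) (div_le_one_of_le₀ hs' a1.le) (by positivity) (div_le_one_of_le₀ ht' a2.le)
    (key u hs hs').1 (key u hs hs').2 (key v ht ht').1 (key v ht ht').2
  rw [d0 h2 x u hs.le, d0 h2 x v ht.le, d0 h2 x u a1.le, d0 h2 x v a2.le] at h
  have e : cm x u v s' t' = s / s' * (t / t') *
      (s' ^ 2 + t' ^ 2 - dist (rp x u s') (rp x v t') ^ 2) / (2 * s * t) := by
    rw [cm]; field_simp
  rw [e, cm]
  exact div_le_div_of_nonneg_right (by linarith) (by positivity)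

theorem tend (h1 : C1 X) (h2 : C2 X) (x : X) (u v : Bd X) {s t : ℝ} (hs : 0 < s) (ht : 0 < t) :
    Tendsto (fun r : ℝ => cm x u v (s * r) (t * r)) atTop (𝓝 (kap x u v)) := by
  refine tendsto_order.2 ⟨fun a ha => ?_, fun a ha => ?_⟩
  · filter_upwards [eventually_gt_atTop 0] with r hr
    exact ha.trans_le (kap_le h2 x u v (by positivity) (by positivity))
  · have : Nonempty (Ioi (0 : ℝ)) := ⟨⟨1, by simp⟩⟩
    obtain ⟨p, hp⟩ := exists_lt_of_ciInf_lt ha
    filter_upwards [eventually_ge_atTop (p.1 / s), eventually_ge_atTop (p.2 / t)] with r b1 b2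
    rw [div_le_iff₀' hs] at b1
    rw [div_le_iff₀' ht] at b2
    exact (anti h1 h2 x u v p.1.2 p.2.2 b1 b2).trans_lt hp

theorem cmp (h2 : C2 X) (x : X) (u v : Bd X) (s t : ℝ) (hs : 0 ≤ s) (ht : 0 ≤ t) :
    dist (rp x u s) (rp x v t) ^ 2 ≤ s ^ 2 + t ^ 2 - 2 * s * t * kap x u v := by
  rcases hs.eq_or_lt with rfl | hs
  · rw [h2.rp0, d0 h2 x v ht]; simp
  rcases ht.eq_or_lt with rfl | ht
  · rw [h2.rp0, dist_comm, d0 h2 x u hs.le]; simp
  have := kap_le h2 x u v hs ht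
  rw [cm, le_div_iff₀ (by positivity)] at this
  linarith

theorem lim0 (h1 : C1 X) (h2 : C2 X) (x : X) (u v : Bd X) (s t : ℝ) (hs : 0 ≤ s) (ht : 0 ≤ t) :
    Tendsto (fun r : ℝ => dist (rp x u (s * r)) (rp x v (t * r)) ^ 2 / r ^ 2) atTop
      (𝓝 (s ^ 2 + t ^ 2 - 2 * s * t * kap x u v)) := by
  rcases hs.eq_or_lt with rfl | hs
  · refine tendsto_const_nhds.congr' ?_
    filter_upwards [eventually_gt_atTop 0] with r hr
    rw [zero_mul r, h2.rp0, d0 h2 x v (by positivity)]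
    field_simp
    ring
  rcases ht.eq_or_lt with rfl | ht
  · refine tendsto_const_nhds.congr' ?_
    filter_upwards [eventually_gt_atTop 0] with r hr
    rw [zero_mul r, h2.rp0, dist_comm, d0 h2 x u (by positivity)]
    field_simp
    ring
  refine (((tend h1 h2 x u v hs ht).const_mul (2 * s * t)).const_sub (s ^ 2 + t ^ 2)).congr' ?_
  filter_upwards [eventually_gt_atTop 0] with r hr
  rw [cm]
  field_simp
  ring

theorem lim (h1 : C1 X) (h2 : C2 X) (o x y : X) (u v : Bd X) (s t : ℝ) (hs : 0 ≤ s) (ht : 0 ≤ t) :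
    Tendsto (fun r : ℝ => dist (rp x u (s * r)) (rp y v (t * r)) ^ 2 / r ^ 2) atTop
      (𝓝 (s ^ 2 + t ^ 2 - 2 * s * t * kap o u v)) := by
  have a1 := lim0 h1 h2 o u v s t hs ht
  have a2 : 0 ≤ s ^ 2 + t ^ 2 - 2 * s * t * kap o u v := (sq_nonneg _).trans (cmp h2 o u v s t hs ht)
  have a3 : Tendsto (fun r : ℝ => (dist (rp x u (s * r)) (rp y v (t * r)) -
      dist (rp o u (s * r)) (rp o v (t * r))) / r) atTop (𝓝 0) := by
    refine squeeze_zero_norm' ?_ (tendsto_const_nhds.div_atTop (a := dist x o + dist y o) tendsto_id)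
    filter_upwards [eventually_gt_atTop 0] with r hr
    rw [norm_div, Real.norm_of_nonneg hr.le]
    refine div_le_div_of_nonneg_right ?_ hr.le
    exact (dist_dist_dist_le _ _ _ _).trans (add_le_add (h2.rplip _ _ _ _) (h2.rplip _ _ _ _))
  have a4 := (a3.add a1.sqrt).pow 2
  rw [zero_add, Real.sq_sqrt a2] at a4
  refine a4.congr' ?_
  filter_upwards [eventually_gt_atTop 0] with r hr
  rw [← div_pow, Real.sqrt_sq (by positivity), ← div_pow]
  congr 1
  ring

theorem busle (h2 : C2 X) (h3 : C3 X) (x : X) (u v : Bd X) (t : ℝ) (ht : 0 ≤ t) :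
    bus v x (rp x u t) ≤ -t * kap x u v := by
  obtain ⟨b, hb⟩ : ∃ b, b = bus v x (rp x u t) := ⟨_, rfl⟩
  rw [← hb]
  by_contra! hc
  have hp : 0 < b + t * kap x u v := by linarith
  obtain ⟨s, s1, s2⟩ : ∃ s : ℝ, |b| ≤ s ∧ t ^ 2 / (b + t * kap x u v) < s :=
    ⟨max |b| (t ^ 2 / (b + t * kap x u v) + 1), le_max_left _ _,
      (lt_add_one _).trans_le (le_max_right _ _)⟩
  have s0 : 0 ≤ s := (abs_nonneg b).trans s1
  have a1 := h3.le v x (rp x u t) s s0
  have a2 := cmp h2 x u v t s ht s0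
  have a3 : (b + s) ^ 2 ≤ dist (rp x u t) (rp x v s) ^ 2 :=
    pow_le_pow_left₀ (by linarith [neg_abs_le b]) (by linarith) 2
  rw [div_lt_iff₀ hp] at s2
  nlinarith [sq_nonneg b, sq_nonneg t]

theorem buslim (h1 : C1 X) (h2 : C2 X) (h3 : C3 X) (x : X) (u v : Bd X) :
    Tendsto (fun t : ℝ => bus v x (rp x u t) / t) atTop (𝓝 (-kap x u v)) := by
  refine tendsto_of_tendsto_of_tendsto_of_le_of_le' (tend h1 h2 x u v one_pos one_pos).neg
    tendsto_const_nhds ?_ ?_
  · filter_upwards [eventually_gt_atTop 0] with t ht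
    have := h3.key v x (rp x u t) t ht.le
    rw [d0 h2 x u ht.le] at this
    rw [one_mul, cm, ← neg_div, div_le_div_iff₀ (by positivity) ht]
    nlinarith
  · filter_upwards [eventually_gt_atTop 0] with t ht
    rw [div_le_iff₀ ht]
    linarith [busle h2 h3 x u v t ht.le]

end C4aA

open C4aA in
theorem sC4a : SC4a := by
  intro X _ h1 h2 h3
  refine ⟨fun x u v => ?_, fun x u v => ?_, fun x y u v => ?_, cmp h2, lim h1 h2, busle h2 h3,
    buslim h1 h2 h3⟩
  · have : Nonempty (Ioi (0 : ℝ)) := ⟨⟨1, by simp⟩⟩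
    exact le_ciInf fun p => cm_ge h2 x u v p.1.2 p.2.2
  · have := (sq_nonneg _).trans (cmp h2 x u v 1 1 zero_le_one zero_le_one)
    linarith
  · have := tendsto_nhds_unique (lim h1 h2 x x x u v 1 1 zero_le_one zero_le_one)
      (lim h1 h2 y x x u v 1 1 zero_le_one zero_le_one)
    linarith

end Pool.Agent.MP_0c1703_gt.H58
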