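import Pool.Agent.MP_0c1703_gt.H58.Spec

/-! The angle is a metric on the boundary, invariant and lower semicontinuous. -/

namespace Pool.Agent.MP_0c1703_gt.H58

open Set Filter Topology
open scoped NNReal ENNReal Real

namespace C5A

variable {X : Type} [MetricSpace X]

/-- a base point -/
noncomputable def bp (u : Bd X) : X := (Quot.out u).1 0

theorem mem (h4 : C4 X) (u v : Bd X) : ang u v ∈ Icc 0 π := ⟨h4.nn u v, h4.lepi u v⟩

theorem lim1 (h4 : C4 X) (x : X) (u v : Bd X) :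
    Tendsto (fun r : ℝ => dist (rp x u r) (rp x v r) ^ 2 / r ^ 2) atTop
      (𝓝 (2 * (1 - Real.cos (ang u v)))) := by
  have h := h4.lim x x u v 1 1 zero_le_one zero_le_one
  simp only [one_mul] at h
  have e : (1 : ℝ) ^ 2 + 1 ^ 2 - 2 * 1 * 1 * Real.cos (ang u v) = 2 * (1 - Real.cos (ang u v)) := by
    ring
  rw [← e]
  simpa only [one_mul] using h

theorem symm (h4 : C4 X) (u v : Bd X) : ang u v = ang v u := by
  have h1 := lim1 h4 (bp u) u v
  have h2 := lim1 h4 (bp u) v u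
  simp only [dist_comm (rp (bp u) v _)] at h2
  have h := tendsto_nhds_unique h1 h2
  exact Real.injOn_cos (mem h4 u v) (mem h4 v u) (by linarith)

theorem self (h4 : C4 X) (u : Bd X) : ang u u = 0 := by
  have h1 := lim1 h4 (bp u) u u
  simp only [dist_self, ne_eq, OfNat.ofNat_ne_zero, not_false_eq_true, zero_pow, zero_div] at h1
  have h := tendsto_nhds_unique h1 tendsto_const_nhds
  refine Real.injOn_cos (mem h4 u u) ⟨le_rfl, Real.pi_pos.le⟩ ?_
  rw [Real.cos_zero]
  linarith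

theorem eq (h2 : C2 X) (h4 : C4 X) (u v : Bd X) (h : ang u v = 0) : u = v := by
  refine h2.rpinj (bp u) u v fun t ht => ?_
  have h1 := h4.cmp (bp u) u v t t ht ht
  rw [h, Real.cos_zero] at h1
  have h0 : dist (rp (bp u) u t) (rp (bp u) v t) ^ 2 ≤ 0 := by linarith
  have h3 : dist (rp (bp u) u t) (rp (bp u) v t) = 0 := by
    have := sq_nonneg (dist (rp (bp u) u t) (rp (bp u) v t))
    exact pow_eq_zero_iff (two_ne_zero) |>.1 (le_antisymm h0 this)
  exact dist_eq_zero.1 h3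

theorem equi (h2 : C2 X) (h4 : C4 X) (φ : X ≃ᵢ X) (u v : Bd X) :
    ang (act φ u) (act φ v) = ang u v := by
  have h1 := lim1 h4 (φ (bp u)) (act φ u) (act φ v)
  have h3 := lim1 h4 (bp u) u v
  simp only [h2.rpact, φ.dist_eq] at h1
  have h := tendsto_nhds_unique h1 h3
  exact Real.injOn_cos (mem h4 _ _) (mem h4 u v) (by linarith)

theorem le_of_cos {a b : ℝ} (ha : a ∈ Icc 0 π) (hb : b ∈ Icc 0 π)
    (h : Real.cos b ≤ Real.cos a) : a ≤ b := by
  by_contra hn
  have := Real.strictAntiOn_cos hb ha (not_le.1 hn)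
  linarith

theorem iff (h4 : C4 X) (x : X) (u v : Bd X) (θ : ℝ) (h0 : 0 ≤ θ) (hp : θ ≤ π) :
    ang u v ≤ θ ↔
      ∀ t, 0 ≤ t → dist (rp x u t) (rp x v t) ^ 2 ≤ 2 * t ^ 2 * (1 - Real.cos θ) := by
  constructor
  · intro h t ht
    have h1 := h4.cmp x u v t t ht ht
    have h2 : Real.cos θ ≤ Real.cos (ang u v) :=
      Real.cos_le_cos_of_nonneg_of_le_pi (h4.nn u v) hp h
    have h3 : t ^ 2 * Real.cos θ ≤ t ^ 2 * Real.cos (ang u v) :=
      mul_le_mul_of_nonneg_left h2 (sq_nonneg t)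
    nlinarith
  · intro h
    have h1 : 2 * (1 - Real.cos (ang u v)) ≤ 2 * (1 - Real.cos θ) := by
      refine le_of_tendsto (lim1 h4 x u v) ?_
      filter_upwards [eventually_gt_atTop (0 : ℝ)] with r hr
      rw [div_le_iff₀ (by positivity)]
      have := h r hr.le
      linarith
    exact le_of_cos (mem h4 u v) ⟨h0, hp⟩ (by linarith)

theorem closed (h2 : C2 X) (h4 : C4 X) (θ : ℝ) :
    IsClosed {p : Bd X × Bd X | ang p.1 p.2 ≤ θ} := by
  rcases lt_or_ge θ 0 with h0 | h0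
  · have : {p : Bd X × Bd X | ang p.1 p.2 ≤ θ} = ∅ := by
      refine eq_empty_of_forall_notMem fun p hp => ?_
      have := h4.nn p.1 p.2
      have hp' : ang p.1 p.2 ≤ θ := hp
      linarith
    rw [this]
    exact isClosed_empty
  rcases le_total π θ with hp | hp
  · have : {p : Bd X × Bd X | ang p.1 p.2 ≤ θ} = univ :=
      eq_univ_of_forall fun p => (h4.lepi p.1 p.2).trans hp
    rw [this]
    exact isClosed_univ
  rcases isEmpty_or_nonempty (Bd X) with hE | ⟨⟨u₀⟩⟩
  · have : {p : Bd X × Bd X | ang p.1 p.2 ≤ θ} = ∅ :=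
      eq_empty_of_forall_notMem fun p _ => hE.false p.1
    rw [this]
    exact isClosed_empty
  have : {p : Bd X × Bd X | ang p.1 p.2 ≤ θ} = ⋂ t ∈ Ici (0 : ℝ), {p : Bd X × Bd X |
      dist (rp (bp u₀) p.1 t) (rp (bp u₀) p.2 t) ^ 2 ≤ 2 * t ^ 2 * (1 - Real.cos θ)} := by
    ext p
    simp only [mem_ofPred_eq, mem_iInter, mem_Ici]
    exact iff h4 (bp u₀) p.1 p.2 θ h0 hp
  rw [this]
  refine isClosed_biInter fun t _ => isClosed_le ?_ continuous_const
  have c1 : Continuous fun p : Bd X × Bd X => rp (bp u₀) p.1 t :=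
    h2.cont.comp (continuous_const.prodMk (continuous_fst.prodMk continuous_const))
  have c2 : Continuous fun p : Bd X × Bd X => rp (bp u₀) p.2 t :=
    h2.cont.comp (continuous_const.prodMk (continuous_snd.prodMk continuous_const))
  exact (c1.dist c2).pow 2

theorem limD (h4 : C4 X) (x : X) (u v : Bd X) (s t : ℝ) (hs : 0 ≤ s) (ht : 0 ≤ t) :
    Tendsto (fun r : ℝ => dist (rp x u (s * r)) (rp x v (t * r)) / r) atTop
      (𝓝 (Real.sqrt (s ^ 2 + t ^ 2 - 2 * s * t * Real.cos (ang u v)))) := by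
  refine ((h4.lim x x u v s t hs ht).sqrt).congr' ?_
  filter_upwards [eventually_gt_atTop (0 : ℝ)] with r hr
  rw [← div_pow, Real.sqrt_sq (div_nonneg dist_nonneg hr.le)]

theorem triD (h4 : C4 X) (u v w : Bd X) (ρ : ℝ) (hρ : 0 ≤ ρ) :
    Real.sqrt (1 ^ 2 + 1 ^ 2 - 2 * 1 * 1 * Real.cos (ang u w)) ≤
      Real.sqrt (1 ^ 2 + ρ ^ 2 - 2 * 1 * ρ * Real.cos (ang u v)) +
        Real.sqrt (ρ ^ 2 + 1 ^ 2 - 2 * ρ * 1 * Real.cos (ang v w)) := by
  refine le_of_tendsto_of_tendsto (limD h4 (bp u) u w 1 1 zero_le_one zero_le_one)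
    ((limD h4 (bp u) u v 1 ρ zero_le_one hρ).add (limD h4 (bp u) v w ρ 1 hρ zero_le_one)) ?_
  filter_upwards [eventually_gt_atTop (0 : ℝ)] with r hr
  rw [← add_div]
  exact div_le_div_of_nonneg_right (dist_triangle _ _ _) hr.le

theorem key (p q : ℝ) (hq : Real.cos q ≠ 0) :
    1 ^ 2 + (Real.cos p / Real.cos q) ^ 2 - 2 * 1 * (Real.cos p / Real.cos q) * Real.cos (p + q) =
      (Real.sin (p + q) / Real.cos q) ^ 2 := by
  rw [Real.cos_add, Real.sin_add]
  have h1 := Real.sin_sq_add_cos_sq p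
  have h2 := Real.sin_sq_add_cos_sq q
  field_simp
  linear_combination (-(Real.cos q) ^ 2) * h1 - (Real.cos p) ^ 2 * h2

theorem tri (h4 : C4 X) (u v w : Bd X) : ang u w ≤ ang u v + ang v w := by
  rcases le_or_gt π (ang u v + ang v w) with h | h
  · exact (h4.lepi u w).trans h
  have ha := h4.nn u v
  have hb := h4.nn v w
  set a := ang u v with had
  set b := ang v w with hbd
  set p := (a + b) / 2 with hp
  set q := (a - b) / 2 with hq
  have hcq : 0 < Real.cos q :=
    Real.cos_pos_of_mem_Ioo ⟨by rw [hq]; linarith, by rw [hq]; linarith⟩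
  have hcp : 0 < Real.cos p :=
    Real.cos_pos_of_mem_Ioo ⟨by rw [hp]; linarith [Real.pi_pos], by rw [hp]; linarith⟩
  have hT := triD h4 u v w (Real.cos p / Real.cos q) (div_nonneg hcp.le hcq.le)
  rw [← had, ← hbd] at hT
  have ea : a = p + q := by rw [hp, hq]; ring
  have eb : b = p + -q := by rw [hp, hq]; ring
  have k1 := key p q hcq.ne'
  have k2 := key p (-q) (by rw [Real.cos_neg]; exact hcq.ne')
  rw [Real.cos_neg] at k2
  rw [← ea] at k1
  rw [← eb] at k2
  have k3 : (Real.cos p / Real.cos q) ^ 2 + 1 ^ 2 -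
      2 * (Real.cos p / Real.cos q) * 1 * Real.cos b = (Real.sin b / Real.cos q) ^ 2 := by
    rw [← k2]
    ring
  have hsa : 0 ≤ Real.sin a := Real.sin_nonneg_of_nonneg_of_le_pi ha (by linarith)
  have hsb : 0 ≤ Real.sin b := Real.sin_nonneg_of_nonneg_of_le_pi hb (by linarith)
  rw [k1, k3, Real.sqrt_sq (div_nonneg hsa hcq.le), Real.sqrt_sq (div_nonneg hsb hcq.le)] at hT
  have hs : Real.sin a / Real.cos q + Real.sin b / Real.cos q = 2 * Real.sin p := by
    rw [ea, eb, Real.sin_add, Real.sin_add, Real.cos_neg, Real.sin_neg]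
    field_simp
    ring
  rw [hs] at hT
  have hT2 := Real.sqrt_le_iff.1 hT
  have hc : Real.cos (a + b) = 1 - 2 * Real.sin p ^ 2 := by
    have e : a + b = 2 * p := by rw [hp]; ring
    rw [e, Real.cos_two_mul]
    have := Real.sin_sq_add_cos_sq p
    linarith
  refine le_of_cos (mem h4 u w) ⟨by linarith, h.le⟩ ?_
  rw [hc]
  nlinarith [hT2.2]

end C5A

open C5A in
theorem sC5 : SC5 := fun _ _ _ h2 h4 =>
  { symm := symm h4
    self := self h4
    eq := eq h2 h4
    tri := tri h4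
    equi := equi h2 h4
    iff := iff h4
    closed := closed h2 h4 }

end Pool.Agent.MP_0c1703_gt.H58
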