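import Pool.Agent.MP_0c1703_gt.H58.Spec

/-! Row C6: geodesics for the angle metric and the Tits metric below `π`. -/

namespace Pool.Agent.MP_0c1703_gt.H58

open Set Filter Topology
open scoped NNReal ENNReal Real

namespace C6A

variable {X : Type} [MetricSpace X]

theorem chain (h4 : C4 X) (h5 : C5 X) (hm : Mid X) {u v : Bd X} (h : ang u v < π) (n : ℕ) :
    ∃ w : ℕ → Bd X, w 0 = u ∧ w (2 ^ n) = v ∧ ∀ i, ang (w i) (w (i + 1)) ≤ ang u v / 2 ^ n := by
  induction n with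
  | zero =>
    refine ⟨fun i => if i = 0 then u else v, rfl, rfl, fun i => ?_⟩
    rcases i with _ | i
    · simp
    · simpa [h5.self] using h4.nn u v
  | succ n ih =>
    obtain ⟨w, w0, w1, hw⟩ := ih
    have h1 : ang u v / 2 ^ n ≤ ang u v := div_le_self (h4.nn u v) (one_le_pow₀ one_le_two)
    choose m m1 m2 using fun i => hm (w i) (w (i + 1)) (((hw i).trans h1).trans_lt h)
    refine ⟨fun i => if i % 2 = 0 then w (i / 2) else m (i / 2), w0, ?_, fun i => ?_⟩
    · have e1 : 2 ^ (n + 1) % 2 = 0 := by omega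
      have e2 : 2 ^ (n + 1) / 2 = 2 ^ n := by omega
      simp only [e1, e2, w1, if_true]
    · have e : ang u v / 2 ^ (n + 1) = ang u v / 2 ^ n / 2 := by rw [pow_succ, div_div]
      rcases Nat.even_or_odd' i with ⟨k, rfl | rfl⟩
      · have e1 : 2 * k % 2 = 0 := by omega
        have e2 : ¬ (2 * k + 1) % 2 = 0 := by omega
        have e3 : 2 * k / 2 = k := by omega
        have e4 : (2 * k + 1) / 2 = k := by omega
        simp only [if_pos e1, if_neg e2, e3, e4]
        linarith [m1 k, hw k]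
      · have e1 : (2 * k + 1 + 1) % 2 = 0 := by omega
        have e2 : ¬ (2 * k + 1) % 2 = 0 := by omega
        have e3 : (2 * k + 1 + 1) / 2 = k + 1 := by omega
        have e4 : (2 * k + 1) / 2 = k := by omega
        simp only [if_pos e1, if_neg e2, e3, e4]
        linarith [m2 k, hw k]

theorem tele (h5 : C5 X) {w : ℕ → Bd X} {a : ℝ} (hw : ∀ i, ang (w i) (w (i + 1)) ≤ a) (i k : ℕ) :
    ang (w i) (w (i + k)) ≤ k * a := by
  induction k with
  | zero => simp [h5.self]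
  | succ k ih =>
    have := h5.tri (w i) (w (i + k)) (w (i + k + 1))
    push_cast
    rw [← add_assoc]
    linarith [hw (i + k)]

theorem lip (h2 : C2 X) (h4 : C4 X) (h5 : C5 X) (hm : Mid X) {u v : Bd X} (h : ang u v < π) :
    ∃ γ : ℝ → Bd X, γ 0 = u ∧ γ 1 = v ∧
      ∀ s t : ℝ, 0 ≤ s → s ≤ t → ang (γ s) (γ t) ≤ ang u v * (t - s) := by
  have := h2.cpt
  have := h2.t2
  have ha := h4.nn u v
  choose w w0 w1 hw using chain h4 h5 hm h
  let U : Ultrafilter ℕ := Ultrafilter.of atTop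
  have hU : (U : Filter ℕ) ≤ atTop := Ultrafilter.of_le _
  have ex : ∀ s : ℝ, ∃ x, Tendsto (fun n => w n ⌊2 ^ n * s⌋₊) U (𝓝 x) := fun s => by
    obtain ⟨x, -, hx⟩ := isCompact_univ.ultrafilter_le_nhds (U.map fun n => w n ⌊2 ^ n * s⌋₊)
      (by simp)
    exact ⟨x, hx⟩
  choose γ hγ using ex
  refine ⟨γ, tendsto_nhds_unique (hγ 0) ?_, tendsto_nhds_unique (hγ 1) ?_, fun s t hs hst => ?_⟩
  · simp only [mul_zero, Nat.floor_zero, w0]
    exact tendsto_const_nhds
  · have : ∀ n : ℕ, ⌊(2 : ℝ) ^ n * 1⌋₊ = 2 ^ n := fun n => by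
      rw [mul_one, ← Nat.cast_ofNat, ← Nat.cast_pow, Nat.floor_natCast]
    simp only [this, w1]
    exact tendsto_const_nhds
  refine le_of_forall_pos_le_add fun ε hε => ?_
  refine (h5.closed _).mem_of_tendsto ((hγ s).prodMk_nhds (hγ t)) ?_
  have t0 : Tendsto (fun n : ℕ => ang u v / 2 ^ n) atTop (𝓝 0) :=
    tendsto_const_nhds.div_atTop (tendsto_pow_atTop_atTop_of_one_lt one_lt_two)
  filter_upwards [hU (t0.eventually (gt_mem_nhds hε))] with n hn
  have p : (0 : ℝ) < 2 ^ n := by positivity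
  obtain ⟨k, hk⟩ := Nat.exists_eq_add_of_le
    (Nat.floor_le_floor (mul_le_mul_of_nonneg_left hst p.le))
  have k1 : (k : ℝ) ≤ 2 ^ n * (t - s) + 1 := by
    have a1 := Nat.floor_le (mul_nonneg p.le (hs.trans hst))
    have a2 := Nat.lt_floor_add_one (2 ^ n * s)
    rw [hk] at a1
    push_cast at a1
    linarith
  show ang (w n _) (w n _) ≤ _
  rw [hk]
  refine (tele h5 (hw n) _ k).trans ?_
  have hn' : ang u v / 2 ^ n < ε := hn
  calc (k : ℝ) * (ang u v / 2 ^ n) ≤ (2 ^ n * (t - s) + 1) * (ang u v / 2 ^ n) :=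
        mul_le_mul_of_nonneg_right k1 (by positivity)
    _ = ang u v * (t - s) + ang u v / 2 ^ n := by field_simp
    _ ≤ _ := by linarith

theorem path (h2 : C2 X) (h4 : C4 X) (h5 : C5 X) (hm : Mid X) (u v : Bd X) (h : ang u v < π) :
    ∃ γ : ℝ → Bd X, γ 0 = u ∧ γ 1 = v ∧ ContinuousOn γ (Icc 0 1) ∧
      ∀ s ∈ Icc (0 : ℝ) 1, ∀ t ∈ Icc (0 : ℝ) 1, ang (γ s) (γ t) ≤ ang u v * |s - t| := by
  obtain ⟨γ, g0, g1, hγ⟩ := lip h2 h4 h5 hm h
  have hl : ∀ s ∈ Icc (0 : ℝ) 1, ∀ t ∈ Icc (0 : ℝ) 1, ang (γ s) (γ t) ≤ ang u v * |s - t| := by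
    intro s hs t ht
    rcases le_total s t with h1 | h1
    · rw [abs_sub_comm, abs_of_nonneg (sub_nonneg.2 h1)]
      exact hγ s t hs.1 h1
    · rw [abs_of_nonneg (sub_nonneg.2 h1), h5.symm]
      exact hγ t s ht.1 h1
  refine ⟨γ, g0, g1, fun s hs => ?_, hl⟩
  obtain ⟨c, -⟩ := mk_surj u
  refine h2.tend ℝ _ (c.1 0) γ (γ s) fun r hr => tendsto_iff_dist_tendsto_zero.2 ?_
  have t0 : Tendsto (fun t => r * (ang u v * |t - s|)) (𝓝[Icc 0 1] s) (𝓝 0) := by
    have : Continuous fun t => r * (ang u v * |t - s|) := by fun_prop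
    simpa using (this.tendsto s).mono_left nhdsWithin_le_nhds
  refine squeeze_zero' (Eventually.of_forall fun _ => dist_nonneg) ?_ t0
  filter_upwards [self_mem_nhdsWithin] with t ht
  have a1 := h4.cmp (c.1 0) (γ t) (γ s) r r hr hr
  have a2 := Real.one_sub_sq_div_two_le_cos (x := ang (γ t) (γ s))
  have a3 := h4.nn (γ t) (γ s)
  refine le_trans (abs_le_of_sq_le_sq' (b := r * ang (γ t) (γ s)) ?_ (mul_nonneg hr a3)).2
    (mul_le_mul_of_nonneg_left (hl t ht s hs) hr)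
  nlinarith [mul_le_mul_of_nonneg_left a2 (sq_nonneg r)]

theorem ge (u v : Bd X) : ENNReal.ofReal (ang u v) ≤ tits u v := by
  refine le_iInf fun γ => le_iInf fun g0 => le_iInf fun g1 => le_iInf fun _ => ?_
  refine le_iSup_of_le 1 (le_iSup_of_le (fun i => if i = 0 then 0 else 1)
    (le_iSup_of_le ?_ (le_iSup_of_le (fun i => ?_) ?_)))
  · refine monotone_nat_of_le_succ fun i => ?_
    rcases i with _ | i <;> simp
  · rcases i with _ | i <;> simp
  · simp [g0, g1]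

end C6A

open C6A in
theorem sC6 : SC6 := by
  intro X _ h2 h4 h5 hm
  refine ⟨path h2 h4 h5 hm, ge, fun u v h => le_antisymm ?_ (ge u v)⟩
  obtain ⟨γ, g0, g1, -, hl⟩ := path h2 h4 h5 hm u v h
  have ha := h4.nn u v
  refine iInf_le_of_le γ (iInf_le_of_le g0 (iInf_le_of_le g1 (iInf_le_of_le ?_ ?_)))
  · intro s hs ε hε
    refine ⟨ε / (ang u v + 1), by positivity, fun t ht hd => (hl s hs t ht).trans_lt ?_⟩
    rw [lt_div_iff₀ (by positivity), abs_sub_comm] at hd
    nlinarith [abs_nonneg (s - t)]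
  · refine iSup_le fun n => iSup_le fun τ => iSup_le fun hτ => iSup_le fun hI => ?_
    rw [← ENNReal.ofReal_sum_of_nonneg fun i _ => h4.nn _ _]
    refine ENNReal.ofReal_le_ofReal ?_
    have h1 : ∀ i ∈ Finset.range n, ang (γ (τ i)) (γ (τ (i + 1))) ≤
        ang u v * (τ (i + 1) - τ i) := fun i _ => by
      have := hl _ (hI i) _ (hI (i + 1))
      rwa [abs_sub_comm, abs_of_nonneg (sub_nonneg.2 (hτ i.le_succ))] at this
    refine (Finset.sum_le_sum h1).trans ?_
    rw [← Finset.mul_sum, Finset.sum_range_sub]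
    nlinarith [(hI n).2, (hI 0).1]

end Pool.Agent.MP_0c1703_gt.H58
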