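import Pool.Agent.MP_0c1703_gt.H58.Spec

/-! Row Canc: the poles are topological and the suspension cancels. -/

namespace Pool.Agent.MP_0c1703_gt.H58

open Set Filter Topology
open scoped Real

namespace CancA

theorem ne_pole {Z V : Type} [TopologicalSpace Z] [TopologicalSpace V] {n p : Z} {q : V × ℝ → Z}
    (h : Susp Z V n p q) (v : V) {θ : ℝ} (hθ : θ ∈ Ioo 0 π) : q (v, θ) ≠ n ∧ q (v, θ) ≠ p :=
  ⟨fun e => hθ.1.ne' (h.inj v θ v 0 hθ ⟨le_rfl, Real.pi_pos.le⟩ (e.trans (h.zero v).symm)).2,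
    fun e => hθ.2.ne (h.inj v θ v π hθ ⟨Real.pi_pos.le, le_rfl⟩ (e.trans (h.pi v).symm)).2⟩

end CancA

open CancA in
theorem sCanc : SCoord → SFlat → SCanc := by
  intro hC hF Y _ _ _ hS Z V _ _ _ _ n p n' p' q q' h h'
  have half : π / 2 ∈ Ioo 0 π := ⟨by positivity, by linarith [Real.pi_pos]⟩
  obtain ⟨y0⟩ : Nonempty Y := inferInstance
  have hV : Nonempty V := by
    by_contra hc
    have key : ∀ z, z = n' ∨ z = p' := fun z =>
      (h'.surj z).imp_right fun h1 => h1.resolve_right fun ⟨v, _⟩ => hc ⟨v⟩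
    obtain ⟨h1, h2⟩ := ne_pole h y0 half
    have h3 := h.ne
    rcases key n with a | a <;> rcases key p with b | b <;>
      rcases key (q (y0, π / 2)) with c | c <;> simp_all
  obtain ⟨hT, -, pr, th, cth, cpr, thq, prq, hz, hO⟩ := hC Z Y n p q h
  have chart : Chart ({n, p}ᶜ : Set Z) pr := by
    refine ⟨(toFinite _).isClosed.isOpen_compl, cpr, fun z hzO => ⟨univ, fun y => q (y, th z),
      isOpen_univ, trivial, (h.cont.comp (by fun_prop)).continuousOn, (hz z).2, fun a _ => ?_⟩⟩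
    have h1 := (hO z).1 hzO
    exact ⟨(hO _).2 (by rwa [thq _ _ (hz z).1]), prq _ _ h1⟩
  obtain ⟨hn, hp, flat⟩ := hF Z V Y n' p' q' _ pr h' hS chart
  rw [notMem_compl_iff] at hn hp
  have cases : (n' = n ∧ p' = p) ∨ (n' = p ∧ p' = n) := by
    have := h'.ne
    rcases hn with rfl | rfl <;> rcases hp with rfl | rfl <;> simp_all
  have inO : ∀ z, z ∈ ({n, p}ᶜ : Set Z) ↔ z ≠ n' ∧ z ≠ p' := fun z => by
    rcases cases with ⟨rfl, rfl⟩ | ⟨rfl, rfl⟩ <;> simp [and_comm]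
  have qO : ∀ v, ∀ θ ∈ Ioo 0 π, q' (v, θ) ∈ ({n, p}ᶜ : Set Z) := fun v θ hθ =>
    (inO _).2 (ne_pole h' v hθ)
  have fib : ∀ v, ∀ θ ∈ Ioo 0 π, pr (q' (v, θ)) = pr (q' (v, π / 2)) := fun v θ hθ => by
    rcases le_total θ (π / 2) with h1 | h1
    · exact flat v _ _ hθ.1 h1 half.2 fun t ht => qO v t ⟨hθ.1.trans_le ht.1, ht.2.trans_lt half.2⟩
    · exact (flat v _ _ half.1 h1 hθ.2 fun t ht =>
        qO v t ⟨half.1.trans_le ht.1, ht.2.trans_lt hθ.2⟩).symm
  have tn : th n = 0 := by rw [← h.zero y0, thq _ _ ⟨le_rfl, Real.pi_pos.le⟩]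
  have tp : th p = π := by rw [← h.pi y0, thq _ _ ⟨Real.pi_pos.le, le_rfl⟩]
  have cφ : Continuous fun v => pr (q' (v, π / 2)) :=
    cpr.comp_continuous (h'.cont.comp (by fun_prop)) fun v => qO v _ half
  have bij : Function.Bijective fun v => pr (q' (v, π / 2)) := by
    refine ⟨fun v v' e => ?_, fun y => ?_⟩
    · have h1 := (hO _).1 (qO v' _ half)
      have c1 : Continuous fun θ : ℝ => th (q' (v, θ)) := cth.comp (h'.cont.comp (by fun_prop))
      obtain ⟨θ, hθ, e1⟩ : ∃ θ ∈ Ioo 0 π, th (q' (v, θ)) = th (q' (v', π / 2)) := by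
        rcases cases with ⟨a, b⟩ | ⟨a, b⟩
        · refine intermediate_value_Ioo Real.pi_pos.le c1.continuousOn ?_
          rwa [h'.zero, h'.pi, a, b, tn, tp]
        · refine intermediate_value_Ioo' Real.pi_pos.le c1.continuousOn ?_
          rwa [h'.zero, h'.pi, a, b, tn, tp]
      refine (h'.inj v θ v' (π / 2) hθ (Ioo_subset_Icc_self half) ?_).1
      rw [← (hz (q' (v, θ))).2, ← (hz (q' (v', π / 2))).2, e1, fib v θ hθ]
      exact congrArg (fun y => q (y, _)) e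
    · have h1 := (inO (q (y, π / 2))).1 (by simpa using ne_pole h y half)
      obtain ⟨v, θ, hθ, e⟩ := ((h'.surj _).resolve_left h1.1).resolve_left h1.2
      exact ⟨v, by rw [← prq y _ half, ← e]; exact (fib v θ hθ).symm⟩
  exact ⟨hn, ⟨(show Continuous (Equiv.ofBijective _ bij) from cφ).homeoOfEquivCompactToT2⟩⟩

end Pool.Agent.MP_0c1703_gt.H58
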