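import Pool.Agent.MP_0c1703_gt.H58.Spec

namespace Pool.Agent.MP_0c1703_gt.H58

open Set Filter Topology
open scoped Real

namespace CellsA

theorem compact_of_join {Y A B : Type} [TopologicalSpace Y] [TopologicalSpace A] [CompactSpace A]
    [TopologicalSpace B] [CompactSpace B] {j : A × B × ℝ → Y} (hj : JoinS Y A B j) :
    CompactSpace Y := by
  constructor
  have h : (univ : Set Y) = j '' (univ ×ˢ univ ×ˢ Icc (0 : ℝ) 1) := by
    ext y
    simp only [mem_univ, true_iff]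
    obtain ⟨a, b, s, hs, rfl⟩ := hj.surj y
    exact ⟨(a, b, s), ⟨trivial, trivial, hs⟩, rfl⟩
  rw [h]
  exact (isCompact_univ.prod (isCompact_univ.prod isCompact_Icc)).image hj.cont

theorem swap {Y A B : Type} [TopologicalSpace Y] [TopologicalSpace A] [TopologicalSpace B]
    {j : A × B × ℝ → Y} (hj : JoinS Y A B j) :
    JoinS Y B A (fun w => j (w.2.1, w.1, 1 - w.2.2)) where
  cont := hj.cont.comp (by fun_prop)
  zero := fun b a a' => by simpa using hj.one a a' b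
  one := fun b b' a => by simpa using hj.zero a b b'
  inj := fun b a s b' a' s' hs hs' h => by
    have h1 : 1 - s ∈ Icc (0 : ℝ) 1 := ⟨by linarith [hs.2], by linarith [hs.1]⟩
    have h2 : 1 - s' ∈ Icc (0 : ℝ) 1 := ⟨by linarith [hs'.2], by linarith [hs'.1]⟩
    obtain ⟨e1, e2, e3⟩ := hj.inj a b (1 - s) a' b' (1 - s') h1 h2 h
    exact ⟨by linarith, fun h => e3 (by linarith), fun h => e2 (by linarith)⟩
  surj := fun y => by
    obtain ⟨a, b, s, hs, rfl⟩ := hj.surj y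
    exact ⟨b, a, 1 - s, ⟨by linarith [hs.2], by linarith [hs.1]⟩, by simp⟩

theorem chart {Z Y A : Type} [TopologicalSpace Z] [T2Space Z] [TopologicalSpace Y]
    [TopologicalSpace A] {n p : Z} {q : Y × ℝ → Z} (hq : Continuous q) {pr : Z → Y} {th : Z → ℝ}
    (hpr : ContinuousOn pr {n, p}ᶜ) (h1 : ∀ v, ∀ θ ∈ Icc 0 π, th (q (v, θ)) = θ)
    (h2 : ∀ v, ∀ θ ∈ Ioo 0 π, pr (q (v, θ)) = v) (h3 : ∀ z, q (pr z, th z) = z)
    (h4 : ∀ z, z ∈ ({n, p}ᶜ : Set Z) ↔ th z ∈ Ioo 0 π) {D : Set Y} (hD : IsOpen D) {α : Y → A}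
    (hα : ContinuousOn α D)
    (hs : ∀ y ∈ D, ∃ τ : A → Y, Continuous τ ∧ τ (α y) = y ∧ ∀ a, τ a ∈ D ∧ α (τ a) = a) :
    Chart (({n, p}ᶜ : Set Z) ∩ pr ⁻¹' D) (fun z => α (pr z)) where
  op := hpr.isOpen_inter_preimage (Set.toFinite _).isClosed.isOpen_compl hD
  cont := hα.comp (hpr.mono inter_subset_left) fun z hz => hz.2
  sec := fun z hz => by
    obtain ⟨τ, hτ, e1, e2⟩ := hs (pr z) hz.2
    have hθ := (h4 z).1 hz.1
    refine ⟨univ, fun a => q (τ a, th z), isOpen_univ, trivial, ?_, ?_, ?_⟩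
    · exact (hq.comp (hτ.prodMk continuous_const)).continuousOn
    · simp only [e1, h3]
    · intro a _
      have e3 : pr (q (τ a, th z)) = τ a := h2 _ _ hθ
      refine ⟨⟨?_, ?_⟩, ?_⟩
      · rw [h4, h1 _ _ (Ioo_subset_Icc_self hθ)]
        exact hθ
      · show pr (q (τ a, th z)) ∈ D
        rw [e3]
        exact (e2 a).1
      · show α (pr (q (τ a, th z))) = a
        rw [e3]
        exact (e2 a).2

theorem const_of {A : Type} {f : ℝ → A}
    (h : ∀ a b, 0 < a → a ≤ b → b < π → f a = f b) : ∀ t ∈ Ioo 0 π, f t = f (π / 2) := by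
  intro t ht
  have hπ := Real.pi_pos
  rcases le_total t (π / 2) with h1 | h1
  · exact h t (π / 2) ht.1 h1 (by linarith)
  · exact (h (π / 2) t (by linarith) h1 ht.2).symm

end CellsA

open CellsA in
theorem sCells : SCoord → SCoordJ → SFlat → SStrat → SCells := by
  intro hC hJ hF hS Z Y V A B _ _ _ _ _ _ _ _ _ _ _ n p n' p' q q' j hA hB hj hq hq'
  have hπ := Real.pi_pos
  have hh : π / 2 ∈ Ioo 0 π := ⟨by linarith, by linarith⟩
  haveI : CompactSpace Y := compact_of_join hj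
  haveI : Nonempty Y := ⟨j (Classical.arbitrary A, Classical.arbitrary B, 0)⟩
  obtain ⟨hT, -, pr, th, -, hpr, h1, h2, h3, h4⟩ := hC Z Y n p q hq
  haveI := hT
  obtain ⟨α, β, s, hs, hα, hβ, k1, -, k2⟩ := hJ Y A B j hj
  have hV : Nonempty V := by
    by_contra hV
    have hall : ∀ z, z = n' ∨ z = p' := by
      intro z
      rcases hq'.surj z with h | h | ⟨v, -⟩
      · exact Or.inl h
      · exact Or.inr h
      · exact absurd ⟨v⟩ hV
    have hz : q (Classical.arbitrary Y, π / 2) ∈ ({n, p}ᶜ : Set Z) := by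
      rw [h4, h1 _ _ (Ioo_subset_Icc_self hh)]
      exact hh
    simp only [mem_compl_iff, mem_insert_iff, mem_singleton_iff, not_or] at hz
    have hne := hq.ne
    rcases hall n with e1 | e1 <;> rcases hall p with e2 | e2 <;>
      rcases hall (q (Classical.arbitrary Y, π / 2)) with e3 | e3
    all_goals first
      | exact hne (e1.trans e2.symm)
      | exact hz.1 (e3.trans e1.symm)
      | exact hz.2 (e3.trans e2.symm)
  have cA : Chart (({n, p}ᶜ : Set Z) ∩ pr ⁻¹' {y | s y < 1}) (fun z => α (pr z)) := by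
    refine chart hq.cont hpr h1 h2 (fun z => (h3 z).2) h4 (isOpen_lt hs continuous_const) hα ?_
    intro y hy
    refine ⟨fun a => j (a, β y, s y), hj.cont.comp (by fun_prop), (k1 y).2, fun a => ?_⟩
    obtain ⟨e1, e2, -⟩ := k2 a (β y) (s y) (k1 y).1
    refine ⟨?_, e2 hy⟩
    show s (j (a, β y, s y)) < 1
    rw [e1]
    exact hy
  have cB : Chart (({n, p}ᶜ : Set Z) ∩ pr ⁻¹' {y | 0 < s y}) (fun z => β (pr z)) := by
    refine chart hq.cont hpr h1 h2 (fun z => (h3 z).2) h4 (isOpen_lt continuous_const hs) hβ ?_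
    intro y hy
    refine ⟨fun b => j (α y, b, s y), hj.cont.comp (by fun_prop), (k1 y).2, fun b => ?_⟩
    obtain ⟨e1, -, e2⟩ := k2 (α y) b (s y) (k1 y).1
    refine ⟨?_, e2 hy⟩
    show 0 < s (j (α y, b, s y))
    rw [e1]
    exact hy
  obtain ⟨a1, a2, a3⟩ := hF Z V A n' p' q' _ _ hq' hA cA
  obtain ⟨b1, b2, b3⟩ := hF Z V B n' p' q' _ _ hq' hB cB
  have pole : ∀ z : Z, z ∉ ({n, p}ᶜ : Set Z) ∩ pr ⁻¹' {y | s y < 1} →
      z ∉ ({n, p}ᶜ : Set Z) ∩ pr ⁻¹' {y | 0 < s y} → z = n ∨ z = p := by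
    intro z u1 u2
    by_contra hz
    have hz' : z ∈ ({n, p}ᶜ : Set Z) := by
      simpa only [mem_compl_iff, mem_insert_iff, mem_singleton_iff] using hz
    rcases lt_or_ge (s (pr z)) 1 with h | h
    · exact u1 ⟨hz', h⟩
    · exact u2 ⟨hz', show 0 < s (pr z) by linarith⟩
  refine ⟨hV, pole n' a1 b1, pole p' a2 b2, ?_⟩
  rintro rfl rfl v
  obtain ⟨-, -, pr', th', -, -, g1, -, -, g4⟩ := hC Z V n' p' q' hq'
  have hW : ∀ t ∈ Ioo 0 π, q' (v, t) ∈ ({n', p'}ᶜ : Set Z) := by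
    intro t ht
    rw [g4, g1 _ _ (Ioo_subset_Icc_self ht)]
    exact ht
  have hE : ∀ t, q' (v, t) = q (j (α (pr (q' (v, t))), β (pr (q' (v, t))), s (pr (q' (v, t)))),
      th (q' (v, t))) := by
    intro t
    rw [(k1 _).2, (h3 _).2]
  by_cases c0 : ∃ t ∈ Ioo 0 π, s (pr (q' (v, t))) = 0
  · obtain ⟨t, ht, e⟩ := c0
    refine ⟨α (pr (q' (v, t))), β (pr (q' (v, t))), Or.inl ?_⟩
    have e1 := hE t
    rw [e] at e1
    exact hS Z Y V A B n' p' q q' j hA hB hj hq hq' v _ _ t ht _ ((h4 _).1 (hW t ht)) e1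
  by_cases c1 : ∃ t ∈ Ioo 0 π, s (pr (q' (v, t))) = 1
  · obtain ⟨t, ht, e⟩ := c1
    refine ⟨α (pr (q' (v, t))), β (pr (q' (v, t))), Or.inr (Or.inl ?_)⟩
    have e1 := hE t
    rw [e] at e1
    have := hS Z Y V B A n' p' q q' _ hB hA (swap hj) hq hq' v (β (pr (q' (v, t))))
      (α (pr (q' (v, t)))) t ht _ ((h4 _).1 (hW t ht)) (by simpa using e1)
    simpa using this
  have hI : ∀ t ∈ Ioo 0 π, s (pr (q' (v, t))) ∈ Ioo (0 : ℝ) 1 := by
    intro t ht
    have hm := (k1 (pr (q' (v, t)))).1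
    exact ⟨lt_of_le_of_ne hm.1 fun h => c0 ⟨t, ht, h.symm⟩,
      lt_of_le_of_ne hm.2 fun h => c1 ⟨t, ht, h⟩⟩
  have eA := const_of (f := fun t => α (pr (q' (v, t)))) fun a b ha hab hb =>
    a3 v a b ha hab hb fun θ hθ =>
      ⟨hW θ ⟨by linarith [hθ.1], by linarith [hθ.2]⟩,
        (hI θ ⟨by linarith [hθ.1], by linarith [hθ.2]⟩).2⟩
  have eB := const_of (f := fun t => β (pr (q' (v, t)))) fun a b ha hab hb =>
    b3 v a b ha hab hb fun θ hθ =>
      ⟨hW θ ⟨by linarith [hθ.1], by linarith [hθ.2]⟩,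
        (hI θ ⟨by linarith [hθ.1], by linarith [hθ.2]⟩).1⟩
  refine ⟨α (pr (q' (v, π / 2))), β (pr (q' (v, π / 2))), Or.inr (Or.inr fun t ht => ?_)⟩
  refine ⟨s (pr (q' (v, t))), hI t ht, th (q' (v, t)), (h4 _).1 (hW t ht), ?_⟩
  have e1 := hE t
  have e2 : α (pr (q' (v, t))) = α (pr (q' (v, π / 2))) := eA t ht
  have e3 : β (pr (q' (v, t))) = β (pr (q' (v, π / 2))) := eB t ht
  rw [← e2, ← e3]
  exact e1

end Pool.Agent.MP_0c1703_gt.H58
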