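import Pool.Agent.MP_0c1703_gt.H58.Spec

/-! Coordinates on a join (row CoordJ, helper87). -/

namespace Pool.Agent.MP_0c1703_gt.H58

open Set Filter Topology

namespace CoordJA

/-- continuity descends along a continuous map from a compact set to a Hausdorff space -/
theorem descend {P Y S : Type} [TopologicalSpace P] [TopologicalSpace Y] [T2Space Y]
    [TopologicalSpace S] {T : Set P} (hT : IsCompact T) {pr : P → Y} (hpr : Continuous pr)
    {W : Set Y} {f : Y → S} {g : P → S} (hg : Continuous g)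
    (hs : ∀ y ∈ W, ∃ p ∈ T, pr p = y) (he : ∀ p ∈ T, pr p ∈ W → f (pr p) = g p) :
    ContinuousOn f W := by
  rw [continuousOn_iff_isClosed]
  intro t ht
  refine ⟨pr '' (T ∩ g ⁻¹' t), ((hT.inter_right (ht.preimage hg)).image hpr).isClosed, ?_⟩
  ext y
  constructor
  · rintro ⟨hy, hW⟩
    obtain ⟨p, hp, rfl⟩ := hs y hW
    refine ⟨⟨p, ⟨hp, ?_⟩, rfl⟩, hW⟩
    rw [mem_preimage, ← he p hp hW]
    exact hy
  · rintro ⟨⟨p, ⟨hp, hpt⟩, rfl⟩, hW⟩
    refine ⟨?_, hW⟩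
    rw [mem_preimage, he p hp hW]
    exact hpt

end CoordJA

open CoordJA in
theorem sCoordJ : SCoordJ := by
  intro Y A B _ _ _ _ _ _ _ _ j hj
  choose α β s hs hjs using hj.surj
  have key : ∀ a b, ∀ r ∈ Icc (0 : ℝ) 1, s (j (a, b, r)) = r ∧ (r < 1 → α (j (a, b, r)) = a) ∧
      (0 < r → β (j (a, b, r)) = b) := by
    intro a b r hr
    obtain ⟨h1, h2, h3⟩ := hj.inj a b r _ _ _ hr (hs (j (a, b, r))) (hjs (j (a, b, r))).symm
    exact ⟨h1.symm, fun h => (h2 h).symm, fun h => (h3 h).symm⟩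
  have hT : IsCompact ((univ : Set A) ×ˢ ((univ : Set B) ×ˢ Icc (0 : ℝ) 1)) :=
    isCompact_univ.prod (isCompact_univ.prod isCompact_Icc)
  have hsur : ∀ y, ∃ p ∈ (univ : Set A) ×ˢ ((univ : Set B) ×ˢ Icc (0 : ℝ) 1), j p = y :=
    fun y => ⟨(α y, β y, s y), ⟨trivial, trivial, hs y⟩, hjs y⟩
  refine ⟨α, β, s, ?_, ?_, ?_, fun y => ⟨hs y, hjs y⟩, ?_, key⟩
  · rw [← continuousOn_univ]
    refine descend hT hj.cont (g := fun p => p.2.2) (by fun_prop) (fun y _ => hsur y) ?_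
    rintro ⟨a, b, r⟩ ⟨-, -, hr⟩ -
    exact (key a b r hr).1
  · refine descend hT hj.cont (g := fun p => p.1) (by fun_prop) (fun y _ => hsur y) ?_
    rintro ⟨a, b, r⟩ ⟨-, -, hr⟩ hW
    have h := key a b r hr
    exact h.2.1 (h.1 ▸ hW)
  · refine descend hT hj.cont (g := fun p => p.2.1) (by fun_prop) (fun y _ => hsur y) ?_
    rintro ⟨a, b, r⟩ ⟨-, -, hr⟩ hW
    have h := key a b r hr
    exact h.2.2 (h.1 ▸ hW)
  · have hc := hj.cont
    refine descend (hT.prod (isCompact_Icc (a := (0 : ℝ)) (b := 1)))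
      (pr := fun p : (A × B × ℝ) × ℝ => (j p.1, p.2)) (by fun_prop)
      (g := fun p => j (p.1.1, p.1.2.1, p.2 * p.1.2.2)) (by fun_prop) ?_ ?_
    · rintro ⟨y, r⟩ ⟨-, hr⟩
      obtain ⟨p, hp, rfl⟩ := hsur y
      exact ⟨(p, r), ⟨hp, hr⟩, rfl⟩
    · rintro ⟨⟨a, b, t⟩, r⟩ ⟨⟨-, -, ht⟩, -⟩ ⟨hW, -⟩
      have h := key a b t ht
      have ht1 : t < 1 := h.1 ▸ hW
      show j (α (j (a, b, t)), β (j (a, b, t)), r * s (j (a, b, t))) = j (a, b, r * t)
      rw [h.1, h.2.1 ht1]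
      rcases eq_or_lt_of_le ht.1 with h0 | h0
      · have h0' : t = 0 := h0.symm
        rw [h0', mul_zero]
        exact hj.zero _ _ _
      · rw [h.2.2 h0]

end Pool.Agent.MP_0c1703_gt.H58
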