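import Pool.Agent.MP_0c1703_gt.H58.Spec

/-! Pi-convergence for closed sets at angle pi. -/

namespace Pool.Agent.MP_0c1703_gt.H58

open Set Filter Topology
open scoped NNReal ENNReal Real

namespace DynA

variable {X : Type} [MetricSpace X]

theorem bus_self (h : Core X) (u : Bd X) (o : X) : bus u o o = 0 := by
  have h1 := h.c3.lip u o o
  rw [dist_self] at h1
  exact abs_nonpos_iff.1 h1

theorem bus_swap (h : Core X) (u : Bd X) (x y : X) : bus u y x = -bus u x y := by
  have h1 := h.c3.add u x y x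
  rw [bus_self h] at h1
  linarith

/-- convexity of the Busemann function along a segment from the base point -/
theorem segconv (h : Core X) (u : Bd X) (o x : X) (T : ℝ) (hT : 0 ≤ T) (hD : T ≤ dist o x)
    (hp : 0 < dist o x) : bus u o (seg o x T) * dist o x ≤ T * bus u o x := by
  have hT' : T ∈ Icc 0 (dist o x) := ⟨hT, hD⟩
  have h1 : dist o (seg o x T) = T / dist o x * dist o x := by
    have h2 := h.c1.segd o x 0 ⟨le_rfl, hp.le⟩ T hT'
    rw [h.c1.seg0, zero_sub, abs_neg, abs_of_nonneg hT] at h2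
    rw [h2, div_mul_cancel₀ _ hp.ne']
  have h3 : dist (seg o x T) x = (1 - T / dist o x) * dist o x := by
    have h2 := h.c1.segd o x T hT' (dist o x) ⟨hp.le, le_rfl⟩
    rw [h.c1.seg1, abs_sub_comm, abs_of_nonneg (sub_nonneg.2 hD)] at h2
    rw [h2, sub_mul, div_mul_cancel₀ _ hp.ne', one_mul]
  have h4 := h.c3.conv u o o x (seg o x T) (T / dist o x) (div_nonneg hT hp.le)
    ((div_le_one hp).2 hD) h1 h3
  rw [bus_self h, mul_zero, zero_add] at h4
  have h5 := mul_le_mul_of_nonneg_right h4 hp.le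
  have h6 : T / dist o x * bus u o x * dist o x = T * bus u o x := by
    field_simp
  rwa [h6] at h5

theorem dist_iv (φ : X ≃ᵢ X) (o : X) : dist o (φ⁻¹ o) = dist o (φ o) := by
  rw [← φ.dist_eq o (φ⁻¹ o), dist_comm]
  congr 1
  exact φ.apply_symm_apply o

theorem tend_bus (h : Core X) {ι : Type} {l : Filter ι} (o : X) {w : ι → Bd X} {u : Bd X}
    {y : ι → X} {z : X} (hw : Tendsto w l (𝓝 u)) (hy : Tendsto y l (𝓝 z)) :
    Tendsto (fun i => bus (w i) o (y i)) l (𝓝 (bus u o z)) := by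
  have h1 : Tendsto (fun i => (w i, o, y i)) l (𝓝 (u, o, z)) :=
    hw.prodMk_nhds (tendsto_const_nhds.prodMk_nhds hy)
  have h2 := (h.c3.cont.tendsto (u, o, z)).comp h1
  simp only [Function.comp_def] at h2
  exact h2

theorem pc (h : Core X) {ι : Type} (U : Ultrafilter ι) (o : X) (φ : ι → X ≃ᵢ X) (ξ ζ η : Bd X)
    (w : ι → Bd X) (h1 : Conv U o (fun i => φ i o) ξ) (h2 : Conv U o (fun i => (φ i)⁻¹ o) ζ)
    (hw : Tendsto w U (𝓝 η)) (ha : ang η ζ = π) :
    Tendsto (fun i => act (φ i) (w i)) U (𝓝 ξ) := by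
  have := h.c2.cpt
  obtain ⟨σ, -, hσ⟩ := isCompact_univ.ultrafilter_le_nhds (U.map fun i => act (φ i) (w i))
    (by simp)
  have hσ' : Tendsto (fun i => act (φ i) (w i)) U (𝓝 σ) := hσ
  have key : ∀ ε : ℝ, 0 < ε → ∀ᶠ i in (U : Filter ι),
      bus (act (φ i) (w i)) o (φ i o) ≤ -(1 - ε) * dist o (φ i o) := by
    intro ε hε
    have h3 := h.c4.buslim o ζ η
    rw [h.c5.symm ζ η, ha, Real.cos_pi, neg_neg] at h3
    obtain ⟨S, hS1, hS0⟩ := ((h3.eventually (lt_mem_nhds (show 1 - ε < 1 by linarith))).and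
      (eventually_gt_atTop (0 : ℝ))).exists
    have hS2 : (1 - ε) * S < bus η o (rp o ζ S) := (lt_div_iff₀ hS0).1 hS1
    have h4 := (tend_bus h o hw (h2.2 S hS0.le)).eventually (lt_mem_nhds hS2)
    filter_upwards [h4, h2.1.eventually (eventually_ge_atTop S)] with i hi hD
    have hp : 0 < dist o ((φ i)⁻¹ o) := lt_of_lt_of_le hS0 hD
    have h5 := segconv h (w i) o ((φ i)⁻¹ o) S hS0.le hD hp
    have h6 := h.c3.equi (φ i) (w i) ((φ i)⁻¹ o) o
    have h7 : φ i ((φ i)⁻¹ o) = o := (φ i).apply_symm_apply o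
    rw [h7, bus_swap h (w i) o] at h6
    rw [h6, ← dist_iv]
    have h8 := mul_lt_mul_of_pos_right hi hp
    have h9 : S * ((1 - ε) * dist o ((φ i)⁻¹ o)) ≤ S * bus (w i) o ((φ i)⁻¹ o) := by
      nlinarith
    have h10 := le_of_mul_le_mul_left h9 hS0
    linarith
  have hb : ∀ T, 0 ≤ T → bus σ o (rp o ξ T) ≤ -T := by
    intro T hT
    have h3 : ∀ ε : ℝ, 0 < ε → bus σ o (rp o ξ T) ≤ -(1 - ε) * T := by
      intro ε hε
      refine le_of_tendsto (tend_bus h o hσ' (h1.2 T hT)) ?_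
      filter_upwards [key ε hε, h1.1.eventually (eventually_ge_atTop T),
        h1.1.eventually (eventually_gt_atTop 0)] with i hi hD hp
      have h5 := segconv h (act (φ i) (w i)) o (φ i o) T hT hD hp
      have h6 := mul_le_mul_of_nonneg_left hi hT
      refine le_of_mul_le_mul_right ?_ hp
      nlinarith
    refine le_of_forall_pos_le_add fun δ hδ => ?_
    have h4 := h3 (δ / (T + 1)) (by positivity)
    have h5 : δ / (T + 1) * T ≤ δ := by
      rw [div_mul_eq_mul_div, div_le_iff₀ (by positivity)]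
      nlinarith
    nlinarith
  have he : σ = ξ := by
    refine h.c2.rpinj o σ ξ fun T hT => ?_
    have h3 := h.c3.key σ o (rp o ξ T) T hT
    have h4 := h.c2.rpd o ξ 0 T le_rfl hT
    rw [h.c2.rp0, zero_sub, abs_neg, abs_of_nonneg hT] at h4
    rw [h4] at h3
    have h5 := mul_le_mul_of_nonneg_left (hb T hT) hT
    have h6 : dist (rp o ξ T) (rp o σ T) ^ 2 ≤ 0 := by nlinarith
    have h7 : dist (rp o ξ T) (rp o σ T) = 0 := by
      have h8 := sq_nonneg (dist (rp o ξ T) (rp o σ T))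
      exact pow_eq_zero_iff (two_ne_zero) |>.1 (le_antisymm h6 h8)
    exact (dist_eq_zero.1 h7).symm
  rwa [he] at hσ'

theorem push {G : Type} [Group G] (ρ : G →* X ≃ᵢ X) (h : Core X) {ι : Type} (U : Ultrafilter ι)
    (o : X) (g : ι → G) (ξ ζ : Bd X) (h1 : Conv U o (fun i => ρ (g i) o) ξ)
    (h2 : Conv U o (fun i => (ρ (g i))⁻¹ o) ζ) : Push ρ ζ ξ := by
  intro K hK hang P hP hξ
  have := h.c2.cpt
  by_contra hc
  push Not at hc
  choose w hwK hwP using fun i => hc (g i)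
  obtain ⟨η, hη, hl⟩ := hK.isCompact.ultrafilter_le_nhds (U.map w)
    (by
      rw [Ultrafilter.coe_map, le_principal_iff, mem_map]
      exact Eventually.of_forall hwK)
  have h3 := pc h U o (fun i => ρ (g i)) ξ ζ η w h1 h2 hl (hang η hη)
  obtain ⟨i, hi⟩ := (h3.eventually (hP.mem_nhds hξ)).exists
  exact hwP i hi

end DynA

open DynA in
theorem sDyn : SDyn := by
  intro X G _ _ _ ρ h hG
  have hU : ((Ultrafilter.of (atTop : Filter ℕ) : Ultrafilter ℕ) : Filter ℕ) ≤ atTop :=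
    Ultrafilter.of_le _
  refine ⟨fun ξ => ?_, fun g l τ a b hτ hl ha hb => ?_⟩
  · obtain ⟨K, hK, hc⟩ := hG.2
    obtain ⟨c, -⟩ := mk_surj ξ
    obtain ⟨D, hD⟩ := hK.isBounded.subset_closedBall (c.1 0)
    choose k hk using fun n : ℕ => hc (rp (c.1 0) ξ n)
    have h1 : Conv (Ultrafilter.of (atTop : Filter ℕ)) (c.1 0) (fun n => ρ (k n)⁻¹ (c.1 0)) ξ := by
      refine h.c2.near ℕ _ _ _ ξ (fun n => (n : ℝ)) D
        (tendsto_natCast_atTop_atTop.mono_left hU) (Eventually.of_forall fun n => ?_)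
      have h2 := Metric.mem_closedBall.1 (hD (hk n))
      rw [← (ρ (k n)).dist_eq, map_inv, dist_comm]
      have h3 : ρ (k n) ((ρ (k n))⁻¹ (c.1 0)) = c.1 0 := (ρ (k n)).apply_symm_apply _
      rw [h3]
      exact h2
    obtain ⟨ζ, hζ⟩ := h.c2.lim ℕ (Ultrafilter.of (atTop : Filter ℕ)) (c.1 0)
      (fun n => (ρ (k n)⁻¹)⁻¹ (c.1 0)) (by
        simp only [dist_iv]
        exact h1.1)
    exact ⟨ζ, push ρ h _ _ (fun n => (k n)⁻¹) ξ ζ h1 hζ⟩
  · have hp : ∀ (n : ℕ) (t : ℝ), ρ (g ^ n) (l t) = l (t + n * τ) := by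
      intro n
      induction n with
      | zero => intro t; simp
      | succ n ih =>
        intro t
        rw [pow_succ', map_mul, IsometryEquiv.mul_apply, ih, hl]
        congr 1
        push_cast
        ring
    have ht : Tendsto (fun n : ℕ => (n : ℝ) * τ) (Ultrafilter.of (atTop : Filter ℕ)) atTop :=
      (tendsto_natCast_atTop_atTop.atTop_mul_const hτ).mono_left hU
    refine push ρ h (Ultrafilter.of (atTop : Filter ℕ)) (l 0) (fun n => g ^ n) a b ?_ ?_
    · refine h.c2.near ℕ _ _ _ a (fun n => (n : ℝ) * τ) 0 ht (Eventually.of_forall fun n => ?_)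
      rw [h.c2.rpline a l ha 0 _ (by positivity), hp, dist_self]
    · refine h.c2.near ℕ _ _ _ b (fun n => (n : ℝ) * τ) 0 ht (Eventually.of_forall fun n => ?_)
      have h1 := h.c2.rpline b _ hb 0 ((n : ℝ) * τ) (by positivity)
      simp only [neg_zero, zero_add] at h1
      rw [h1, ← (ρ (g ^ n)).dist_eq, hp]
      have h3 : ρ (g ^ n) ((ρ (g ^ n))⁻¹ (l 0)) = l 0 := (ρ (g ^ n)).apply_symm_apply _
      rw [h3, neg_add_cancel, dist_self]

end Pool.Agent.MP_0c1703_gt.H58
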