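import Pool.Agent.MP_0c1703_gt.H58.Spec

/-! Charts onto separated spaces are constant along the fibres of a suspension. -/

namespace Pool.Agent.MP_0c1703_gt.H58

open Set Filter Topology
open scoped NNReal ENNReal Real

namespace FlatA

theorem of_homotopy {Y S : Type} [TopologicalSpace Y] [TopologicalSpace S] {f : Y → S} {U : Set Y}
    (G : Y × ℝ → S) (hG : ContinuousOn G (U ×ˢ Icc 0 1)) (h0 : ∀ y ∈ U, G (y, 0) = f y)
    (h1 : NullOn (fun y => G (y, 1)) U) : NullOn f U := by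
  obtain ⟨H, s₀, hH, e0, e1⟩ := h1
  refine ⟨fun w => if w.2 ≤ 1 / 2 then G (w.1, min (2 * w.2) 1) else H (w.1, max (2 * w.2 - 1) 0),
    s₀, ?_, fun y hy => ?_, fun y hy => ?_⟩
  · rw [continuousOn_iff_continuous_domRestrict]
    refine Continuous.if_le (f := fun w : ↥(U ×ˢ Icc (0 : ℝ) 1) => w.1.2) (g := fun _ => 1 / 2)
      (hG.comp_continuous (by fun_prop) fun w => ⟨w.2.1, ?_, min_le_right _ _⟩)
      (hH.comp_continuous (by fun_prop) fun w => ⟨w.2.1, le_max_right _ _, ?_⟩)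
      (by fun_prop) continuous_const fun w hw => ?_
    · exact le_min (by linarith [w.2.2.1]) zero_le_one
    · exact max_le (by linarith [w.2.2.2]) zero_le_one
    · rw [hw]
      norm_num
      exact (e0 _ w.2.1).symm
  · simpa using h0 y hy
  · norm_num
    exact e1 y hy

theorem slide {Z A : Type} [TopologicalSpace Z] [TopologicalSpace A] {O : Set Z} {α : Z → A}
    (hC : Chart O α) {z₁ : Z} (hz : z₁ ∈ O) (K : Z × ℝ → Z) {W : Set Z} (hW : W ∈ 𝓝 z₁)
    (hK : ContinuousOn K (W ×ˢ Icc 0 1)) (hm : ∀ z ∈ W, ∀ t ∈ Icc (0 : ℝ) 1, K (z, t) ∈ O)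
    (h0 : ∀ z ∈ W, K (z, 0) = z) : ∃ U', IsOpen U' ∧ α z₁ ∈ U' ∧ ∃ G : A × ℝ → A,
      ContinuousOn G (U' ×ˢ Icc 0 1) ∧ (∀ a ∈ U', G (a, 0) = a) ∧
        ∀ a ∈ U', ∃ z ∈ W, G (a, 1) = α (K (z, 1)) := by
  obtain ⟨U, σ, hU, hzU, hσ, e, hs⟩ := hC.sec z₁ hz
  obtain ⟨W', hW', ho, hzW⟩ := mem_nhds_iff.1 hW
  refine ⟨U ∩ σ ⁻¹' W', hσ.isOpen_inter_preimage hU ho, ⟨hzU, by rwa [mem_preimage, e]⟩,
    fun w => α (K (σ w.1, w.2)), ?_, fun a ha => ?_, fun a ha => ⟨σ a, hW' ha.2, rfl⟩⟩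
  · refine hC.cont.comp (hK.comp ?_ fun w hw => ⟨hW' hw.1.2, hw.2⟩) fun w hw =>
      hm _ (hW' hw.1.2) _ hw.2
    exact (hσ.comp continuousOn_fst fun w hw => hw.1.1).prodMk continuousOn_snd
  · simp only
    rw [h0 _ (hW' ha.2), (hs a ha.1).2]

theorem pole {Z V A : Type} [TopologicalSpace Z] [TopologicalSpace V] [CompactSpace V]
    [TopologicalSpace A] [Nontrivial A] {O : Set Z} {α : Z → A} (hS : Sep A) (hC : Chart O α)
    {q : V × ℝ → Z} (hq : Continuous q) {pr : Z → V} {th : Z → ℝ} (hth : Continuous th)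
    {P : Set Z} (hP : IsOpen P) (hpr : ContinuousOn pr P) (e : ∀ z, q (pr z, th z) = z) {c : Z}
    (hc : ∀ v, q (v, th c) = c) (hn : ∀ z, |th z - th c| < 1 → z = c ∨ z ∈ P) : c ∉ O := by
  intro hO
  have tube : ∀ N ∈ 𝓝 c, ∀ᶠ θ in 𝓝 (th c), ∀ v, q (v, θ) ∈ N := by
    intro N hN
    have := isCompact_univ.eventually_forall_of_forall_eventually (x₀ := th c)
      (P := fun θ v => q (v, θ) ∈ N) fun v _ =>
        (hq.comp continuous_swap).continuousAt (x := (th c, v)) (by simpa [hc v] using hN)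
    exact this.mono fun θ h v => h v trivial
  obtain ⟨ε, hε, hb⟩ := Metric.eventually_nhds_iff.1 (tube O (hC.op.mem_nhds hO))
  have hl : Continuous fun w : Z × ℝ => th c + (1 - w.2) * (th w.1 - th c) := by fun_prop
  obtain ⟨U', hU', hcU, G, hG, g0, g1⟩ := slide hC hO
    (fun w => q (pr w.1, th c + (1 - w.2) * (th w.1 - th c))) (W := {z | |th z - th c| < min ε 1})
    ((isOpen_lt (by fun_prop) continuous_const).mem_nhds (by simp [hε]))
    (fun w hw => ContinuousAt.continuousWithinAt (by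
      rcases hn w.1 (hw.1.trans_le (min_le_right _ _)) with h | h
      · intro N hN
        simp only [h, sub_self, mul_zero, add_zero, hc] at hN
        have h1 := hl.continuousAt (x := w)
        simp only [ContinuousAt, h, sub_self, mul_zero, add_zero] at h1
        exact (h1.eventually (tube N hN)).mono fun w' h' => h' _
      · exact hq.continuousAt.comp (((hpr.continuousAt (hP.mem_nhds h)).comp
          continuousAt_fst).prodMk hl.continuousAt)))
    (fun z hz t ht => hb (by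
      rw [Real.dist_eq, add_sub_cancel_left, abs_mul, abs_of_nonneg (sub_nonneg.2 ht.2)]
      have h1 : |th z - th c| < ε := hz.trans_le (min_le_left _ _)
      nlinarith [ht.1, abs_nonneg (th z - th c)]) _)
    (fun z _ => by simpa using e z)
  obtain ⟨a, ha⟩ := exists_ne (α c)
  refine ha (hS a (α c) fun U _ _ => ⟨U', hU', hcU, fun S _ f hf _ =>
    ⟨fun w => f (G w), f (α c), hf.comp_continuousOn hG, fun y hy => congrArg f (g0 y hy),
      fun y hy => ?_⟩⟩)
  obtain ⟨z, -, hz⟩ := g1 y hy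
  refine congrArg f (hz.trans ?_)
  simp [hc]

end FlatA

open FlatA in
theorem sFlat : SCoord → SFlat := by
  intro hCo Z V A _ _ _ _ _ _ _ n p q O α hq hS hC
  obtain ⟨-, -, pr, th, hth, hpr, e1, e2, e3, e4⟩ := hCo Z V n p q hq
  obtain ⟨v₀⟩ := ‹Nonempty V›
  have tn : th n = 0 := by rw [← hq.zero v₀, e1 v₀ 0 ⟨le_rfl, Real.pi_pos.le⟩]
  have tp : th p = π := by rw [← hq.pi v₀, e1 v₀ π ⟨Real.pi_pos.le, le_rfl⟩]
  have hP : IsOpen ({n, p}ᶜ : Set Z) := (toFinite _).isClosed.isOpen_compl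
  have p3 := Real.pi_gt_three
  refine ⟨pole hS hC hq.cont hth hP hpr (fun z => (e3 z).2) (by rw [tn]; exact hq.zero)
    fun z hz => ?_, pole hS hC hq.cont hth hP hpr (fun z => (e3 z).2) (by rw [tp]; exact hq.pi)
    fun z hz => ?_, fun v a b ha hab hb hO => hS _ _ fun U hU haU => ?_⟩
  · refine or_iff_not_imp_left.2 fun h => ?_
    rintro (h' | rfl)
    · exact h h'
    · rw [tn, tp, sub_zero, abs_of_pos Real.pi_pos] at hz
      linarith
  · refine or_iff_not_imp_left.2 fun h => ?_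
    rintro (rfl | h')
    · rw [tn, tp, zero_sub, abs_neg, abs_of_pos Real.pi_pos] at hz
      linarith
    · exact h h'
  have b1 : b ∈ Ioo 0 π := ⟨ha.trans_le hab, hb⟩
  have tb : th (q (v, b)) = b := e1 v b (Ioo_subset_Icc_self b1)
  have pb : pr (q (v, b)) = v := e2 v b b1
  have hz : q (v, b) ∈ ({n, p}ᶜ : Set Z) := (e4 _).2 (by rwa [tb])
  have hK : ∀ w : Z × ℝ, w.1 ∈ ({n, p}ᶜ : Set Z) →
      ContinuousAt (fun w : Z × ℝ => q (pr w.1, a + (1 - w.2) * (th w.1 - a))) w := fun w h =>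
    hq.cont.continuousAt.comp (((hpr.continuousAt (hP.mem_nhds h)).comp
      continuousAt_fst).prodMk (by fun_prop))
  have w1 := isCompact_Icc.eventually_forall_of_forall_eventually (x₀ := q (v, b))
    (P := fun z t => q (pr z, a + (1 - t) * (th z - a)) ∈ O) (K := Icc (0 : ℝ) 1) fun t ht =>
      (hK (q (v, b), t) hz).eventually (hC.op.mem_nhds (by
        simp only [tb, pb]
        exact hO _ ⟨by nlinarith [ht.2], by nlinarith [ht.1]⟩))
  have w2 : ∀ᶠ z in 𝓝 (q (v, b)), α (q (pr z, a)) ∈ U := by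
    have h1 : ContinuousAt (fun z => q (pr z, a)) (q (v, b)) :=
      hq.cont.continuousAt.comp ((hpr.continuousAt (hP.mem_nhds hz)).prodMk continuousAt_const)
    have h2 : ContinuousAt α (q (pr (q (v, b)), a)) := by
      rw [pb]
      exact hC.cont.continuousAt (hC.op.mem_nhds (hO a ⟨le_rfl, hab⟩))
    exact (ContinuousAt.comp (f := fun z => q (pr z, a)) h2 h1).eventually
      (hU.mem_nhds (by simpa [pb] using haU))
  obtain ⟨U', hU', hbU, G, hG, g0, g1⟩ := slide hC (hO b ⟨hab, le_rfl⟩)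
    (fun w => q (pr w.1, a + (1 - w.2) * (th w.1 - a))) (w1.and (w2.and (hP.mem_nhds hz)))
    (fun w hw => (hK w hw.1.2.2).continuousWithinAt) (fun z hz => hz.1)
    (fun z _ => by simpa using (e3 z).2)
  refine ⟨U', hU', hbU, fun S _ f hf ⟨H, s₀, hH, k0, k1⟩ => ?_⟩
  have gm : ∀ y ∈ U', G (y, 1) ∈ U := fun y hy => by
    obtain ⟨z, hz, ez⟩ := g1 y hy
    rw [ez]
    simpa using hz.2.1
  refine of_homotopy (fun w => f (G w)) (hf.comp_continuousOn hG) (fun y hy => congrArg f (g0 y hy))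
    ⟨fun w => H (G (w.1, 1), w.2), s₀, hH.comp ?_ fun w hw => ⟨gm _ hw.1, hw.2⟩,
      fun y hy => k0 _ (gm y hy), fun y hy => k1 _ (gm y hy)⟩
  exact (hG.comp (by fun_prop) fun w hw => ⟨hw.1, zero_le_one, le_rfl⟩).prodMk continuousOn_snd

end Pool.Agent.MP_0c1703_gt.H58
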