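import Pool.Agent.MP_0c1703_gt.H58.Spec

/-! Row GeoK: the kernel of a rational character acts geometrically on the cross section. -/

set_option autoImplicit false

namespace Pool.Agent.MP_0c1703_gt.H58

open Set

namespace GeoKA

theorem add_one {G : Type} [Group G] (ψ : G → ℝ) (h : ∀ g h, ψ (g * h) = ψ g + ψ h) :
    ψ 1 = 0 := by
  have := h 1 1
  rw [one_mul] at this
  linarith

theorem add_inv {G : Type} [Group G] (ψ : G → ℝ) (h : ∀ g h, ψ (g * h) = ψ g + ψ h) (g : G) :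
    ψ g⁻¹ = -ψ g := by
  have := h g⁻¹ g
  rw [inv_mul_cancel, add_one ψ h] at this
  linarith

theorem word {G : Type} [Group G] (ψ χ : G → ℝ) (hψ : ∀ g h, ψ (g * h) = ψ g + ψ h)
    (hχ : ∀ g h, χ (g * h) = χ g + χ h) (S : Set G) (N : ℕ)
    (h1 : ∀ s ∈ S, ∃ k : ℤ, ψ s = k / N) (h2 : ∀ s ∈ S, |ψ s - χ s| ≤ 1 / 2) (w : List G)
    (hw : ∀ s ∈ w, s ∈ S) :
    (∃ k : ℤ, ψ w.prod = k / N) ∧ |ψ w.prod - χ w.prod| ≤ (w.length : ℝ) / 2 := by
  induction w with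
  | nil => exact ⟨⟨0, by simp [add_one ψ hψ]⟩, by simp [add_one ψ hψ, add_one χ hχ]⟩
  | cons s w ih =>
    obtain ⟨⟨k, hk⟩, hb⟩ := ih fun t ht => hw t (List.mem_cons_of_mem _ ht)
    have hs := hw s List.mem_cons_self
    obtain ⟨k', hk'⟩ := h1 s hs
    refine ⟨⟨k' + k, ?_⟩, ?_⟩
    · rw [List.prod_cons, hψ, hk, hk']
      push_cast
      ring
    · rw [List.prod_cons, hψ, hχ, List.length_cons]
      push_cast
      have := h2 s hs
      rw [abs_le] at this hb ⊢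
      constructor <;> linarith [this.1, this.2, hb.1, hb.2]

theorem ivt (f : ℤ → ℝ) (L : ℝ) (hs : ∀ m, |f (m + 1) - f m| ≤ L) (M : ℕ) (h1 : f (-M) < 0)
    (h2 : 0 < f M) : ∃ m, |f m| ≤ L := by
  by_contra hc
  push Not at hc
  have hL : 0 ≤ L := (abs_nonneg _).trans (hs 0)
  have key : ∀ i : ℕ, f (-M + i) < -L := by
    intro i
    induction i with
    | zero =>
      have := hc (-M)
      rw [abs_of_neg h1] at this
      simp only [Nat.cast_zero, add_zero]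
      linarith
    | succ i ih =>
      have e : (-M + ((i + 1 : ℕ) : ℤ) : ℤ) = -M + i + 1 := by push_cast; ring
      rw [e]
      have h3 := (abs_le.1 (hs (-M + i))).2
      have h4 := hc (-M + i + 1)
      rw [abs_of_neg (by linarith)] at h4
      linarith
  have := key (2 * M)
  rw [show (-M + ((2 * M : ℕ) : ℤ) : ℤ) = M by push_cast; ring] at this
  linarith

theorem reps {G : Type} (ψ : G → ℝ) (d : G → ℝ) (N : ℕ) (hN : 0 < N)
    (h : ∀ g, ∃ k : ℤ, ψ g = k / N) (L : ℝ) :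
    ∃ R : ℝ, ∀ g, |ψ g| ≤ L → ∃ h, ψ h = ψ g ∧ d h ≤ R := by
  classical
  have hN' : (0 : ℝ) < N := by exact_mod_cast hN
  let f : ℤ → ℝ := fun k => if e : ∃ g, ψ g = k / N then d e.choose else 0
  obtain ⟨R, hR⟩ := ((Set.finite_Icc (-⌈L * N⌉) ⌈L * N⌉).image f).bddAbove
  refine ⟨R, fun g hg => ?_⟩
  obtain ⟨k, hk⟩ := h g
  have e : ∃ g, ψ g = k / N := ⟨g, hk⟩
  refine ⟨e.choose, e.choose_spec.trans hk.symm, ?_⟩
  have hb : |(k : ℝ)| ≤ L * N := by
    rw [hk, abs_div, abs_of_pos hN', div_le_iff₀ hN'] at hg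
    exact hg
  have hc := Int.le_ceil (L * N)
  have hm : k ∈ Icc (-⌈L * N⌉) ⌈L * N⌉ := by
    rw [abs_le] at hb
    constructor
    · have : ((-⌈L * N⌉ : ℤ) : ℝ) ≤ k := by push_cast; linarith [hb.1]
      exact_mod_cast this
    · have : (k : ℝ) ≤ ((⌈L * N⌉ : ℤ) : ℝ) := by linarith [hb.2]
      exact_mod_cast this
  have := hR (mem_image_of_mem f hm)
  simpa only [f, dif_pos e] using this

theorem tri3 {d a c : ℝ} (hd : 0 ≤ d) (ha : 0 ≤ a) (h : d ^ 2 = a ^ 2 + c ^ 2) :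
    d ≤ a + |c| ∧ a ≤ d ∧ |c| ≤ d := by
  have hc := abs_nonneg c
  have hc2 : |c| ^ 2 = c ^ 2 := sq_abs c
  refine ⟨?_, ?_, ?_⟩
  · exact abs_le_of_sq_le_sq' (by nlinarith) (by positivity) |>.2
  · exact abs_le_of_sq_le_sq' (by nlinarith) hd |>.2
  · exact abs_le_of_sq_le_sq' (by nlinarith) hd |>.2

end GeoKA

open GeoKA

theorem sGeoK : SWord → SRat → SGeoK := by
  intro hW hR X G X' _ _ _ _ _ _ ρ Φ ρ' χ hC hG hS
  obtain ⟨x0⟩ := ‹Nonempty X'›
  obtain ⟨D, hD, hcov, hfin, hword⟩ := hW X G ρ (Φ x0 0) hC hG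
  have T : ∀ x y s t, dist (Φ x s) (Φ y t) ≤ dist x y + |s - t| ∧
      dist x y ≤ dist (Φ x s) (Φ y t) ∧ |s - t| ≤ dist (Φ x s) (Φ y t) :=
    fun x y s t => tri3 dist_nonneg dist_nonneg (hS.pyth x y s t)
  have ho : ∀ g, ρ g (Φ x0 0) = Φ (ρ' g x0) (χ g) := fun g => by rw [hS.equi, zero_add]
  have hχ : ∀ g h, χ (g * h) = χ g + χ h := by
    intro g h
    have e : Φ (ρ' (g * h) x0) (χ (g * h)) = Φ (ρ' g (ρ' h x0)) (χ h + χ g) := by
      rw [← ho, map_mul, IsometryEquiv.mul_apply, ho, hS.equi]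
    have := (T (ρ' (g * h) x0) (ρ' g (ρ' h x0)) (χ (g * h)) (χ h + χ g)).2.2
    rw [e, dist_self, abs_nonpos_iff] at this
    linarith
  obtain ⟨ψ, N, hN, hψ, h1, h2⟩ := hR G χ _ (1 / 2) (by norm_num) (hfin (2 * D + 1)) hχ
  have hw : ∀ g, (∃ k : ℤ, ψ g = k / N) ∧
      |ψ g - χ g| ≤ (dist x0 (ρ' g x0) + |χ g| + 1) / 2 := by
    intro g
    obtain ⟨w, hw1, rfl, hw3⟩ := hword g
    obtain ⟨a, b⟩ := word ψ χ hψ hχ _ N h1 h2 w hw1
    refine ⟨a, b.trans ?_⟩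
    have := (T x0 (ρ' w.prod x0) 0 (χ w.prod)).1
    rw [← ho, zero_sub, abs_neg] at this
    linarith
  let K : Subgroup G :=
    { carrier := {g | ψ g = 0}
      mul_mem' := fun {a b} ha hb => by
        have ha' : ψ a = 0 := ha
        have hb' : ψ b = 0 := hb
        show ψ (a * b) = 0
        rw [hψ, ha', hb', add_zero]
      one_mem' := add_one ψ hψ
      inv_mem' := fun {a} ha => by
        have ha' : ψ a = 0 := ha
        show ψ a⁻¹ = 0
        rw [add_inv ψ hψ, ha', neg_zero] }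
  refine ⟨⟨K, inferInstance, ρ'.comp K.subtype, ?_, ?_⟩, D, fun z => ?_⟩
  · intro C hCc
    obtain ⟨R, hRC⟩ := hCc.isBounded.subset_closedBall x0
    refine ((hfin (4 * R + 1)).preimage Subtype.val_injective.injOn).subset ?_
    rintro ⟨g, hg⟩ ⟨_, ⟨y, hy, rfl⟩, hy'⟩
    have hg' : ψ g = 0 := hg
    have a1 : dist y x0 ≤ R := hRC hy
    have a2 : dist (ρ' g y) x0 ≤ R := hRC hy'
    have a3 : dist x0 (ρ' g x0) ≤ 2 * R := by
      have := dist_triangle x0 (ρ' g y) (ρ' g x0)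
      rw [(ρ' g).dist_eq, dist_comm x0 (ρ' g y)] at this
      linarith
    have a4 := (hw g).2
    rw [hg', zero_sub, abs_neg] at a4
    have a5 := (T x0 (ρ' g x0) 0 (χ g)).1
    rw [← ho, zero_sub, abs_neg] at a5
    show dist (Φ x0 0) (ρ g (Φ x0 0)) ≤ 4 * R + 1
    linarith
  · obtain ⟨R, hR'⟩ := reps ψ (fun h => dist x0 (ρ' h x0)) N hN (fun g => (hw g).1) (2 * D + 2)
    refine ⟨Metric.closedBall x0 (R + D), isCompact_closedBall _ _, fun x => ?_⟩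
    choose g hg using fun m : ℤ => hcov (Φ x m)
    have b1 : ∀ m, dist x (ρ' (g m) x0) ≤ D := fun m =>
      (T x (ρ' (g m) x0) m (χ (g m))).2.1.trans (by rw [← ho]; exact hg m)
    have b2 : ∀ m : ℤ, |(m : ℝ) - χ (g m)| ≤ D := fun m =>
      (T x (ρ' (g m) x0) m (χ (g m))).2.2.trans (by rw [← ho]; exact hg m)
    have b3 : ∀ m, |ψ (g (m + 1)) - ψ (g m)| ≤ 2 * D + 2 := by
      intro m
      have c1 : dist (Φ x0 0) (ρ ((g m)⁻¹ * g (m + 1)) (Φ x0 0)) ≤ 2 * D + 1 := by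
        rw [← (ρ (g m)).dist_eq, ← IsometryEquiv.mul_apply, ← map_mul, mul_inv_cancel_left]
        have c2 := dist_triangle4 (ρ (g m) (Φ x0 0)) (Φ x m) (Φ x ((m + 1 : ℤ) : ℝ))
          (ρ (g (m + 1)) (Φ x0 0))
        have c3 := (T x x m ((m + 1 : ℤ) : ℝ)).1
        have c4 : |(m : ℝ) - ((m + 1 : ℤ) : ℝ)| = 1 := by push_cast; simp
        rw [dist_self, c4] at c3
        have c5 := hg m
        rw [dist_comm] at c5
        linarith [hg (m + 1)]
      have c6 := h2 _ c1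
      have c7 := (T x0 (ρ' ((g m)⁻¹ * g (m + 1)) x0) 0 (χ ((g m)⁻¹ * g (m + 1)))).2.2
      rw [← ho, zero_sub, abs_neg] at c7
      have c8 : ψ ((g m)⁻¹ * g (m + 1)) = ψ (g (m + 1)) - ψ (g m) := by
        rw [hψ, add_inv ψ hψ]; ring
      rw [← c8]
      have c9 := abs_le.1 (c7.trans c1)
      rw [abs_le] at c6 ⊢
      constructor <;> linarith [c6.1, c6.2, c9.1, c9.2]
    have b4 : ∀ m, dist x0 (ρ' (g m) x0) ≤ dist x0 x + D := fun m =>
      (dist_triangle x0 x _).trans (by linarith [b1 m])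
    obtain ⟨M, hM⟩ := exists_nat_gt (dist x0 x + 2 * D + 1)
    have hx : 0 ≤ dist x0 x := dist_nonneg
    have b5 : ψ (g (-M)) < 0 := by
      have c1 := abs_le.1 (b2 (-M))
      have c2 := (abs_le.1 (hw (g (-M))).2).2
      push_cast at c1
      rw [abs_of_neg (by linarith [c1.1])] at c2
      linarith [b4 (-M), c1.1]
    have b6 : 0 < ψ (g M) := by
      have c1 := abs_le.1 (b2 M)
      have c2 := (abs_le.1 (hw (g M)).2).1
      push_cast at c1
      rw [abs_of_pos (by linarith [c1.2])] at c2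
      linarith [b4 M, c1.2]
    obtain ⟨m, hm⟩ := ivt (fun m => ψ (g m)) _ b3 M b5 b6
    obtain ⟨h, hh1, hh2⟩ := hR' (g m) hm
    refine ⟨⟨h * (g m)⁻¹, ?_⟩, ?_⟩
    · show ψ (h * (g m)⁻¹) = 0
      rw [hψ, add_inv ψ hψ, hh1, add_neg_cancel]
    · show dist (ρ' (h * (g m)⁻¹) x) x0 ≤ R + D
      have c1 : dist (ρ' (h * (g m)⁻¹) x) (ρ' h x0) = dist x (ρ' (g m) x0) := by
        rw [← (ρ' (h * (g m)⁻¹)).dist_eq x, ← IsometryEquiv.mul_apply, ← map_mul,
          inv_mul_cancel_right]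
      have c2 := dist_triangle (ρ' (h * (g m)⁻¹) x) (ρ' h x0) x0
      rw [c1, dist_comm (ρ' h x0)] at c2
      linarith [b1 m]
  · obtain ⟨g, hg⟩ := hcov z
    exact ⟨_, _, by rw [← ho]; exact hg⟩

end Pool.Agent.MP_0c1703_gt.H58
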