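import Pool.Agent.MP_0c1703_gt.H58.Spec

/-! A line along which a Busemann function is affine with slope in (-1, 1) bounds a flat half-plane. -/

namespace Pool.Agent.MP_0c1703_gt.H58

open Set Filter Topology
open scoped NNReal ENNReal Real

namespace HalfA

variable {X : Type} [MetricSpace X]

/-- an upper bound that is sharp at one point of a line is sharp everywhere -/
theorem force (h1 : C1 X) (m : ℝ → X) (hm : ∀ s t, dist (m s) (m t) = |s - t|) (p : X)
    (s₀ c k : ℝ) (h0 : dist p (m s₀) ^ 2 = c)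
    (hu : ∀ u, dist p (m (s₀ + u)) ^ 2 ≤ u ^ 2 + c + k * u) (u : ℝ) :
    dist p (m (s₀ + u)) ^ 2 = u ^ 2 + c + k * u := by
  have hd : dist (m (s₀ + -u)) (m (s₀ + u)) = 2 * |u| := by
    rw [hm, show s₀ + -u - (s₀ + u) = -(2 * u) by ring, abs_neg, abs_mul, abs_two]
  have ha : dist (m (s₀ + -u)) (m s₀) = 1 / 2 * dist (m (s₀ + -u)) (m (s₀ + u)) := by
    rw [hd, hm, show s₀ + -u - s₀ = -u by ring, abs_neg]; ring
  have hb : dist (m s₀) (m (s₀ + u)) = (1 - 1 / 2) * dist (m (s₀ + -u)) (m (s₀ + u)) := by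
    rw [hd, hm, show s₀ - (s₀ + u) = -u by ring, abs_neg]; ring
  have hc := h1.cn p _ _ _ (1 / 2) (by norm_num) (by norm_num) ha hb
  rw [hd, h0, mul_pow, sq_abs] at hc
  have h2 := hu u
  have h3 := hu (-u)
  nlinarith

theorem busl (h : Core X) (l : ℝ → X) (η : Bd X) (κ : ℝ)
    (hb : ∀ t, bus η (l 0) (l t) = -t * κ) (s t : ℝ) : bus η (l s) (l t) = -(t - s) * κ := by
  have h1 := h.c3.add η (l 0) (l s) (l t)
  rw [hb, hb] at h1
  linarith

theorem one (h : Core X) (l : ℝ → X) (hl : ∀ s t, dist (l s) (l t) = |s - t|) (η : Bd X) (κ : ℝ)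
    (hb : ∀ t, bus η (l 0) (l t) = -t * κ) (s r : ℝ) (hr : 0 ≤ r) (u : ℝ) :
    dist (rp (l s) η r) (l (s + u)) ^ 2 = u ^ 2 + r ^ 2 + -(2 * r * κ) * u := by
  refine force h.c1 l hl _ s _ _ ?_ ?_ u
  · have h1 := h.c2.rpd (l s) η r 0 hr le_rfl
    rw [h.c2.rp0, sub_zero] at h1
    rw [h1, sq_abs]
  · intro u
    have h1 := h.c3.key η (l s) (l (s + u)) r hr
    rw [busl h l η κ hb, hl, sq_abs, dist_comm] at h1
    nlinarith

theorem lower (h : Core X) (l : ℝ → X) (hl : ∀ s t, dist (l s) (l t) = |s - t|) (η : Bd X) (κ : ℝ)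
    (hκ : κ ^ 2 ≤ 1) (hb : ∀ t, bus η (l 0) (l t) = -t * κ) (s s' r : ℝ) (hr : 0 ≤ r) :
    s' - s ≤ dist (rp (l s) η r) (rp (l s') η r) := by
  by_contra hlt
  push Not at hlt
  set D := dist (rp (l s) η r) (rp (l s') η r) with hD
  set ε := (s' - s - D) / 2 with hε
  have hε0 : 0 < ε := by rw [hε]; linarith
  set H := r ^ 2 * (1 - κ ^ 2) with hH
  have hH0 : 0 ≤ H := mul_nonneg (sq_nonneg r) (by linarith)
  set A := H / (2 * ε) + 1 with hA
  have hA0 : 0 < A := by rw [hA]; positivity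
  have hAH : H ≤ 2 * A * ε := by
    have : 2 * A * ε = H + 2 * ε := by rw [hA]; field_simp
    linarith
  have e1 := one h l hl η κ hb s r hr (A + r * κ + (s' - s))
  have e2 := one h l hl η κ hb s' r hr (A + r * κ)
  rw [show s + (A + r * κ + (s' - s)) = s' + (A + r * κ) by ring] at e1
  have ht := dist_triangle (rp (l s) η r) (rp (l s') η r) (l (s' + (A + r * κ)))
  have hx : A + (s' - s) ≤ dist (rp (l s) η r) (l (s' + (A + r * κ))) := by
    refine abs_le_of_sq_le_sq' ?_ dist_nonneg |>.2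
    rw [e1]; nlinarith
  have hy : dist (rp (l s') η r) (l (s' + (A + r * κ))) ≤ A + ε := by
    refine abs_le_of_sq_le_sq' ?_ (by linarith) |>.2
    rw [e2]; nlinarith
  linarith

theorem iso (h : Core X) (l : ℝ → X) (hl : ∀ s t, dist (l s) (l t) = |s - t|) (η : Bd X) (κ : ℝ)
    (hκ : κ ^ 2 ≤ 1) (hb : ∀ t, bus η (l 0) (l t) = -t * κ) (r : ℝ) (hr : 0 ≤ r) (s s' : ℝ) :
    dist (rp (l s) η r) (rp (l s') η r) = |s - s'| := by
  refine le_antisymm ((h.c2.rplip _ _ η r).trans (hl s s').le) ?_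
  rcases le_total s s' with hs | hs
  · rw [abs_sub_comm, abs_of_nonneg (by linarith)]
    exact lower h l hl η κ hκ hb s s' r hr
  · rw [abs_of_nonneg (by linarith), dist_comm]
    exact lower h l hl η κ hκ hb s' s r hr

theorem two (h : Core X) (l : ℝ → X) (hl : ∀ s t, dist (l s) (l t) = |s - t|) (η : Bd X) (κ : ℝ)
    (hκ : κ ^ 2 ≤ 1) (hb : ∀ t, bus η (l 0) (l t) = -t * κ) (s' r r' : ℝ) (hr : 0 ≤ r)
    (hr' : 0 ≤ r') (u : ℝ) :
    dist (rp (l s') η r') (rp (l (s' + u)) η r) ^ 2 =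
      u ^ 2 + (r' - r) ^ 2 + (2 * (r - r') * κ) * u := by
  refine force h.c1 (fun s => rp (l s) η r) (iso h l hl η κ hκ hb r hr) _ s' _ _ ?_ ?_ u
  · rw [h.c2.rpd (l s') η r' r hr' hr, sq_abs]
  · intro u
    have h1 := h.c3.key η (l s') (rp (l (s' + u)) η r) r' hr'
    have h2 := one h l hl η κ hb (s' + u) r hr (-u)
    rw [show s' + u + -u = s' by ring, dist_comm] at h2
    rw [h.c3.add η (l s') (l (s' + u)), busl h l η κ hb, h.c3.self η _ r hr, h2, dist_comm] at h1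
    nlinarith

end HalfA

theorem sHalf : SHalf := by
  intro X _ l η α h hl h0 hπ hb
  have hl' : ∀ s t, dist (l s) (l t) = |s - t| := fun s t => by rw [hl.dist_eq, Real.dist_eq]
  have hσ : 0 < Real.sin α := Real.sin_pos_of_pos_of_lt_pi h0 hπ
  have hc : Real.cos α ^ 2 = 1 - Real.sin α ^ 2 := Real.cos_sq' α
  have hκ : Real.cos α ^ 2 ≤ 1 := Real.cos_sq_le_one α
  refine ⟨fun t a => rp (l (t - a * Real.cos α / Real.sin α)) η (a / Real.sin α), ?_, ?_⟩
  · intro t
    simp only [NNReal.coe_zero, zero_mul, zero_div, sub_zero]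
    exact h.c2.rp0 _ _
  · intro s t a b
    have h1 := HalfA.two h l hl' η _ hκ hb (s - a * Real.cos α / Real.sin α) (b / Real.sin α)
      (a / Real.sin α) (div_nonneg b.2 hσ.le) (div_nonneg a.2 hσ.le)
      (t - b * Real.cos α / Real.sin α - (s - a * Real.cos α / Real.sin α))
    rw [add_sub_cancel] at h1
    rw [h1]
    field_simp
    linear_combination (-((a : ℝ) - b) ^ 2) * hc

end Pool.Agent.MP_0c1703_gt.H58
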