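import Pool.Agent.MP_0c1703_gt.H58.Spec

/-! Row Lit: coordinates on the literal join and on the literal suspension. -/

namespace Pool.Agent.MP_0c1703_gt.H58

open Set Filter Topology
open scoped Real

namespace LitA

theorem hp : (0 : ℝ) ≤ π / 2 := by positivity

noncomputable def jj (A B : Type) (x : A × B × ℝ) : Join A B :=
  Quot.mk _ (x.1, x.2.1, projIcc 0 (π / 2) hp (π / 2 * x.2.2))

theorem val {s : ℝ} (hs : s ∈ Icc (0 : ℝ) 1) :
    (projIcc 0 (π / 2) hp (π / 2 * s) : ℝ) = π / 2 * s := by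
  rw [projIcc_of_mem hp ⟨mul_nonneg hp hs.1, by nlinarith [hs.2, hp]⟩]

def rel {A B : Type} (x y : A × B × Icc (0 : ℝ) (π / 2)) : Prop :=
  x.2.2 = y.2.2 ∧ ((x.2.2 : ℝ) < π / 2 → x.1 = y.1) ∧ (0 < (x.2.2 : ℝ) → x.2.1 = y.2.1)

theorem rel_of_eq {A B : Type} {x y : A × B × Icc (0 : ℝ) (π / 2)}
    (h : (Quot.mk _ x : Join A B) = Quot.mk _ y) : rel x y := by
  have h' := Quot.eqvGen_exact h
  clear h
  induction h' with
  | rel x y h =>
    obtain ⟨h1, ⟨h2, h3⟩ | ⟨h2, h3⟩⟩ := h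
    · exact ⟨h1, fun _ => h3, fun h => absurd h2 h.ne'⟩
    · exact ⟨h1, fun h => absurd h2 h.ne, fun _ => h3⟩
  | refl x => exact ⟨rfl, fun _ => rfl, fun _ => rfl⟩
  | symm x y _ ih =>
    exact ⟨ih.1.symm, fun h => (ih.2.1 (by rw [ih.1]; exact h)).symm,
      fun h => (ih.2.2 (by rw [ih.1]; exact h)).symm⟩
  | trans x y z _ _ ih ih' =>
    exact ⟨ih.1.trans ih'.1, fun h => (ih.2.1 h).trans (ih'.2.1 (by rw [← ih.1]; exact h)),
      fun h => (ih.2.2 h).trans (ih'.2.2 (by rw [← ih.1]; exact h))⟩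

theorem joinS (A B : Type) [TopologicalSpace A] [TopologicalSpace B] :
    JoinS (Join A B) A B (jj A B) where
  cont := by
    refine continuous_quot_mk.comp (continuous_fst.prodMk (continuous_snd.fst.prodMk ?_))
    exact continuous_projIcc.comp (continuous_const.mul continuous_snd.snd)
  zero a b b' := by
    refine Quot.sound ⟨rfl, Or.inl ⟨?_, rfl⟩⟩
    show (projIcc 0 (π / 2) hp (π / 2 * 0) : ℝ) = 0
    rw [val ⟨le_rfl, zero_le_one⟩, mul_zero]
  one a a' b := by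
    refine Quot.sound ⟨rfl, Or.inr ⟨?_, rfl⟩⟩
    show (projIcc 0 (π / 2) hp (π / 2 * 1) : ℝ) = π / 2
    rw [val ⟨zero_le_one, le_rfl⟩, mul_one]
  inj a b s a' b' s' hs hs' h := by
    obtain ⟨h1, h2, h3⟩ := rel_of_eq h
    have hpi : (0 : ℝ) < π / 2 := by positivity
    have h4 : (projIcc 0 (π / 2) hp (π / 2 * s) : ℝ) = projIcc 0 (π / 2) hp (π / 2 * s') :=
      congrArg Subtype.val h1
    rw [val hs, val hs'] at h4
    refine ⟨mul_left_cancel₀ hpi.ne' h4, fun h => h2 ?_, fun h => h3 ?_⟩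
    · show (projIcc 0 (π / 2) hp (π / 2 * s) : ℝ) < π / 2
      rw [val hs]; nlinarith
    · show 0 < (projIcc 0 (π / 2) hp (π / 2 * s) : ℝ)
      rw [val hs]; positivity
  surj y := by
    obtain ⟨⟨a, b, r, hr⟩, rfl⟩ := Quot.exists_rep y
    have hpi : (0 : ℝ) < π / 2 := by positivity
    refine ⟨a, b, r / (π / 2), ⟨div_nonneg hr.1 hp, (div_le_one hpi).2 hr.2⟩, ?_⟩
    unfold jj
    simp only
    rw [mul_div_cancel₀ _ hpi.ne', projIcc_of_mem hp hr]

noncomputable def qq {Z Y : Type} (j : Bool × Y × ℝ → Z) (x : Y × ℝ) : Z :=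
  if x.2 ≤ π / 2 then j (true, x.1, 2 * x.2 / π) else j (false, x.1, 2 - 2 * x.2 / π)

theorem m1 {θ : ℝ} (h0 : 0 ≤ θ) (h : θ ≤ π / 2) : 2 * θ / π ∈ Icc (0 : ℝ) 1 :=
  ⟨by have := Real.pi_pos; positivity, (div_le_one Real.pi_pos).2 (by linarith)⟩

theorem m2 {θ : ℝ} (h : ¬ θ ≤ π / 2) (h1 : θ ≤ π) :
    2 - 2 * θ / π ∈ Icc (0 : ℝ) 1 ∧ 2 - 2 * θ / π < 1 := by
  have h2 : 1 < 2 * θ / π := (one_lt_div Real.pi_pos).2 (by linarith [not_le.1 h])
  have h3 : 2 * θ / π ≤ 2 := (div_le_iff₀ Real.pi_pos).2 (by linarith)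
  exact ⟨⟨by linarith, by linarith⟩, by linarith⟩

theorem inj2 {θ θ' : ℝ} (h : 2 * θ / π = 2 * θ' / π) : θ = θ' := by
  have := Real.pi_pos
  field_simp at h
  linarith

theorem susp {Z Y : Type} [TopologicalSpace Z] [TopologicalSpace Y] {j : Bool × Y × ℝ → Z}
    (hj : JoinS Z Bool Y j) (y₀ : Y) :
    Susp Z Y (j (true, y₀, 0)) (j (false, y₀, 0)) (qq j) where
  cont := by
    refine Continuous.if_le (hj.cont.comp (by fun_prop)) (hj.cont.comp (by fun_prop))
      continuous_snd continuous_const ?_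
    intro x hx
    have := Real.pi_pos
    have h1 : 2 * x.2 / π = 1 := by rw [hx]; field_simp
    rw [h1, show (2 : ℝ) - 1 = 1 by norm_num]
    exact hj.one _ _ _
  zero v := by
    unfold qq
    rw [if_pos hp]
    simp only [mul_zero, zero_div]
    exact hj.zero _ _ _
  pi v := by
    have := Real.pi_pos
    unfold qq
    rw [if_neg (by simp only; linarith)]
    have h1 : 2 - 2 * π / π = 0 := by field_simp; ring
    simp only [h1]
    exact hj.zero _ _ _
  ne h := by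
    have := (hj.inj _ _ _ _ _ _ ⟨le_rfl, zero_le_one⟩ ⟨le_rfl, zero_le_one⟩ h).2.1 zero_lt_one
    simp at this
  inj v θ v' θ' hθ hθ' h := by
    have hpi := Real.pi_pos
    unfold qq at h
    simp only at h
    split_ifs at h with h1 h2 h2
    · obtain ⟨e1, -, e3⟩ := hj.inj _ _ _ _ _ _ (m1 hθ.1.le h1) (m1 hθ'.1 h2) h
      exact ⟨e3 (by have := hθ.1; positivity), inj2 e1⟩
    · obtain ⟨e1, e2, -⟩ := hj.inj _ _ _ _ _ _ (m1 hθ.1.le h1) (m2 h2 hθ'.2).1 h
      have := e2 (by rw [e1]; exact (m2 h2 hθ'.2).2)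
      simp at this
    · obtain ⟨-, e2, -⟩ := hj.inj _ _ _ _ _ _ (m2 h1 hθ.2.le).1 (m1 hθ'.1 h2) h
      have := e2 (m2 h1 hθ.2.le).2
      simp at this
    · obtain ⟨e1, -, e3⟩ := hj.inj _ _ _ _ _ _ (m2 h1 hθ.2.le).1 (m2 h2 hθ'.2).1 h
      have h3 : 2 * θ / π < 2 := (div_lt_iff₀ hpi).2 (by linarith [hθ.2])
      exact ⟨e3 (by linarith), inj2 (by linarith)⟩
  surj z := by
    have hpi := Real.pi_pos
    obtain ⟨a, b, s, hs, rfl⟩ := hj.surj z
    rcases hs.1.eq_or_lt with h0 | h0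
    · subst h0
      cases a
      · exact Or.inr (Or.inl (hj.zero _ _ _))
      · exact Or.inl (hj.zero _ _ _)
    have key : ∃ θ ∈ Ioo 0 π, qq j (b, θ) = j (true, b, s) := by
      refine ⟨π / 2 * s, ⟨by positivity, by nlinarith [hs.2]⟩, ?_⟩
      unfold qq
      rw [if_pos (by simp only; nlinarith [hs.2])]
      have h1 : 2 * (π / 2 * s) / π = s := by field_simp
      simp only [h1]
    refine Or.inr (Or.inr ⟨b, ?_⟩)
    cases a
    · rcases hs.2.eq_or_lt with h1 | h1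
      · subst h1
        rw [hj.one false true b]
        exact key
      · refine ⟨π - π / 2 * s, ⟨by nlinarith, by nlinarith⟩, ?_⟩
        unfold qq
        rw [if_neg (by simp only; nlinarith)]
        have h2 : 2 - 2 * (π - π / 2 * s) / π = s := by field_simp; ring
        simp only [h2]
    · exact key

end LitA

theorem sLit : SLit :=
  ⟨fun Y _ h => h.elim fun y₀ => ⟨_, _, _, LitA.susp (LitA.joinS Bool Y) y₀⟩,
    fun A B _ _ => ⟨_, LitA.joinS A B⟩⟩

end Pool.Agent.MP_0c1703_gt.H58
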