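import Pool.Agent.MP_0c1703_gt.H58.Spec

/-! Midpoints for the angle metric. -/

namespace Pool.Agent.MP_0c1703_gt.H58

open Set Filter Topology
open scoped NNReal ENNReal Real

namespace MidA

variable {X : Type} [MetricSpace X]

/-- One comparison in the triangle with vertices `o`, `rp o u T` and `m`. -/
theorem step (h1 : C1 X) (h2 : C2 X) (o m : X) (u : Bd X) {k T t : ℝ} (ht : 0 ≤ t) (hT : 0 < T)
    (htT : t ≤ T) (hm : 0 < dist o m) (htm : t ≤ dist o m)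
    (ha : dist (rp o u T) m ^ 2 ≤ T ^ 2 * (1 - k ^ 2)) :
    dist (rp o u t) (seg o m t) ^ 2 ≤ 2 * t ^ 2 * (1 - k) := by
  have e0 : ∀ s, 0 ≤ s → dist o (rp o u s) = s := fun s hs => by
    have := h2.rpd o u 0 s le_rfl hs
    rwa [h2.rp0, zero_sub, abs_neg, abs_of_nonneg hs] at this
  have e1 : dist (rp o u t) (rp o u T) = T - t := by
    rw [h2.rpd o u t T ht hT.le, abs_sub_comm, abs_of_nonneg (sub_nonneg.2 htT)]
  have e2 : dist o (seg o m t) = t := by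
    have := h1.segd o m 0 ⟨le_rfl, hm.le⟩ t ⟨ht, htm⟩
    rwa [h1.seg0, zero_sub, abs_neg, abs_of_nonneg ht] at this
  have e3 : dist (seg o m t) m = dist o m - t := by
    have := h1.segd o m t ⟨ht, htm⟩ (dist o m) ⟨hm.le, le_rfl⟩
    rwa [h1.seg1, abs_sub_comm, abs_of_nonneg (sub_nonneg.2 htm)] at this
  have h := h1.cmp o (rp o u T) m (rp o u t) (seg o m t) (t / T) (t / dist o m)
    (div_nonneg ht hT.le) ((div_le_one hT).2 htT) (div_nonneg ht hm.le) ((div_le_one hm).2 htm)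
    (by rw [e0 t ht, e0 T hT.le]; field_simp) (by rw [e1, e0 T hT.le]; field_simp)
    (by rw [e2]; field_simp) (by rw [e3]; field_simp)
  rw [e0 t ht, e0 T hT.le, e2] at h
  have h3 : 2 * k * (T * dist o m) ≤ T ^ 2 + dist o m ^ 2 - dist (rp o u T) m ^ 2 := by
    nlinarith [sq_nonneg (k * T - dist o m)]
  have h4 := mul_le_mul_of_nonneg_left h3
    (mul_nonneg (div_nonneg ht hT.le) (div_nonneg ht hm.le))
  have h5 : t / T * (t / dist o m) * (2 * k * (T * dist o m)) = 2 * k * t ^ 2 := by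
    field_simp
  rw [h5] at h4
  linarith

theorem far (h2 : C2 X) (o m : X) (u : Bd X) {k T : ℝ} (hk : k ^ 2 ≤ 1) (hT : 0 ≤ T)
    (ha : dist (rp o u T) m ^ 2 ≤ T ^ 2 * (1 - k ^ 2)) : k ^ 2 / 2 * T ≤ dist o m := by
  have e0 : dist o (rp o u T) = T := by
    have := h2.rpd o u 0 T le_rfl hT
    rwa [h2.rp0, zero_sub, abs_neg, abs_of_nonneg hT] at this
  have h3 : dist (rp o u T) m ≤ T * (1 - k ^ 2 / 2) := by
    refine le_of_sq_le_sq ?_ (mul_nonneg hT (by linarith))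
    nlinarith [sq_nonneg (T * k ^ 2)]
  have h4 := dist_triangle_right o (rp o u T) m
  linarith

theorem far_top (h2 : C2 X) (o : X) (m : ℝ → X) (u : Bd X) {k : ℝ} (hk : k ^ 2 ≤ 1) (hk0 : 0 < k)
    (ha : ∀ T, 0 ≤ T → dist (rp o u T) (m T) ^ 2 ≤ T ^ 2 * (1 - k ^ 2)) :
    Tendsto (fun T => dist o (m T)) atTop atTop :=
  tendsto_atTop_mono' _ ((eventually_ge_atTop 0).mono fun T hT => far h2 o (m T) u hk hT (ha T hT))
    (tendsto_id.const_mul_atTop (by positivity))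

/-- The limit point is close to `u`. -/
theorem half (h1 : C1 X) (h2 : C2 X) (h5 : C5 X) (o : X) (m : ℝ → X) (u w : Bd X) {θ : ℝ}
    (h0 : 0 ≤ θ) (hπ : θ ≤ π) {l : Filter ℝ} [l.NeBot] (hl : l ≤ atTop) (hw : Conv l o m w)
    (ha : ∀ T, 0 ≤ T → dist (rp o u T) (m T) ^ 2 ≤ T ^ 2 * (1 - Real.cos θ ^ 2)) :
    ang u w ≤ θ := by
  refine (h5.iff o u w θ h0 hπ).2 fun t ht => ?_
  refine le_of_tendsto ((tendsto_const_nhds.dist (hw.2 t ht)).pow 2) ?_
  filter_upwards [hl (eventually_gt_atTop t), hw.1.eventually (eventually_gt_atTop t)] with T a b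
  exact step h1 h2 o (m T) u ht (ht.trans_lt a) (le_of_lt a) (ht.trans_lt b) b.le
    (ha T (ht.trans (le_of_lt a)))

end MidA

open MidA in
theorem sMid : SMid := by
  intro X _ h1 h2 h4 h5 u v huv
  have o : X := (Quot.out u).1 0
  have h0 : 0 ≤ ang u v / 2 := by linarith [h4.nn u v]
  have hk0 : 0 < Real.cos (ang u v / 2) :=
    Real.cos_pos_of_mem_Ioo ⟨by linarith [Real.pi_pos], by linarith⟩
  have hc : Real.cos (ang u v) = 2 * Real.cos (ang u v / 2) ^ 2 - 1 := by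
    rw [← Real.cos_two_mul]; congr 1; ring
  obtain ⟨m, hm⟩ : ∃ m : ℝ → X, ∀ T, m T =
    seg (rp o u T) (rp o v T) (dist (rp o u T) (rp o v T) / 2) := ⟨_, fun _ => rfl⟩
  have hd : ∀ T, 0 ≤ T → (dist (rp o u T) (rp o v T) / 2) ^ 2 ≤
      T ^ 2 * (1 - Real.cos (ang u v / 2) ^ 2) := fun T hT => by
    have := h4.cmp o u v T T hT hT
    rw [hc] at this
    nlinarith
  have hmem : ∀ T, dist (rp o u T) (rp o v T) / 2 ∈ Icc 0 (dist (rp o u T) (rp o v T)) :=
    fun T => ⟨by positivity, half_le_self dist_nonneg⟩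
  have hu : ∀ T, 0 ≤ T → dist (rp o u T) (m T) ^ 2 ≤
      T ^ 2 * (1 - Real.cos (ang u v / 2) ^ 2) := fun T hT => by
    have := h1.segd (rp o u T) (rp o v T) 0 ⟨le_rfl, dist_nonneg⟩ _ (hmem T)
    rw [h1.seg0, zero_sub, abs_neg, abs_of_nonneg (hmem T).1] at this
    rw [hm, this]
    exact hd T hT
  have hv : ∀ T, 0 ≤ T → dist (rp o v T) (m T) ^ 2 ≤
      T ^ 2 * (1 - Real.cos (ang u v / 2) ^ 2) := fun T hT => by
    have := h1.segd (rp o u T) (rp o v T) _ ⟨dist_nonneg, le_rfl⟩ _ (hmem T)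
    rw [h1.seg1, sub_half, abs_of_nonneg (hmem T).1] at this
    rw [hm, this]
    exact hd T hT
  have hl : (Ultrafilter.of (atTop : Filter ℝ) : Filter ℝ) ≤ atTop := Ultrafilter.of_le _
  obtain ⟨w, hw⟩ := h2.lim ℝ (Ultrafilter.of atTop) o m
    ((far_top h2 o m u (Real.cos_sq_le_one _) hk0 hu).mono_left hl)
  have hπ : ang u v / 2 ≤ π := by linarith [Real.pi_pos]
  exact ⟨w, half h1 h2 h5 o m u w h0 hπ hl hw hu,
    h5.symm v w ▸ half h1 h2 h5 o m v w h0 hπ hl hw hv⟩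

end Pool.Agent.MP_0c1703_gt.H58
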