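import Pool.Agent.MP_0c1703_gt.H58.Spec

/-! Row Onto: every boundary point of a space coarsely filled by a product with a line
has polar coordinates. -/

namespace Pool.Agent.MP_0c1703_gt.H58

open Set Filter Topology
open scoped NNReal ENNReal Real

namespace OntoA

variable {X X' : Type} [MetricSpace X] [MetricSpace X']

theorem dle (Φ : X' → ℝ → X)
    (h : ∀ x y s t, dist (Φ x s) (Φ y t) ^ 2 = dist x y ^ 2 + (s - t) ^ 2) (x y : X') (s t : ℝ) :
    dist (Φ x s) (Φ y t) ≤ dist x y + |s - t| := by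
  have h1 := h x y s t
  have h2 : 0 ≤ dist x y := dist_nonneg
  have h3 : 0 ≤ |s - t| := abs_nonneg _
  refine (pow_le_pow_iff_left₀ dist_nonneg (by positivity) two_ne_zero).1 ?_
  rw [h1, ← sq_abs (s - t)]
  nlinarith [mul_nonneg h2 h3]

theorem tend {ι : Type} (l : Filter ι) (Φ : X' → ℝ → X)
    (h : ∀ x y s t, dist (Φ x s) (Φ y t) ^ 2 = dist x y ^ 2 + (s - t) ^ 2)
    (x : ι → X') (s : ι → ℝ) (y : X') (t : ℝ) (hx : Tendsto x l (𝓝 y)) (hs : Tendsto s l (𝓝 t)) :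
    Tendsto (fun i => Φ (x i) (s i)) l (𝓝 (Φ y t)) := by
  rw [tendsto_iff_dist_tendsto_zero]
  have h1 : Tendsto (fun i => dist (x i) y) l (𝓝 0) := tendsto_iff_dist_tendsto_zero.1 hx
  have h2 : Tendsto (fun i => |s i - t|) l (𝓝 0) := by
    have := (hs.sub_const t).abs
    simpa using this
  have h3 := h1.add h2
  rw [add_zero] at h3
  exact squeeze_zero (fun _ => dist_nonneg) (fun i => dle Φ h _ _ _ _) h3

theorem seg_left (h : C1 X) (x y : X) (T : ℝ) (h0 : 0 ≤ T) (h1 : T ≤ dist x y) :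
    dist x (seg x y T) = T := by
  have := h.segd x y 0 ⟨le_rfl, dist_nonneg⟩ T ⟨h0, h1⟩
  rw [h.seg0] at this
  rw [this, zero_sub, abs_neg, abs_of_nonneg h0]

theorem seg_right (h : C1 X) (x y : X) (T : ℝ) (h0 : 0 ≤ T) (h1 : T ≤ dist x y) :
    dist (seg x y T) y = dist x y - T := by
  have := h.segd x y T ⟨h0, h1⟩ (dist x y) ⟨dist_nonneg, le_rfl⟩
  rw [h.seg1] at this
  rw [this, abs_sub_comm, abs_of_nonneg (by linarith)]

theorem seg_eq (hX : C1 X) (hX' : C1 X') (Φ : X' → ℝ → X)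
    (h : ∀ x y s t, dist (Φ x s) (Φ y t) ^ 2 = dist x y ^ 2 + (s - t) ^ 2)
    (x₀ x : X') (t c : ℝ) (h0 : 0 ≤ c) (h1 : c ≤ 1) :
    seg (Φ x₀ 0) (Φ x t) (c * dist (Φ x₀ 0) (Φ x t)) =
      Φ (seg x₀ x (c * dist x₀ x)) (c * t) := by
  have hd : 0 ≤ dist (Φ x₀ 0) (Φ x t) := dist_nonneg
  have ha : 0 ≤ dist x₀ x := dist_nonneg
  have e := h x₀ x 0 t
  have a0 : 0 ≤ c * dist x₀ x := mul_nonneg h0 ha
  have a1 : c * dist x₀ x ≤ dist x₀ x := by nlinarith
  have d0 : 0 ≤ c * dist (Φ x₀ 0) (Φ x t) := mul_nonneg h0 hd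
  have d1 : c * dist (Φ x₀ 0) (Φ x t) ≤ dist (Φ x₀ 0) (Φ x t) := by nlinarith
  have e1 : dist (Φ x₀ 0) (Φ (seg x₀ x (c * dist x₀ x)) (c * t)) = c * dist (Φ x₀ 0) (Φ x t) := by
    refine (pow_left_inj₀ dist_nonneg d0 two_ne_zero).1 ?_
    rw [h, seg_left hX' x₀ x _ a0 a1, mul_pow c (dist (Φ x₀ 0) (Φ x t)), e]
    ring
  have e2 : dist (Φ (seg x₀ x (c * dist x₀ x)) (c * t)) (Φ x t) =
      (1 - c) * dist (Φ x₀ 0) (Φ x t) := by
    refine (pow_left_inj₀ dist_nonneg (mul_nonneg (by linarith) hd) two_ne_zero).1 ?_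
    rw [h, seg_right hX' x₀ x _ a0 a1, mul_pow (1 - c) (dist (Φ x₀ 0) (Φ x t)), e]
    ring
  have e3 := hX.conv (Φ x₀ 0) (Φ x t) _ (Φ x₀ 0) (Φ x t) _ c h0 h1
    (seg_left hX _ _ _ d0 d1) (by rw [seg_right hX _ _ _ d0 d1]; ring) e1 e2
  rw [dist_self, dist_self, mul_zero, mul_zero, add_zero] at e3
  exact dist_le_zero.1 e3

end OntoA

open OntoA in
theorem sOnto : SOnto := by
  intro X X' _ _ _ Φ x₀ D hX hX' h hD u
  choose x t hxt using fun k : ℕ => hD (rp (Φ x₀ 0) u k)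
  have hconv : Conv atTop (Φ x₀ 0) (fun k => Φ (x k) (t k)) u :=
    hX.c2.near ℕ atTop _ _ u (fun k => (k : ℝ)) D tendsto_natCast_atTop_atTop
      (Eventually.of_forall fun k => by rw [dist_comm]; exact hxt k)
  obtain ⟨hd, hseg⟩ := hconv
  set d : ℕ → ℝ := fun k => dist (Φ x₀ 0) (Φ (x k) (t k)) with hdd
  set a : ℕ → ℝ := fun k => dist x₀ (x k) with haa
  have hda : ∀ k, d k ^ 2 = a k ^ 2 + t k ^ 2 := fun k => by
    have := h x₀ (x k) 0 (t k)
    simp only [hdd, haa]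
    rw [this]; ring
  have hd0 : ∀ k, 0 ≤ d k := fun k => dist_nonneg
  have ha0 : ∀ k, 0 ≤ a k := fun k => dist_nonneg
  set U : Ultrafilter ℕ := Ultrafilter.of atTop with hU
  have hUle : (U : Filter ℕ) ≤ atTop := Ultrafilter.of_le _
  have hmem : ∀ k, t k / d k ∈ Icc (-1 : ℝ) 1 := fun k => by
    have h1 : |t k| ≤ d k := by
      refine (pow_le_pow_iff_left₀ (abs_nonneg _) (hd0 k) two_ne_zero).1 ?_
      rw [sq_abs, hda]; nlinarith [sq_nonneg (a k)]
    have h2 : |t k / d k| ≤ 1 := by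
      rw [abs_div, abs_of_nonneg (hd0 k)]
      exact div_le_one_of_le₀ h1 (hd0 k)
    exact abs_le.1 h2
  obtain ⟨c, hc, hcl⟩ := isCompact_Icc.ultrafilter_le_nhds (U.map fun k => t k / d k)
    (by
      rw [le_principal_iff]
      exact mem_map.2 (Eventually.of_forall hmem))
  have hct : Tendsto (fun k => t k / d k) U (𝓝 c) := hcl
  have hdU : Tendsto d U atTop := hd.mono_left hUle
  have hpos : ∀ᶠ k in (U : Filter ℕ), 0 < d k := hdU.eventually_gt_atTop 0
  have hst : Tendsto (fun k => a k / d k) U (𝓝 (Real.sqrt (1 - c ^ 2))) := by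
    have h1 : Tendsto (fun k => Real.sqrt (1 - (t k / d k) ^ 2)) U (𝓝 (Real.sqrt (1 - c ^ 2))) :=
      ((hct.pow 2).const_sub 1).sqrt
    refine h1.congr' (hpos.mono fun k hk => ?_)
    have h2 : 1 - (t k / d k) ^ 2 = (a k / d k) ^ 2 := by
      have := hda k
      field_simp
      linarith
    simp only
    rw [h2, Real.sqrt_sq (div_nonneg (ha0 k) (hd0 k))]
  have hkey : ∀ T, 0 ≤ T → Tendsto
      (fun k => Φ (seg x₀ (x k) (T * (a k / d k))) (T * (t k / d k))) U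
      (𝓝 (rp (Φ x₀ 0) u T)) := by
    intro T hT
    refine ((hseg T hT).mono_left hUle).congr' ?_
    filter_upwards [hpos, hdU.eventually_ge_atTop T] with k hk hk'
    have h1 := seg_eq hX.c1 hX'.c1 Φ h x₀ (x k) (t k) (T / d k) (div_nonneg hT hk.le)
      (div_le_one_of_le₀ hk' hk.le)
    have h2 : T / d k * d k = T := div_mul_cancel₀ T hk.ne'
    have h3 : T / d k * a k = T * (a k / d k) := by ring
    have h4 : T / d k * t k = T * (t k / d k) := by ring
    change seg _ _ (T / d k * d k) = Φ (seg _ _ (T / d k * a k)) _ at h1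
    rw [h2, h3, h4] at h1
    exact h1
  have hin : ∀ T, 0 ≤ T → ∀ᶠ k in (U : Filter ℕ), T * (a k / d k) ∈ Icc 0 (a k) := by
    intro T hT
    filter_upwards [hpos, hdU.eventually_ge_atTop T] with k hk hk'
    refine ⟨mul_nonneg hT (div_nonneg (ha0 k) hk.le), ?_⟩
    have h3 : T * (a k / d k) = T / d k * a k := by ring
    rw [h3]
    have h4 : T / d k ≤ 1 := div_le_one_of_le₀ hk' hk.le
    nlinarith [ha0 k]
  by_cases hs : Real.sqrt (1 - c ^ 2) = 0
  · have hT : ∀ T, 0 ≤ T → rp (Φ x₀ 0) u T = Φ x₀ (T * c) := by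
      intro T hT
      refine tendsto_nhds_unique (hkey T hT) (tend _ Φ h _ _ _ _ ?_ (hct.const_mul T))
      rw [tendsto_iff_dist_tendsto_zero]
      have h1 := hst.const_mul T
      rw [hs, mul_zero] at h1
      refine h1.congr' ((hin T hT).mono fun k hk => ?_)
      simp only
      rw [dist_comm, seg_left hX'.c1 _ _ _ hk.1 hk.2]
    have h1 : 1 - c ^ 2 ≤ 0 := Real.sqrt_eq_zero'.1 hs
    have h2 : c = 1 ∨ c = -1 := by
      have h3 : (c - 1) * (c + 1) = 0 := by nlinarith [hc.1, hc.2]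
      rcases mul_eq_zero.1 h3 with h4 | h4
      · left; linarith
      · right; linarith
    rcases h2 with h2 | h2
    · left
      intro T hT0
      rw [hT T hT0, h2, mul_one]
    · right; left
      intro T hT0
      rw [hT T hT0, h2, mul_neg, mul_one]
  · have hs0 : 0 < Real.sqrt (1 - c ^ 2) := lt_of_le_of_ne (Real.sqrt_nonneg _) (Ne.symm hs)
    have h1 : 0 < 1 - c ^ 2 := Real.sqrt_pos.1 hs0
    have haU : Tendsto a U atTop := by
      refine (hst.pos_mul_atTop hs0 hdU).congr' (hpos.mono fun k hk => ?_)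
      exact div_mul_cancel₀ _ hk.ne'
    obtain ⟨v, -, hv⟩ := hX'.c2.lim ℕ U x₀ x haU
    right; right
    refine ⟨v, Real.arccos c, ⟨Real.arccos_pos.2 (by nlinarith), ?_⟩, fun T hT => ?_⟩
    · refine lt_of_le_of_ne (Real.arccos_le_pi c) fun h2 => ?_
      have h3 := Real.arccos_eq_pi.1 h2
      nlinarith
    · rw [Real.sin_arccos, Real.cos_arccos hc.1 hc.2]
      refine tendsto_nhds_unique (hkey T hT) (tend _ Φ h _ _ _ _ ?_ (hct.const_mul T))
      have h2 := hv _ (mul_nonneg hT hs0.le)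
      refine h2.congr_dist ?_
      have h3 : Tendsto (fun k => |T * Real.sqrt (1 - c ^ 2) - T * (a k / d k)|) U (𝓝 0) := by
        have := ((hst.const_mul T).const_sub (T * Real.sqrt (1 - c ^ 2))).abs
        simpa using this
      refine h3.congr' ?_
      filter_upwards [hin T hT, haU.eventually_ge_atTop (T * Real.sqrt (1 - c ^ 2))] with k hk hk'
      exact (hX'.c1.segd x₀ (x k) _ ⟨mul_nonneg hT hs0.le, hk'⟩ _ hk).symm

end Pool.Agent.MP_0c1703_gt.H58

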