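import Pool.Agent.MP_0c1703_gt.H58.Spec
import Pool.Agent.MP_6aeaf9_an.H53.Miranda

/-! The crossing lemma in the lens and the order of disjoint arcs. -/

namespace Pool.Agent.MP_0c1703_gt.H58

open Set Filter Topology
open scoped Real

namespace OrdA

variable {L L' : ℝ → ℝ × ℝ}

theorem cases_Icc {t : ℝ} (ht : t ∈ Icc 0 π) : t = 0 ∨ t = π ∨ t ∈ Ioo 0 π := by
  rcases ht.1.eq_or_lt with h | h
  · exact Or.inl h.symm
  rcases ht.2.eq_or_lt with h' | h'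
  · exact Or.inr (Or.inl h')
  · exact Or.inr (Or.inr ⟨h, h'⟩)

theorem arc_lens (hL : Arc L) {t : ℝ} (ht : t ∈ Icc 0 π) : L t ∈ Lens := by
  rcases cases_Icc ht with rfl | rfl | h
  · rw [hL.zero]; exact ⟨le_rfl, Real.pi_pos.le, le_rfl, by simp⟩
  · rw [hL.pi]; exact ⟨Real.pi_pos.le, le_rfl, le_rfl, by simp⟩
  · exact (hL.mem t h).1

theorem height (hL : Arc L) {w : ℝ × ℝ} (hw : w ∈ Lens \ L '' Icc 0 π) : w.2 ∈ Ioo 0 π := by
  obtain ⟨⟨h1, h2, h3, h4⟩, hn⟩ := hw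
  refine ⟨lt_of_le_of_ne h1 fun h => hn ⟨0, ⟨le_rfl, Real.pi_pos.le⟩, ?_⟩,
    lt_of_le_of_ne h2 fun h => hn ⟨π, ⟨Real.pi_pos.le, le_rfl⟩, ?_⟩⟩
  · rw [hL.zero]
    rw [← h, Real.sin_zero] at h4
    exact Prod.ext (le_antisymm h3 h4) h
  · rw [hL.pi]
    rw [h, Real.sin_pi] at h4
    exact Prod.ext (le_antisymm h3 h4) h.symm

theorem cross (hL : Arc L) {y y' : ℝ} :
    ¬ JoinedIn (Lens \ L '' Icc 0 π) (0, y) (Real.sin y', y') := by
  rintro ⟨γ, hγ⟩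
  have hm : ∀ t, γ.extend t ∈ Lens \ L '' Icc 0 π := fun t => hγ _
  have hc : Continuous γ.extend := γ.continuous_extend
  have hLc := hL.cont
  obtain ⟨t, -, u, hu, h1, h2⟩ := Pool.Agent.MP_6aeaf9_an.H53.miranda
    (w1 := fun z => (L z.2).1 * Real.sin (γ.extend z.1).2 - (γ.extend z.1).1 * Real.sin (L z.2).2)
    (w2 := fun z => (L z.2).2 - (γ.extend z.1).2) (by fun_prop) (by fun_prop)
    (x0 := 0) (x1 := 1) (y0 := 0) (y1 := π) zero_le_one Real.pi_pos.le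
    (fun u hu => by
      have h := height hL (hm 0)
      have h' := (arc_lens hL hu).2.2.1
      have hs := Real.sin_nonneg_of_nonneg_of_le_pi h.1.le h.2.le
      simp only [Path.extend_zero] at hs ⊢
      simpa using mul_nonneg h' hs)
    (fun u hu => by
      have h := height hL (hm 1)
      have h' := (arc_lens hL hu).2.2.2
      have hs := Real.sin_nonneg_of_nonneg_of_le_pi h.1.le h.2.le
      simp only [Path.extend_one] at hs ⊢
      nlinarith [mul_le_mul_of_nonneg_right h' hs])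
    (fun t _ => by
      have h := height hL (hm t)
      simp only [hL.zero]
      linarith [h.1])
    (fun t _ => by
      have h := height hL (hm t)
      simp only [hL.pi]
      linarith [h.2])
  have h := height hL (hm t)
  have hs := Real.sin_pos_of_pos_of_lt_pi h.1 h.2
  have e2 : (L u).2 = (γ.extend t).2 := sub_eq_zero.mp h2
  have e1 : (L u).1 = (γ.extend t).1 := by
    simp only [e2] at h1
    exact mul_right_cancel₀ hs.ne' (sub_eq_zero.mp h1)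
  exact (hm t).2 ⟨u, hu, Prod.ext e1 e2⟩

theorem disj (hL : Arc L) : Disjoint (LeftOf L) (RightOf L) := by
  rw [Set.disjoint_left]
  rintro w hw ⟨y', h'⟩
  rcases hw with hw | ⟨y, h⟩
  · exact h'.target_mem.2 hw
  · exact cross hL (h.trans h'.symm)

theorem off (hL : Arc L) (hL' : Arc L') (hd : Disjoint (L '' Ioo 0 π) (L' '' Ioo 0 π)) {t : ℝ}
    (ht : t ∈ Ioo 0 π) : L t ∈ Lens \ L' '' Icc 0 π := by
  refine ⟨(hL.mem t ht).1, ?_⟩
  rintro ⟨s, hs, e⟩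
  have h := (hL.mem t ht).2
  rcases cases_Icc hs with rfl | rfl | h'
  · rw [← e, hL'.zero] at h; exact lt_irrefl _ h.1
  · rw [← e, hL'.pi] at h; exact lt_irrefl _ h.2
  · exact Set.disjoint_left.mp hd ⟨t, ht, rfl⟩ ⟨s, h', e⟩

theorem along (hL : Arc L) (hL' : Arc L') (hd : Disjoint (L '' Ioo 0 π) (L' '' Ioo 0 π))
    {s t : ℝ} (hs : s ∈ Ioo 0 π) (ht : t ∈ Ioo 0 π) :
    JoinedIn (Lens \ L' '' Icc 0 π) (L s) (L t) := by
  have hp : IsPathConnected (L '' Ioo 0 π) :=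
    ((convex_Ioo (0 : ℝ) π).isPathConnected ⟨s, hs⟩).image hL.cont
  refine (hp.joinedIn _ ⟨s, hs, rfl⟩ _ ⟨t, ht, rfl⟩).mono ?_
  rintro _ ⟨r, hr, rfl⟩
  exact off hL hL' hd hr

theorem mid_mem (hL : Arc L) {s x : ℝ} (hs : s ∈ Icc 0 π) (e : L s = (x, π / 2)) :
    s ∈ Ioo 0 π ∧ 0 ≤ x ∧ x ≤ 1 := by
  have hp := Real.pi_pos
  have h := arc_lens hL hs
  rw [e] at h
  refine ⟨?_, h.2.2.1, by simpa using h.2.2.2⟩
  rcases cases_Icc hs with rfl | rfl | h'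
  · rw [hL.zero] at e; have := congrArg Prod.snd e; simp only at this; linarith
  · rw [hL.pi] at e; have := congrArg Prod.snd e; simp only at this; linarith
  · exact h'

theorem hor {F : Set (ℝ × ℝ)} {a b : ℝ} (h : ∀ x ∈ uIcc a b, (x, π / 2) ∈ F) :
    JoinedIn F (a, π / 2) (b, π / 2) := by
  have hp : IsPathConnected ((fun x : ℝ => (x, π / 2)) '' uIcc a b) :=
    ((convex_uIcc a b).isPathConnected ⟨a, left_mem_uIcc⟩).image (by fun_prop)
  refine (hp.joinedIn _ ⟨a, left_mem_uIcc, rfl⟩ _ ⟨b, right_mem_uIcc, rfl⟩).mono ?_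
  rintro _ ⟨r, hr, rfl⟩
  exact h r hr

theorem lens_mid {x : ℝ} (h0 : 0 ≤ x) (h1 : x ≤ 1) : (x, π / 2) ∈ Lens := by
  have hp := Real.pi_pos
  exact ⟨by simp only; linarith, by simp only; linarith, h0, by simpa using h1⟩

theorem left (hL : Arc L) (hL' : Arc L') (hd : Disjoint (L '' Ioo 0 π) (L' '' Ioo 0 π)) {x : ℝ}
    (hx : (x, π / 2) ∈ L '' Icc 0 π) (hm : ∀ z, (z, π / 2) ∈ L' '' Icc 0 π → x ≤ z) {t : ℝ}
    (ht : t ∈ Ioo 0 π) : JoinedIn (Lens \ L' '' Icc 0 π) (0, π / 2) (L t) := by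
  obtain ⟨s, hs, e⟩ := hx
  obtain ⟨hs', h0, h1⟩ := mid_mem hL hs e
  refine JoinedIn.trans ?_ (along hL hL' hd hs' ht)
  rw [e]
  refine hor fun z hz => ?_
  rw [uIcc_of_le h0] at hz
  refine ⟨lens_mid hz.1 (hz.2.trans h1), fun h => ?_⟩
  have : z = x := le_antisymm hz.2 (hm z h)
  rw [this, ← e] at h
  exact (off hL hL' hd hs').2 h

theorem right (hL : Arc L) (hL' : Arc L') (hd : Disjoint (L '' Ioo 0 π) (L' '' Ioo 0 π)) {x : ℝ}
    (hx : (x, π / 2) ∈ L '' Icc 0 π) (hm : ∀ z, (z, π / 2) ∈ L' '' Icc 0 π → z ≤ x) :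
    L '' Ioo 0 π ⊆ RightOf L' := by
  rintro _ ⟨t, ht, rfl⟩
  obtain ⟨s, hs, e⟩ := hx
  obtain ⟨hs', h0, h1⟩ := mid_mem hL hs e
  refine ⟨π / 2, JoinedIn.trans ?_ (along hL hL' hd hs' ht)⟩
  rw [e, Real.sin_pi_div_two]
  refine hor fun z hz => ?_
  rw [uIcc_of_ge h1] at hz
  refine ⟨lens_mid (h0.trans hz.1) hz.2, fun h => ?_⟩
  have : z = x := le_antisymm (hm z h) hz.1
  rw [this, ← e] at h
  exact (off hL hL' hd hs').2 h

theorem order (hL : Arc L) (hL' : Arc L') (hd : Disjoint (L '' Ioo 0 π) (L' '' Ioo 0 π))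
    {x₀ x₁ : ℝ} (h0 : (x₀, π / 2) ∈ L '' Icc 0 π)
    (h1 : (x₁, π / 2) ∈ L '' Icc 0 π ∪ L' '' Icc 0 π)
    (hm : ∀ z, (z, π / 2) ∈ L '' Icc 0 π ∪ L' '' Icc 0 π → x₀ ≤ z ∧ z ≤ x₁) :
    LeftOf L ⊆ LeftOf L' ∧ L' '' Ioo 0 π ⊆ RightOf L := by
  have hp := Real.pi_pos
  have hl : ∀ t ∈ Ioo 0 π, L t ∈ LeftOf L' := fun t ht =>
    Or.inr ⟨π / 2, left hL hL' hd h0 (fun z hz => (hm z (Or.inr hz)).1) ht⟩
  have hr : L' '' Ioo 0 π ⊆ RightOf L := by
    rcases h1 with h1 | h1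
    · have ht : π / 2 ∈ Ioo 0 π := ⟨by linarith, by linarith⟩
      exact absurd (right hL hL' hd h1 (fun z hz => (hm z (Or.inr hz)).2) ⟨_, ht, rfl⟩)
        (Set.disjoint_left.mp (disj hL') (hl _ ht))
    · exact right hL' hL hd.symm h1 fun z hz => (hm z (Or.inl hz)).2
  refine ⟨?_, hr⟩
  rintro w (⟨t, ht, rfl⟩ | ⟨y, h⟩)
  · rcases cases_Icc ht with rfl | rfl | h'
    · exact Or.inl ⟨0, ht, by rw [hL.zero, hL'.zero]⟩
    · exact Or.inl ⟨π, ht, by rw [hL.pi, hL'.pi]⟩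
    · exact hl t h'
  · refine Or.inr ⟨y, ?_⟩
    have hpc := isPathConnected_pathComponentIn h.source_mem
    refine (hpc.joinedIn _ (mem_pathComponentIn_self h.source_mem) _ h).mono ?_
    intro v hv
    have hv' : JoinedIn (Lens \ L '' Icc 0 π) (0, y) v := hv
    refine ⟨hv'.target_mem.1, ?_⟩
    rintro ⟨s, hs, rfl⟩
    have hh := height hL hv'.target_mem
    rcases cases_Icc hs with rfl | rfl | h'
    · rw [hL'.zero] at hh; exact lt_irrefl _ hh.1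
    · rw [hL'.pi] at hh; exact lt_irrefl _ hh.2
    · exact Set.disjoint_left.mp (disj hL) (Or.inr ⟨y, hv'⟩) (hr ⟨s, h', rfl⟩)

end OrdA

open OrdA in
theorem sOrd : SOrd := by
  refine ⟨fun L hL => disj hL, fun L L' hL hL' hd => ?_⟩
  have hp := Real.pi_pos
  have hK : IsCompact (L '' Icc 0 π ∪ L' '' Icc 0 π) :=
    (isCompact_Icc.image hL.cont).union (isCompact_Icc.image hL'.cont)
  have hC : IsCompact ((L '' Icc 0 π ∪ L' '' Icc 0 π) ∩ {w | w.2 = π / 2}) :=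
    hK.inter_right (isClosed_eq continuous_snd continuous_const)
  have hne : ((L '' Icc 0 π ∪ L' '' Icc 0 π) ∩ {w | w.2 = π / 2}).Nonempty := by
    have hc : ContinuousOn (fun t => (L t).2) (Icc 0 π) :=
      (continuous_snd.comp hL.cont).continuousOn
    obtain ⟨t, ht, e⟩ := intermediate_value_Icc hp.le hc
      (show π / 2 ∈ Icc (L 0).2 (L π).2 by
        rw [hL.zero, hL.pi]; exact ⟨by simp only; linarith, by simp only; linarith⟩)
    exact ⟨L t, Or.inl ⟨t, ht, rfl⟩, e⟩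
  obtain ⟨⟨x₀, y₀⟩, ⟨h0, e0⟩, m0⟩ := hC.exists_isMinOn hne continuous_fst.continuousOn
  obtain ⟨⟨x₁, y₁⟩, ⟨h1, e1⟩, m1⟩ := hC.exists_isMaxOn hne continuous_fst.continuousOn
  obtain rfl : y₀ = π / 2 := e0
  obtain rfl : y₁ = π / 2 := e1
  have hm : ∀ z, (z, π / 2) ∈ L '' Icc 0 π ∪ L' '' Icc 0 π → x₀ ≤ z ∧ z ≤ x₁ := fun z hz =>
    ⟨m0 (show (z, π / 2) ∈ _ from ⟨hz, rfl⟩), m1 (show (z, π / 2) ∈ _ from ⟨hz, rfl⟩)⟩
  rcases h0 with h0 | h0
  · exact Or.inl (order hL hL' hd h0 h1 hm)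
  · exact Or.inr (order hL' hL hd.symm h0 h1.symm fun z hz => hm z hz.symm)

end Pool.Agent.MP_0c1703_gt.H58
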