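import Pool.Agent.MP_0c1703_gt.H58.Spec

/-! Row Par: lines towards a fixed point at infinity exist and are parallel. -/

namespace Pool.Agent.MP_0c1703_gt.H58

open Set Filter Topology
open scoped NNReal ENNReal Real

namespace ParA

variable {X G : Type} [MetricSpace X] [Group G]

theorem rp_act (ρ : G →* X ≃ᵢ X) (n : Bd X) (h2 : C2 X) (hn : ∀ g, act (ρ g) n = n)
    (g : G) (x : X) (t : ℝ) : rp (ρ g x) n t = ρ g (rp x n t) := by
  have h := h2.rpact (ρ g) x n t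
  rwa [hn g] at h

theorem exists_line [ProperSpace X] (ρ : G →* X ≃ᵢ X) (n : Bd X) (h2 : C2 X)
    (hG : Geometric ρ) (hn : ∀ g, act (ρ g) n = n) : ∃ l, Line n l := by
  obtain ⟨-, K, hK, hcov⟩ := hG
  obtain ⟨c, -⟩ := mk_surj n
  have o : X := c.1 0
  choose g hg using fun k : ℕ => hcov (rp o n k)
  obtain ⟨R, hR⟩ := hK.isBounded.subset_closedBall o
  let p : ℕ → ℝ → X := fun k t => ρ (g k) (rp o n (k + t))
  let U : Ultrafilter ℕ := hyperfilter ℕ
  have hU : (U : Filter ℕ) ≤ atTop := Nat.hyperfilter_le_atTop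
  have hev : ∀ t : ℝ, ∀ᶠ k : ℕ in (U : Filter ℕ), 0 ≤ (k : ℝ) + t := by
    intro t
    refine hU ?_
    have : ∀ᶠ k : ℕ in atTop, -t ≤ (k : ℝ) :=
      tendsto_natCast_atTop_atTop.eventually (eventually_ge_atTop (-t))
    filter_upwards [this] with k hk
    linarith
  have hd : ∀ s t : ℝ, ∀ᶠ k : ℕ in (U : Filter ℕ), dist (p k s) (p k t) = |s - t| := by
    intro s t
    filter_upwards [hev s, hev t] with k hs ht
    simp only [p]
    rw [(ρ (g k)).dist_eq, h2.rpd o n _ _ hs ht]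
    congr 1
    ring
  have hlim : ∀ t : ℝ, ∃ z, Tendsto (fun k => p k t) (U : Filter ℕ) (𝓝 z) := by
    intro t
    have hc : IsCompact (Metric.closedBall o (R + |t|)) := isCompact_closedBall _ _
    have hmem : Metric.closedBall o (R + |t|) ∈ U.map (fun k => p k t) := by
      rw [Ultrafilter.mem_map]
      change ∀ᶠ k : ℕ in (U : Filter ℕ), p k t ∈ Metric.closedBall o (R + |t|)
      filter_upwards [hd t 0] with k hk
      have h0 : p k 0 ∈ Metric.closedBall o R := by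
        simp only [p, add_zero]
        exact hR (hg k)
      rw [Metric.mem_closedBall] at h0 ⊢
      rw [sub_zero] at hk
      linarith [dist_triangle (p k t) (p k 0) o]
    obtain ⟨z, -, hz⟩ := hc.ultrafilter_le_nhds' _ hmem
    exact ⟨z, hz⟩
  choose l hl using hlim
  refine ⟨l, Isometry.of_dist_eq fun s t => ?_, ray (l 0) n, fun t => ?_, h2.rayu _ _⟩
  · have h1 := (hl s).dist (hl t)
    have h3 : Tendsto (fun k => dist (p k s) (p k t)) (U : Filter ℕ) (𝓝 |s - t|) :=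
      tendsto_const_nhds.congr' ((hd s t).mono fun k hk => hk.symm)
    rw [tendsto_nhds_unique h1 h3, Real.dist_eq]
  · have e : (ray (l 0) n).1 t = rp (l 0) n t := by
      simp only [rp, Real.toNNReal_coe]
    rw [e]
    have hc : Continuous fun x : X => rp x n (t : ℝ) :=
      h2.cont.comp (continuous_id.prodMk (continuous_const (y := (n, (t : ℝ)))))
    have h1 : Tendsto (fun k => rp (p k 0) n t) (U : Filter ℕ) (𝓝 (rp (l 0) n t)) :=
      (hc.tendsto _).comp (hl 0)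
    have h3 : (fun k => rp (p k 0) n t) = fun k => p k t := by
      funext k
      simp only [p, add_zero]
      rw [rp_act ρ n h2 hn, h2.rpadd o n _ _ (Nat.cast_nonneg k) t.coe_nonneg]
    rw [h3] at h1
    exact tendsto_nhds_unique h1 (hl t)

theorem fin_ball [ProperSpace X] (ρ : G →* X ≃ᵢ X) (hG : Geometric ρ) (x y : X) (R : ℝ) :
    {g : G | dist x (ρ g y) ≤ R}.Finite := by
  refine (hG.1 (Metric.closedBall x (max R (dist x y))) (isCompact_closedBall _ _)).subset ?_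
  intro g hg
  refine ⟨ρ g y, ⟨y, ?_, rfl⟩, ?_⟩
  · rw [Metric.mem_closedBall, dist_comm]
    exact le_max_right _ _
  · rw [Metric.mem_closedBall, dist_comm]
    exact le_trans hg (le_max_left _ _)

/-- one half of the recurrence -/
theorem push (ρ : G →* X ≃ᵢ X) (n : Bd X) (h2 : C2 X) (hn : ∀ g, act (ρ g) n = n)
    (l : ℝ → X) (hl : Line n l) (a s t ε : ℝ) (ht : 0 ≤ t) (u v : G)
    (h : dist (ρ u (l (a - s))) (ρ v (l (a - t))) < ε) :
    dist (l (a + (t - s))) (ρ (u⁻¹ * v) (l a)) < ε := by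
  have h1 := h2.rplip (ρ u (l (a - s))) (ρ v (l (a - t))) n t
  rw [rp_act ρ n h2 hn, rp_act ρ n h2 hn, h2.rpline n l hl _ _ ht, h2.rpline n l hl _ _ ht] at h1
  have e1 : a - s + t = a + (t - s) := by ring
  have e2 : a - t + t = a := by ring
  rw [e1, e2] at h1
  have e3 : ρ v (l a) = ρ u (ρ (u⁻¹ * v) (l a)) := by
    rw [← IsometryEquiv.mul_apply, ← map_mul, mul_inv_cancel_left]
  rw [e3, (ρ u).dist_eq] at h1
  exact lt_of_le_of_lt h1 h

theorem recur (ρ : G →* X ≃ᵢ X) (n : Bd X) (h2 : C2 X) (hG : Geometric ρ)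
    (hn : ∀ g, act (ρ g) n = n) (l₁ l₂ : ℝ → X) (h₁ : Line n l₁) (h₂ : Line n l₂)
    (a T ε : ℝ) (hT : 0 < T) (hε : 0 < ε) :
    ∃ (t : ℝ) (A B : G), T ≤ t ∧ dist (l₁ (a + t)) (ρ A (l₁ a)) < ε ∧
      dist (l₂ (a + t)) (ρ B (l₂ a)) < ε := by
  obtain ⟨-, K, hK, hcov⟩ := hG
  choose u hu using fun k : ℕ => hcov (l₁ (a - k * T))
  choose v hv using fun k : ℕ => hcov (l₂ (a - k * T))
  let z : ℕ → X × X := fun k => (ρ (u k) (l₁ (a - k * T)), ρ (v k) (l₂ (a - k * T)))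
  have hz : ∀ k, z k ∈ K ×ˢ K := fun k => ⟨hu k, hv k⟩
  obtain ⟨w, -, φ, hφ, hw⟩ := (hK.prod hK).tendsto_subseq hz
  obtain ⟨N, hN⟩ := Metric.cauchySeq_iff.1 hw.cauchySeq ε hε
  have hd := hN N le_rfl (N + 1) (Nat.le_succ N)
  have hlt : φ N + 1 ≤ φ (N + 1) := hφ (Nat.lt_succ_self N)
  have hlt' : (φ N : ℝ) + 1 ≤ (φ (N + 1) : ℝ) := by exact_mod_cast hlt
  simp only [Function.comp, z, Prod.dist_eq, max_lt_iff] at hd
  have h0 : 0 ≤ (φ (N + 1) : ℝ) * T := mul_nonneg (Nat.cast_nonneg _) hT.le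
  refine ⟨φ (N + 1) * T - φ N * T, _, _, by nlinarith,
    push ρ n h2 hn l₁ h₁ a _ _ ε h0 _ _ hd.1, push ρ n h2 hn l₂ h₂ a _ _ ε h0 _ _ hd.2⟩

theorem step [ProperSpace X] (ρ : G →* X ≃ᵢ X) (n : Bd X) (h2 : C2 X) (hG : Geometric ρ)
    (hn : ∀ g, act (ρ g) n = n) (l₁ l₂ : ℝ → X) (h₁ : Line n l₁) (h₂ : Line n l₂)
    (a T : ℝ) (hT : 0 < T) : dist (l₁ (a + T)) (l₂ (a + T)) = dist (l₁ a) (l₂ a) := by
  classical
  have hmono : ∀ (g : G) (b t : ℝ), 0 ≤ t →
      dist (l₁ (b + t)) (ρ g (l₂ (b + t))) ≤ dist (l₁ b) (ρ g (l₂ b)) := by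
    intro g b t ht
    have h := h2.rplip (l₁ b) (ρ g (l₂ b)) n t
    rwa [rp_act ρ n h2 hn, h2.rpline n l₁ h₁ _ _ ht, h2.rpline n l₂ h₂ _ _ ht] at h
  have hone : ∀ x : X, ρ 1 x = x := fun x => by rw [map_one]; rfl
  have hle := hmono 1 a T hT.le
  rw [hone, hone] at hle
  refine le_antisymm hle (not_lt.1 fun hlt => ?_)
  obtain ⟨D, hD⟩ : ∃ D : G → ℝ, ∀ g, D g = dist (l₁ a) (ρ g (l₂ a)) := ⟨_, fun _ => rfl⟩
  obtain ⟨δ, hδ⟩ : ∃ δ : ℝ, δ = dist (l₁ a) (l₂ a) - dist (l₁ (a + T)) (l₂ (a + T)) := ⟨_, rfl⟩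
  have hδ0 : 0 < δ := by linarith
  have hD1 : D 1 = dist (l₁ a) (l₂ a) := by rw [hD, hone]
  have hfin : ∀ R, {g : G | D g ≤ R}.Finite := by
    intro R
    simp only [hD]
    exact fin_ball ρ hG _ _ R
  obtain ⟨F, hF⟩ : ∃ F : Finset G, ∀ g, g ∈ F ↔ D g ≤ D 1 :=
    ⟨(hfin (D 1)).toFinset, fun g => by simp⟩
  have e1 : ∀ᶠ η in 𝓝 (0 : ℝ), ∀ g ∈ {g : G | D g ≤ D 1 + 1}, D 1 < D g → D 1 + 2 * η < D g := by
    refine (eventually_all_finite (hfin _)).2 fun g _ => ?_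
    by_cases h : D 1 < D g
    · have hc : Continuous fun η : ℝ => D 1 + 2 * η := by fun_prop
      have h' : D 1 + 2 * (0 : ℝ) < D g := by linarith
      exact ((hc.tendsto 0).eventually (gt_mem_nhds h')).mono fun η hη _ => hη
    · exact Eventually.of_forall fun η h' => absurd h' h
  have e2 : ∀ᶠ η in 𝓝 (0 : ℝ), 2 * η < 1 := by
    have hc : Continuous fun η : ℝ => 2 * η := by fun_prop
    have h' : 2 * (0 : ℝ) < 1 := by linarith
    exact (hc.tendsto 0).eventually (gt_mem_nhds h')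
  have e3 : ∀ᶠ η in 𝓝 (0 : ℝ), (F.card : ℝ) * (2 * η) < δ := by
    have hc : Continuous fun η : ℝ => (F.card : ℝ) * (2 * η) := by fun_prop
    have h' : (F.card : ℝ) * (2 * (0 : ℝ)) < δ := by linarith
    exact (hc.tendsto 0).eventually (gt_mem_nhds h')
  have e4 : ∀ᶠ η in 𝓝[>] (0 : ℝ), 0 < η := self_mem_nhdsWithin
  obtain ⟨ε, ⟨⟨k1, k2⟩, k3⟩, hε⟩ :=
    ((((e1.and e2).and e3).filter_mono nhdsWithin_le_nhds).and e4).exists
  obtain ⟨t, A, B, hTt, hA, hB⟩ := recur ρ n h2 hG hn l₁ l₂ h₁ h₂ a T ε hT hε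
  have key : ∀ g, D (A⁻¹ * g * B) ≤ dist (l₁ (a + t)) (ρ g (l₂ (a + t))) + 2 * ε := by
    intro g
    have e : ρ A (ρ (A⁻¹ * g * B) (l₂ a)) = ρ g (ρ B (l₂ a)) := by
      rw [← IsometryEquiv.mul_apply, ← map_mul, ← IsometryEquiv.mul_apply, ← map_mul, mul_assoc,
        mul_inv_cancel_left]
    rw [hD, ← (ρ A).dist_eq, e]
    have t1 := dist_triangle4 (ρ A (l₁ a)) (l₁ (a + t)) (ρ g (l₂ (a + t))) (ρ g (ρ B (l₂ a)))
    rw [(ρ g).dist_eq, dist_comm (ρ A (l₁ a)) (l₁ (a + t))] at t1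
    linarith
  have key1 : ∀ g, D (A⁻¹ * g * B) ≤ D g + 2 * ε := by
    intro g
    have := hmono g a t (by linarith)
    rw [← hD] at this
    linarith [key g]
  have key2 : D (A⁻¹ * 1 * B) ≤ D 1 - δ + 2 * ε := by
    have h := hmono 1 (a + T) (t - T) (by linarith)
    have e : a + T + (t - T) = a + t := by ring
    rw [e, hone (l₂ (a + T))] at h
    linarith [key 1]
  have hmap : ∀ g ∈ F, A⁻¹ * g * B ∈ F := by
    intro g hg
    rw [hF] at hg ⊢
    by_contra hc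
    have h3 := key1 g
    have h4 := k1 (A⁻¹ * g * B) (by change D (A⁻¹ * g * B) ≤ D 1 + 1; linarith) (not_le.1 hc)
    linarith
  have hinj : Function.Injective fun g : G => A⁻¹ * g * B := by
    intro g g' h
    simpa using h
  have himg : F.image (fun g : G => A⁻¹ * g * B) = F := by
    refine Finset.eq_of_subset_of_card_le ?_ ?_
    · intro g hg
      obtain ⟨g', hg', rfl⟩ := Finset.mem_image.1 hg
      exact hmap g' hg'
    · rw [Finset.card_image_of_injective _ hinj]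
  have hsum : ∑ g ∈ F, D (A⁻¹ * g * B) = ∑ g ∈ F, D g := by
    conv_rhs => rw [← himg]
    rw [Finset.sum_image fun g _ g' _ h => hinj h]
  have h1F : (1 : G) ∈ F := (hF 1).2 le_rfl
  have hb : ∑ g ∈ F, D (A⁻¹ * g * B) ≤
      ∑ g ∈ F, (D g + 2 * ε - if g = 1 then δ else 0) := by
    refine Finset.sum_le_sum fun g _ => ?_
    by_cases h : g = 1
    · rw [if_pos h, h]
      linarith
    · rw [if_neg h]
      linarith [key1 g]
  rw [hsum, Finset.sum_sub_distrib, Finset.sum_add_distrib, Finset.sum_ite_eq' F 1, if_pos h1F,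
    Finset.sum_const, nsmul_eq_mul] at hb
  linarith

end ParA

theorem sPar : SPar := by
  intro X G _ _ _ ρ n hC hG hn
  refine ⟨ParA.exists_line ρ n hC.c2 hG hn, fun l₁ l₂ h₁ h₂ t => ?_⟩
  rcases lt_trichotomy t 0 with h | h | h
  · have := ParA.step ρ n hC.c2 hG hn l₁ l₂ h₁ h₂ t (-t) (by linarith)
    rw [add_neg_cancel] at this
    exact this.symm
  · rw [h]
  · have := ParA.step ρ n hC.c2 hG hn l₁ l₂ h₁ h₂ 0 t h
    rwa [zero_add] at this

end Pool.Agent.MP_0c1703_gt.H58
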