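import Pool.Agent.MP_0c1703_gt.H58.Spec

/-! Polar coordinates on the boundary of a product with a line. -/

namespace Pool.Agent.MP_0c1703_gt.H58

open Set Filter Topology
open scoped NNReal ENNReal Real

namespace PolarA

variable {X X' : Type} [MetricSpace X] [MetricSpace X']

theorem iso (Φ : X' → ℝ → X) (x₀ : X') (h2 : C2 X')
    (hp : ∀ x y s t, dist (Φ x s) (Φ y t) ^ 2 = dist x y ^ 2 + (s - t) ^ 2) (v : Bd X') (θ : ℝ) :
    Isometry (fun t : ℝ≥0 => Φ (rp x₀ v (t * |Real.sin θ|)) (t * Real.cos θ)) := by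
  refine Isometry.of_dist_eq fun s t => ?_
  have h := hp (rp x₀ v (s * |Real.sin θ|)) (rp x₀ v (t * |Real.sin θ|)) (s * Real.cos θ)
    (t * Real.cos θ)
  rw [h2.rpd x₀ v _ _ (by positivity) (by positivity), sq_abs] at h
  have e : ((s : ℝ) * |Real.sin θ| - t * |Real.sin θ|) ^ 2 + (s * Real.cos θ - t * Real.cos θ) ^ 2
      = dist s t ^ 2 := by
    rw [NNReal.dist_eq, sq_abs]
    have h1 : |Real.sin θ| ^ 2 = Real.sin θ ^ 2 := sq_abs _
    have h3 := Real.sin_sq_add_cos_sq θ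
    have h4 : ((s : ℝ) * |Real.sin θ| - t * |Real.sin θ|) ^ 2 + (s * Real.cos θ - t * Real.cos θ) ^ 2
        = ((s : ℝ) - t) ^ 2 * (|Real.sin θ| ^ 2 + Real.cos θ ^ 2) := by ring
    rw [h4, h1, h3, mul_one]
  rw [e] at h
  exact (pow_left_inj₀ dist_nonneg dist_nonneg two_ne_zero).1 h

theorem phiCont (Φ : X' → ℝ → X)
    (hp : ∀ x y s t, dist (Φ x s) (Φ y t) ^ 2 = dist x y ^ 2 + (s - t) ^ 2) :
    Continuous (fun p : X' × ℝ => Φ p.1 p.2) := by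
  have : LipschitzWith 2 (fun p : X' × ℝ => Φ p.1 p.2) := by
    refine LipschitzWith.of_dist_le_mul fun p q => ?_
    have h := hp p.1 q.1 p.2 q.2
    have h1 : dist p.1 q.1 ≤ dist p q := by rw [Prod.dist_eq]; exact le_max_left _ _
    have h2 : |p.2 - q.2| ≤ dist p q := by
      rw [Prod.dist_eq, ← Real.dist_eq]; exact le_max_right _ _
    have h3 : (p.2 - q.2) ^ 2 ≤ dist p q ^ 2 := by
      rw [← sq_abs]; exact pow_le_pow_left₀ (abs_nonneg _) h2 2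
    have h4 : dist p.1 q.1 ^ 2 ≤ dist p q ^ 2 := pow_le_pow_left₀ dist_nonneg h1 2
    have h5 : (0 : ℝ) ≤ dist p q := dist_nonneg
    have h6 : dist (Φ p.1 p.2) (Φ q.1 q.2) ^ 2 ≤ (2 * dist p q) ^ 2 := by nlinarith
    have h7 := abs_le_of_sq_le_sq' h6 (by positivity)
    simpa using h7.2
  exact this.continuous

/-- the ray with polar coordinates (v, θ) -/
noncomputable def pr (Φ : X' → ℝ → X) (x₀ : X') (h2 : C2 X')
    (hp : ∀ x y s t, dist (Φ x s) (Φ y t) ^ 2 = dist x y ^ 2 + (s - t) ^ 2)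
    (p : Bd X' × ℝ) : Ray X :=
  ⟨fun t : ℝ≥0 => Φ (rp x₀ p.1 (t * |Real.sin p.2|)) (t * Real.cos p.2), iso Φ x₀ h2 hp p.1 p.2⟩

theorem prCont (Φ : X' → ℝ → X) (x₀ : X') (h2 : C2 X')
    (hp : ∀ x y s t, dist (Φ x s) (Φ y t) ^ 2 = dist x y ^ 2 + (s - t) ^ 2) :
    Continuous (pr Φ x₀ h2 hp) := by
  refine Continuous.subtype_mk (continuous_pi fun t => ?_) _
  have h1 : Continuous fun p : Bd X' × ℝ => rp x₀ p.1 ((t : ℝ) * |Real.sin p.2|) :=
    h2.cont.comp (f := fun p : Bd X' × ℝ => (x₀, p.1, (t : ℝ) * |Real.sin p.2|)) (by fun_prop)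
  have h3 : Continuous fun p : Bd X' × ℝ => (t : ℝ) * Real.cos p.2 := by fun_prop
  exact (phiCont Φ hp).comp (h1.prodMk h3)

theorem polar (Φ : X' → ℝ → X) (x₀ : X') (h1 : C2 X) (h2 : C2 X')
    (hp : ∀ x y s t, dist (Φ x s) (Φ y t) ^ 2 = dist x y ^ 2 + (s - t) ^ 2) :
    Polar Φ x₀ (fun p => mk (pr Φ x₀ h2 hp p)) := by
  intro v θ t ht
  have h0 : (pr Φ x₀ h2 hp (v, θ)).1 0 = Φ x₀ 0 := by
    simp [pr, h2.rp0]
  have h := h1.rayc (pr Φ x₀ h2 hp (v, θ))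
  rw [h0] at h
  simp only [rp]
  rw [h]
  simp only [pr, Real.coe_toNNReal t ht, rp]

end PolarA

theorem sPolar : SPolar := by
  intro X X' _ _ Φ x₀ hX hX' hp
  have hq := PolarA.polar Φ x₀ hX.c2 hX'.c2 hp
  refine ⟨fun p => mk (PolarA.pr Φ x₀ hX'.c2 hp p), hq,
    mk_cont.comp (PolarA.prCont Φ x₀ hX'.c2 hp), ?_⟩
  intro v v' θ hθ θ' hθ'
  have hs : 0 ≤ Real.sin θ := Real.sin_nonneg_of_nonneg_of_le_pi hθ.1 hθ.2
  have hs' : 0 ≤ Real.sin θ' := Real.sin_nonneg_of_nonneg_of_le_pi hθ'.1 hθ'.2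
  have l1 := hX.c4.lim (Φ x₀ 0) (Φ x₀ 0) (mk (PolarA.pr Φ x₀ hX'.c2 hp (v, θ)))
    (mk (PolarA.pr Φ x₀ hX'.c2 hp (v', θ'))) 1 1 zero_le_one zero_le_one
  have l2 := (hX'.c4.lim x₀ x₀ v v' (Real.sin θ) (Real.sin θ') hs hs').add_const
    ((Real.cos θ - Real.cos θ') ^ 2)
  have l3 := tendsto_nhds_unique_of_eventuallyEq l1 l2 (by
    filter_upwards [eventually_gt_atTop (0 : ℝ)] with r hr
    have e1 := hq v θ r hr.le
    have e2 := hq v' θ' r hr.le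
    simp only [one_mul]
    rw [e1, e2, hp, abs_of_nonneg hs, abs_of_nonneg hs', mul_comm r (Real.sin θ),
      mul_comm r (Real.sin θ')]
    field_simp)
  have t1 := Real.sin_sq_add_cos_sq θ
  have t2 := Real.sin_sq_add_cos_sq θ'
  nlinarith

end Pool.Agent.MP_0c1703_gt.H58
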