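import Pool.Agent.MP_0c1703_gt.H58.Spec

/-! Pythagoras for parallel lines. -/

namespace Pool.Agent.MP_0c1703_gt.H58

namespace PythA

variable {X : Type} [MetricSpace X]

theorem shift (h : C2 X) {n : Bd X} {l : ℝ → X} (hl : Line n l) (a : ℝ) :
    Line n fun t => l (t + a) := by
  refine ⟨Isometry.of_dist_eq fun s t => ?_, ray (l a) n, fun t => ?_, h.rayu _ _⟩
  · rw [hl.1.dist_eq, dist_add_right]
  · have := h.rpline n l hl a t t.2
    rw [rp, Real.toNNReal_coe] at this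
    rw [this, add_comm]

end PythA

theorem sPyth : SPyth := by
  intro X _ n hc hp l₁ l₂ h₁ h₂ hb
  have hs : ∀ s t, dist (l₁ s) (l₂ t) = dist (l₁ 0) (l₂ (t - s)) := by
    intro s t
    have := hp.2 l₁ _ h₁ (PythA.shift hc.c2 h₂ (t - s)) s
    simpa using this
  have hb' : bus n (l₂ 0) (l₁ 0) = 0 := by
    have h1 := hc.c3.add n (l₁ 0) (l₂ 0) (l₁ 0)
    have h2 := hc.c3.lip n (l₁ 0) (l₁ 0)
    rw [dist_self, abs_nonpos_iff] at h2
    linarith
  have main : ∀ r, 0 ≤ r → dist (l₁ 0) (l₂ r) ^ 2 = dist (l₁ 0) (l₂ 0) ^ 2 + r ^ 2 ∧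
      dist (l₁ 0) (l₂ (-r)) ^ 2 = dist (l₁ 0) (l₂ 0) ^ 2 + r ^ 2 := by
    intro r hr
    have k1 := hc.c3.key n (l₁ 0) (l₂ 0) r hr
    rw [hc.c2.rpline n l₁ h₁ 0 r hr, hb, zero_add, dist_comm, hs, zero_sub] at k1
    have k2 := hc.c3.key n (l₂ 0) (l₁ 0) r hr
    rw [hc.c2.rpline n l₂ h₂ 0 r hr, hb', zero_add, dist_comm (l₂ 0)] at k2
    have d1 : dist (l₂ (-r)) (l₂ r) = 2 * r := by
      rw [h₂.1.dist_eq, Real.dist_eq, abs_of_nonpos (by linarith)]; ring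
    have d2 : dist (l₂ (-r)) (l₂ 0) = r := by
      rw [h₂.1.dist_eq, Real.dist_eq, abs_of_nonpos (by linarith)]; ring
    have d3 : dist (l₂ 0) (l₂ r) = r := by
      rw [h₂.1.dist_eq, Real.dist_eq, abs_of_nonpos (by linarith)]; ring
    have k3 := hc.c1.cn (l₁ 0) (l₂ (-r)) (l₂ r) (l₂ 0) (1 / 2) (by norm_num) (by norm_num)
      (by rw [d1, d2]; ring) (by rw [d1, d3]; ring)
    rw [d1] at k3
    constructor <;> nlinarith
  intro s t
  rw [hs]
  rcases le_total s t with h | h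
  · rw [(main (t - s) (by linarith)).1]; ring
  · rw [show t - s = -(s - t) by ring, (main (s - t) (by linarith)).2]

end Pool.Agent.MP_0c1703_gt.H58
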