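import Pool.Agent.MP_0c1703_gt.H58.Spec

/-! Rational approximation of an additive character on a finite set. -/

namespace Pool.Agent.MP_0c1703_gt.H58

namespace RatA

/-- a rational valued additive function close to the identity on a finite set -/
theorem approx (T : Finset ℝ) (ε : ℝ) (hε : 0 < ε) :
    ∃ lam : ℝ →ₗ[ℚ] ℚ, ∀ x ∈ T, |(lam x : ℝ) - x| ≤ ε := by
  classical
  let b := Module.Basis.ofVectorSpace ℚ ℝ
  let M : ℝ → ℝ := fun x => ∑ i ∈ (b.repr x).support, |(b.repr x i : ℝ)|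
  have hM : ∀ x, 0 ≤ M x := fun x => Finset.sum_nonneg fun i _ => abs_nonneg _
  let C : ℝ := 1 + ∑ x ∈ T, M x
  have hC : 0 < C := by
    have : 0 ≤ ∑ x ∈ T, M x := Finset.sum_nonneg fun x _ => hM x
    positivity
  have hδ : 0 < ε / C := div_pos hε hC
  have hq : ∀ i, ∃ q : ℚ, |b i - (q : ℝ)| < ε / C := fun i => exists_rat_near (b i) hδ
  choose q hq using hq
  refine ⟨b.constr ℚ q, fun x hx => ?_⟩
  have h1 : ((b.constr ℚ q x : ℚ) : ℝ) = ∑ i ∈ (b.repr x).support, (b.repr x i : ℝ) * q i := by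
    rw [b.constr_apply, Finsupp.sum]
    push_cast
    refine Finset.sum_congr rfl fun i _ => ?_
    rw [smul_eq_mul, Rat.cast_mul]
  have h2 : x = ∑ i ∈ (b.repr x).support, (b.repr x i : ℝ) * b i := by
    conv_lhs => rw [← b.linearCombination_repr x]
    rw [Finsupp.linearCombination_apply, Finsupp.sum]
    refine Finset.sum_congr rfl fun i _ => ?_
    rw [Rat.smul_def]
  have h3 : ((b.constr ℚ q x : ℚ) : ℝ) - x =
      ∑ i ∈ (b.repr x).support, (b.repr x i : ℝ) * (q i - b i) := by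
    rw [h1]
    conv_lhs => rw [h2]
    rw [← h2, eq_comm]
    simp only [mul_sub, Finset.sum_sub_distrib]
    rw [← h2]
  rw [h3]
  have h4 : M x ≤ C := by
    have : M x ≤ ∑ x ∈ T, M x := Finset.single_le_sum (fun y _ => hM y) hx
    change M x ≤ 1 + ∑ x ∈ T, M x
    linarith
  calc |∑ i ∈ (b.repr x).support, (b.repr x i : ℝ) * (q i - b i)|
      ≤ ∑ i ∈ (b.repr x).support, |(b.repr x i : ℝ) * (q i - b i)| :=
        Finset.abs_sum_le_sum_abs _ _
    _ ≤ ∑ i ∈ (b.repr x).support, |(b.repr x i : ℝ)| * (ε / C) := by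
        refine Finset.sum_le_sum fun i _ => ?_
        rw [abs_mul, abs_sub_comm]
        exact mul_le_mul_of_nonneg_left (hq i).le (abs_nonneg _)
    _ = M x * (ε / C) := by rw [← Finset.sum_mul]
    _ ≤ C * (ε / C) := mul_le_mul_of_nonneg_right h4 hδ.le
    _ = ε := mul_div_cancel₀ _ hC.ne'

/-- a common denominator -/
theorem denom (T : Finset ℚ) : ∃ N : ℕ, 0 < N ∧ ∀ r ∈ T, ∃ k : ℤ, (r : ℝ) = k / N := by
  refine ⟨∏ r ∈ T, r.den, Finset.prod_pos fun r _ => r.den_pos, fun r hr => ?_⟩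
  obtain ⟨m, hm⟩ : r.den ∣ ∏ r ∈ T, r.den := Finset.dvd_prod_of_mem _ hr
  have hp : 0 < ∏ r ∈ T, r.den := Finset.prod_pos fun r _ => r.den_pos
  have hm0 : (m : ℝ) ≠ 0 := by
    intro h
    rw [hm, Nat.cast_eq_zero.1 h] at hp
    simp at hp
  have hd : (r.den : ℝ) ≠ 0 := Nat.cast_ne_zero.2 r.den_ne_zero
  refine ⟨r.num * m, ?_⟩
  rw [hm, Rat.cast_def]
  push_cast
  field_simp

end RatA

theorem sRat : SRat := by
  classical
  intro G _ χ S ε hε hS hχ
  obtain ⟨lam, hlam⟩ := RatA.approx (hS.toFinset.image χ) ε hε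
  obtain ⟨N, hN, hk⟩ := RatA.denom (hS.toFinset.image fun s => lam (χ s))
  refine ⟨fun g => (lam (χ g) : ℝ), N, hN, fun g h => ?_, fun s hs => ?_, fun s hs => ?_⟩
  · beta_reduce
    rw [hχ, map_add, Rat.cast_add]
  · exact hk _ (Finset.mem_image_of_mem (fun s => lam (χ s)) (hS.mem_toFinset.2 hs))
  · exact hlam _ (Finset.mem_image_of_mem χ (hS.mem_toFinset.2 hs))

end Pool.Agent.MP_0c1703_gt.H58
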