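import Pool.Agent.MP_0c1703_gt.H58.Spec

/-! Row Sec: the cross section of the parallel set is closed and CAT(0). -/

namespace Pool.Agent.MP_0c1703_gt.H58

open Set Filter Topology
open scoped NNReal ENNReal Real

namespace SecA

variable {X : Type} [MetricSpace X]

theorem le_add_of_sq {p D a ε : ℝ} (ha : 0 ≤ a) (hε : 0 ≤ ε) (h : p ^ 2 ≤ D ^ 2 + a ^ 2)
    (hD : D ^ 2 ≤ 2 * a * ε) : p ≤ a + ε := by
  by_contra hc
  have hc' : a + ε < p := not_le.mp hc
  nlinarith [mul_self_nonneg ε, mul_pos (sub_pos.mpr hc') (sub_pos.mpr hc'),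
    mul_nonneg (add_nonneg ha hε) (sub_pos.mpr hc').le]

theorem line_dist {n : Bd X} {l : ℝ → X} (hl : Line n l) (s t : ℝ) :
    dist (l s) (l t) = |s - t| := by
  rw [hl.1.dist_eq, Real.dist_eq]

theorem big (D s t ε : ℝ) (hε : 0 < ε) :
    ∃ r : ℝ, 0 ≤ r ∧ 0 ≤ r + s ∧ 0 ≤ r - t ∧ D ^ 2 ≤ 2 * (r + s) * ε ∧ D ^ 2 ≤ 2 * (r - t) * ε := by
  have h0 : 0 ≤ D ^ 2 / ε := div_nonneg (sq_nonneg D) hε.le
  have h1 : D ^ 2 / ε * ε = D ^ 2 := div_mul_cancel₀ _ hε.ne'
  have hs := neg_abs_le s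
  have ht := le_abs_self t
  have hs0 := abs_nonneg s
  have ht0 := abs_nonneg t
  refine ⟨D ^ 2 / ε + |s| + |t|, by positivity, by linarith, by linarith, ?_, ?_⟩
  · have h2 : 0 ≤ (|s| + |t| + s) * ε := mul_nonneg (by linarith) hε.le
    nlinarith [sq_nonneg D]
  · have h2 : 0 ≤ (|s| + |t| - t) * ε := mul_nonneg (by linarith) hε.le
    nlinarith [sq_nonneg D]

/-- a point at Euclidean distance from a line has Busemann value zero -/
theorem bus_zero (hc : Core X) {n : Bd X} {l : ℝ → X} (hl : Line n l) (z : X) (D : ℝ)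
    (h : ∀ r, dist z (l r) ^ 2 ≤ D ^ 2 + r ^ 2) : bus n (l 0) z = 0 := by
  apply le_antisymm
  · refine le_of_forall_pos_le_add fun ε hε => ?_
    obtain ⟨r, hr, -, -, h1, -⟩ := big D 0 0 ε hε
    have h2 := hc.c3.le n (l 0) z r hr
    rw [hc.c2.rpline n l hl 0 r hr, zero_add] at h2
    have h3 : dist z (l r) ≤ r + ε := le_add_of_sq hr hε.le (h r) (by simpa using h1)
    linarith
  · refine le_of_forall_pos_le_add fun ε hε => ?_
    obtain ⟨r, hr, -, -, h1, -⟩ := big D 0 0 ε hε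
    have h3 : dist z (l (-r)) ≤ r + ε :=
      le_add_of_sq hr hε.le (by simpa using h (-r)) (by simpa using h1)
    have h4 : -ε ≤ bus n (l 0) z := by
      refine ge_of_tendsto (hc.c3.lim n (l 0) z) ?_
      filter_upwards [eventually_ge_atTop (0 : ℝ)] with t ht
      rw [hc.c2.rpline n l hl 0 t ht, zero_add]
      have h5 := dist_triangle_left (l (-r)) (l t) z
      rw [line_dist hl, abs_of_nonpos (by linarith)] at h5
      linarith
    linarith

/-- a curve with Euclidean upper bounds to a line expands distances -/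
theorem lower {n : Bd X} {l : ℝ → X} (hl : Line n l) (m : ℝ → X) (D : ℝ)
    (h : ∀ t r, dist (m t) (l r) ^ 2 ≤ D ^ 2 + (t - r) ^ 2) (s t : ℝ) :
    t - s ≤ dist (m s) (m t) := by
  refine le_of_forall_pos_le_add fun ε hε => ?_
  obtain ⟨r, hr, h1, h2, h3, h4⟩ := big D s t (ε / 2) (half_pos hε)
  have h5 : dist (m s) (l (-r)) ≤ r + s + ε / 2 := by
    refine le_add_of_sq h1 (half_pos hε).le ?_ h3
    have := h s (-r)
    rwa [show s - -r = r + s by ring] at this
  have h6 : dist (m t) (l r) ≤ r - t + ε / 2 := by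
    refine le_add_of_sq h2 (half_pos hε).le ?_ h4
    have := h t r
    rwa [show (t - r) ^ 2 = (r - t) ^ 2 by ring] at this
  have h7 := dist_triangle4 (l (-r)) (m s) (m t) (l r)
  rw [line_dist hl, abs_of_nonpos (by linarith), dist_comm (l (-r)) (m s)] at h7
  linarith

/-- a line at bounded distance from a line with forward end n has forward end n -/
theorem line_of_bdd (hc : Core X) {n : Bd X} {l m : ℝ → X} (hl : Line n l) (hm : Isometry m)
    (C : ℝ) (h : ∀ t, dist (m t) (l t) ≤ C) : Line n m := by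
  obtain ⟨-, c, hc1, hc2⟩ := hl
  refine ⟨hm, ⟨fun t => m t, hm.comp NNReal.isometry_coe⟩, fun _ => rfl, ?_⟩
  rw [← hc2, hc.c1.asym]
  refine ⟨C, fun t => ?_⟩
  rw [hc1]
  exact h t

theorem seg_frac (hc : C1 X) (x y : X) (lam : ℝ) (h0 : 0 ≤ lam) (h1 : lam ≤ 1) :
    dist x (seg x y (lam * dist x y)) = lam * dist x y ∧
      dist (seg x y (lam * dist x y)) y = (1 - lam) * dist x y := by
  have hd : 0 ≤ dist x y := dist_nonneg
  have hm : lam * dist x y ∈ Icc 0 (dist x y) :=
    ⟨mul_nonneg h0 hd, by nlinarith⟩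
  constructor
  · have := hc.segd x y 0 ⟨le_rfl, hd⟩ _ hm
    rw [hc.seg0, zero_sub, abs_neg, abs_of_nonneg hm.1] at this
    exact this
  · have := hc.segd x y _ hm _ ⟨hd, le_rfl⟩
    rw [hc.seg1, abs_of_nonpos (by linarith [hm.2])] at this
    rw [this]; ring

theorem bus_pair (hc : Core X) {n : Bd X} {o x y : X} (hx : bus n o x = 0) (hy : bus n o y = 0) :
    bus n x y = 0 := by
  have := hc.c3.add n o x y
  linarith

/-- the cross section is convex -/
theorem seg_mem_frac (hc : Core X) {n : Bd X} (hP : Pyth n) {o x y : X} (hx : x ∈ Sec n o)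
    (hy : y ∈ Sec n o) (lam : ℝ) (h0 : 0 ≤ lam) (h1 : lam ≤ 1) :
    seg x y (lam * dist x y) ∈ Sec n o := by
  obtain ⟨⟨l, hl, rfl⟩, hx⟩ := hx
  obtain ⟨⟨k, hk, rfl⟩, hy⟩ := hy
  have hp := hP l k hl hk (bus_pair hc hx hy)
  have hD : ∀ t, dist (l t) (k t) = dist (l 0) (k 0) := fun t => by
    have := hp t t
    rw [sub_self, zero_pow two_ne_zero, add_zero] at this
    exact (sq_eq_sq₀ dist_nonneg dist_nonneg).mp this
  set m : ℝ → X := fun t => seg (l t) (k t) (lam * dist (l t) (k t)) with hm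
  have hf : ∀ t, dist (l t) (m t) = lam * dist (l t) (k t) ∧
      dist (m t) (k t) = (1 - lam) * dist (l t) (k t) := fun t => seg_frac hc.c1 _ _ lam h0 h1
  have hup : ∀ s t, dist (m s) (m t) ≤ |s - t| := fun s t => by
    have := hc.c1.conv (l s) (k s) (m s) (l t) (k t) (m t) lam h0 h1 (hf s).1 (hf s).2 (hf t).1
      (hf t).2
    rw [line_dist hl, line_dist hk] at this
    linarith
  have heu : ∀ t r, dist (m t) (l r) ^ 2 ≤ dist (l 0) (k 0) ^ 2 + (t - r) ^ 2 := fun t r => by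
    have h2 := hc.c1.cn (l r) (l t) (k t) (m t) lam h0 h1 (hf t).1 (hf t).2
    rw [line_dist hl, hp r t, sq_abs, hD t] at h2
    rw [dist_comm]
    have h3 : 0 ≤ lam * (1 - lam) * dist (l 0) (k 0) ^ 2 :=
      mul_nonneg (mul_nonneg h0 (by linarith)) (sq_nonneg _)
    have h4 : 0 ≤ (1 - lam) * dist (l 0) (k 0) ^ 2 := mul_nonneg (by linarith) (sq_nonneg _)
    nlinarith
  have hiso : Isometry m := by
    refine Isometry.of_dist_eq fun s t => le_antisymm ?_ ?_
    · rw [Real.dist_eq]; exact hup s t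
    · rw [Real.dist_eq, abs_le]
      have h2 := lower hl m _ heu s t
      have h3 := lower hl m _ heu t s
      rw [dist_comm] at h3
      constructor <;> linarith
  have hline : Line n m := by
    refine line_of_bdd hc hl hiso (dist (l 0) (k 0)) fun t => ?_
    rw [dist_comm, (hf t).1, hD t]
    have : 0 ≤ dist (l 0) (k 0) := dist_nonneg
    nlinarith
  refine ⟨⟨m, hline, rfl⟩, ?_⟩
  have h2 : bus n (l 0) (m 0) = 0 := by
    refine bus_zero hc hl (m 0) (dist (l 0) (k 0)) fun r => ?_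
    have := heu 0 r
    rwa [zero_sub, neg_sq] at this
  have h3 := hc.c3.add n o (l 0) (m 0)
  change bus n o (m 0) = 0
  linarith

theorem seg_mem (hc : Core X) {n : Bd X} (hP : Pyth n) {o x y : X} (hx : x ∈ Sec n o)
    (hy : y ∈ Sec n o) (s : ℝ) (hs : s ∈ Icc 0 (dist x y)) : seg x y s ∈ Sec n o := by
  rcases (dist_nonneg : 0 ≤ dist x y).eq_or_lt with h | h
  · have h1 : s = 0 := le_antisymm (h ▸ hs.2) hs.1
    rw [h1, hc.c1.seg0]
    exact hx
  · have := seg_mem_frac hc hP hx hy (s / dist x y) (div_nonneg hs.1 h.le)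
      ((div_le_one h).mpr hs.2)
    rwa [div_mul_cancel₀ _ h.ne'] at this

theorem cat0 (hc : Core X) {n : Bd X} (hP : Pyth n) (o : X) : CAT0 (Sec n o) := by
  refine ⟨fun x y => ?_, fun p x y m t h0 h1 h2 h3 => hc.c1.cn p.1 x.1 y.1 m.1 t h0 h1 h2 h3⟩
  have hd : 0 ≤ dist x.1 y.1 := dist_nonneg
  refine ⟨fun t => ⟨seg x.1 y.1 (projIcc 0 (dist x.1 y.1) hd t),
    seg_mem hc hP x.2 y.2 _ (projIcc 0 (dist x.1 y.1) hd t).2⟩, ?_, ?_, ?_⟩
  · refine Subtype.ext ?_
    change seg x.1 y.1 (projIcc 0 (dist x.1 y.1) hd 0) = x.1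
    rw [projIcc_left]
    exact hc.c1.seg0 _ _
  · refine Subtype.ext ?_
    change seg x.1 y.1 (projIcc 0 (dist x.1 y.1) hd (dist x.1 y.1)) = y.1
    rw [projIcc_right]
    exact hc.c1.seg1 _ _
  · intro s hs t ht
    change dist (seg x.1 y.1 (projIcc 0 (dist x.1 y.1) hd s))
      (seg x.1 y.1 (projIcc 0 (dist x.1 y.1) hd t)) = |s - t|
    rw [projIcc_of_mem hd hs, projIcc_of_mem hd ht]
    exact hc.c1.segd _ _ s hs t ht

theorem closed [ProperSpace X] (hc : Core X) {n : Bd X} (hP : Pyth n) (o : X) :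
    IsClosed (Sec n o) := by
  refine IsSeqClosed.isClosed fun x z hx hz => ?_
  choose l hl hl0 using fun i => (hx i).1
  have hD : ∀ i j t, dist (l i t) (l j t) = dist (x i) (x j) := fun i j t => by
    have h1 : bus n (l i 0) (l j 0) = 0 := by
      rw [hl0, hl0]
      exact bus_pair hc (hx i).2 (hx j).2
    have := hP (l i) (l j) (hl i) (hl j) h1 t t
    rw [sub_self, zero_pow two_ne_zero, add_zero, hl0, hl0] at this
    exact (sq_eq_sq₀ dist_nonneg dist_nonneg).mp this
  have hcau : ∀ t, CauchySeq fun i => l i t := fun t => by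
    have := Metric.cauchySeq_iff.mp hz.cauchySeq
    refine Metric.cauchySeq_iff.mpr fun ε hε => ?_
    obtain ⟨N, hN⟩ := this ε hε
    exact ⟨N, fun i hi j hj => by rw [hD]; exact hN i hi j hj⟩
  choose m hm using fun t => cauchySeq_tendsto_of_complete (hcau t)
  have hiso : Isometry m := by
    refine Isometry.of_dist_eq fun s t => ?_
    refine tendsto_nhds_unique ((hm s).dist (hm t)) ?_
    refine tendsto_const_nhds.congr fun i => ?_
    exact ((hl i).1.dist_eq s t).symm
  have hb : ∀ t, dist (m t) (l 0 t) = dist z (x 0) := fun t => by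
    refine tendsto_nhds_unique ((hm t).dist tendsto_const_nhds) ?_
    refine (hz.dist tendsto_const_nhds).congr fun i => ?_
    exact (hD i 0 t).symm
  have h0 : m 0 = z := by
    refine tendsto_nhds_unique (hm 0) (hz.congr fun i => ?_)
    exact (hl0 i).symm
  refine ⟨⟨m, line_of_bdd hc (hl 0) hiso _ fun t => (hb t).le, h0⟩, ?_⟩
  have hcont : Continuous fun y : X => bus n o y :=
    hc.c3.cont.comp (f := fun y : X => (n, o, y)) (by fun_prop)
  refine tendsto_nhds_unique ((hcont.tendsto z).comp hz) ?_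
  refine tendsto_const_nhds.congr fun i => ?_
  exact (hx i).2.symm

end SecA

theorem sSec : SSec := fun _ _ _ _ l₀ hc hP _ =>
  ⟨SecA.closed hc hP (l₀ 0), SecA.cat0 hc hP (l₀ 0)⟩

end Pool.Agent.MP_0c1703_gt.H58
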