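import Pool.Agent.MP_0c1703_gt.H58.Spec

/-! Disconnected boundaries with three points are separated by the null-homotopy filtration. -/

namespace Pool.Agent.MP_0c1703_gt.H58

open Set Filter Topology
open scoped NNReal ENNReal Real

namespace SepDA

theorem exClopen {B : Type} [TopologicalSpace B] (h : ¬ PreconnectedSpace B) (ζ : B) :
    ∃ K : Set B, IsClopen K ∧ K.Nonempty ∧ ζ ∉ K := by
  by_contra hc
  apply h
  refine ⟨fun u v hu hv huv hun hvn => ?_⟩
  by_contra hn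
  have hd : ∀ x, x ∈ u → x ∈ v → False := fun x h1 h2 => hn ⟨x, mem_univ _, h1, h2⟩
  have e : u = vᶜ := by
    ext x
    exact ⟨fun h1 h2 => hd x h1 h2, fun h1 => (huv (mem_univ x)).resolve_right h1⟩
  have cv : IsClopen v := ⟨by rw [← isOpen_compl_iff, ← e]; exact hu, hv⟩
  by_cases hz : ζ ∈ v
  · exact hc ⟨u, e ▸ cv.compl, hun.mono inter_subset_right, fun h1 => hd ζ h1 hz⟩
  · exact hc ⟨v, cv, hvn.mono inter_subset_right, hz⟩

theorem angPi {X : Type} [MetricSpace X] (hX : Core X) {K : Set (Bd X)} (hK : IsClopen K)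
    {η ζ : Bd X} (h1 : η ∈ K) (h2 : ζ ∉ K) : ang η ζ = π := by
  refine le_antisymm (hX.c4.lepi _ _) (not_lt.1 fun h => h2 ?_)
  obtain ⟨γ, g0, g1, gc, -⟩ := hX.c6.path η ζ h
  have hp : IsPreconnected (γ '' Icc 0 1) := isPreconnected_Icc.image γ gc
  refine hp.subset_isClopen hK ⟨η, ⟨0, ⟨le_rfl, zero_le_one⟩, g0⟩, h1⟩ ?_
  exact ⟨1, ⟨zero_le_one, le_rfl⟩, g1⟩

theorem imClopen {X : Type} [MetricSpace X] (φ : X ≃ᵢ X) {K : Set (Bd X)} (hK : IsClopen K) :
    IsClopen (act φ '' K) :=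
  ⟨(actH φ).isClosedMap K hK.1, (actH φ).isOpenMap K hK.2⟩

theorem three {B : Type} (h : ∃ a b c : B, a ≠ b ∧ a ≠ c ∧ b ≠ c) (x y : B)
    (hxy : ∀ z, z = x ∨ z = y) : False := by
  obtain ⟨a, b, c, h1, h2, h3⟩ := h
  rcases hxy a with ha | ha <;> rcases hxy b with hb | hb <;> rcases hxy c with hc | hc <;>
    first
      | exact h1 (ha.trans hb.symm)
      | exact h2 (ha.trans hc.symm)
      | exact h3 (hb.trans hc.symm)

theorem notNull {B : Type} [TopologicalSpace B] {f : B → Bool} {U : Set B} (h : NullOn f U)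
    {x y : B} (hx : x ∈ U) (hy : y ∈ U) : f x = f y := by
  obtain ⟨H, s₀, hc, h0, h1⟩ := h
  have key : ∀ z ∈ U, f z = s₀ := fun z hz => by
    rw [← h0 z hz, ← h1 z hz]
    have hc' : ContinuousOn (fun t : ℝ => H (z, t)) (Icc 0 1) :=
      hc.comp (Continuous.prodMk_right z).continuousOn fun t ht => ⟨hz, ht⟩
    exact isPreconnected_Icc.constant hc' ⟨le_rfl, zero_le_one⟩ ⟨zero_le_one, le_rfl⟩
  rw [key x hx, key y hy]

end SepDA

open SepDA in
theorem sSepD : SCore → SFix → SDyn → SSepD := by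
  intro hC hF hD X G _ _ _ ρ hX hG hn h3
  have hK := hC X hX
  have hP := (hD X G ρ hK hG).1
  have := hK.c2.t2
  have small : ∀ O : Set (Bd X), IsOpen O → O.Nonempty →
      ∃ Q : Set (Bd X), IsClopen Q ∧ Q.Nonempty ∧ Q ⊆ O := by
    rintro O hO ⟨ξ, hξ⟩
    obtain ⟨ζ, hζ⟩ := hP ξ
    obtain ⟨K, k1, k2, k3⟩ := exClopen hn ζ
    obtain ⟨g, hg⟩ := hζ K k1.1 (fun η h => angPi hK k1 h k3) O hO hξ
    refine ⟨act (ρ g) '' K, imClopen _ k1, k2.image _, ?_⟩
    rintro _ ⟨η, h, rfl⟩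
    exact hg η h
  have iso : ∀ y : Bd X, ¬ IsOpen ({y} : Set (Bd X)) := by
    intro y hy
    obtain ⟨ζ, hζ⟩ := hP y
    have one : ∀ Q : Set (Bd X), IsClopen Q → ζ ∉ Q → ∀ u ∈ Q, ∀ v ∈ Q, u = v := by
      intro Q q1 q2 u hu v hv
      obtain ⟨g, hg⟩ := hζ Q q1.1 (fun η h => angPi hK q1 h q2) {y} hy rfl
      exact (actH (ρ g)).injective ((hg u hu).trans (hg v hv).symm)
    obtain ⟨K, k1, ⟨η, k2⟩, k3⟩ := exClopen hn ζ
    have e : K = {η} := eq_singleton_iff_unique_mem.2 ⟨k2, fun u hu => one K k1 k3 u hu η k2⟩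
    subst e
    have fix : ∀ g, act (ρ g) η = η := by
      intro g
      have c1 : IsClopen ({act (ρ g) η} : Set (Bd X)) := by
        have := imClopen (ρ g) k1
        rwa [image_singleton] at this
      by_cases hz : act (ρ g) η = ζ
      · rw [hz] at c1
        exfalso
        refine three h3 ζ η fun z => ?_
        by_cases hz' : z = ζ
        · exact Or.inl hz'
        · exact Or.inr (one _ c1.compl (fun h => h rfl) z hz' η fun h => k3 h.symm)
      · refine one _ (k1.union c1) ?_ _ (Or.inr rfl) _ (Or.inl rfl)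
        rintro (h | h)
        · exact k3 h
        · exact hz h.symm
    obtain ⟨X', _, p, q, -, hS, -⟩ := hF X G ρ η hX hG fix
    refine three h3 η p fun z => ?_
    rcases hS.surj z with h | h | ⟨v, θ, -, h⟩
    · exact Or.inl h
    · exact Or.inr h
    · have hp : IsPreconnected (range fun t : ℝ => q (v, t)) :=
        isPreconnected_range (hS.cont.comp (Continuous.prodMk_right v))
      exact Or.inl (hp.subset_isClopen k1 ⟨η, ⟨0, hS.zero v⟩, rfl⟩ ⟨θ, h⟩)
  intro a a' h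
  by_contra hne
  obtain ⟨U, U₀, hU, hU₀, ha, ha', hd⟩ := t2_separation hne
  obtain ⟨U', hU', ha'', hc⟩ := h U hU ha
  have hO : IsOpen ((U' ∩ U₀) \ {a'}) := (hU'.inter hU₀).sdiff isClosed_singleton
  have hO' : ((U' ∩ U₀) \ {a'}).Nonempty := by
    by_contra h0
    rw [not_nonempty_iff_eq_empty, sdiff_eq_empty] at h0
    apply iso a'
    rw [← Subset.antisymm h0 (singleton_subset_iff.2 ⟨ha'', ha'⟩)]
    exact hU'.inter hU₀
  obtain ⟨Q, q1, ⟨x, q2⟩, q3⟩ := small _ hO hO'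
  have n1 : NullOn Q.boolIndicator U := by
    refine ⟨fun _ => false, false, continuousOn_const, fun y hy => ?_, fun _ _ => rfl⟩
    exact ((Q.notMem_iff_boolIndicator y).1 fun h => hd.le_bot ⟨hy, (q3 h).1.2⟩).symm
  have n2 := hc Bool _ ((continuous_boolIndicator_iff_isClopen Q).2 q1) n1
  have e := notNull n2 (q3 q2).1.1 ha''
  rw [(Q.mem_iff_boolIndicator x).1 q2,
    (Q.notMem_iff_boolIndicator a').1 fun h => (q3 h).2 rfl] at e
  exact Bool.noConfusion e

end Pool.Agent.MP_0c1703_gt.H58
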