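import Pool.Agent.MP_0c1703_gt.H58.Spec

/-! Row SepR: the boundary of a rank one group that is not sphere-like has separated points. -/

namespace Pool.Agent.MP_0c1703_gt.H58

open Set Filter Topology
open scoped NNReal ENNReal Real

namespace SepRA

/-- a space that is not sphere-like has three points -/
theorem three {Y : Type} [TopologicalSpace Y] (h : ¬ SphereLike Y) (a p : Y) :
    ∃ z, z ≠ a ∧ z ≠ p := by
  by_contra hc
  apply h
  have hall : ∀ z : Y, z = a ∨ z = p := by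
    intro z
    by_contra hz
    exact hc ⟨z, fun e => hz (Or.inl e), fun e => hz (Or.inr e)⟩
  rintro P - ⟨x, hx⟩ S _ f -
  have hsub : ∀ u v : Y, u ∉ P → v ∉ P → u = v := by
    intro u v hu hv
    rcases hall x with rfl | rfl
    · rcases hall u with rfl | rfl
      · exact absurd hx hu
      · rcases hall v with rfl | rfl
        · exact absurd hx hv
        · rfl
    · rcases hall u with rfl | rfl
      · rcases hall v with rfl | rfl
        · rfl
        · exact absurd hx hv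
      · exact absurd hx hu
  have hex : ∃ s : S, f.restrict Pᶜ = ContinuousMap.const _ s := by
    by_cases hne : ∃ u, u ∉ P
    · obtain ⟨u, hu⟩ := hne
      refine ⟨f u, ContinuousMap.ext fun v => ?_⟩
      have : v.1 = u := hsub v.1 u v.2 hu
      simp [this]
    · refine ⟨f x, ContinuousMap.ext fun v => ?_⟩
      exact absurd ⟨v.1, v.2⟩ hne
  obtain ⟨s, hs⟩ := hex
  exact ⟨s, hs ▸ ContinuousMap.Homotopic.refl _⟩

/-- from a null-homotopy of the restriction to NullOn, along a map into the set -/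
theorem nullOn_of {Y S : Type} [TopologicalSpace Y] [TopologicalSpace S] (f : C(Y, S))
    (P U : Set Y) (h : Y → Y) (hh : Continuous h) (hU : ∀ y ∈ U, h y ∈ P)
    (hf : (f.restrict P).Nullhomotopic) : NullOn (fun y => f (h y)) U := by
  classical
  obtain ⟨s, ⟨F⟩⟩ := hf
  refine ⟨fun w => if hw : h w.1 ∈ P then F (projIcc 0 1 zero_le_one w.2, ⟨h w.1, hw⟩) else s, s,
    ?_, ?_, ?_⟩
  · rw [continuousOn_iff_continuous_domRestrict]
    have e : (U ×ˢ Icc (0 : ℝ) 1).domRestrict (fun w : Y × ℝ =>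
        if hw : h w.1 ∈ P then F (projIcc 0 1 zero_le_one w.2, ⟨h w.1, hw⟩) else s) =
        fun w : (U ×ˢ Icc (0 : ℝ) 1 : Set (Y × ℝ)) =>
          F (projIcc 0 1 zero_le_one w.1.2, ⟨h w.1.1, hU _ w.2.1⟩) := by
      funext w
      exact dif_pos (hU _ w.2.1)
    rw [e]
    refine F.continuous.comp (Continuous.prodMk ?_ ?_)
    · exact continuous_projIcc.comp (continuous_snd.comp continuous_subtype_val)
    · exact Continuous.subtype_mk (hh.comp (continuous_fst.comp continuous_subtype_val)) _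
  · intro y hy
    have e : projIcc (0 : ℝ) 1 zero_le_one 0 = 0 := projIcc_left zero_le_one
    simp only [dif_pos (hU y hy), e]
    exact F.apply_zero _
  · intro y hy
    have e : projIcc (0 : ℝ) 1 zero_le_one 1 = 1 := projIcc_right zero_le_one
    simp only [dif_pos (hU y hy), e]
    exact F.apply_one _

/-- from NullOn back to a null-homotopy of a restriction -/
theorem null_of {Y S : Type} [TopologicalSpace Y] [TopologicalSpace S] (f : C(Y, S))
    (Q U : Set Y) (h k : Y → Y) (hk : Continuous k) (hQ : ∀ y ∈ Q, k y ∈ U)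
    (hhk : ∀ y, h (k y) = y) (hf : NullOn (fun y => f (h y)) U) :
    (f.restrict Q).Nullhomotopic := by
  obtain ⟨H, s, hc, h0, h1⟩ := hf
  have hm : Continuous fun w : unitInterval × Q => ((k w.2.1, (w.1 : ℝ)) : Y × ℝ) :=
    (hk.comp (continuous_subtype_val.comp continuous_snd)).prodMk
      (continuous_subtype_val.comp continuous_fst)
  have hcont : Continuous fun w : unitInterval × Q => H (k w.2.1, (w.1 : ℝ)) :=
    hc.comp_continuous hm fun w => ⟨hQ _ w.2.2, w.1.2⟩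
  refine ⟨s, ⟨⟨⟨fun w => H (k w.2.1, (w.1 : ℝ)), hcont⟩, ?_, ?_⟩⟩⟩
  · intro y
    have := h0 (k y.1) (hQ _ y.2)
    simp only [hhk] at this
    exact this
  · intro y
    exact h1 (k y.1) (hQ _ y.2)

/-- the topological end of the argument -/
theorem sep_of {Y : Type} [TopologicalSpace Y] [T2Space Y] (hS : ¬ SphereLike Y)
    (hD : ∀ U P : Set Y, IsOpen U → U.Nonempty → IsOpen P → P.Nonempty →
      ∃ h k : Y → Y, Continuous h ∧ Continuous k ∧ (∀ y, h (k y) = y) ∧ ∀ y, y ∉ U → h y ∈ P) :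
    Sep Y := by
  intro y y' hy
  by_contra hne
  apply hS
  intro P hP hPn S _ f hf
  obtain ⟨U, U0, hU, hU0, hyU, hyU0, hd⟩ := t2_separation hne
  obtain ⟨U', hU', hyU', hC⟩ := hy U hU hyU
  obtain ⟨h, k, hh, hk, hhk, hin⟩ := hD (U' ∩ U0) P (hU'.inter hU0) ⟨y', hyU', hyU0⟩ hP hPn
  have h1 : NullOn (fun z => f (h z)) U :=
    nullOn_of f P U h hh (fun z hz => hin z fun hz' => Set.disjoint_left.1 hd hz hz'.2) hf
  have h2 : NullOn (fun z => f (h z)) U' := hC S _ (f.continuous.comp hh) h1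
  refine null_of f Pᶜ U' h k hk (fun z hz => ?_) hhk h2
  by_contra hz'
  have := hin (k z) fun hw => hz' hw.1
  rw [hhk] at this
  exact hz this

variable {X : Type} [MetricSpace X]

/-- every line has a forward end -/
theorem line_end (l : ℝ → X) (hl : Isometry l) : ∃ a, Line a l := by
  have hc : Isometry fun t : ℝ≥0 => l t := hl.comp isometry_subtype_coe
  exact ⟨mk ⟨fun t => l t, hc⟩, hl, ⟨fun t => l t, hc⟩, fun _ => rfl, rfl⟩

/-- the end of a rank one axis is isolated for the angle metric -/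
theorem iso (hA : SAff) (hH : SHalf) (hc : Core X) (φ : X ≃ᵢ X) (l : ℝ → X) (τ : ℝ) (a : Bd X)
    (hτ : 0 < τ) (hφ : ∀ t, φ (l t) = l (t + τ)) (ha : Line a l)
    (hno : ¬ ∃ F : ℝ → ℝ≥0 → X, (∀ t, F t 0 = l t) ∧
      ∀ s t a b, dist (F s a) (F t b) ^ 2 = (s - t) ^ 2 + ((a : ℝ) - (b : ℝ)) ^ 2)
    (η : Bd X) (hη : η ≠ a) : ang η a = π := by
  rw [hc.c5.symm]
  by_contra hne
  have h1 : ang a η < π := lt_of_le_of_ne (hc.c4.lepi a η) hne
  have h0 : 0 < ang a η :=
    lt_of_le_of_ne (hc.c4.nn a η) fun e => hη (hc.c5.eq a η e.symm).symm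
  obtain ⟨η', h'⟩ := hA X φ l τ a η hc hτ hφ ha
  exact hno (hH X l η' (ang a η) hc ha.1 h0 h1 h')

/-- an isolated point is moved by the group -/
theorem moved [ProperSpace X] {G : Type} [Group G] (hF : SFix) (ρ : G →* X ≃ᵢ X) (hX : CAT0 X)
    (hG : Geometric ρ) (hS : ¬ SphereLike (Bd X)) (a : Bd X)
    (ha : ∀ η, η ≠ a → ang η a = π) : ∃ g, act (ρ g) a ≠ a := by
  by_contra hc
  have hfix : ∀ g, act (ρ g) a = a := fun g => by
    by_contra h
    exact hc ⟨g, h⟩
  obtain ⟨X', _, p, q, -, hs, hang⟩ := hF X G ρ a hX hG hfix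
  obtain ⟨z, hza, hzp⟩ := three hS a p
  rcases hs.surj z with e | e | ⟨v, θ, hθ, e⟩
  · exact hza e
  · exact hzp e
  · have h1 := hang v v θ ⟨hθ.1.le, hθ.2.le⟩ 0 ⟨le_rfl, Real.pi_pos.le⟩
    rw [hs.zero, e, ha z hza, Real.cos_pi, Real.cos_zero, Real.sin_zero] at h1
    have h2 : Real.cos π < Real.cos θ :=
      Real.cos_lt_cos_of_nonneg_of_le_pi hθ.1.le le_rfl hθ.2
    rw [Real.cos_pi] at h2
    linarith

/-- the orbit of an isolated point that is moved is dense -/
theorem dense {G : Type} [Group G] (ρ : G →* X ≃ᵢ X) (hc : Core X)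
    (hP : ∀ ξ, ∃ ζ, Push ρ ζ ξ) (a : Bd X) (ha : ∀ η, η ≠ a → ang η a = π)
    (hm : ∃ g, act (ρ g) a ≠ a) (P : Set (Bd X)) (hPo : IsOpen P) (hPn : P.Nonempty) :
    ∃ g, act (ρ g) a ∈ P := by
  have := hc.c2.t2
  obtain ⟨ξ, hξ⟩ := hPn
  obtain ⟨ζ, hζ⟩ := hP ξ
  by_cases e : ζ = a
  · obtain ⟨g0, hg0⟩ := hm
    obtain ⟨g, hg⟩ := hζ {act (ρ g0) a} isClosed_singleton
      (fun η hη => by rw [mem_singleton_iff.1 hη, e]; exact ha _ hg0) P hPo hξ
    refine ⟨g * g0, ?_⟩
    rw [map_mul, act_mul]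
    exact hg _ rfl
  · obtain ⟨g, hg⟩ := hζ {a} isClosed_singleton
      (fun η hη => by rw [mem_singleton_iff.1 hη, hc.c5.symm]; exact ha _ e) P hPo hξ
    exact ⟨g, hg _ rfl⟩

end SepRA

open SepRA in
theorem sSepR : SCore → SFix → SDyn → SAff → SHalf → SSepR := by
  intro hCore hF hDyn hA hH X G _ _ _ ρ hX hG hR hS
  have hc : Core X := hCore X hX
  obtain ⟨g, l, τ, hτ, hl, hg, hno⟩ := hR
  obtain ⟨a, ha⟩ := line_end l hl
  have hl' : Isometry fun t : ℝ => l (-t) := hl.comp isometry_neg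
  obtain ⟨b, hb⟩ := line_end _ hl'
  have hia : ∀ η, η ≠ a → ang η a = π := iso hA hH hc (ρ g) l τ a hτ hg ha hno
  have hib : ∀ η, η ≠ b → ang η b = π := by
    refine iso hA hH hc (ρ g).symm (fun t => l (-t)) τ b hτ (fun t => ?_) hb ?_
    · rw [IsometryEquiv.symm_apply_eq, hg]
      congr 1
      ring
    · rintro ⟨F, h0, hd⟩
      refine hno ⟨fun t => F (-t), fun t => ?_, fun s t x y => ?_⟩
      · simp only [h0, neg_neg]
      · simp only [hd]
        ring
  obtain ⟨hP1, hP2⟩ := hDyn X G ρ hc hG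
  have hpush : Push ρ b a := hP2 g l τ a b hτ hg ha hb
  have hda := dense ρ hc hP1 a hia (moved hF ρ hX hG hS a hia)
  have hdb := dense ρ hc hP1 b hib (moved hF ρ hX hG hS b hib)
  have := hc.c2.t2
  refine ⟨sep_of hS fun U P hU hUn hP hPn => ?_, ?_⟩
  · obtain ⟨k1, h1⟩ := hdb U hU hUn
    obtain ⟨k2, h2⟩ := hda P hP hPn
    obtain ⟨g', hg'⟩ := hpush (act (ρ k1) ⁻¹' Uᶜ) (hU.isClosed_compl.preimage (act_cont _))
      (fun η hη => hib η fun e => hη (e ▸ h1)) (act (ρ k2) ⁻¹' P) (hP.preimage (act_cont _)) h2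
    refine ⟨act (ρ k2 * ρ g' * (ρ k1)⁻¹), act (ρ k2 * ρ g' * (ρ k1)⁻¹)⁻¹, act_cont _, act_cont _,
      act_inv' _, fun y hy => ?_⟩
    rw [act_mul, act_mul]
    refine hg' _ ?_
    show act (ρ k1) (act (ρ k1)⁻¹ y) ∈ Uᶜ
    rw [act_inv']
    exact hy
  · obtain ⟨z, hz, -⟩ := three hS a a
    exact ⟨z, a, hz⟩

end Pool.Agent.MP_0c1703_gt.H58
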