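import Pool.Agent.MP_0c1703_gt.H58.Spec

/-! Fibres of a second suspension structure on the suspension of a join stay in one stratum. -/

namespace Pool.Agent.MP_0c1703_gt.H58

open Set Filter Topology
open scoped Real

namespace StratA

/-- if the identity is null-homotopic near a point of a Sep space, the space is a point -/
theorem eq_of_null {B : Type} [TopologicalSpace B] (hB : Sep B) {b : B} {U : Set B}
    (hU : IsOpen U) (hb : b ∈ U) (h : NullOn (fun x : B => x) U) (a : B) : a = b := by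
  refine hB a b fun U₀ _ _ => ⟨U, hU, hb, ?_⟩
  intro S _ f hf _
  obtain ⟨H, s₀, hH, h0, h1⟩ := h
  refine ⟨fun w => f (H w), f s₀, hf.comp_continuousOn hH, fun y hy => ?_, fun y hy => ?_⟩
  · simp only [h0 y hy]
  · simp only [h1 y hy]

theorem join_cpt {Y A B : Type} [TopologicalSpace Y] [TopologicalSpace A] [CompactSpace A]
    [TopologicalSpace B] [CompactSpace B] {j : A × B × ℝ → Y} (hj : JoinS Y A B j) :
    CompactSpace Y := by
  refine ⟨?_⟩
  have h : IsCompact ((univ : Set A) ×ˢ ((univ : Set B) ×ˢ Icc (0 : ℝ) 1)) :=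
    isCompact_univ.prod (isCompact_univ.prod isCompact_Icc)
  have h2 := h.image hj.cont
  have h3 : j '' ((univ : Set A) ×ˢ ((univ : Set B) ×ˢ Icc (0 : ℝ) 1)) = univ := by
    refine eq_univ_of_forall fun y => ?_
    obtain ⟨a, b, s, hs, rfl⟩ := hj.surj y
    exact ⟨(a, b, s), ⟨trivial, trivial, hs⟩, rfl⟩
  rwa [h3] at h2

end StratA

open StratA in
theorem sStrat : SCoord → SCoordJ → SFlat → SStrat := by
  intro hC hJ hF Z Y V A B _ _ _ _ _ _ _ _ _ _ _ _ n p q q' j hA hB hj hq hq' v a b θ₀ hθ₀ θ hθ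
    hz θ₁ hθ₁
  have : CompactSpace Y := join_cpt hj
  have : Nonempty Y := ⟨j (a, b, 0)⟩
  obtain ⟨hT2, -, pr, th, thc, prc, thq, prq, qpr, hW⟩ := hC Z Y n p q hq
  obtain ⟨-, -, pr', th', thc', prc', thq', prq', qpr', hW'⟩ := hC Z V n p q' hq'
  have := hT2
  obtain ⟨α, β, s, sc, αc, βc, js, Dc, sj⟩ := hJ Y A B j hj
  set W : Set Z := {n, p}ᶜ with hWdef
  have Wo : IsOpen W := (Set.toFinite _).isClosed.isOpen_compl
  have qW : ∀ y, ∀ t ∈ Ioo 0 π, q (y, t) ∈ W := fun y t ht => by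
    rw [hW, thq y t (Ioo_subset_Icc_self ht)]; exact ht
  have qW' : ∀ y, ∀ t ∈ Ioo 0 π, q' (y, t) ∈ W := fun y t ht => by
    rw [hW', thq' y t (Ioo_subset_Icc_self ht)]; exact ht
  have Sc : ContinuousOn (fun z => s (pr z)) W := sc.comp_continuousOn prc
  set O : Set Z := W ∩ (fun z => s (pr z)) ⁻¹' Iio 1 with hOdef
  have Oo : IsOpen O := Sc.isOpen_inter_preimage Wo isOpen_Iio
  have hch : Chart O (fun z => α (pr z)) := by
    refine ⟨Oo, αc.comp (prc.mono inter_subset_left) fun z hz => hz.2, fun z hz => ?_⟩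
    have ht : th z ∈ Ioo 0 π := (hW z).1 hz.1
    have hs1 : s (pr z) < 1 := hz.2
    refine ⟨univ, fun a' => q (j (a', β (pr z), s (pr z)), th z), isOpen_univ, trivial, ?_, ?_,
      fun a' _ => ⟨⟨qW _ _ ht, ?_⟩, ?_⟩⟩
    · have := hq.cont
      have := hj.cont
      fun_prop
    · simp only [(js (pr z)).2, (qpr z).2]
    · simp only [mem_preimage, prq _ _ ht, (sj _ _ _ (js (pr z)).1).1]
      exact hs1
    · simp only [prq _ _ ht]
      exact (sj _ _ _ (js (pr z)).1).2.1 hs1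
  obtain ⟨-, -, flat⟩ := hF Z V A n p q' O _ hq' hA hch
  have flat2 : ∀ v x y, x ∈ Ioo 0 π → y ∈ Ioo 0 π → (∀ t ∈ uIcc x y, q' (v, t) ∈ O) →
      α (pr (q' (v, x))) = α (pr (q' (v, y))) := by
    intro v x y hx hy h
    rcases le_total x y with hxy | hxy
    · rw [uIcc_of_le hxy] at h
      exact flat v x y hx.1 hxy hy.2 h
    · rw [uIcc_of_ge hxy] at h
      exact (flat v y x hy.1 hxy hx.2 h).symm
  have fibc : Continuous fun t : ℝ => q' (v, t) := hq'.cont.comp (by fun_prop)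
  -- the set of parameters in the stratum is open
  have hopen : ∀ t₀ ∈ Ioo 0 π, s (pr (q' (v, t₀))) = 0 →
      ∀ᶠ t₁ in 𝓝 t₀, s (pr (q' (v, t₁))) = 0 := by
    intro t₀ ht₀ h0
    set z := q' (v, t₀) with hzdef
    have zW : z ∈ W := qW' v t₀ ht₀
    have zO : z ∈ O := ⟨zW, by simp only [mem_preimage, h0, mem_Iio]; exact one_pos⟩
    have hbox : (q' ⁻¹' O) ∩ (univ ×ˢ Ioo 0 π) ∈ 𝓝 (v, t₀) :=
      inter_mem ((Oo.preimage hq'.cont).mem_nhds zO)
        ((isOpen_univ.prod isOpen_Ioo).mem_nhds ⟨trivial, ht₀⟩)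
    rw [nhds_prod_eq, mem_prod_iff] at hbox
    obtain ⟨U₀, hU₀, J, hJ, hUJ⟩ := hbox
    obtain ⟨l, u, hlu, hJ'⟩ := mem_nhds_iff_exists_Ioo_subset.1 hJ
    have box : ∀ v' ∈ U₀, ∀ t ∈ Ioo l u, q' (v', t) ∈ O ∧ t ∈ Ioo 0 π := fun v' hv' t ht =>
      ⟨(hUJ (mk_mem_prod hv' (hJ' ht))).1, (hUJ (mk_mem_prod hv' (hJ' ht))).2.2⟩
    have hv : v ∈ U₀ := mem_of_mem_nhds hU₀
    filter_upwards [isOpen_Ioo.mem_nhds hlu] with t₁ ht₁
    by_contra hne
    obtain ⟨z1O, ht₁'⟩ := box v hv t₁ ht₁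
    set z₁ := q' (v, t₁) with hz₁def
    have s1pos : 0 < s (pr z₁) := lt_of_le_of_ne (js _).1.1 (Ne.symm hne)
    have s1lt : s (pr z₁) < 1 := z1O.2
    have s1m : s (pr z₁) ∈ Icc (0 : ℝ) 1 := (js _).1
    have th1 : th z₁ ∈ Ioo 0 π := (hW _).1 z1O.1
    have th0 : th z ∈ Ioo 0 π := (hW _).1 zW
    set δ := t₁ - t₀ with hδ
    -- translation along the fibres of the second structure
    set Tr : Z → Z := fun w => q' (pr' w, th' w + δ) with hTr
    have Trc : ContinuousOn Tr W :=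
      hq'.cont.comp_continuousOn (prc'.prodMk (thc'.add continuous_const).continuousOn)
    set y : B → Z := fun b' => q (j (α (pr z₁), b', s (pr z₁)), th z₁) with hy
    have yc : Continuous y := by
      have := hq.cont
      have := hj.cont
      simp only [hy]
      fun_prop
    have yW : ∀ b', y b' ∈ W := fun b' => qW _ _ th1
    have y1 : y (β (pr z₁)) = z₁ := by simp only [hy, (js (pr z₁)).2, (qpr z₁).2]
    have pyc : Continuous fun b' => pr' (y b') := prc'.comp_continuous yc yW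
    have tyc : Continuous fun b' => th' (y b') := thc'.comp yc
    set w : B → Z := fun b' => q' (pr' (y b'), th' (y b') - δ) with hw
    have wc : Continuous w := hq'.cont.comp (pyc.prodMk (tyc.sub continuous_const))
    have pz1 : pr' z₁ = v := prq' v t₁ ht₁'
    have tz1 : th' z₁ = t₁ := thq' v t₁ (Ioo_subset_Icc_self ht₁')
    have pz : pr' z = v := prq' v t₀ ht₀
    have tz : th' z = t₀ := thq' v t₀ (Ioo_subset_Icc_self ht₀)
    have w1 : w (β (pr z₁)) = z := by
      simp only [hw, y1, pz1, tz1, hδ, sub_sub_cancel, hzdef]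
    have Trz : Tr z = z₁ := by
      simp only [hTr, pz, tz, hδ, add_sub_cancel, hz₁def]
    -- the deformation
    set D : Z × ℝ → Z := fun x => q (j (α (pr x.1), β (pr x.1), (1 - x.2) * s (pr x.1)),
      (1 - x.2) * th x.1 + x.2 * th z) with hD
    have DC : ContinuousOn D (O ×ˢ Icc 0 1) := by
      refine hq.cont.comp_continuousOn (ContinuousOn.prodMk ?_ ?_)
      · have h1 : ContinuousOn (fun x : Z × ℝ => (pr x.1, 1 - x.2)) (O ×ˢ Icc 0 1) :=
          (prc.comp continuous_fst.continuousOn fun x hx => hx.1.1).prodMk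
            (continuous_const.sub continuous_snd).continuousOn
        exact Dc.comp h1 fun x hx => ⟨hx.1.2, by linarith [hx.2.2], by linarith [hx.2.1]⟩
      · exact Continuous.continuousOn (by fun_prop)
    have Dz : ∀ r, D (z, r) = z := fun r => by
      have e : (1 - r) * th z + r * th z = th z := by ring
      have e2 := (js (pr z)).2
      rw [h0] at e2
      simp only [hD, h0, mul_zero, e, e2, (qpr z).2]
    set N : Set Z := W ∩ Tr ⁻¹' (W ∩ (fun z => s (pr z)) ⁻¹' Ioi 0) with hN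
    have No : IsOpen N :=
      Trc.isOpen_inter_preimage Wo (Sc.isOpen_inter_preimage Wo isOpen_Ioi)
    have zN : z ∈ N := ⟨zW, by rw [mem_preimage, Trz]; exact ⟨z1O.1, s1pos⟩⟩
    have Gc : ContinuousOn (fun x => β (pr (Tr x))) N :=
      βc.comp (prc.comp (Trc.mono inter_subset_left) fun x hx => hx.2.1) fun x hx => hx.2.2
    have tube : ∀ᶠ x in 𝓝 z, ∀ r ∈ Icc (0 : ℝ) 1, (x, r) ∈ O ×ˢ Icc (0 : ℝ) 1 → D (x, r) ∈ N := by
      refine isCompact_Icc.eventually_forall_of_forall_eventually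
        (P := fun x r => (x, r) ∈ O ×ˢ Icc (0 : ℝ) 1 → D (x, r) ∈ N) fun r hr => ?_
      have h1 : ContinuousWithinAt D (O ×ˢ Icc 0 1) (z, r) := DC _ ⟨zO, hr⟩
      have h2 : ∀ᶠ x in 𝓝[O ×ˢ Icc 0 1] (z, r), D x ∈ N :=
        h1.eventually (by rw [Dz]; exact No.mem_nhds zN)
      exact eventually_nhdsWithin_iff.1 h2
    have ev : ∀ᶠ b' in 𝓝 (β (pr z₁)), pr' (y b') ∈ U₀ ∧ th' (y b') ∈ Ioo l u ∧
        th' (y b') - δ ∈ Ioo l u ∧
        ∀ r ∈ Icc (0 : ℝ) 1, (w b', r) ∈ O ×ˢ Icc (0 : ℝ) 1 → D (w b', r) ∈ N := by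
      refine Eventually.and ?_ (Eventually.and ?_ (Eventually.and ?_ ?_))
      · exact pyc.continuousAt.eventually_mem (by rw [y1, pz1]; exact hU₀)
      · exact tyc.continuousAt.eventually_mem (by rw [y1, tz1]; exact isOpen_Ioo.mem_nhds ht₁)
      · have hc : Continuous fun b' => th' (y b') - δ := tyc.sub continuous_const
        refine hc.continuousAt.eventually_mem ?_
        rw [y1, tz1, hδ, sub_sub_cancel]
        exact isOpen_Ioo.mem_nhds hlu
      · exact wc.continuousAt.eventually (by rw [w1]; exact tube)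
    obtain ⟨U, hU, Uo, hbU⟩ := eventually_nhds_iff.1 ev
    have wO : ∀ b' ∈ U, w b' ∈ O := fun b' hb' => (box _ (hU b' hb').1 _ (hU b' hb').2.2.1).1
    have null : NullOn (fun x : B => x) U := by
      refine ⟨fun x => β (pr (Tr (D (w x.1, x.2)))),
        β (pr (Tr (q (j (α (pr z₁), b, 0), th z)))), ?_, fun b' hb' => ?_, fun b' hb' => ?_⟩
      · have h1 : ContinuousOn (fun x : B × ℝ => D (w x.1, x.2)) (U ×ˢ Icc 0 1) :=
          DC.comp ((wc.comp continuous_fst).prodMk continuous_snd).continuousOn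
            fun x hx => ⟨wO _ hx.1, hx.2⟩
        exact Gc.comp h1 fun x hx => (hU _ hx.1).2.2.2 _ hx.2 ⟨wO _ hx.1, hx.2⟩
      · have e1 : D (w b', 0) = w b' := by
          simp only [hD, sub_zero, one_mul, zero_mul, add_zero, (js _).2, (qpr _).2]
        have hm := (box _ (hU b' hb').1 _ (hU b' hb').2.2.1).2
        have e2 : Tr (w b') = y b' := by
          simp only [hTr, hw, prq' _ _ hm, thq' _ _ (Ioo_subset_Icc_self hm), sub_add_cancel,
            (qpr' _).2]
        simp only [e1, e2]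
        simp only [hy, prq _ _ th1]
        exact (sj _ _ _ s1m).2.2 s1pos
      · obtain ⟨h1, h2, h3, -⟩ := hU b' hb'
        have e1 : α (pr (w b')) = α (pr z₁) := by
          have e := flat2 (pr' (y b')) (th' (y b') - δ) (th' (y b')) (box _ h1 _ h3).2
            (box _ h1 _ h2).2 fun t ht => (box _ h1 t (ordConnected_Ioo.uIcc_subset h3 h2 ht)).1
          rw [(qpr' _).2] at e
          simp only [hw, e]
          simp only [hy, prq _ _ th1]
          exact (sj _ _ _ s1m).2.1 s1lt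
        have e2 : D (w b', 1) = q (j (α (pr z₁), b, 0), th z) := by
          simp only [hD, sub_self, zero_mul, zero_add, one_mul, e1]
          rw [hj.zero _ _ b]
        simp only [e2]
    obtain ⟨b₁, b₂, hb⟩ := exists_pair_ne B
    exact hb ((eq_of_null hB Uo hbU null b₁).trans (eq_of_null hB Uo hbU null b₂).symm)
  -- connectedness
  have gc : ContinuousOn (fun t : ℝ => s (pr (q' (v, t)))) (Ioo 0 π) :=
    Sc.comp fibc.continuousOn fun t ht => qW' v t ht
  have h00 : s (pr (q' (v, θ₀))) = 0 := by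
    rw [hz, prq _ _ hθ]
    exact (sj _ _ _ ⟨le_rfl, zero_le_one⟩).1
  have hall : ∀ t ∈ Ioo 0 π, s (pr (q' (v, t))) = 0 := by
    have o1 : IsOpen {t | t ∈ Ioo 0 π ∧ s (pr (q' (v, t))) = 0} :=
      isOpen_iff_mem_nhds.2 fun t ht => (isOpen_Ioo.eventually_mem ht.1).and (hopen t ht.1 ht.2)
    have o2 : IsOpen (Ioo 0 π ∩ (fun t : ℝ => s (pr (q' (v, t)))) ⁻¹' {0}ᶜ) :=
      gc.isOpen_inter_preimage isOpen_Ioo isOpen_compl_singleton
    have hs := isPreconnected_Ioo.subset_left_of_subset_union (s := Ioo 0 π) o1 o2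
      (disjoint_left.2 fun t h1 h2 => h2.2 h1.2)
      (fun t ht => by
        by_cases h : s (pr (q' (v, t))) = 0
        · exact Or.inl ⟨ht, h⟩
        · exact Or.inr ⟨ht, h⟩) ⟨θ₀, hθ₀, hθ₀, h00⟩
    exact fun t ht => (hs ht).2
  have ha : α (pr (q' (v, θ₁))) = a := by
    rw [flat2 v θ₁ θ₀ hθ₁ hθ₀ fun t ht => ?_, hz, prq _ _ hθ]
    · exact (sj _ _ _ ⟨le_rfl, zero_le_one⟩).2.1 one_pos
    · have ht' := ordConnected_Ioo.uIcc_subset hθ₁ hθ₀ ht
      exact ⟨qW' v t ht', by simp only [mem_preimage, hall t ht', mem_Iio]; exact one_pos⟩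
  refine ⟨th (q' (v, θ₁)), (hW _).1 (qW' v θ₁ hθ₁), ?_⟩
  have e := (js (pr (q' (v, θ₁)))).2
  rw [hall θ₁ hθ₁, ha, hj.zero _ _ b] at e
  rw [e, (qpr _).2]

end Pool.Agent.MP_0c1703_gt.H58
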