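import Pool.Agent.MP_0c1703_gt.H58.Spec

/-! Row Tau: a continuous strictly monotone function on a family of arcs in the lens. -/

namespace Pool.Agent.MP_0c1703_gt.H58

open Set Filter Topology
open scoped NNReal ENNReal Real

namespace TauA

theorem lens_convex : Convex ℝ Lens := by
  intro x hx y hy a b ha hb hab
  obtain ⟨hx1, hx2, hx3, hx4⟩ := hx
  obtain ⟨hy1, hy2, hy3, hy4⟩ := hy
  have hc := strictConcaveOn_sin_Icc.concaveOn.2 (⟨hx1, hx2⟩ : x.2 ∈ Icc 0 π)
    (⟨hy1, hy2⟩ : y.2 ∈ Icc 0 π) ha hb hab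
  simp only [smul_eq_mul] at hc
  refine ⟨?_, ?_, ?_, ?_⟩
  · show 0 ≤ a * x.2 + b * y.2
    positivity
  · show a * x.2 + b * y.2 ≤ π
    have h1 : a * x.2 ≤ a * π := mul_le_mul_of_nonneg_left hx2 ha
    have h2 : b * y.2 ≤ b * π := mul_le_mul_of_nonneg_left hy2 hb
    have h3 : a * π + b * π = π := by rw [← add_mul, hab, one_mul]
    linarith
  · show 0 ≤ a * x.1 + b * y.1
    positivity
  · show a * x.1 + b * y.1 ≤ Real.sin (a * x.2 + b * y.2)
    have h1 : a * x.1 ≤ a * Real.sin x.2 := mul_le_mul_of_nonneg_left hx4 ha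
    have h2 : b * y.1 ≤ b * Real.sin y.2 := mul_le_mul_of_nonneg_left hy4 hb
    linarith

theorem zero_mem : ((0, 0) : ℝ × ℝ) ∈ Lens := by
  refine ⟨le_rfl, Real.pi_pos.le, le_rfl, ?_⟩
  simp

theorem arc_sub {L : ℝ → ℝ × ℝ} (h : Arc L) : L '' Icc 0 π ⊆ Lens := by
  rintro _ ⟨t, ⟨h0, h1⟩, rfl⟩
  rcases h0.eq_or_lt with rfl | h0
  · rw [h.zero]; exact zero_mem
  rcases h1.eq_or_lt with rfl | h1
  · rw [h.pi]
    refine ⟨Real.pi_pos.le, le_rfl, le_rfl, ?_⟩
    simp
  · exact (h.mem t ⟨h0, h1⟩).1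

theorem left_sub {L : ℝ → ℝ × ℝ} (h : Arc L) : LeftOf L ⊆ Lens := by
  rintro w (hw | ⟨y, hy⟩)
  · exact arc_sub h hw
  · exact hy.target_mem.1

theorem zero_left {L : ℝ → ℝ × ℝ} (h : Arc L) : ((0, 0) : ℝ × ℝ) ∈ LeftOf L :=
  Or.inl ⟨0, ⟨le_rfl, Real.pi_pos.le⟩, h.zero⟩

theorem left_ne {L : ℝ → ℝ × ℝ} (h : Arc L) : (LeftOf L).Nonempty := ⟨_, zero_left h⟩

theorem im_ne (L : ℝ → ℝ × ℝ) : (L '' Icc 0 π).Nonempty :=
  ⟨L 0, 0, ⟨le_rfl, Real.pi_pos.le⟩, rfl⟩

theorem bound {L : ℝ → ℝ × ℝ} (h : Arc L) {w : ℝ × ℝ} (hw : w ∈ Lens) :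
    Metric.infDist w (LeftOf L) ≤ 4 := by
  refine (Metric.infDist_le_dist_of_mem (zero_left h)).trans ?_
  obtain ⟨h1, h2, h3, h4⟩ := hw
  rw [Prod.dist_eq]
  have := Real.pi_le_four
  have := Real.sin_le_one w.2
  refine max_le ?_ ?_
  · rw [Real.dist_eq, sub_zero, abs_of_nonneg h3]; linarith
  · rw [Real.dist_eq, sub_zero, abs_of_nonneg h1]; linarith

theorem right_eq {L : ℝ → ℝ × ℝ} (h : Arc L) (hd : Disjoint (LeftOf L) (RightOf L))
    {w : ℝ × ℝ} (hw : w ∈ RightOf L) :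
    Metric.infDist w (LeftOf L) = Metric.infDist w (L '' Icc 0 π) := by
  refine le_antisymm (Metric.infDist_le_infDist_of_subset subset_union_left (im_ne L)) ?_
  rw [Metric.le_infDist (left_ne h)]
  intro z hz
  obtain ⟨y, hy⟩ := hw
  have hseg : segment ℝ w z ⊆ Lens := lens_convex.segment_subset hy.target_mem.1 (left_sub h hz)
  by_cases hm : ∃ m ∈ segment ℝ w z, m ∈ L '' Icc 0 π
  · obtain ⟨m, hm1, hm2⟩ := hm
    have h1 := dist_add_dist_of_mem_segment hm1
    have h2 := Metric.infDist_le_dist_of_mem (x := w) hm2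
    have h3 : 0 ≤ dist m z := dist_nonneg
    linarith
  · exfalso
    have hj : JoinedIn (Lens \ L '' Icc 0 π) w z :=
      JoinedIn.of_segment_subset fun m hm1 => ⟨hseg hm1, fun hm2 => hm ⟨m, hm1, hm2⟩⟩
    exact Set.disjoint_left.1 hd hz ⟨y, hy.trans hj⟩

theorem right_pos {L : ℝ → ℝ × ℝ} (h : Arc L) (hd : Disjoint (LeftOf L) (RightOf L))
    {w : ℝ × ℝ} (hw : w ∈ RightOf L) : 0 < Metric.infDist w (LeftOf L) := by
  rw [right_eq h hd hw]
  obtain ⟨y, hy⟩ := hw
  have hc : IsClosed (L '' Icc 0 π) := (isCompact_Icc.image h.cont).isClosed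
  exact (hc.notMem_iff_infDist_pos (im_ne L)).1 hy.target_mem.2

section fam
variable {V : Type} [TopologicalSpace V] {L : V → ℝ → ℝ × ℝ}

theorem joined_near (hL : Continuous (fun p : V × ℝ => L p.1 p.2)) (v₀ : V) {a w : ℝ × ℝ}
    (h : JoinedIn (Lens \ L v₀ '' Icc 0 π) a w) :
    ∀ᶠ v in 𝓝 v₀, JoinedIn (Lens \ L v '' Icc 0 π) a w := by
  obtain ⟨γ, hγ⟩ := h
  have hc : IsClosed (range γ) := (isCompact_range γ.continuous).isClosed
  have key : ∀ᶠ v in 𝓝 v₀, ∀ t ∈ Icc (0 : ℝ) π, L v t ∉ range γ := by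
    refine isCompact_Icc.eventually_forall_of_forall_eventually fun t ht => ?_
    have ho : IsOpen ((fun p : V × ℝ => L p.1 p.2) ⁻¹' (range γ)ᶜ) := hc.isOpen_compl.preimage hL
    refine ho.mem_nhds ?_
    rintro ⟨s, hs⟩
    exact (hγ s).2 ⟨t, ht, hs.symm⟩
  filter_upwards [key] with v hv
  refine ⟨γ, fun s => ⟨(hγ s).1, ?_⟩⟩
  rintro ⟨t, ht, hts⟩
  exact hv t ht ⟨s, hts.symm⟩

theorem cont_im (hL : Continuous (fun p : V × ℝ => L p.1 p.2)) (w : ℝ × ℝ) :
    Continuous fun v => Metric.infDist w (L v '' Icc 0 π) := by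
  have h1 : ∀ v, Metric.infDist w (L v '' Icc 0 π) =
      sInf ((fun t => dist w (L v t)) '' Icc 0 π) := by
    intro v
    rw [Metric.infDist_eq_iInf, ← sInf_image', image_image]
  simp only [h1]
  exact isCompact_Icc.continuous_sInf (f := fun v t => dist w (L v t))
    (continuous_const.dist hL)

theorem cont_g (hL : Continuous (fun p : V × ℝ => L p.1 p.2)) (hA : ∀ v, Arc (L v))
    (hd : ∀ v, Disjoint (LeftOf (L v)) (RightOf (L v)))
    (hc : ∀ v, Lens ⊆ LeftOf (L v) ∪ RightOf (L v)) {w : ℝ × ℝ} (hw : w ∈ Lens) :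
    Continuous fun v => Metric.infDist w (LeftOf (L v)) := by
  refine continuous_iff_continuousAt.2 fun v₀ => ?_
  rcases hc v₀ hw with (h | ⟨y, hy⟩) | ⟨y, hy⟩
  · have h0 : Metric.infDist w (LeftOf (L v₀)) = 0 := Metric.infDist_zero_of_mem (Or.inl h)
    have h1 : Metric.infDist w (L v₀ '' Icc 0 π) = 0 := Metric.infDist_zero_of_mem h
    have h2 := (cont_im hL w).continuousAt (x := v₀)
    unfold ContinuousAt at h2 ⊢
    simp only [h1] at h2
    simp only [h0]
    exact squeeze_zero (fun _ => Metric.infDist_nonneg)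
      (fun v => Metric.infDist_le_infDist_of_subset subset_union_left (im_ne (L v))) h2
  · refine (continuousAt_const (y := (0 : ℝ))).congr ?_
    filter_upwards [joined_near hL v₀ hy] with v hv
    have hm : w ∈ LeftOf (L v) := Or.inr ⟨y, hv⟩
    exact (Metric.infDist_zero_of_mem hm).symm
  · refine (cont_im hL w).continuousAt.congr ?_
    filter_upwards [joined_near hL v₀ hy] with v hv
    exact (right_eq (hA v) (hd v) ⟨y, hv⟩).symm

end fam

end TauA

open TauA in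
theorem sTau : SOrd → STau := by
  intro hO V _ L hL hA hc
  have hd : ∀ v, Disjoint (LeftOf (L v)) (RightOf (L v)) := fun v => hO.1 _ (hA v)
  have : Nonempty Lens := ⟨⟨_, zero_mem⟩⟩
  set w : ℕ → Lens := TopologicalSpace.denseSeq Lens with hw
  have hdense : DenseRange w := TopologicalSpace.denseRange_denseSeq Lens
  set g : ℕ → V → ℝ := fun k v => (1 / 2 : ℝ) ^ k * Metric.infDist (w k : ℝ × ℝ) (LeftOf (L v))
    with hg
  have hsum4 : Summable fun k : ℕ => (1 / 2 : ℝ) ^ k * 4 := summable_geometric_two.mul_right 4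
  have hnn : ∀ k v, 0 ≤ g k v := fun k v =>
    mul_nonneg (by positivity) Metric.infDist_nonneg
  have hle : ∀ k v, g k v ≤ (1 / 2 : ℝ) ^ k * 4 := fun k v =>
    mul_le_mul_of_nonneg_left (bound (hA v) (w k).2) (by positivity)
  have hsum : ∀ v, Summable fun k => g k v := fun v =>
    Summable.of_nonneg_of_le (fun k => hnn k v) (fun k => hle k v) hsum4
  have hmono : ∀ v v', LeftOf (L v) ⊆ LeftOf (L v') → ∀ k, g k v' ≤ g k v := fun v v' h k =>
    mul_le_mul_of_nonneg_left (Metric.infDist_le_infDist_of_subset h (left_ne (hA v)))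
      (by positivity)
  refine ⟨fun v => -∑' k, g k v, ?_, ?_, ?_⟩
  · refine Continuous.neg (continuous_tsum (fun k => ?_) hsum4 fun k v => ?_)
    · exact continuous_const.mul (cont_g hL hA hd hc (w k).2)
    · rw [Real.norm_eq_abs, abs_of_nonneg (hnn k v)]
      exact hle k v
  · intro v v' h
    exact neg_le_neg ((hsum v').tsum_le_tsum (hmono v v' h) (hsum v))
  · intro v v' h hR
    have hm : π / 2 ∈ Ioo 0 π := ⟨by positivity, by linarith [Real.pi_pos]⟩
    have h1 : 0 < Metric.infDist (L v' (π / 2)) (LeftOf (L v)) :=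
      right_pos (hA v) (hd v) (hR ⟨_, hm, rfl⟩)
    have h2 : Metric.infDist (L v' (π / 2)) (LeftOf (L v')) = 0 :=
      Metric.infDist_zero_of_mem (Or.inl ⟨_, Ioo_subset_Icc_self hm, rfl⟩)
    have ho : IsOpen {z : Lens | Metric.infDist (z : ℝ × ℝ) (LeftOf (L v')) <
        Metric.infDist (z : ℝ × ℝ) (LeftOf (L v))} :=
      isOpen_lt ((Metric.continuous_infDist_pt _).comp continuous_subtype_val)
        ((Metric.continuous_infDist_pt _).comp continuous_subtype_val)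
    obtain ⟨k, hk⟩ := hdense.exists_mem_open ho
      ⟨⟨L v' (π / 2), ((hA v').mem _ hm).1⟩, by
        show Metric.infDist (L v' (π / 2)) (LeftOf (L v')) <
          Metric.infDist (L v' (π / 2)) (LeftOf (L v))
        rw [h2]; exact h1⟩
    have hlt : g k v' < g k v := mul_lt_mul_of_pos_left hk (by positivity)
    exact neg_lt_neg ((hsum v').tsum_lt_tsum (hmono v v' h) hlt (hsum v))

end Pool.Agent.MP_0c1703_gt.H58
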