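import Pool.Agent.MP_0c1703_gt.H58.Spec

/-! Words of linear length for a geometric action on a geodesic space. -/

namespace Pool.Agent.MP_0c1703_gt.H58

open Set

namespace WordA

variable {X G : Type} [MetricSpace X] [Group G]

theorem back (h : C1 X) (o z : X) (r : ℝ) (hr : 0 ≤ r) (hz : dist o z ≤ r + 1) :
    ∃ y, dist o y ≤ r ∧ dist y z ≤ 1 := by
  rcases le_or_gt (dist o z) r with l | l
  · exact ⟨z, l, by simp⟩
  · have h0 : (0 : ℝ) ∈ Icc 0 (dist o z) := ⟨le_rfl, dist_nonneg⟩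
    have h1 : r ∈ Icc 0 (dist o z) := ⟨hr, l.le⟩
    have h2 : dist o z ∈ Icc 0 (dist o z) := ⟨dist_nonneg, le_rfl⟩
    have a := h.segd o z 0 h0 r h1
    have b := h.segd o z r h1 _ h2
    rw [h.seg0] at a
    rw [h.seg1] at b
    refine ⟨seg o z r, ?_, ?_⟩
    · rw [a, zero_sub, abs_neg, abs_of_nonneg hr]
    · rw [b, abs_le]
      constructor <;> linarith

theorem shift (ρ : G →* X ≃ᵢ X) (o : X) (a b : G) :
    dist o (ρ (a⁻¹ * b) o) = dist (ρ a o) (ρ b o) := by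
  rw [← (ρ a).dist_eq, ← IsometryEquiv.mul_apply, ← map_mul, mul_inv_cancel_left]

theorem words (h : C1 X) (ρ : G →* X ≃ᵢ X) (o : X) (D : ℝ) (hD : 0 ≤ D)
    (hc : ∀ x, ∃ g, dist x (ρ g o) ≤ D) (N : ℕ) : ∀ (z : X) (g : G), dist o z ≤ N + 1 →
    dist z (ρ g o) ≤ D → ∃ w : List G, (∀ s ∈ w, dist o (ρ s o) ≤ 2 * D + 1) ∧ w.prod = g ∧
      w.length ≤ N + 1 := by
  induction N with
  | zero =>
    intro z g hz hg
    refine ⟨[g], fun s hs => ?_, by simp, by simp⟩
    obtain rfl : s = g := by simpa using hs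
    have := dist_triangle o z (ρ s o)
    simp only [Nat.cast_zero, zero_add] at hz
    linarith
  | succ N ih =>
    intro z g hz hg
    obtain ⟨y, hy, hyz⟩ := back h o z (N + 1) (by positivity) (by push_cast at hz; exact hz)
    obtain ⟨a, ha⟩ := hc y
    obtain ⟨w, hw, hp, hl⟩ := ih y a hy ha
    refine ⟨w ++ [a⁻¹ * g], fun s hs => ?_, by simp [hp], by simpa using hl⟩
    rcases List.mem_append.1 hs with hs | hs
    · exact hw s hs
    · obtain rfl : s = a⁻¹ * g := by simpa using hs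
      rw [shift]
      have := dist_triangle4 (ρ a o) y z (ρ g o)
      rw [dist_comm (ρ a o) y] at this
      linarith

end WordA

theorem sWord : SWord := by
  intro X G _ _ _ ρ o h ⟨hp, K, hK, hc⟩
  obtain ⟨D, hD0, hD⟩ := hK.isBounded.subset_closedBall_lt 0 o
  have hc' : ∀ x, ∃ g, dist x (ρ g o) ≤ D := by
    intro x
    obtain ⟨g, hg⟩ := hc x
    refine ⟨g⁻¹, ?_⟩
    rw [← (ρ g).dist_eq, ← IsometryEquiv.mul_apply, ← map_mul, mul_inv_cancel, map_one]
    exact hD hg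
  refine ⟨D, hD0.le, hc', fun R => ?_, fun g => ?_⟩
  · refine (hp _ (isCompact_closedBall o R)).subset fun g hg => ?_
    have hg' : dist o (ρ g o) ≤ R := hg
    exact ⟨ρ g o, ⟨o, Metric.mem_closedBall_self (dist_nonneg.trans hg'), rfl⟩,
      Metric.mem_closedBall'.2 hg'⟩
  · obtain ⟨w, hw, hp, hl⟩ := WordA.words h ρ o D hD0.le hc' ⌊dist o (ρ g o)⌋₊ (ρ g o) g
      (Nat.lt_floor_add_one _).le (by simpa using hD0.le)
    refine ⟨w, hw, hp, ?_⟩
    have a : (w.length : ℝ) ≤ (⌊dist o (ρ g o)⌋₊ : ℝ) + 1 := by exact_mod_cast hl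
    have b := Nat.floor_le (dist_nonneg : 0 ≤ dist o (ρ g o))
    linarith

end Pool.Agent.MP_0c1703_gt.H58
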