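import Pool.Agent.MP_0c1703_gt.H58R.Final
import Pool.Agent.MP_0c1703_gt.H58R.C1
import Pool.Agent.MP_0c1703_gt.H58R.C2
import Pool.Agent.MP_0c1703_gt.H58R.C3
import Pool.Agent.MP_0c1703_gt.H58R.C4a
import Pool.Agent.MP_0c1703_gt.H58R.C4
import Pool.Agent.MP_0c1703_gt.H58R.C5
import Pool.Agent.MP_0c1703_gt.H58R.Mid
import Pool.Agent.MP_0c1703_gt.H58R.C6
import Pool.Agent.MP_0c1703_gt.H58R.Par
import Pool.Agent.MP_0c1703_gt.H58R.Pyth
import Pool.Agent.MP_0c1703_gt.H58R.Split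
import Pool.Agent.MP_0c1703_gt.H58R.Sec
import Pool.Agent.MP_0c1703_gt.H58R.Word
import Pool.Agent.MP_0c1703_gt.H58R.Rat
import Pool.Agent.MP_0c1703_gt.H58R.GeoK
import Pool.Agent.MP_0c1703_gt.H58R.Polar
import Pool.Agent.MP_0c1703_gt.H58R.Onto
import Pool.Agent.MP_0c1703_gt.H58R.Dyn
import Pool.Agent.MP_0c1703_gt.H58R.Aff
import Pool.Agent.MP_0c1703_gt.H58R.Half
import Pool.Agent.MP_0c1703_gt.H58R.SepR
import Pool.Agent.MP_0c1703_gt.H58R.SepD
import Pool.Agent.MP_0c1703_gt.H58R.Coord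
import Pool.Agent.MP_0c1703_gt.H58R.CoordJ
import Pool.Agent.MP_0c1703_gt.H58R.Lit
import Pool.Agent.MP_0c1703_gt.H58R.Flat
import Pool.Agent.MP_0c1703_gt.H58R.Canc
import Pool.Agent.MP_0c1703_gt.H58R.Strat
import Pool.Agent.MP_0c1703_gt.H58R.Cells
import Pool.Agent.MP_0c1703_gt.H58R.Ord
import Pool.Agent.MP_0c1703_gt.H58R.Tau
import Pool.Agent.MP_0c1703_gt.H58R.Homeo

/-! All rows together. -/

namespace Pool.Agent.MP_0c1703_gt.H58

theorem core : SCore := sCore sC1 sC2 sC3 sC4a sC4 sC5 sMid sC6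

theorem fix : SFix := sFix core sPar sPyth sSec sSplit (sGeoK sWord sRat) sPolar sOnto

theorem main : SMain := sMain core fix sLit (sSuspMap sCoord)

theorem flat : SFlat := sFlat sCoord

theorem cancJ : SCancJ :=
  sCancJ (sCells sCoord sCoordJ flat (sStrat sCoord sCoordJ flat))
    (sHomeo sCoord sCoordJ sOrd (sTau sOrd))

theorem final (Y : Type) [TopologicalSpace Y]
    (hY : Good Y ∨ ∃ (A B : Type) (_ : TopologicalSpace A) (_ : TopologicalSpace B),
      Good A ∧ Good B ∧ Nonempty (Y ≃ₜ Join A B))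
    (hr : TitsRigid Y) : TitsRigid (Join Bool Y) :=
  final_of core (sSepR core fix sDyn sAff sHalf) (sSepD core fix sDyn) sLit (sCanc sCoord flat)
    cancJ main Y hY hr

end Pool.Agent.MP_0c1703_gt.H58
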