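import Pool.Agent.MP_0c1703_gt.H58.Spec2

namespace Pool.Agent.MP_0c1703_gt.H58

open Set Filter Topology
open scoped Real

namespace CellsGA

theorem compact_of_cyl {Y C A B : Type} [TopologicalSpace Y] [TopologicalSpace C] [CompactSpace C]
    {α₀ : C → A} {β₀ : C → B} {j : C × ℝ → Y} (hj : CylS Y α₀ β₀ j) : CompactSpace Y := by
  constructor
  have h : (univ : Set Y) = j '' (univ ×ˢ Icc (0 : ℝ) 1) := by
    ext y
    simp only [mem_univ, true_iff]
    obtain ⟨c, s, hs, rfl⟩ := hj.surj y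
    exact ⟨(c, s), ⟨trivial, hs⟩, rfl⟩
  rw [h]
  exact (isCompact_univ.prod isCompact_Icc).image hj.cont

theorem swap {Y C A B : Type} [TopologicalSpace Y] [TopologicalSpace C]
    {α₀ : C → A} {β₀ : C → B} {j : C × ℝ → Y} (hj : CylS Y α₀ β₀ j) :
    CylS Y β₀ α₀ (fun w => j (w.1, 1 - w.2)) where
  cont := hj.cont.comp (by fun_prop)
  zero := fun c c' h => by simpa using hj.one c c' h
  one := fun c c' h => by simpa using hj.zero c c' h
  inj := fun c s c' s' hs hs' h => by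
    have h1 : 1 - s ∈ Icc (0 : ℝ) 1 := ⟨by linarith [hs.2], by linarith [hs.1]⟩
    have h2 : 1 - s' ∈ Icc (0 : ℝ) 1 := ⟨by linarith [hs'.2], by linarith [hs'.1]⟩
    obtain ⟨e1, e2, e3, e4⟩ := hj.inj c (1 - s) c' (1 - s') h1 h2 h
    exact ⟨by linarith, fun h => e3 (by linarith), fun h => e2 (by linarith),
      fun h h' => e4 (by linarith) (by linarith)⟩
  surj := fun y => by
    obtain ⟨c, s, hs, rfl⟩ := hj.surj y
    exact ⟨c, 1 - s, ⟨by linarith [hs.2], by linarith [hs.1]⟩, by simp⟩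

/-- a continuous map from an interval to a totally disconnected space is constant -/
theorem const_on {A : Type} [TopologicalSpace A] [TotallyDisconnectedSpace A] {f : ℝ → A}
    {I : Set ℝ} (hI : IsPreconnected I) (hf : ContinuousOn f I) {a b : ℝ} (ha : a ∈ I)
    (hb : b ∈ I) : f a = f b :=
  (hI.image f hf).subsingleton (mem_image_of_mem f ha) (mem_image_of_mem f hb)

/-- near a pole, a continuous map to a totally disconnected space is constant -/
theorem pole_const {Z V A : Type} [TopologicalSpace Z] [TopologicalSpace V] [CompactSpace V]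
    [TopologicalSpace A] [TotallyDisconnectedSpace A] {q : V × ℝ → Z} (hq : Continuous q)
    {pr : Z → V} {th : Z → ℝ} (hth : Continuous th) (h3 : ∀ z, q (pr z, th z) = z) {e : ℝ}
    {z₀ : Z} (he : ∀ v, q (v, e) = z₀) (hz : th z₀ = e) {O : Set Z} (hO : IsOpen O) (h0 : z₀ ∈ O)
    {a : Z → A} (ha : ContinuousOn a O) : ∀ᶠ z in 𝓝 z₀, a z = a z₀ := by
  obtain ⟨u, w, -, hw, hu, hew, huw⟩ := generalized_tube_lemma (isCompact_univ (X := V))
    (isCompact_singleton (x := e)) (hO.preimage hq) (by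
      rintro ⟨v, t⟩ ⟨-, ht⟩
      obtain rfl : t = e := ht
      show q (v, t) ∈ O
      rw [he]
      exact h0)
  obtain ⟨ε, hε, hb⟩ := Metric.isOpen_iff.1 hw e (hew rfl)
  have h1 : ∀ᶠ z in 𝓝 z₀, th z ∈ Metric.ball e ε :=
    hth.continuousAt.eventually (Metric.isOpen_ball.mem_nhds (by
      rw [hz]
      exact Metric.mem_ball_self hε))
  filter_upwards [h1] with z hz1
  have h2 : ContinuousOn (fun t => a (q (pr z, t))) (Metric.ball e ε) :=
    ha.comp (hq.comp (continuous_const.prodMk continuous_id)).continuousOn fun t ht =>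
      huw (mk_mem_prod (hu (mem_univ _)) (hb ht))
  have h4 := const_on (convex_ball e ε).isPreconnected h2 hz1 (Metric.mem_ball_self hε)
  simpa only [h3, he] using h4

/-- at a point of the open part the vertex coordinate is not locally constant -/
theorem not_const {Z Y C A : Type} [TopologicalSpace Z] [TopologicalSpace Y] [TopologicalSpace C]
    {f : C → A} (hf : Thick f) {q : Y × ℝ → Z} (hq : Continuous q) {j : C × ℝ → Y}
    (hj : Continuous j) {a : Z → A} {c : C} {r θ : ℝ} (h : ∀ c', a (q (j (c', r), θ)) = f c') :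
    ¬ ∀ᶠ z in 𝓝 (q (j (c, r), θ)), a z = a (q (j (c, r), θ)) := by
  intro hz
  have h1 : Continuous fun c' => q (j (c', r), θ) :=
    hq.comp ((hj.comp (continuous_id.prodMk continuous_const)).prodMk continuous_const)
  have h2 := (h1.continuousAt (x := c)).eventually hz
  simp only [h] at h2
  obtain ⟨c', hc1, hc2⟩ := mem_closure_iff_nhds.1 (hf c).2 _ h2
  exact hc2 hc1

end CellsGA

open CellsGA in
theorem sCellsG : SCoord → SCoordG → SStratG → SCellsG := by
  intro hC hJ hS Z Y V C A B _ _ _ _ _ _ _ _ _ _ _ _ _ α₀ β₀ n p n' p' q q' j hα₀ hβ₀ hA hB hj hq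
    hq'
  have hπ := Real.pi_pos
  have hh : π / 2 ∈ Ioo 0 π := ⟨by linarith, by linarith⟩
  have : CompactSpace Y := compact_of_cyl hj
  have : Nonempty Y := ⟨j (Classical.arbitrary C, 0)⟩
  obtain ⟨hT, -, pr, th, -, hpr, h1, h2, h3, h4⟩ := hC Z Y n p q hq
  have := hT
  obtain ⟨γ, s, hs, hγ, hα, hβ, k1, k2⟩ := hJ Y C A B α₀ β₀ j hα₀ hβ₀ hj
  have hV : Nonempty V := by
    by_contra hV
    have hall : ∀ z, z = n' ∨ z = p' := by
      intro z
      rcases hq'.surj z with h | h | ⟨v, -⟩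
      · exact Or.inl h
      · exact Or.inr h
      · exact absurd ⟨v⟩ hV
    have hz : q (Classical.arbitrary Y, π / 2) ∈ ({n, p}ᶜ : Set Z) := by
      rw [h4, h1 _ _ (Ioo_subset_Icc_self hh)]
      exact hh
    simp only [mem_compl_iff, mem_insert_iff, mem_singleton_iff, not_or] at hz
    have hne := hq.ne
    rcases hall n with e1 | e1 <;> rcases hall p with e2 | e2 <;>
      rcases hall (q (Classical.arbitrary Y, π / 2)) with e3 | e3
    all_goals first
      | exact hne (e1.trans e2.symm)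
      | exact hz.1 (e3.trans e1.symm)
      | exact hz.2 (e3.trans e2.symm)
  obtain ⟨-, -, pr', th', g0, -, g1, -, g3, g4⟩ := hC Z V n' p' q' hq'
  have hWo : IsOpen ({n, p}ᶜ : Set Z) := (Set.toFinite _).isClosed.isOpen_compl
  have pole : ∀ (z : Z) (e : ℝ), e ∈ Icc 0 π → (∀ v, q' (v, e) = z) → z = n ∨ z = p := by
    intro z e he0 he
    by_contra hz
    have hz' : z ∈ ({n, p}ᶜ : Set Z) := by
      simpa only [mem_compl_iff, mem_insert_iff, mem_singleton_iff] using hz
    have hθ := (h4 z).1 hz'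
    have hze : th' z = e := by
      rw [← he (Classical.arbitrary V)]
      exact g1 _ _ he0
    have hz2 : q (j (γ (pr z), s (pr z)), th z) = z := by rw [(k1 _).2, (h3 _).2]
    have hin : ∀ c', _ := fun c' => hj.inj (γ (j (c', s (pr z)))) (s (j (c', s (pr z)))) c'
      (s (pr z)) (k1 _).1 (k1 _).1 (k1 _).2
    rcases lt_or_ge (s (pr z)) 1 with h | h
    · have hc := pole_const hq'.cont g0 (fun z => (g3 z).2) he hze
        (hpr.isOpen_inter_preimage hWo (isOpen_lt hs continuous_const)) ⟨hz', h⟩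
        (a := fun z => α₀ (γ (pr z))) (hα.comp (hpr.mono inter_subset_left) fun z hz => hz.2)
      refine not_const hA hq.cont hj.cont (a := fun z => α₀ (γ (pr z))) (c := γ (pr z))
        (r := s (pr z)) (θ := th z) (fun c' => ?_) (by rw [hz2]; exact hc)
      show α₀ (γ (pr (q (j (c', s (pr z)), th z)))) = α₀ c'
      rw [h2 _ _ hθ]
      exact (hin c').2.1 (by rw [(hin c').1]; exact h)
    · have h' : 0 < s (pr z) := by linarith
      have hc := pole_const hq'.cont g0 (fun z => (g3 z).2) he hze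
        (hpr.isOpen_inter_preimage hWo (isOpen_lt continuous_const hs)) ⟨hz', h'⟩
        (a := fun z => β₀ (γ (pr z))) (hβ.comp (hpr.mono inter_subset_left) fun z hz => hz.2)
      refine not_const hB hq.cont hj.cont (a := fun z => β₀ (γ (pr z))) (c := γ (pr z))
        (r := s (pr z)) (θ := th z) (fun c' => ?_) (by rw [hz2]; exact hc)
      show β₀ (γ (pr (q (j (c', s (pr z)), th z)))) = β₀ c'
      rw [h2 _ _ hθ]
      exact (hin c').2.2.1 (by rw [(hin c').1]; exact h')
  refine ⟨hV, pole n' 0 ⟨le_rfl, hπ.le⟩ hq'.zero, pole p' π ⟨hπ.le, le_rfl⟩ hq'.pi, ?_⟩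
  rintro rfl rfl v
  have hW : ∀ t ∈ Ioo 0 π, q' (v, t) ∈ ({n', p'}ᶜ : Set Z) := by
    intro t ht
    rw [g4, g1 _ _ (Ioo_subset_Icc_self ht)]
    exact ht
  have hE : ∀ t, q' (v, t) = q (j (γ (pr (q' (v, t))), s (pr (q' (v, t)))), th (q' (v, t))) := by
    intro t
    rw [(k1 _).2, (h3 _).2]
  by_cases c0 : ∃ t ∈ Ioo 0 π, s (pr (q' (v, t))) = 0
  · obtain ⟨t, ht, e⟩ := c0
    refine ⟨γ (pr (q' (v, t))), Or.inl ?_⟩
    have e1 := hE t
    rw [e] at e1
    exact hS Z Y V C A B α₀ β₀ n' p' q q' j hα₀ hβ₀ hA hj hq hq' v _ t ht _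
      ((h4 _).1 (hW t ht)) e1
  by_cases c1 : ∃ t ∈ Ioo 0 π, s (pr (q' (v, t))) = 1
  · obtain ⟨t, ht, e⟩ := c1
    refine ⟨γ (pr (q' (v, t))), Or.inr (Or.inl ?_)⟩
    have e1 := hE t
    rw [e] at e1
    have := hS Z Y V C B A β₀ α₀ n' p' q q' _ hβ₀ hα₀ hB (swap hj) hq hq' v (γ (pr (q' (v, t))))
      t ht _ ((h4 _).1 (hW t ht)) (by simpa using e1)
    simpa using this
  have hI : ∀ t ∈ Ioo 0 π, s (pr (q' (v, t))) ∈ Ioo (0 : ℝ) 1 := by
    intro t ht
    have hm := (k1 (pr (q' (v, t)))).1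
    exact ⟨lt_of_le_of_ne hm.1 fun h => c0 ⟨t, ht, h.symm⟩,
      lt_of_le_of_ne hm.2 fun h => c1 ⟨t, ht, h⟩⟩
  have hc : ContinuousOn (fun t => γ (pr (q' (v, t)))) (Ioo 0 π) :=
    hγ.comp (hpr.comp (hq'.cont.comp (continuous_const.prodMk continuous_id)).continuousOn hW) hI
  refine ⟨γ (pr (q' (v, π / 2))), Or.inr (Or.inr fun t ht => ?_)⟩
  refine ⟨s (pr (q' (v, t))), hI t ht, th (q' (v, t)), (h4 _).1 (hW t ht), ?_⟩
  have e2 : γ (pr (q' (v, t))) = γ (pr (q' (v, π / 2))) := const_on isPreconnected_Ioo hc ht hh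
  rw [← e2]
  exact hE t

end Pool.Agent.MP_0c1703_gt.H58
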