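import Pool.Agent.MP_0c1703_gt.H58.Spec2
import Pool.Agent.MP_0c1703_gt.H58R.CoordJ

/-! Coordinates on a double mapping cylinder (row CoordG, helper87). -/

namespace Pool.Agent.MP_0c1703_gt.H58

open Set Filter Topology

open CoordJA in
theorem sCoordG : SCoordG := by
  intro Y C A B _ _ _ _ _ _ α₀ β₀ j hα hβ hj
  choose γ s hs hjs using hj.surj
  have key : ∀ c, ∀ r ∈ Icc (0 : ℝ) 1, r = s (j (c, r)) ∧ (r < 1 → α₀ c = α₀ (γ (j (c, r)))) ∧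
      (0 < r → β₀ c = β₀ (γ (j (c, r)))) ∧ (0 < r → r < 1 → c = γ (j (c, r))) :=
    fun c r hr => hj.inj c r _ _ hr (hs (j (c, r))) (hjs (j (c, r))).symm
  have hT : IsCompact ((univ : Set C) ×ˢ Icc (0 : ℝ) 1) := isCompact_univ.prod isCompact_Icc
  have hsur : ∀ y, ∃ p ∈ (univ : Set C) ×ˢ Icc (0 : ℝ) 1, j p = y :=
    fun y => ⟨(γ y, s y), ⟨trivial, hs y⟩, hjs y⟩
  refine ⟨γ, s, ?_, ?_, ?_, ?_, fun y => ⟨hs y, hjs y⟩, fun c r hr => (key c r hr).1.symm⟩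
  · rw [← continuousOn_univ]
    refine descend hT hj.cont (g := fun p => p.2) (by fun_prop) (fun y _ => hsur y) ?_
    rintro ⟨c, r⟩ ⟨-, hr⟩ -
    exact (key c r hr).1.symm
  · refine descend hT hj.cont (g := fun p => p.1) (by fun_prop) (fun y _ => hsur y) ?_
    rintro ⟨c, r⟩ ⟨-, hr⟩ ⟨h0, h1⟩
    have h := key c r hr
    exact (h.2.2.2 (h.1 ▸ h0) (h.1 ▸ h1)).symm
  · refine descend hT hj.cont (g := fun p => α₀ p.1) (by fun_prop) (fun y _ => hsur y) ?_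
    rintro ⟨c, r⟩ ⟨-, hr⟩ h1
    have h := key c r hr
    exact (h.2.1 (h.1 ▸ h1)).symm
  · refine descend hT hj.cont (g := fun p => β₀ p.1) (by fun_prop) (fun y _ => hsur y) ?_
    rintro ⟨c, r⟩ ⟨-, hr⟩ h0
    have h := key c r hr
    exact (h.2.2.1 (h.1 ▸ h0)).symm

end Pool.Agent.MP_0c1703_gt.H58
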