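import Pool.Agent.MP_0c1703_gt.H58.Spec2
import Pool.Agent.MP_0c1703_gt.H58R.Homeo

/-! The equator of a second suspension structure is homeomorphic to the double mapping cylinder. -/

namespace Pool.Agent.MP_0c1703_gt.H58

open Set Filter Topology
open scoped NNReal ENNReal Real

namespace HomeoGA

open HomeoA (Kd)

lemma trG {Y C A B : Type} [TopologicalSpace Y] [TopologicalSpace C] {α₀ : C → A} {β₀ : C → B}
    {j : C × ℝ → Y} (hj : CylS Y α₀ β₀ j) {c c' : C} {r r' : ℝ}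
    (h : (r < 1 → α₀ c = α₀ c') ∧ (0 < r → β₀ c = β₀ c') ∧ (0 < r → r < 1 → c = c'))
    (k : Kd r r') : j (c, r') = j (c', r') := by
  rcases k with ⟨e, e'⟩ | ⟨e, e'⟩ | ⟨e, e'⟩
  · rw [e']; exact hj.zero _ _ (h.1 (by rw [e]; exact one_pos))
  · rw [e']; exact hj.one _ _ (h.2.1 (by rw [e]; exact one_pos))
  · rw [h.2.2 e e']

/-- the abstract construction of the homeomorphism -/
lemma finalG {Y V C A B : Type} [TopologicalSpace Y] [T2Space Y] [TopologicalSpace V]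
    [CompactSpace V] [TopologicalSpace C] [CompactSpace C] {α₀ : C → A} {β₀ : C → B}
    {j : C × ℝ → Y} (hj : CylS Y α₀ β₀ j) (Cell : V → C → Prop) (ρ : V → ℝ)
    (hρ : Continuous ρ) (hr : ∀ v, ρ v ∈ Icc (0 : ℝ) 1)
    (hcl : IsClosed {w : C × V | Cell w.2 w.1}) (hex : ∀ v, ∃ a, Cell v a)
    (hiff : ∀ v a a', Cell v a → (Cell v a' ↔ j (a, ρ v) = j (a', ρ v)))
    (hinj : ∀ v v' a, Cell v a → Cell v' a → ρ v = ρ v' → v = v')
    (hsur : ∀ a, ∀ r ∈ Icc (0 : ℝ) 1, ∃ v, Cell v a ∧ ρ v = r) : Nonempty (V ≃ₜ Y) := by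
  choose a hab using hex
  let Ψ : V → Y := fun v => j (a v, ρ v)
  have hc : Continuous Ψ := by
    refine continuous_iff_isClosed.2 fun D hD => ?_
    have e : Ψ ⁻¹' D = Prod.snd '' ({w : C × V | Cell w.2 w.1} ∩
        (fun w : C × V => j (w.1, ρ w.2)) ⁻¹' D) := by
      ext v
      constructor
      · intro h; exact ⟨(a v, v), ⟨hab v, h⟩, rfl⟩
      · rintro ⟨⟨a', v'⟩, ⟨h1, h2⟩, rfl⟩
        show j (a v', ρ v') ∈ D
        rw [(hiff v' _ a' (hab v')).1 h1]; exact h2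
    rw [e]
    refine isClosedMap_snd_of_compactSpace _ (hcl.inter (hD.preimage ?_))
    exact hj.cont.comp (by fun_prop)
  have hb : Function.Bijective Ψ := by
    constructor
    · intro v v' h
      have e : ρ v = ρ v' := (hj.inj _ _ _ _ (hr v) (hr v') h).1
      refine hinj v v' (a v') ((hiff v _ _ (hab v)).2 ?_) (hab v') e
      have h' : j (a v, ρ v) = j (a v', ρ v') := h
      rw [h', e]
    · intro y
      obtain ⟨a', r, hr', rfl⟩ := hj.surj y
      obtain ⟨v, hv, rfl⟩ := hsur a' r hr'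
      exact ⟨v, (hiff v _ _ (hab v)).1 hv⟩
  exact ⟨Continuous.homeoOfEquivCompactToT2 (f := Equiv.ofBijective Ψ hb) hc⟩

end HomeoGA

open HomeoA HomeoGA in
theorem sHomeoG : SCoord → SCoordG → SOrd → STau → SHomeoG := by
  intro hC hJ hO hT Z Y V C A B _ _ _ _ _ _ _ _ _ _ _ α₀ β₀ n p q q' j cα cβ hj hq hq' hcells
  obtain ⟨a0⟩ := ‹Nonempty C›
  have : Nonempty Y := ⟨j (a0, 0)⟩
  have : CompactSpace Y := by
    refine ⟨?_⟩
    have h1 : IsCompact ((univ : Set C) ×ˢ Icc (0 : ℝ) 1) := isCompact_univ.prod isCompact_Icc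
    have h2 : j '' ((univ : Set C) ×ˢ Icc (0 : ℝ) 1) = univ := by
      refine eq_univ_of_forall fun y => ?_
      obtain ⟨a, r, hr, e⟩ := hj.surj y
      exact ⟨(a, r), ⟨trivial, hr⟩, e⟩
    rw [← h2]; exact h1.image hj.cont
  obtain ⟨hT2, -, pr, th, cth, cpr, thq, prq, qpr, hW⟩ := hC Z Y n p q hq
  obtain ⟨-, -, pr', th', -, cpr', thq', -, qpr', hW'⟩ := hC Z V n p q' hq'
  obtain ⟨ga, s, cs, -, -, -, hs, sj⟩ := hJ Y C A B α₀ β₀ j cα cβ hj
  have hs1 : ∀ y, s y ∈ Icc (0 : ℝ) 1 := fun y => (hs y).1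
  have y0 : Y := j (a0, 0)
  have thn : th n = 0 := by rw [← hq.zero y0]; exact thq _ _ ⟨le_rfl, Real.pi_pos.le⟩
  have thp : th p = π := by rw [← hq.pi y0]; exact thq _ _ ⟨Real.pi_pos.le, le_rfl⟩
  have cx := cont_x n p (fun z => s (pr z)) th cth (cs.comp_continuousOn cpr)
    (fun z => hs1 _) thn thp
  have inW : ∀ v, ∀ t ∈ Ioo 0 π, q' (v, t) ∈ ({n, p}ᶜ : Set Z) := fun v t ht =>
    (hW' _).2 (by rw [thq' v t (Ioo_subset_Icc_self ht)]; exact ht)
  have inW2 : ∀ y, ∀ t ∈ Ioo 0 π, q (y, t) ∈ ({n, p}ᶜ : Set Z) := fun v t ht =>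
    (hW _).2 (by rw [thq v t (Ioo_subset_Icc_self ht)]; exact ht)
  have sinpos : ∀ v, ∀ t ∈ Ioo 0 π, 0 < Real.sin (th (q' (v, t))) := fun v t ht =>
    Real.sin_pos_of_mem_Ioo ((hW _).1 (inW v t ht))
  obtain ⟨S, hS⟩ : ∃ S : V → ℝ → ℝ, ∀ v t, S v t = s (pr (q' (v, t))) := ⟨_, fun _ _ => rfl⟩
  obtain ⟨L, hL⟩ : ∃ L : V → ℝ → ℝ × ℝ,
      ∀ v t, L v t = (S v t * Real.sin (th (q' (v, t))), th (q' (v, t))) := ⟨_, fun _ _ => rfl⟩
  obtain ⟨Cell, hCell⟩ : ∃ Cell : V → C → Prop,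
      ∀ v a, Cell v a ↔ ∀ t ∈ Ioo 0 π, pr (q' (v, t)) = j (a, S v t) :=
    ⟨_, fun _ _ => Iff.rfl⟩
  have S1 : ∀ v t, S v t ∈ Icc (0 : ℝ) 1 := fun v t => by rw [hS]; exact hs1 _
  have cL : Continuous fun w : V × ℝ => L w.1 w.2 := by
    simp only [hL, hS]
    exact (cx.comp hq'.cont).prodMk (cth.comp hq'.cont)
  have arc : ∀ v, Arc (L v) := by
    intro v
    refine ⟨cL.comp (Continuous.prodMk_right v), ?_, ?_, fun t ht => ?_⟩
    · rw [hL, hq'.zero, thn]; simp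
    · rw [hL, hq'.pi, thp]; simp
    · have h1 := (hW _).1 (inW v t ht)
      have h2 := sinpos v t ht
      rw [hL]
      exact ⟨⟨h1.1.le, h1.2.le, mul_nonneg (S1 v t).1 h2.le,
        mul_le_of_le_one_left h2.le (S1 v t).2⟩, h1⟩
  have kinds : ∀ v, (∃ a, Cell v a) ∧ ((∀ t ∈ Ioo 0 π, S v t = 0) ∨
      (∀ t ∈ Ioo 0 π, S v t = 1) ∨ ∀ t ∈ Ioo 0 π, S v t ∈ Ioo (0 : ℝ) 1) := by
    intro v
    obtain ⟨a, h⟩ := hcells v
    have one : ∀ t r θ, r ∈ Icc (0 : ℝ) 1 → θ ∈ Ioo 0 π → q' (v, t) = q (j (a, r), θ) →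
        S v t = r ∧ pr (q' (v, t)) = j (a, S v t) := by
      intro t r θ hr hθ e
      have e1 : pr (q' (v, t)) = j (a, r) := by rw [e, prq _ _ hθ]
      have e2 : S v t = r := by rw [hS, e1, sj a r hr]
      exact ⟨e2, by rw [e1, e2]⟩
    rcases h with h | h | h
    · have := fun t ht => (h t ht).elim fun θ k => one t 0 θ ⟨le_rfl, zero_le_one⟩ k.1 k.2
      exact ⟨⟨a, (hCell _ _).2 fun t ht => (this t ht).2⟩, .inl fun t ht => (this t ht).1⟩
    · have := fun t ht => (h t ht).elim fun θ k => one t 1 θ ⟨zero_le_one, le_rfl⟩ k.1 k.2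
      exact ⟨⟨a, (hCell _ _).2 fun t ht => (this t ht).2⟩,
        .inr (.inl fun t ht => (this t ht).1)⟩
    · refine ⟨⟨a, (hCell _ _).2 fun t ht => ?_⟩, .inr (.inr fun t ht => ?_)⟩
      · obtain ⟨r, hr, θ, hθ, e⟩ := h t ht
        exact (one t r θ (Ioo_subset_Icc_self hr) hθ e).2
      · obtain ⟨r, hr, θ, hθ, e⟩ := h t ht
        rw [(one t r θ (Ioo_subset_Icc_self hr) hθ e).1]; exact hr
  have kd : ∀ v, ∀ t ∈ Ioo 0 π, ∀ t' ∈ Ioo 0 π, Kd (S v t) (S v t') := by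
    intro v t ht t' ht'
    rcases (kinds v).2 with h | h | h
    · exact .inl ⟨h t ht, h t' ht'⟩
    · exact .inr (.inl ⟨h t ht, h t' ht'⟩)
    · exact .inr (.inr (h t ht))
  -- every point of the lens of a cell lies on an arc of the cell
  have fill : ∀ a, ∀ r ∈ Icc (0 : ℝ) 1, ∀ θ ∈ Ioo 0 π,
      Cell (pr' (q (j (a, r), θ))) a ∧ ∃ t ∈ Ioo 0 π,
        S (pr' (q (j (a, r), θ))) t = r ∧
        L (pr' (q (j (a, r), θ))) t = (r * Real.sin θ, θ) := by
    intro a r hr θ hθ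
    have ht := (hW' _).1 (inW2 (j (a, r)) θ hθ)
    have e := (qpr' (q (j (a, r), θ))).2
    generalize pr' (q (j (a, r), θ)) = v at e ⊢
    generalize th' (q (j (a, r), θ)) = t at e ht
    have e1 : pr (q' (v, t)) = j (a, r) := by rw [e, prq _ _ hθ]
    have e2 : S v t = r := by rw [hS, e1, sj a r hr]
    obtain ⟨a', h⟩ := (kinds v).1
    rw [hCell] at h
    have i := hj.inj _ _ _ _ (S1 v t) hr ((h t ht).symm.trans e1)
    refine ⟨(hCell _ _).2 fun t' ht' => ?_, t, ht, e2, ?_⟩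
    · rw [h t' ht']; exact trG hj i.2 (kd v t ht t' ht')
    · rw [hL, e2, e, thq _ _ (Ioo_subset_Icc_self hθ)]
  have disj : ∀ v v' a, Cell v a → Cell v' a → v ≠ v' →
      Disjoint (L v '' Ioo 0 π) (L v' '' Ioo 0 π) := by
    intro v v' a h h' hne
    refine disjoint_left.2 ?_
    rintro _ ⟨t, ht, rfl⟩ ⟨t', ht', e⟩
    rw [hL, hL, Prod.mk.injEq] at e
    obtain ⟨e1, e2⟩ := e
    rw [e2] at e1
    have e3 : S v' t' = S v t := mul_right_cancel₀ (sinpos v t ht).ne' e1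
    have e4 : pr (q' (v, t)) = pr (q' (v', t')) := by
      rw [(hCell _ _).1 h t ht, (hCell _ _).1 h' t' ht', e3]
    have e5 : q' (v, t) = q' (v', t') := by
      rw [← (qpr (q' (v, t))).2, ← (qpr (q' (v', t'))).2, e4, e2]
    exact hne (hq'.inj _ _ _ _ ht (Ioo_subset_Icc_self ht') e5).1
  have cover : ∀ v, Lens ⊆ LeftOf (L v) ∪ RightOf (L v) := by
    rintro v ⟨x, θ⟩ ⟨h1, h2, h3, h4⟩
    simp only at h1 h2 h3 h4
    rcases h1.eq_or_lt with h0 | h0
    · subst h0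
      rw [Real.sin_zero] at h4
      obtain rfl : x = 0 := le_antisymm h4 h3
      exact .inl (.inl ⟨0, ⟨le_rfl, Real.pi_pos.le⟩, (arc v).zero⟩)
    rcases h2.eq_or_lt with h5 | h5
    · subst h5
      rw [Real.sin_pi] at h4
      obtain rfl : x = 0 := le_antisymm h4 h3
      exact .inl (.inl ⟨π, ⟨Real.pi_pos.le, le_rfl⟩, (arc v).pi⟩)
    have hsin : 0 < Real.sin θ := Real.sin_pos_of_mem_Ioo ⟨h0, h5⟩
    obtain ⟨a, h⟩ := (kinds v).1
    obtain ⟨h', t, ht, -, e⟩ := fill a (x / Real.sin θ)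
      ⟨div_nonneg h3 hsin.le, (div_le_one hsin).2 h4⟩ θ ⟨h0, h5⟩
    rw [div_mul_cancel₀ _ hsin.ne'] at e
    generalize pr' _ = v' at h' e
    have m : (x, θ) ∈ LeftOf (L v') := .inl ⟨t, Ioo_subset_Icc_self ht, e⟩
    by_cases hv : v = v'
    · exact .inl (hv ▸ m)
    rcases hO.2 _ _ (arc v) (arc v') (disj v v' a h h' hv) with k | k
    · exact .inr (k.2 ⟨t, ht, e⟩)
    · exact .inl (k.1 m)
  obtain ⟨τ, cτ, mono, strict⟩ := hT V L cL arc cover
  have x0 : ∀ v, S v (π / 2) = 0 → ∀ t ∈ Ioo 0 π, (L v t).1 = 0 := by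
    intro v h t ht
    have : S v t = 0 := by
      rcases kd v _ half t ht with k | k | k
      · exact k.2
      · exact absurd (h.symm.trans k.1) zero_ne_one
      · exact absurd h k.1.ne'
    rw [hL, this]; simp
  have x1 : ∀ v, S v (π / 2) = 1 → ∀ t ∈ Ioo 0 π, (L v t).1 = Real.sin (L v t).2 := by
    intro v h t ht
    have : S v t = 1 := by
      rcases kd v _ half t ht with k | k | k
      · exact absurd (h.symm.trans k.1) one_ne_zero
      · exact k.2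
      · exact absurd h k.2.ne
    rw [hL, this]; simp
  have c0 : ∀ v v', S v (π / 2) = 0 → S v' (π / 2) = 0 → τ v = τ v' := by
    intro v v' h h'
    have e : LeftOf (L v) = LeftOf (L v') := by
      rw [left0 (arc v) (x0 v h), left0 (arc v') (x0 v' h')]
    exact le_antisymm (mono _ _ e.le) (mono _ _ e.ge)
  have c1 : ∀ v v', S v (π / 2) = 1 → S v' (π / 2) = 1 → τ v = τ v' := by
    intro v v' h h'
    have e := left1 (arc v) (arc v') (x1 v h) (x1 v' h')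
    exact le_antisymm (mono _ _ e.le) (mono _ _ e.ge)
  have e0 : ∀ a, S (pr' (q (j (a, 0), π / 2))) (π / 2) = 0 := by
    intro a
    obtain ⟨-, t, ht, e, -⟩ := fill a 0 ⟨le_rfl, zero_le_one⟩ _ half
    rcases kd _ t ht _ half with k | k | k
    · exact k.2
    · exact absurd (e.symm.trans k.1) zero_ne_one
    · exact absurd e k.1.ne'
  have e1 : ∀ a, S (pr' (q (j (a, 1), π / 2))) (π / 2) = 1 := by
    intro a
    obtain ⟨-, t, ht, e, -⟩ := fill a 1 ⟨zero_le_one, le_rfl⟩ _ half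
    rcases kd _ t ht _ half with k | k | k
    · exact absurd (e.symm.trans k.1) one_ne_zero
    · exact k.2
    · exact absurd e k.2.ne
  obtain ⟨v0, hv0⟩ : ∃ v, S v (π / 2) = 0 := ⟨_, e0 a0⟩
  obtain ⟨v1, hv1⟩ : ∃ v, S v (π / 2) = 1 := ⟨_, e1 a0⟩
  have lt0 : ∀ v, S v (π / 2) ≠ 0 → τ v0 < τ v := by
    intro v hv
    obtain ⟨a, h⟩ := (kinds v).1
    have h' := (fill a 0 ⟨le_rfl, zero_le_one⟩ _ half).1
    have k0 := e0 a
    generalize pr' _ = w at h' k0
    rw [c0 v0 w hv0 k0]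
    rcases hO.2 _ _ (arc w) (arc v) (disj w v a h' h (fun e => hv (e ▸ k0))) with k | k
    · exact strict _ _ k.1 k.2
    · have m : L v (π / 2) ∈ LeftOf (L w) := k.1 (.inl ⟨_, Ioo_subset_Icc_self half, rfl⟩)
      rw [left0 (arc w) (x0 w k0), hL] at m
      exact absurd ((mul_eq_zero.1 m.2).resolve_right (sinpos v _ half).ne') hv
  have lt1 : ∀ v, S v (π / 2) ≠ 1 → τ v < τ v1 := by
    intro v hv
    obtain ⟨a, h⟩ := (kinds v).1
    have h' := (fill a 1 ⟨zero_le_one, le_rfl⟩ _ half).1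
    have k1 := e1 a
    generalize pr' _ = w at h' k1
    rw [c1 v1 w hv1 k1]
    rcases hO.2 _ _ (arc v) (arc w) (disj v w a h h' (fun e => hv (e ▸ k1))) with k | k
    · exact strict _ _ k.1 k.2
    · have m : L v (π / 2) ∈ RightOf (L w) := k.2 ⟨_, half, rfl⟩
      rw [right1 (arc w) (x1 w k1)] at m
      exact m.elim
  have hd : 0 < τ v1 - τ v0 := sub_pos.2 (lt0 v1 (by rw [hv1]; exact one_ne_zero))
  obtain ⟨ρ, hρ⟩ : ∃ ρ : V → ℝ, ∀ v, ρ v = (τ v - τ v0) / (τ v1 - τ v0) := ⟨_, fun _ => rfl⟩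
  have cρ : Continuous ρ := by
    rw [show ρ = fun v => (τ v - τ v0) / (τ v1 - τ v0) from funext hρ]
    exact (cτ.sub continuous_const).div_const _
  have r0 : ∀ v, S v (π / 2) = 0 → ρ v = 0 := fun v h => by rw [hρ, c0 v v0 h hv0]; simp
  have r1 : ∀ v, S v (π / 2) = 1 → ρ v = 1 := fun v h => by
    rw [hρ, c1 v v1 h hv1]; exact div_self hd.ne'
  have r2 : ∀ v, ∀ t ∈ Ioo 0 π, (S v t = 0 ∧ ρ v = 0) ∨ (S v t = 1 ∧ ρ v = 1) ∨
      (S v t ∈ Ioo (0 : ℝ) 1 ∧ ρ v ∈ Ioo (0 : ℝ) 1) := by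
    intro v t ht
    rcases (kinds v).2 with h | h | h
    · exact .inl ⟨h t ht, r0 v (h _ half)⟩
    · exact .inr (.inl ⟨h t ht, r1 v (h _ half)⟩)
    · refine .inr (.inr ⟨h t ht, ?_, ?_⟩)
      · rw [hρ]; exact div_pos (sub_pos.2 (lt0 v (h _ half).1.ne')) hd
      · rw [hρ, div_lt_one hd]; linarith [lt1 v (h _ half).2.ne]
  have r3 : ∀ v, ρ v ∈ Icc (0 : ℝ) 1 := by
    intro v
    rcases r2 v _ half with h | h | h
    · rw [h.2]; exact ⟨le_rfl, zero_le_one⟩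
    · rw [h.2]; exact ⟨zero_le_one, le_rfl⟩
    · exact Ioo_subset_Icc_self h.2
  refine finalG hj Cell ρ cρ r3 ?_ (fun v => (kinds v).1) ?_ ?_ ?_
  · simp only [hCell, hS, Set.ofPred_forall]
    refine isClosed_iInter fun t => isClosed_iInter fun ht => ?_
    have c : Continuous fun v => pr (q' (v, t)) :=
      cpr.comp_continuous (hq'.cont.comp (Continuous.prodMk_left t)) fun v => inW v t ht
    refine isClosed_eq (c.comp continuous_snd) (hj.cont.comp ?_)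
    exact continuous_fst.prodMk ((cs.comp c).comp continuous_snd)
  · intro v a a' h
    rw [hCell] at h
    constructor
    · intro h'
      have i := hj.inj _ _ _ _ (S1 v _) (S1 v _)
        ((h _ half).symm.trans ((hCell _ _).1 h' _ half))
      refine trG hj i.2 ?_
      rcases r2 v _ half with k | k | k
      · exact .inl k
      · exact .inr (.inl k)
      · exact .inr (.inr k.1)
    · intro e
      have i := hj.inj _ _ _ _ (r3 v) (r3 v) e
      refine (hCell _ _).2 fun t ht => ?_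
      rw [h t ht]
      refine trG hj i.2 ?_
      rcases r2 v t ht with k | k | k
      · exact .inl k.symm
      · exact .inr (.inl k.symm)
      · exact .inr (.inr k.2)
  · intro v v' a h h' e
    by_contra hne
    rw [hρ, hρ, div_left_inj' hd.ne', sub_left_inj] at e
    rcases hO.2 _ _ (arc v) (arc v') (disj v v' a h h' hne) with k | k
    · exact (strict _ _ k.1 k.2).ne e
    · exact (strict _ _ k.1 k.2).ne' e
  · intro a r hr
    have c : Continuous fun r : ℝ => ρ (pr' (q (j (a, r), π / 2))) := by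
      refine cρ.comp (cpr'.comp_continuous (hq.cont.comp ?_) fun r => inW2 _ _ half)
      exact (hj.cont.comp (by fun_prop)).prodMk continuous_const
    have := intermediate_value_Icc zero_le_one c.continuousOn
    simp only [r0 _ (e0 a), r1 _ (e1 a)] at this
    obtain ⟨r', hr', e⟩ := this hr
    exact ⟨_, (fill a r' hr' _ half).1, e⟩

end Pool.Agent.MP_0c1703_gt.H58
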