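import Pool.Agent.MP_0c1703_gt.H58.Spec2

/-! Row LitG: coordinates on the literal double mapping cylinder. -/

namespace Pool.Agent.MP_0c1703_gt.H58

open Set Filter Topology

namespace LitGA

variable {C A B : Type} (α : C → A) (β : C → B)

noncomputable def jj (x : C × ℝ) : Cyl α β :=
  Quot.mk _ (x.1, projIcc 0 1 zero_le_one x.2)

theorem val {s : ℝ} (hs : s ∈ Icc (0 : ℝ) 1) : (projIcc 0 1 zero_le_one s : ℝ) = s := by
  rw [projIcc_of_mem zero_le_one hs]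

def rel (x y : C × Icc (0 : ℝ) 1) : Prop :=
  x.2 = y.2 ∧ ((x.2 : ℝ) < 1 → α x.1 = α y.1) ∧ (0 < (x.2 : ℝ) → β x.1 = β y.1) ∧
    (0 < (x.2 : ℝ) → (x.2 : ℝ) < 1 → x.1 = y.1)

theorem rel_of_eq {x y : C × Icc (0 : ℝ) 1} (h : (Quot.mk _ x : Cyl α β) = Quot.mk _ y) :
    rel α β x y := by
  have h' := Quot.eqvGen_exact h
  clear h
  induction h' with
  | rel x y h =>
    obtain ⟨h1, ⟨h2, h3⟩ | ⟨h2, h3⟩⟩ := h
    · exact ⟨h1, fun _ => h3, fun h => absurd h2 h.ne', fun h _ => absurd h2 h.ne'⟩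
    · exact ⟨h1, fun h => absurd h2 h.ne, fun _ => h3, fun _ h => absurd h2 h.ne⟩
  | refl x => exact ⟨rfl, fun _ => rfl, fun _ => rfl, fun _ _ => rfl⟩
  | symm x y _ ih =>
    obtain ⟨e, a, b, c⟩ := ih
    rw [e] at a b c
    exact ⟨e.symm, fun h => (a h).symm, fun h => (b h).symm, fun h h' => (c h h').symm⟩
  | trans x y z _ _ ih ih' =>
    obtain ⟨e, a, b, c⟩ := ih
    obtain ⟨e', a', b', c'⟩ := ih'
    rw [← e] at a' b' c'
    exact ⟨e.trans e', fun h => (a h).trans (a' h), fun h => (b h).trans (b' h),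
      fun h h' => (c h h').trans (c' h h')⟩

theorem cylS [TopologicalSpace C] : CylS (Cyl α β) α β (jj α β) where
  cont := continuous_quot_mk.comp
    (continuous_fst.prodMk (continuous_projIcc.comp continuous_snd))
  zero _ _ h := Quot.sound ⟨rfl, Or.inl ⟨val ⟨le_rfl, zero_le_one⟩, h⟩⟩
  one _ _ h := Quot.sound ⟨rfl, Or.inr ⟨val ⟨zero_le_one, le_rfl⟩, h⟩⟩
  inj c s c' s' hs hs' h := by
    obtain ⟨h1, h2, h3, h4⟩ := rel_of_eq α β h
    have h5 : (projIcc 0 1 zero_le_one s : ℝ) = projIcc 0 1 zero_le_one s' :=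
      congrArg Subtype.val h1
    simp only [val hs] at h2 h3 h4
    rw [val hs, val hs'] at h5
    exact ⟨h5, h2, h3, h4⟩
  surj y := by
    obtain ⟨⟨c, r, hr⟩, rfl⟩ := Quot.exists_rep y
    refine ⟨c, r, hr, ?_⟩
    unfold jj
    simp only
    rw [projIcc_of_mem zero_le_one hr]

end LitGA

theorem sLitG : SLitG := fun _ _ _ _ α β => ⟨_, LitGA.cylS α β⟩

end Pool.Agent.MP_0c1703_gt.H58
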