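import Pool.Agent.MP_0c1703_gt.H58.Spec2

/-! Fibres of a second suspension structure on the suspension of a double mapping cylinder stay
over one vertex. -/

namespace Pool.Agent.MP_0c1703_gt.H58

open Set Filter Topology
open scoped Real

namespace StratGA

theorem cyl_cpt {Y C A B : Type} [TopologicalSpace Y] [TopologicalSpace C] [CompactSpace C]
    {α₀ : C → A} {β₀ : C → B} {j : C × ℝ → Y} (hj : CylS Y α₀ β₀ j) : CompactSpace Y := by
  refine ⟨?_⟩
  have h2 := ((isCompact_univ (X := C)).prod (isCompact_Icc (a := (0 : ℝ)) (b := 1))).image hj.cont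
  have h3 : j '' ((univ : Set C) ×ˢ Icc (0 : ℝ) 1) = univ := by
    refine eq_univ_of_forall fun y => ?_
    obtain ⟨c, s, hs, rfl⟩ := hj.surj y
    exact ⟨(c, s), ⟨trivial, hs⟩, rfl⟩
  rwa [h3] at h2

/-- a continuous map from an interval to a totally disconnected space is constant -/
theorem const {A : Type} [TopologicalSpace A] [TotallyDisconnectedSpace A] {f : ℝ → A} {x y : ℝ}
    (h : ContinuousOn f (uIcc x y)) : f x = f y :=
  (isPreconnected_uIcc.image f h).subsingleton ⟨x, left_mem_uIcc, rfl⟩ ⟨y, right_mem_uIcc, rfl⟩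

end StratGA

open StratGA in
theorem sStratG : SCoord → SCoordG → SStratG := by
  intro hC hG Z Y V C A B _ _ _ _ _ _ _ _ _ _ _ _ _ α₀ β₀ n p q q' j hα hβ hT hj hq hq' v c θ₀ hθ₀
    θ hθ hz θ₁ hθ₁
  have : CompactSpace Y := cyl_cpt hj
  have : Nonempty Y := ⟨j (c, 0)⟩
  obtain ⟨hT2, -, pr, th, thc, prc, thq, prq, qpr, hW⟩ := hC Z Y n p q hq
  obtain ⟨-, -, pr', th', thc', prc', thq', prq', qpr', hW'⟩ := hC Z V n p q' hq'
  have := hT2
  obtain ⟨γ, s, sc, γc, αc, -, js, sj⟩ := hG Y C A B α₀ β₀ j hα hβ hj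
  have gj : ∀ c', ∀ r ∈ Icc (0 : ℝ) 1, (r < 1 → α₀ (γ (j (c', r))) = α₀ c') ∧
      (0 < r → r < 1 → γ (j (c', r)) = c') := by
    intro c' r hr
    have e := (js (j (c', r))).2
    rw [sj c' r hr] at e
    obtain ⟨-, e1, -, e2⟩ := hj.inj _ _ _ _ hr hr e
    exact ⟨e1, e2⟩
  set W : Set Z := {n, p}ᶜ with hWdef
  have Wo : IsOpen W := (Set.toFinite _).isClosed.isOpen_compl
  have qW : ∀ y, ∀ t ∈ Ioo 0 π, q (y, t) ∈ W := fun y t ht => by
    rw [hW, thq y t (Ioo_subset_Icc_self ht)]; exact ht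
  have qW' : ∀ y, ∀ t ∈ Ioo 0 π, q' (y, t) ∈ W := fun y t ht => by
    rw [hW', thq' y t (Ioo_subset_Icc_self ht)]; exact ht
  have Sc : ContinuousOn (fun z => s (pr z)) W := sc.comp_continuousOn prc
  set O : Set Z := W ∩ (fun z => s (pr z)) ⁻¹' Iio 1 with hOdef
  have Oo : IsOpen O := Sc.isOpen_inter_preimage Wo isOpen_Iio
  have ac : ContinuousOn (fun z => α₀ (γ (pr z))) O :=
    αc.comp (prc.mono inter_subset_left) fun z hz => hz.2
  have fibc : ∀ v, Continuous fun t : ℝ => q' (v, t) := fun v => hq'.cont.comp (by fun_prop)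
  have flat2 : ∀ v x y, (∀ t ∈ uIcc x y, q' (v, t) ∈ O) →
      α₀ (γ (pr (q' (v, x)))) = α₀ (γ (pr (q' (v, y)))) := fun v x y h =>
    const (f := fun t => α₀ (γ (pr (q' (v, t))))) (ac.comp (fibc v).continuousOn h)
  -- the set of parameters over a vertex is open
  have hopen : ∀ t₀ ∈ Ioo 0 π, s (pr (q' (v, t₀))) = 0 →
      ∀ᶠ t₁ in 𝓝 t₀, s (pr (q' (v, t₁))) = 0 := by
    intro t₀ ht₀ h0
    set z := q' (v, t₀) with hzdef
    have zW : z ∈ W := qW' v t₀ ht₀
    have zO : z ∈ O := ⟨zW, by simp only [mem_preimage, h0, mem_Iio]; exact one_pos⟩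
    have hbox : (q' ⁻¹' O) ∩ (univ ×ˢ Ioo 0 π) ∈ 𝓝 (v, t₀) :=
      inter_mem ((Oo.preimage hq'.cont).mem_nhds zO)
        ((isOpen_univ.prod isOpen_Ioo).mem_nhds ⟨trivial, ht₀⟩)
    rw [nhds_prod_eq, mem_prod_iff] at hbox
    obtain ⟨U₀, hU₀, J, hJ, hUJ⟩ := hbox
    obtain ⟨l, u, hlu, hJ'⟩ := mem_nhds_iff_exists_Ioo_subset.1 hJ
    have box : ∀ v' ∈ U₀, ∀ t ∈ Ioo l u, q' (v', t) ∈ O ∧ t ∈ Ioo 0 π := fun v' hv' t ht =>
      ⟨(hUJ (mk_mem_prod hv' (hJ' ht))).1, (hUJ (mk_mem_prod hv' (hJ' ht))).2.2⟩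
    have hv : v ∈ U₀ := mem_of_mem_nhds hU₀
    filter_upwards [isOpen_Ioo.mem_nhds hlu] with t₁ ht₁
    by_contra hne
    obtain ⟨z1O, ht₁'⟩ := box v hv t₁ ht₁
    have a01 := flat2 v t₁ t₀ fun t ht => (box v hv t (ordConnected_Ioo.uIcc_subset ht₁ hlu ht)).1
    rw [← hzdef] at a01
    set z₁ := q' (v, t₁) with hz₁def
    have s1pos : 0 < s (pr z₁) := lt_of_le_of_ne (js _).1.1 (Ne.symm hne)
    have s1lt : s (pr z₁) < 1 := z1O.2
    have s1m : s (pr z₁) ∈ Icc (0 : ℝ) 1 := (js _).1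
    have th1 : th z₁ ∈ Ioo 0 π := (hW _).1 z1O.1
    set δ := t₁ - t₀ with hδ
    -- translation along the fibres of the second structure
    set Tr : Z → Z := fun w => q' (pr' w, th' w + δ) with hTr
    have Trc : ContinuousOn Tr W :=
      hq'.cont.comp_continuousOn (prc'.prodMk (thc'.add continuous_const).continuousOn)
    set y : C → Z := fun c' => q (j (c', s (pr z₁)), th z₁) with hy
    have yc : Continuous y := by
      have := hq.cont
      have := hj.cont
      simp only [hy]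
      fun_prop
    have yW : ∀ c', y c' ∈ W := fun c' => qW _ _ th1
    have y1 : y (γ (pr z₁)) = z₁ := by simp only [hy, (js (pr z₁)).2, (qpr z₁).2]
    have pyc : Continuous fun c' => pr' (y c') := prc'.comp_continuous yc yW
    have tyc : Continuous fun c' => th' (y c') := thc'.comp yc
    set w : C → Z := fun c' => q' (pr' (y c'), th' (y c') - δ) with hw
    have wc : Continuous w := hq'.cont.comp (pyc.prodMk (tyc.sub continuous_const))
    have pz1 : pr' z₁ = v := prq' v t₁ ht₁'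
    have tz1 : th' z₁ = t₁ := thq' v t₁ (Ioo_subset_Icc_self ht₁')
    have pz : pr' z = v := prq' v t₀ ht₀
    have tz : th' z = t₀ := thq' v t₀ (Ioo_subset_Icc_self ht₀)
    have w1 : w (γ (pr z₁)) = z := by
      simp only [hw, y1, pz1, tz1, hδ, sub_sub_cancel, hzdef]
    have Trz : Tr z = z₁ := by
      simp only [hTr, pz, tz, hδ, add_sub_cancel, hz₁def]
    set N : Set Z := W ∩ Tr ⁻¹' (W ∩ (fun z => s (pr z)) ⁻¹' Ioo 0 1) with hN
    have No : IsOpen N :=
      Trc.isOpen_inter_preimage Wo (Sc.isOpen_inter_preimage Wo isOpen_Ioo)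
    have zN : z ∈ N := ⟨zW, by rw [mem_preimage, Trz]; exact ⟨z1O.1, s1pos, s1lt⟩⟩
    have Gc : ContinuousOn (fun x => γ (pr (Tr x))) N :=
      γc.comp (prc.comp (Trc.mono inter_subset_left) fun x hx => hx.2.1) fun x hx => hx.2.2
    -- the star of the vertex
    have jz : j (γ (pr z), 0) = pr z := by
      have e := (js (pr z)).2
      rwa [h0] at e
    have Kc : IsCompact {c' : C | j (c', 0) = pr z} :=
      (isClosed_eq (hj.cont.comp (by fun_prop)) continuous_const).isCompact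
    have tube : ∀ᶠ x : ℝ × ℝ in 𝓝 (0, th z), ∀ c' ∈ {c' : C | j (c', 0) = pr z},
        q (j (c', x.1), x.2) ∈ N := by
      refine Kc.eventually_forall_of_forall_eventually
        (P := fun (x : ℝ × ℝ) c' => q (j (c', x.1), x.2) ∈ N) fun c' hc' => ?_
      have h1 : Continuous fun x : (ℝ × ℝ) × C => q (j (x.2, x.1.1), x.1.2) := by
        have := hq.cont
        have := hj.cont
        fun_prop
      refine h1.continuousAt.eventually_mem ?_
      have hc'' : j (c', 0) = pr z := hc'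
      simp only [hc'', (qpr z).2]
      exact No.mem_nhds zN
    obtain ⟨ε, hε, hball⟩ := Metric.eventually_nhds_iff_ball.1 tube
    have ev : ∀ᶠ c' in 𝓝 (γ (pr z₁)), pr' (y c') ∈ U₀ ∧ th' (y c') ∈ Ioo l u ∧
        th' (y c') - δ ∈ Ioo l u ∧ (s (pr (w c')), th (w c')) ∈ Metric.ball (0, th z) ε := by
      refine Eventually.and ?_ (Eventually.and ?_ (Eventually.and ?_ ?_))
      · exact pyc.continuousAt.eventually_mem (by rw [y1, pz1]; exact hU₀)
      · exact tyc.continuousAt.eventually_mem (by rw [y1, tz1]; exact isOpen_Ioo.mem_nhds ht₁)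
      · have hc : Continuous fun c' => th' (y c') - δ := tyc.sub continuous_const
        refine hc.continuousAt.eventually_mem ?_
        rw [y1, tz1, hδ, sub_sub_cancel]
        exact isOpen_Ioo.mem_nhds hlu
      · have h1 : ContinuousAt (fun x => (s (pr x), th x)) (w (γ (pr z₁))) := by
          rw [w1]
          exact (Sc.continuousAt (Wo.mem_nhds zW)).prodMk thc.continuousAt
        refine (h1.comp wc.continuousAt).eventually_mem ?_
        simp only [Function.comp, w1, h0]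
        exact Metric.ball_mem_nhds _ hε
    obtain ⟨c', ⟨hc1, hc2⟩, h1, h2, h3, h4⟩ :=
      ((mem_closure_iff_frequently.1 (hT (γ (pr z₁))).1).and_eventually ev).exists
    have pyj : pr (y c') = j (c', s (pr z₁)) := prq _ _ th1
    have e1 : α₀ (γ (pr (w c'))) = α₀ (γ (pr z)) := by
      have e := flat2 (pr' (y c')) (th' (y c') - δ) (th' (y c'))
        fun t ht => (box _ h1 t (ordConnected_Ioo.uIcc_subset h3 h2 ht)).1
      rw [(qpr' _).2, pyj, (gj _ _ s1m).1 s1lt, hc1, a01] at e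
      exact e
    have e2 : j (γ (pr (w c')), 0) = pr z := (hj.zero _ _ e1).trans jz
    set D : ℝ → Z := fun r => q (j (γ (pr (w c')), (1 - r) * s (pr (w c'))),
      (1 - r) * th (w c') + r * th z) with hD
    have Dc : Continuous D := by
      have := hq.cont
      have := hj.cont
      simp only [hD]
      fun_prop
    have DN : ∀ r ∈ uIcc (0 : ℝ) 1, D r ∈ N := by
      intro r hr
      rw [uIcc_of_le zero_le_one] at hr
      have hcv : Convex ℝ (Metric.ball ((0 : ℝ), th z) ε) := convex_ball _ _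
      have hm := hcv h4 (Metric.mem_ball_self hε) (sub_nonneg.2 hr.2) hr.1 (sub_add_cancel 1 r)
      have := hball _ hm _ e2
      simpa only [hD, Prod.smul_mk, Prod.mk_add_mk, smul_eq_mul, mul_zero, add_zero] using this
    have key := const (f := fun r => γ (pr (Tr (D r)))) (Gc.comp Dc.continuousOn DN)
    have d0 : D 0 = w c' := by
      simp only [hD, sub_zero, one_mul, zero_mul, add_zero, (js _).2, (qpr _).2]
    have d1 : D 1 = z := by
      simp only [hD, sub_self, zero_mul, zero_add, one_mul, e2, (qpr z).2]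
    have hm := (box _ h1 _ h3).2
    have e3 : Tr (w c') = y c' := by
      simp only [hTr, hw, prq' _ _ hm, thq' _ _ (Ioo_subset_Icc_self hm), sub_add_cancel,
        (qpr' _).2]
    simp only [d0, d1, e3, Trz, pyj, (gj _ _ s1m).2 s1pos s1lt] at key
    exact hc2 key
  -- connectedness
  have gc : ContinuousOn (fun t : ℝ => s (pr (q' (v, t)))) (Ioo 0 π) :=
    Sc.comp (fibc v).continuousOn fun t ht => qW' v t ht
  have h00 : s (pr (q' (v, θ₀))) = 0 := by
    rw [hz, prq _ _ hθ]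
    exact sj _ _ ⟨le_rfl, zero_le_one⟩
  have hall : ∀ t ∈ Ioo 0 π, s (pr (q' (v, t))) = 0 := by
    have o1 : IsOpen {t | t ∈ Ioo 0 π ∧ s (pr (q' (v, t))) = 0} :=
      isOpen_iff_mem_nhds.2 fun t ht => (isOpen_Ioo.eventually_mem ht.1).and (hopen t ht.1 ht.2)
    have o2 : IsOpen (Ioo 0 π ∩ (fun t : ℝ => s (pr (q' (v, t)))) ⁻¹' {0}ᶜ) :=
      gc.isOpen_inter_preimage isOpen_Ioo isOpen_compl_singleton
    have hs := isPreconnected_Ioo.subset_left_of_subset_union (s := Ioo 0 π) o1 o2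
      (disjoint_left.2 fun t h1 h2 => h2.2 h1.2)
      (fun t ht => by
        by_cases h : s (pr (q' (v, t))) = 0
        · exact Or.inl ⟨ht, h⟩
        · exact Or.inr ⟨ht, h⟩) ⟨θ₀, hθ₀, hθ₀, h00⟩
    exact fun t ht => (hs ht).2
  have ha : α₀ (γ (pr (q' (v, θ₁)))) = α₀ c := by
    rw [flat2 v θ₁ θ₀ fun t ht => ?_, hz, prq _ _ hθ]
    · exact (gj _ _ ⟨le_rfl, zero_le_one⟩).1 one_pos
    · have ht' := ordConnected_Ioo.uIcc_subset hθ₁ hθ₀ ht
      exact ⟨qW' v t ht', by simp only [mem_preimage, hall t ht', mem_Iio]; exact one_pos⟩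
  refine ⟨th (q' (v, θ₁)), (hW _).1 (qW' v θ₁ hθ₁), ?_⟩
  have e := (js (pr (q' (v, θ₁)))).2
  rw [hall θ₁ hθ₁, hj.zero _ _ ha] at e
  rw [e, (qpr _).2]

end Pool.Agent.MP_0c1703_gt.H58
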