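import Pool.Agent.MP_0c1703_gt.H58R.All
import Pool.Agent.MP_0c1703_gt.H58R.LitG
import Pool.Agent.MP_0c1703_gt.H58R.CoordG
import Pool.Agent.MP_0c1703_gt.H58R.StratG
import Pool.Agent.MP_0c1703_gt.H58R.CellsG
import Pool.Agent.MP_0c1703_gt.H58R.HomeoG

/-! Cantor graphs. -/

namespace Pool.Agent.MP_0c1703_gt.H58

open Set

theorem CylS.map {Y Y' C A B : Type} [TopologicalSpace Y] [TopologicalSpace Y'] [TopologicalSpace C]
    {α₀ : C → A} {β₀ : C → B} {j : C × ℝ → Y} (h : CylS Y α₀ β₀ j) (e : Y ≃ₜ Y') :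
    CylS Y' α₀ β₀ fun w => e (j w) where
  cont := e.continuous.comp h.cont
  zero c c' a := by rw [h.zero c c' a]
  one c c' a := by rw [h.one c c' a]
  inj c s c' s' h1 h2 h3 := h.inj c s c' s' h1 h2 (e.injective h3)
  surj y := by
    obtain ⟨c, s, hs, h1⟩ := h.surj (e.symm y)
    exact ⟨c, s, hs, by rw [h1, e.apply_symm_apply]⟩

theorem finalG (Y : Type) [TopologicalSpace Y] (hY : CantorGraph Y) (hr : TitsRigid Y) :
    TitsRigid (Join Bool Y) := by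
  obtain ⟨C, A, B, _, _, _, α, β, _, _, _, _, _, hα, hβ, tα, tβ, ⟨e⟩⟩ := hY
  obtain ⟨j₀, hj₀⟩ := sLitG C A B α β
  have hj := hj₀.map e.symm
  set j : C × ℝ → Y := fun w => e.symm (j₀ w) with hjdef
  haveI : CompactSpace Y := by
    refine ⟨?_⟩
    have h1 : IsCompact (j '' (univ ×ˢ Icc (0 : ℝ) 1)) :=
      (isCompact_univ.prod isCompact_Icc).image hj.cont
    have h2 : j '' (univ ×ˢ Icc (0 : ℝ) 1) = univ := eq_univ_of_forall fun y => by
      obtain ⟨c, s, hs, h3⟩ := hj.surj y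
      exact ⟨(c, s), ⟨trivial, hs⟩, h3⟩
    rwa [h2] at h1
  haveI : Nontrivial Y := ⟨⟨_, _, fun h => zero_ne_one (hj.inj (Classical.arbitrary C) 0
    (Classical.arbitrary C) 1 ⟨le_rfl, zero_le_one⟩ ⟨zero_le_one, le_rfl⟩ h).1⟩⟩
  refine main Y ?_ hr
  have hCells := sCellsG sCoord sCoordG (sStratG sCoord sCoordG)
  have hHomeo := sHomeoG sCoord sCoordG sOrd (sTau sOrd)
  intro Z V _ _ _ _ n p n' p' q q' hq hq'
  obtain ⟨hV, h1, h2, h3⟩ := hCells Z Y V C A B α β n p n' p' q q' j hα hβ tα tβ hj hq hq'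
  refine ⟨h1, ?_⟩
  rcases h1 with rfl | rfl
  · rcases h2 with rfl | rfl
    · exact absurd rfl hq'.ne
    · exact hHomeo Z Y V C A B α β _ _ q q' j hα hβ hj hq hq' (h3 rfl rfl)
  · rcases h2 with rfl | rfl
    · have h4 := (hCells Z Y V C A B α β _ _ _ _ q _ j hα hβ tα tβ hj hq hq'.rev).2.2.2 rfl rfl
      exact hHomeo Z Y V C A B α β _ _ q _ j hα hβ hj hq hq'.rev h4
    · exact absurd rfl hq'.ne

end Pool.Agent.MP_0c1703_gt.H58
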