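import Pool.Agent.MP_0c1703_gt.H58.Spec

/-! Coordinates on a suspension (row Coord, helper33). -/

namespace Pool.Agent.MP_0c1703_gt.H58

open Set Filter Topology
open scoped Real

namespace CoordA

/-- continuity descends along a continuous map from a compact set to a Hausdorff space -/
theorem descend {P Y S : Type} [TopologicalSpace P] [TopologicalSpace Y] [T2Space Y]
    [TopologicalSpace S] {T : Set P} (hT : IsCompact T) {pr : P → Y} (hpr : Continuous pr)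
    {W : Set Y} {f : Y → S} {g : P → S} (hg : Continuous g)
    (hs : ∀ y ∈ W, ∃ p ∈ T, pr p = y) (he : ∀ p ∈ T, pr p ∈ W → f (pr p) = g p) :
    ContinuousOn f W := by
  rw [continuousOn_iff_isClosed]
  intro t ht
  refine ⟨pr '' (T ∩ g ⁻¹' t), ((hT.inter_right (ht.preimage hg)).image hpr).isClosed, ?_⟩
  ext y
  constructor
  · rintro ⟨hy, hW⟩
    obtain ⟨p, hp, rfl⟩ := hs y hW
    refine ⟨⟨p, ⟨hp, ?_⟩, rfl⟩, hW⟩
    rw [mem_preimage, ← he p hp hW]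
    exact hy
  · rintro ⟨⟨p, ⟨hp, hpt⟩, rfl⟩, hW⟩
    refine ⟨?_, hW⟩
    rw [mem_preimage, he p hp hW]
    exact hpt

variable {Z V : Type} [TopologicalSpace Z] [TopologicalSpace V] {n p : Z} {q : V × ℝ → Z}

theorem cases3 {θ : ℝ} (h : θ ∈ Icc 0 π) : θ = 0 ∨ θ = π ∨ θ ∈ Ioo 0 π := by
  rcases eq_or_lt_of_le h.1 with h0 | h0
  · exact Or.inl h0.symm
  · rcases eq_or_lt_of_le h.2 with h1 | h1
    · exact Or.inr (Or.inl h1)
    · exact Or.inr (Or.inr ⟨h0, h1⟩)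

theorem surj' [Nonempty V] (h : Susp Z V n p q) (z : Z) :
    ∃ v, ∃ θ ∈ Icc 0 π, q (v, θ) = z := by
  obtain ⟨v₀⟩ := ‹Nonempty V›
  rcases h.surj z with rfl | rfl | ⟨v, θ, hθ, e⟩
  · exact ⟨v₀, 0, ⟨le_rfl, Real.pi_pos.le⟩, h.zero v₀⟩
  · exact ⟨v₀, π, ⟨Real.pi_pos.le, le_rfl⟩, h.pi v₀⟩
  · exact ⟨v, θ, Ioo_subset_Icc_self hθ, e⟩

theorem ang_eq (h : Susp Z V n p q) {v v' : V} {θ θ' : ℝ} (hθ : θ ∈ Icc 0 π)
    (hθ' : θ' ∈ Icc 0 π) (e : q (v, θ) = q (v', θ')) : θ = θ' := by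
  rcases cases3 hθ with h1 | h1 | h1
  · rcases cases3 hθ' with h2 | h2 | h2
    · rw [h1, h2]
    · rw [h1, h2, h.zero, h.pi] at e; exact absurd e h.ne
    · exact (h.inj _ _ _ _ h2 hθ e.symm).2.symm
  · rcases cases3 hθ' with h2 | h2 | h2
    · rw [h1, h2, h.zero, h.pi] at e; exact absurd e.symm h.ne
    · rw [h1, h2]
    · exact (h.inj _ _ _ _ h2 hθ e.symm).2.symm
  · exact (h.inj _ _ _ _ h1 hθ' e).2

end CoordA

open CoordA in
theorem sCoord : SCoord := by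
  intro Z V _ _ _ _ _ n p q h
  choose pr th hth hq using surj' h
  have k1 : ∀ v, ∀ θ ∈ Icc 0 π, th (q (v, θ)) = θ := fun v θ hθ =>
    ang_eq h (hth _) hθ (hq _)
  have k2 : ∀ v, ∀ θ ∈ Ioo 0 π, pr (q (v, θ)) = v := fun v θ hθ =>
    (h.inj _ _ _ _ hθ (hth _) (hq _).symm).1.symm
  have k3 : ∀ z, z ∈ ({n, p}ᶜ : Set Z) ↔ th z ∈ Ioo 0 π := by
    intro z
    constructor
    · intro hz
      rcases cases3 (hth z) with h1 | h1 | h1
      · exact absurd (Or.inl (by rw [← hq z, h1, h.zero])) hz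
      · exact absurd (Or.inr (by rw [mem_singleton_iff, ← hq z, h1, h.pi])) hz
      · exact h1
    · rintro hz (rfl | rfl)
      · have := k1 (pr z) 0 ⟨le_rfl, Real.pi_pos.le⟩
        rw [h.zero] at this
        exact absurd this hz.1.ne'
      · have := k1 (pr z) π ⟨Real.pi_pos.le, le_rfl⟩
        rw [h.pi] at this
        exact absurd this hz.2.ne
  have hT : IsCompact ((univ : Set V) ×ˢ Icc (0 : ℝ) π) := isCompact_univ.prod isCompact_Icc
  have hsur : ∀ z, ∃ w ∈ (univ : Set V) ×ˢ Icc (0 : ℝ) π, q w = z :=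
    fun z => ⟨(pr z, th z), ⟨trivial, hth z⟩, hq z⟩
  have hm : π / 2 ∈ Ioo 0 π := ⟨by positivity, half_lt_self Real.pi_pos⟩
  refine ⟨?_, ⟨?_⟩, pr, th, ?_, ?_, k1, k2, fun z => ⟨hth z, hq z⟩, k3⟩
  · refine T2Space.of_injective_continuous (f := fun v => q (v, π / 2)) (fun v v' e => ?_)
      (h.cont.comp (by fun_prop))
    exact (h.inj _ _ _ _ hm (Ioo_subset_Icc_self hm) e).1
  · have e : (univ : Set Z) = q '' (univ ×ˢ Icc 0 π) := (eq_univ_of_forall hsur).symm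
    rw [e]
    exact hT.image h.cont
  · rw [← continuousOn_univ]
    refine descend hT h.cont (g := fun w => w.2) (by fun_prop) (fun z _ => hsur z) ?_
    rintro ⟨v, θ⟩ ⟨-, hθ⟩ -
    exact k1 v θ hθ
  · refine descend hT h.cont (g := fun w => w.1) (by fun_prop) (fun z _ => hsur z) ?_
    rintro ⟨v, θ⟩ ⟨-, hθ⟩ hW
    have h1 := (k3 _).1 hW
    rw [k1 v θ hθ] at h1
    exact k2 v θ h1

open CoordA in
theorem sSuspMap : SCoord → SSuspMap := by
  intro hC Z₁ V₁ Z₂ V₂ _ _ _ _ _ _ _ _ n₁ p₁ q₁ n₂ p₂ q₂ f h₁ h₂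
  obtain ⟨-, hcp, pr, th, -, -, k1, k2, k4, -⟩ := hC Z₁ V₁ n₁ p₁ q₁ h₁
  have : Nonempty V₂ := ⟨f (Classical.arbitrary V₁)⟩
  have key : ∀ v, ∀ θ ∈ Icc 0 π, q₂ (f (pr (q₁ (v, θ))), th (q₁ (v, θ))) = q₂ (f v, θ) := by
    intro v θ hθ
    rw [k1 v θ hθ]
    rcases cases3 hθ with h1 | h1 | h1
    · rw [h1, h₂.zero, h₂.zero]
    · rw [h1, h₂.pi, h₂.pi]
    · rw [k2 v θ h1]
  have hbij : Function.Bijective fun z => q₂ (f (pr z), th z) := by
    constructor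
    · intro z z' e
      have e' : q₂ (f (pr z), th z) = q₂ (f (pr z'), th z') := e
      have h0 := ang_eq h₂ (k4 z).1 (k4 z').1 e'
      rw [← (k4 z).2, ← (k4 z').2, ← h0]
      rcases cases3 (k4 z).1 with h1 | h1 | h1
      · rw [h1, h₁.zero, h₁.zero]
      · rw [h1, h₁.pi, h₁.pi]
      · rw [f.injective (h₂.inj _ _ _ _ h1 (k4 z').1 e').1]
    · intro z
      obtain ⟨v, θ, hθ, rfl⟩ := surj' h₂ z
      refine ⟨q₁ (f.symm v, θ), ?_⟩
      have := key (f.symm v) θ hθ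
      rw [f.apply_symm_apply] at this
      exact this
  have hcont : Continuous fun z => q₂ (f (pr z), th z) := by
    rw [← continuousOn_univ]
    have hc := h₂.cont
    refine descend (isCompact_univ.prod (isCompact_Icc (a := (0 : ℝ)) (b := π))) h₁.cont
      (g := fun w => q₂ (f w.1, w.2)) (by fun_prop)
      (fun z _ => ⟨(pr z, th z), ⟨trivial, (k4 z).1⟩, (k4 z).2⟩) ?_
    rintro ⟨v, θ⟩ ⟨-, hθ⟩ -
    exact key v θ hθ
  exact ⟨Continuous.homeoOfEquivCompactToT2 (f := Equiv.ofBijective _ hbij) hcont, key⟩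

end Pool.Agent.MP_0c1703_gt.H58
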