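import Pool.Agent.MP_0c1703_gt.H58R.Main

/-! Transfer along homeomorphisms and the final statement from the rows. -/

namespace Pool.Agent.MP_0c1703_gt.H58

open Set Filter Topology
open scoped NNReal ENNReal Real

namespace FinalA

theorem nullOn_comp {Y Y' S : Type} [TopologicalSpace Y] [TopologicalSpace Y'] [TopologicalSpace S]
    {f : Y' → S} {U : Set Y'} (h : NullOn f U) {e : Y → Y'} (he : Continuous e) :
    NullOn (f ∘ e) (e ⁻¹' U) := by
  obtain ⟨H, s₀, h1, h2, h3⟩ := h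
  refine ⟨fun w => H (e w.1, w.2), s₀, h1.comp (by fun_prop) fun w hw => ⟨hw.1, hw.2⟩,
    fun y hy => h2 _ hy, fun y hy => h3 _ hy⟩

theorem sep_map {A A' : Type} [TopologicalSpace A] [TopologicalSpace A'] (e : A ≃ₜ A')
    (h : Sep A) : Sep A' := by
  intro a a' H
  refine e.symm.injective (h _ _ fun U hU ha => ?_)
  obtain ⟨U', h1, h2, h3⟩ := H (e.symm ⁻¹' U) (hU.preimage e.symm.continuous) ha
  refine ⟨e ⁻¹' U', h1.preimage e.continuous, by simpa using h2, fun S _ f hf hn => ?_⟩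
  have h4 := nullOn_comp (h3 S (f ∘ e.symm) (hf.comp e.symm.continuous)
    (nullOn_comp hn e.symm.continuous)) e.continuous
  have h5 : (f ∘ e.symm) ∘ e = f := by ext y; simp
  rwa [h5] at h4

theorem sphereLike_map {A A' : Type} [TopologicalSpace A] [TopologicalSpace A'] (e : A ≃ₜ A')
    (h : SphereLike A) : SphereLike A' := by
  intro P hP hne S _ f hf
  have key : ∀ (Q : Set A') (g : C(A', S)), (g.restrict Q).Nullhomotopic ↔
      ((g.comp (e : C(A, A'))).restrict (e ⁻¹' Q)).Nullhomotopic := by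
    intro Q g
    constructor
    · intro h1
      exact h1.comp_left ⟨fun x : e ⁻¹' Q => (⟨e x.1, x.2⟩ : Q), by fun_prop⟩
    · intro h1
      have h2 := h1.comp_left ⟨fun x : Q => (⟨e.symm x.1, by simp⟩ : e ⁻¹' Q), by fun_prop⟩
      have h3 : ((g.comp (e : C(A, A'))).restrict (e ⁻¹' Q)).comp
          ⟨fun x : Q => (⟨e.symm x.1, by simp⟩ : e ⁻¹' Q), by fun_prop⟩ = g.restrict Q := by
        ext x; simp
      rwa [h3] at h2
  exact (key Pᶜ f).2 (h (e ⁻¹' P) (hP.preimage e.continuous) (hne.preimage e.surjective) S _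
    ((key P f).1 hf))

theorem good (hCore : SCore) (hR : SSepR) (hD : SSepD) {A : Type} [TopologicalSpace A]
    (h : Good A) : Sep A ∧ Nontrivial A ∧ CompactSpace A := by
  obtain ⟨X, G, _, _, ρ, hp, hX, hρ, ⟨e⟩, h⟩ := h
  haveI := (hCore X hX).c2.cpt
  have hc : CompactSpace A := e.compactSpace
  rcases h with ⟨h1, a, b, c, h2, h3, h4⟩ | ⟨h1, h2⟩
  · refine ⟨sep_map e (hD X G ρ hX hρ (fun h5 => h1 ?_) ⟨e.symm a, e.symm b, e.symm c,
      e.symm.injective.ne h2, e.symm.injective.ne h3, e.symm.injective.ne h4⟩), ⟨a, b, h2⟩, hc⟩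
    exact ⟨by simpa [e.surjective.range_eq] using isPreconnected_range e.continuous⟩
  · obtain ⟨h3, h4⟩ := hR X G ρ hX hρ h1 fun h5 => h2 (sphereLike_map e h5)
    exact ⟨sep_map e h3, e.injective.nontrivial, hc⟩

theorem joinS_map {Y Y' A B : Type} [TopologicalSpace Y] [TopologicalSpace Y'] [TopologicalSpace A]
    [TopologicalSpace B] {j : A × B × ℝ → Y} (h : JoinS Y A B j) (e : Y ≃ₜ Y') :
    JoinS Y' A B fun w => e (j w) where
  cont := e.continuous.comp h.cont
  zero a b b' := by rw [h.zero a b b']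
  one a a' b := by rw [h.one a a' b]
  inj a b s a' b' s' h1 h2 h3 := h.inj a b s a' b' s' h1 h2 (e.injective h3)
  surj y := by
    obtain ⟨a, b, s, hs, h1⟩ := h.surj (e.symm y)
    exact ⟨a, b, s, hs, by rw [h1, e.apply_symm_apply]⟩

theorem joinS_cpt {Y A B : Type} [TopologicalSpace Y] [TopologicalSpace A] [TopologicalSpace B]
    [CompactSpace A] [CompactSpace B] {j : A × B × ℝ → Y} (h : JoinS Y A B j) :
    CompactSpace Y := by
  refine ⟨?_⟩
  have h1 : IsCompact (j '' (univ ×ˢ univ ×ˢ Icc (0 : ℝ) 1)) :=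
    (isCompact_univ.prod (isCompact_univ.prod isCompact_Icc)).image h.cont
  have h2 : j '' (univ ×ˢ univ ×ˢ Icc (0 : ℝ) 1) = univ := eq_univ_of_forall fun y => by
    obtain ⟨a, b, s, hs, h3⟩ := h.surj y
    exact ⟨(a, b, s), ⟨trivial, trivial, hs⟩, h3⟩
  rwa [h2] at h1

/-- the dimension type criterion -/
theorem not_sphereLike {Y S : Type} [TopologicalSpace Y] [CompactSpace Y] [T2Space Y]
    [TopologicalSpace S] (hext : ∀ C : Set Y, IsClosed C → ∀ g : C(C, S), ∃ f : C(Y, S),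
      f.restrict C = g) (K : Set Y) (hK : IsClosed K) (hK' : K ≠ univ) (g : C(K, S))
    (hg : ¬ g.Nullhomotopic) (s₀ : S) : ¬ SphereLike Y := by
  intro h
  obtain ⟨y, hy⟩ := (ne_univ_iff_exists_notMem K).1 hK'
  obtain ⟨N, hN, hNc, hNK⟩ := exists_mem_nhds_isClosed_subset (hK.isOpen_compl.mem_nhds hy)
  classical
  have hcont : Continuous fun x : (K ∪ N : Set Y) => if hx : x.1 ∈ K then g ⟨x.1, hx⟩ else s₀ := by
    refine continuous_iff_isClosed.2 fun T hT => ?_
    have h1 : IsClosed (Subtype.val '' (g ⁻¹' T)) :=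
      hK.isClosedEmbedding_subtypeVal.isClosedMap _ (hT.preimage g.continuous)
    have h2 : IsClosed (if s₀ ∈ T then N else ∅) := by split_ifs; exacts [hNc, isClosed_empty]
    have h3 := (h1.union h2).preimage (continuous_subtype_val (p := (· ∈ K ∪ N)))
    refine (congrArg IsClosed ?_).mp h3
    ext x
    by_cases hx : x.1 ∈ K
    · have hxN : x.1 ∉ N := fun a => hNK a hx
      by_cases hs : s₀ ∈ T <;> simp [hx, hxN, hs]
    · have hxN : x.1 ∈ N := x.2.resolve_left hx
      by_cases hs : s₀ ∈ T <;> simp [hx, hxN, hs]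
  obtain ⟨f, hf⟩ := hext (K ∪ N) (hK.union hNc) ⟨_, hcont⟩
  have hf' : ∀ x (hx : x ∈ K ∪ N), f x = if hx : x ∈ K then g ⟨x, hx⟩ else s₀ := fun x hx =>
    congrArg (fun φ : C((K ∪ N : Set Y), S) => φ ⟨x, hx⟩) hf
  have h1 : (f.restrict (interior N)).Nullhomotopic := by
    have : f.restrict (interior N) = ContinuousMap.const _ s₀ := by
      ext x
      have hxN := interior_subset x.2
      simp [hf' x.1 (Or.inr hxN), show x.1 ∉ K from hNK hxN]
    rw [this]; exact ContinuousMap.nullhomotopic_of_constant s₀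
  have h2 := (h (interior N) isOpen_interior ⟨y, mem_interior_iff_mem_nhds.2 hN⟩ S f h1).comp_left
    ⟨fun x : K => (⟨x.1, fun a => hNK (interior_subset a) x.2⟩ : ((interior N)ᶜ : Set Y)),
      by fun_prop⟩
  refine hg ((congrArg ContinuousMap.Nullhomotopic ?_).mp h2)
  ext x
  simp [hf' x.1 (Or.inl x.2)]

end FinalA

theorem final_of (hCore : SCore) (hR : SSepR) (hD : SSepD) (hLit : SLit) (hC : SCanc)
    (hJ : SCancJ) (hM : SMain) (Y : Type) [TopologicalSpace Y]
    (hY : Good Y ∨ ∃ (A B : Type) (_ : TopologicalSpace A) (_ : TopologicalSpace B),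
      Good A ∧ Good B ∧ Nonempty (Y ≃ₜ Join A B))
    (hr : TitsRigid Y) : TitsRigid (Join Bool Y) := by
  rcases hY with h | ⟨A, B, _, _, hA, hB, ⟨e⟩⟩
  · obtain ⟨h1, h2, h3⟩ := FinalA.good hCore hR hD h
    exact hM Y (hC Y h1) hr
  · obtain ⟨a1, a2, a3⟩ := FinalA.good hCore hR hD hA
    obtain ⟨b1, b2, b3⟩ := FinalA.good hCore hR hD hB
    obtain ⟨j, hj⟩ := hLit.2 A B
    have hj' := FinalA.joinS_map hj e.symm
    haveI := FinalA.joinS_cpt hj'
    obtain ⟨a, a', haa⟩ := exists_pair_ne A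
    haveI : Nontrivial Y := ⟨⟨_, _, fun h => haa ((hj'.inj a (Classical.arbitrary B) 0 a'
      (Classical.arbitrary B) 0 ⟨le_rfl, zero_le_one⟩ ⟨le_rfl, zero_le_one⟩ h).2.1 zero_lt_one)⟩⟩
    exact hM Y (hJ Y A B _ a1 b1 hj') hr

end Pool.Agent.MP_0c1703_gt.H58
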