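import Pool.Agent.MP_0c1703_gt.H58.Spec

/-! A fixed point at infinity is a pole of a metric suspension; stabilisers; Tits isometries. -/

namespace Pool.Agent.MP_0c1703_gt.H58

open Set Filter Topology
open scoped NNReal ENNReal Real

namespace FixA

variable {X X' : Type} [MetricSpace X] [MetricSpace X'] {Φ : X' → ℝ → X}

theorem inj (h : ∀ x y s t, dist (Φ x s) (Φ y t) ^ 2 = dist x y ^ 2 + (s - t) ^ 2)
    {x y : X'} {s t : ℝ} (e : Φ x s = Φ y t) : x = y ∧ s = t := by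
  have h1 := h x y s t
  rw [e, dist_self] at h1
  have h2 : dist x y = 0 := by nlinarith [sq_nonneg (dist x y), sq_nonneg (s - t)]
  have h3 : s - t = 0 := by nlinarith [sq_nonneg (dist x y), sq_nonneg (s - t)]
  exact ⟨dist_eq_zero.1 h2, by linarith⟩

theorem iso (h : ∀ x y s t, dist (Φ x s) (Φ y t) ^ 2 = dist x y ^ 2 + (s - t) ^ 2)
    (x : X') : Isometry fun t : ℝ≥0 => Φ x (-(t : ℝ)) := by
  refine Isometry.of_dist_eq fun s t => ?_
  have h1 := h x x (-(s : ℝ)) (-(t : ℝ))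
  rw [dist_self] at h1
  rw [NNReal.dist_eq]
  refine (sq_eq_sq₀ dist_nonneg (abs_nonneg _)).1 ?_
  rw [h1, sq_abs]; ring

end FixA

theorem sFix : SCore → SPar → SPyth → SSec → SSplit → SGeoK → SPolar → SOnto → SFix := by
  intro hCore hPar hPyth hSec hSplit hGeo hPolar hOnto X G _ _ _ ρ n hX hρ hn
  have hc := hCore X hX
  have par := hPar X G ρ n hc hρ hn
  have pyth := hPyth X n hc par
  obtain ⟨l₀, hl₀⟩ := par.1
  obtain ⟨hcl, hcat⟩ := hSec X n l₀ hc pyth hl₀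
  obtain ⟨Φ, ρ', χ, hs, hline, hne⟩ := hSplit X G ρ n l₀ hc hn pyth hl₀
  haveI : ProperSpace (Sec n (l₀ 0)) := ProperSpace.of_isClosed hcl
  obtain ⟨hN, D, hD⟩ := hGeo X G (Sec n (l₀ 0)) ρ Φ ρ' χ hc.c1 hρ hs
  have hc' := hCore _ hcat
  obtain ⟨x₀⟩ := hne
  obtain ⟨q, hq, hqc, hang⟩ := hPolar X (Sec n (l₀ 0)) Φ x₀ hc hc' hs.pyth
  let cp : Ray X := ⟨fun t : ℝ≥0 => Φ x₀ (-(t : ℝ)), FixA.iso hs.pyth x₀⟩
  have hnr : ∀ t, 0 ≤ t → rp (Φ x₀ 0) n t = Φ x₀ t := fun t ht => by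
    rw [hc.c2.rpline n _ (hline x₀) 0 t ht, zero_add]
  have hpr : ∀ t, 0 ≤ t → rp (Φ x₀ 0) (mk cp) t = Φ x₀ (-t) := fun t ht => by
    have h0 : cp.1 0 = Φ x₀ 0 := by simp [cp]
    have h1 := hc.c2.rayc cp
    rw [h0] at h1
    simp only [rp, h1, cp, Real.coe_toNNReal t ht]
  refine ⟨Sec n (l₀ 0), inferInstance, mk cp, q, ⟨inferInstance, hcat, hN⟩, ⟨hqc, ?_, ?_, ?_, ?_, ?_⟩,
    hang⟩
  · intro v
    refine hc.c2.rpinj (Φ x₀ 0) _ _ fun t ht => ?_
    rw [hq v 0 t ht, hnr t ht]; simp [hc'.c2.rp0]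
  · intro v
    refine hc.c2.rpinj (Φ x₀ 0) _ _ fun t ht => ?_
    rw [hq v π t ht, hpr t ht]; simp [hc'.c2.rp0]
  · intro e
    have h1 := hnr 1 zero_le_one
    rw [e, hpr 1 zero_le_one] at h1
    have := (FixA.inj hs.pyth h1).2
    linarith
  · intro v θ v' θ' hθ hθ' e
    have h1 := hq v θ 1 zero_le_one
    rw [e, hq v' θ' 1 zero_le_one] at h1
    have h2 := (FixA.inj hs.pyth h1).2
    have h3 : θ = θ' := Real.injOn_cos (Ioo_subset_Icc_self hθ) hθ' (by linarith)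
    subst h3
    refine ⟨hc'.c2.rpinj x₀ _ _ fun t ht => ?_, rfl⟩
    have hsin : 0 < Real.sin θ := Real.sin_pos_of_pos_of_lt_pi hθ.1 hθ.2
    have ht' : 0 ≤ t / Real.sin θ := div_nonneg ht hsin.le
    have h4 := hq v θ _ ht'
    rw [e, hq v' θ _ ht', abs_of_pos hsin, div_mul_cancel₀ _ hsin.ne'] at h4
    exact (FixA.inj hs.pyth h4).1.symm
  · intro z
    rcases hOnto X (Sec n (l₀ 0)) Φ x₀ D hc hc' hs.pyth hD z with h | h | ⟨v, θ, hθ, h⟩
    · exact Or.inl (hc.c2.rpinj (Φ x₀ 0) _ _ fun t ht => by rw [h t ht, hnr t ht])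
    · exact Or.inr (Or.inl (hc.c2.rpinj (Φ x₀ 0) _ _ fun t ht => by rw [h t ht, hpr t ht]))
    · refine Or.inr (Or.inr ⟨v, θ, hθ, hc.c2.rpinj (Φ x₀ 0) _ _ fun t ht => ?_⟩)
      rw [h t ht, hq v θ t ht, abs_of_pos (Real.sin_pos_of_pos_of_lt_pi hθ.1 hθ.2)]

theorem sStab : SStab := by
  intro X G _ _ ρ n p hρ hn
  let H : Subgroup G :=
    { carrier := {g | act (ρ g) n = n}
      mul_mem' := fun {a b} ha hb => by
        simp only [mem_setOf_eq] at ha hb ⊢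
        rw [map_mul, act_mul, hb, ha]
      one_mem' := by simp only [mem_setOf_eq, map_one, act_one]
      inv_mem' := fun {a} ha => by
        simp only [mem_setOf_eq] at ha ⊢
        have := act_inv (ρ a) n
        rw [ha] at this
        rwa [map_inv] }
  refine ⟨H, inferInstance, ρ.comp H.subtype, ⟨fun K hK => ?_, ?_⟩, fun h => h.2⟩
  · exact Set.Finite.preimage (f := fun h : H => (h : G)) Subtype.val_injective.injOn (hρ.1 K hK)
  · obtain ⟨K, hK, hx⟩ := hρ.2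
    by_cases hall : ∀ g, act (ρ g) n = n
    · exact ⟨K, hK, fun x => (hx x).elim fun g hg => ⟨⟨g, hall g⟩, hg⟩⟩
    · push Not at hall
      obtain ⟨g₀, hg₀⟩ := hall
      refine ⟨K ∪ ρ g₀⁻¹ '' K, hK.union (hK.image (ρ g₀⁻¹).continuous), fun x => ?_⟩
      obtain ⟨g, hg⟩ := hx x
      by_cases h : act (ρ g) n = n
      · exact ⟨⟨g, h⟩, Or.inl hg⟩
      · have h1 := (hn g).resolve_left h
        have h2 := (hn g₀).resolve_left hg₀
        refine ⟨⟨g₀⁻¹ * g, ?_⟩, Or.inr ⟨ρ g x, hg, ?_⟩⟩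
        · change act (ρ (g₀⁻¹ * g)) n = n
          rw [map_mul, act_mul, h1, ← h2, map_inv, act_inv]
        · simp

namespace FixA

theorem tits_le {X₁ X₂ : Type} [MetricSpace X₁] [MetricSpace X₂] (f : Bd X₁ → Bd X₂)
    (h : ∀ u v, ang (f u) (f v) = ang u v) (u v : Bd X₁) : tits (f u) (f v) ≤ tits u v := by
  unfold tits
  refine le_iInf fun γ => le_iInf fun h0 => le_iInf fun h1 => le_iInf fun hc => ?_
  refine iInf_le_of_le (fun t => f (γ t)) (iInf_le_of_le (congrArg f h0) (iInf_le_of_le (congrArg f h1)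
    (iInf_le_of_le (by simpa only [h] using hc) ?_)))
  simp only [h]
  exact le_rfl

theorem ang_le {X₁ X₂ : Type} [MetricSpace X₁] [MetricSpace X₂] (c₁ : Core X₁) (c₂ : Core X₂)
    (f : Bd X₁ → Bd X₂) (h : ∀ u v, tits (f u) (f v) = tits u v) (u v : Bd X₁) :
    ang (f u) (f v) ≤ ang u v := by
  rcases (c₁.c4.lepi u v).eq_or_lt with e | e
  · rw [e]; exact c₂.c4.lepi _ _
  · have h1 := c₂.c6.ge (f u) (f v)
    rw [h, c₁.c6.eq u v e] at h1
    exact (ENNReal.ofReal_le_ofReal_iff (c₁.c4.nn u v)).1 h1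

end FixA

theorem sTits : STits := by
  intro X₁ X₂ _ _ f
  refine ⟨fun h u v => le_antisymm (FixA.tits_le f h u v) ?_, fun c₁ c₂ h u v =>
    le_antisymm (FixA.ang_le c₁ c₂ f h u v) ?_⟩
  · have := FixA.tits_le f.symm (fun a b => by
      rw [← h, f.apply_symm_apply, f.apply_symm_apply]) (f u) (f v)
    simpa using this
  · have := FixA.ang_le c₂ c₁ f.symm (fun a b => by
      rw [← h, f.apply_symm_apply, f.apply_symm_apply]) (f u) (f v)
    simpa using this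

end Pool.Agent.MP_0c1703_gt.H58
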