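import Pool.Agent.MP_0c1703_gt.H58R.Fix

/-! Assembly: cancellation implies Tits rigidity of the suspension. -/

namespace Pool.Agent.MP_0c1703_gt.H58

open Set Filter Topology
open scoped NNReal ENNReal Real

theorem Susp.map {Z Z' V : Type} [TopologicalSpace Z] [TopologicalSpace Z'] [TopologicalSpace V]
    {n p : Z} {q : V × ℝ → Z} (h : Susp Z V n p q) (e : Z ≃ₜ Z') :
    Susp Z' V (e n) (e p) (fun w => e (q w)) where
  cont := e.continuous.comp h.cont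
  zero v := by rw [h.zero]
  pi v := by rw [h.pi]
  ne := fun a => h.ne (e.injective a)
  inj v θ v' θ' h1 h2 a := h.inj v θ v' θ' h1 h2 (e.injective a)
  surj z := by
    rcases h.surj (e.symm z) with a | a | ⟨v, θ, hθ, a⟩
    · exact Or.inl (by rw [← a, e.apply_symm_apply])
    · exact Or.inr (Or.inl (by rw [← a, e.apply_symm_apply]))
    · exact Or.inr (Or.inr ⟨v, θ, hθ, by rw [a, e.apply_symm_apply]⟩)

theorem Susp.rev {Z V : Type} [TopologicalSpace Z] [TopologicalSpace V]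
    {n p : Z} {q : V × ℝ → Z} (h : Susp Z V n p q) :
    Susp Z V p n (fun w => q (w.1, π - w.2)) where
  cont := h.cont.comp (by fun_prop)
  zero v := by simp [h.pi]
  pi v := by simp [h.zero]
  ne := h.ne.symm
  inj v θ v' θ' h1 h2 a := by
    have := h.inj v (π - θ) v' (π - θ') ⟨by linarith [h1.2], by linarith [h1.1]⟩
      ⟨by linarith [h2.2], by linarith [h2.1]⟩ a
    exact ⟨this.1, by linarith [this.2]⟩
  surj z := by
    rcases h.surj z with a | a | ⟨v, θ, hθ, a⟩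
    · exact Or.inr (Or.inl a)
    · exact Or.inl a
    · exact Or.inr (Or.inr ⟨v, π - θ, ⟨by linarith [hθ.2], by linarith [hθ.1]⟩, by simpa using a⟩)

theorem sCancJ : SCells → SHomeo → SCancJ := by
  intro hCells hHomeo Y A B _ _ _ _ _ _ _ j hA hB hj Z V _ _ _ _ n p n' p' q q' hq hq'
  obtain ⟨hV, h1, h2, h3⟩ := hCells Z Y V A B n p n' p' q q' j hA hB hj hq hq'
  refine ⟨h1, ?_⟩
  rcases h1 with rfl | rfl
  · rcases h2 with rfl | rfl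
    · exact absurd rfl hq'.ne
    · exact hHomeo Z Y V A B _ _ q q' j hj hq hq' (h3 rfl rfl)
  · rcases h2 with rfl | rfl
    · have h4 := (hCells Z Y V A B _ _ _ _ q _ j hA hB hj hq hq'.rev).2.2.2 rfl rfl
      exact hHomeo Z Y V A B _ _ q _ j hj hq hq'.rev h4
    · exact absurd rfl hq'.ne

theorem sCore : SC1 → SC2 → SC3 → SC4a → SC4 → SC5 → SMid → SC6 → SCore := by
  intro h1 h2 h3 h4a h4 h5 hm h6 X _ _ hX
  have c1 := h1 X hX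
  have c2 := h2 X c1
  have c3 := h3 X c1 c2
  have c4 := h4 X c1 c2 c3 (h4a X c1 c2 c3)
  have c5 := h5 X c1 c2 c4
  exact ⟨c1, c2, c3, c4, c5, h6 X c2 c4 c5 (hm X c1 c2 c4 c5)⟩

theorem MainA.desusp (hCore : SCore) (hFix : SFix) (hLit : SLit) {Y : Type} [TopologicalSpace Y]
    [CompactSpace Y] [Nontrivial Y] (hc : Canc Y) (X : Type) [MetricSpace X] (hX : GroupSpace X)
    (e : Bd X ≃ₜ Join Bool Y) :
    ∃ (X' : Type) (_ : MetricSpace X') (n p : Bd X) (q : Bd X' × ℝ → Bd X), GroupSpace X' ∧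
      Nonempty (Bd X' ≃ₜ Y) ∧ Susp (Bd X) (Bd X') n p q ∧
      ∀ v v', ∀ θ ∈ Icc 0 π, ∀ θ' ∈ Icc 0 π, Real.cos (ang (q (v, θ)) (q (v', θ'))) =
        Real.cos θ * Real.cos θ' + Real.sin θ * Real.sin θ' * Real.cos (ang v v') := by
  obtain ⟨hp, hcat, G, _, ρ, hρ⟩ := hX
  have core := hCore X hcat
  haveI := core.c2.t2
  obtain ⟨n₀, p₀, q₀, hq₀⟩ := hLit.1 Y
  have hq := hq₀.map e.symm
  obtain ⟨H, _, σ, hσ, hfix⟩ := sStab X G ρ (e.symm n₀) (e.symm p₀) hρ fun g =>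
    (hc (Bd X) Y _ _ _ _ _ _ hq (hq.map (actH (ρ g)))).1
  obtain ⟨X', _, p, q, hX', hs, hang⟩ := hFix X H σ (e.symm n₀) hcat hσ hfix
  haveI := hX'.1
  haveI := (hCore X' hX'.2.1).c2.cpt
  exact ⟨X', inferInstance, _, p, q, hX', (hc (Bd X) (Bd X') _ _ _ _ _ _ hq hs).2, hs, hang⟩

theorem sMain : SCore → SFix → SLit → SSuspMap → SMain := by
  intro hCore hFix hLit hMap Y _ _ _ hc hr X₁ X₂ _ _ h₁ h₂ ⟨e₁⟩ ⟨e₂⟩
  obtain ⟨X₁', _, n₁, p₁, q₁, g₁, y₁, s₁, a₁⟩ := MainA.desusp hCore hFix hLit hc X₁ h₁ e₁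
  obtain ⟨X₂', _, n₂, p₂, q₂, g₂, y₂, s₂, a₂⟩ := MainA.desusp hCore hFix hLit hc X₂ h₂ e₂
  obtain ⟨f, hf⟩ := hr X₁' X₂' g₁ g₂ y₁ y₂
  haveI := h₁.1
  haveI := h₂.1
  haveI := g₁.1
  haveI := g₂.1
  have c₁ := hCore X₁ h₁.2.1
  have c₂ := hCore X₂ h₂.2.1
  have c₁' := hCore X₁' g₁.2.1
  have c₂' := hCore X₂' g₂.2.1
  haveI := c₁.c2.t2
  haveI := c₂.c2.t2
  haveI := c₁'.c2.cpt
  obtain ⟨y₁⟩ := y₁
  haveI : Nonempty (Bd X₁') := ⟨y₁.symm (Classical.arbitrary Y)⟩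
  have hfa := (sTits X₁' X₂' f.toEquiv).2 c₁' c₂' hf
  obtain ⟨F, hF⟩ := hMap _ _ _ _ n₁ p₁ q₁ n₂ p₂ q₂ f s₁ s₂
  refine ⟨F, (sTits X₁ X₂ F.toEquiv).1 fun u v => ?_⟩
  have key : ∀ z : Bd X₁, ∃ w, ∃ θ ∈ Icc 0 π, q₁ (w, θ) = z := by
    intro z
    rcases s₁.surj z with a | a | ⟨w, θ, hθ, a⟩
    · exact ⟨Classical.arbitrary _, 0, ⟨le_rfl, Real.pi_pos.le⟩, by rw [s₁.zero, a]⟩
    · exact ⟨Classical.arbitrary _, π, ⟨Real.pi_pos.le, le_rfl⟩, by rw [s₁.pi, a]⟩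
    · exact ⟨w, θ, Ioo_subset_Icc_self hθ, a⟩
  obtain ⟨w, θ, hθ, rfl⟩ := key u
  obtain ⟨w', θ', hθ', rfl⟩ := key v
  refine Real.injOn_cos ⟨c₂.c4.nn _ _, c₂.c4.lepi _ _⟩ ⟨c₁.c4.nn _ _, c₁.c4.lepi _ _⟩ ?_
  change Real.cos (ang (F _) (F _)) = _
  rw [hF w θ hθ, hF w' θ' hθ', a₂ _ _ θ hθ θ' hθ', a₁ _ _ θ hθ θ' hθ']
  have := hfa w w'
  change ang (f w) (f w') = _ at this
  rw [this]

end Pool.Agent.MP_0c1703_gt.H58
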