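import Pool.Agent.MP_0c1703_gt.H58.Spec

/-! Row Split: the product decomposition of the union of the lines with forward end n. -/

namespace Pool.Agent.MP_0c1703_gt.H58

open Set Filter Topology
open scoped NNReal ENNReal Real

namespace SplitA

variable {X : Type} [MetricSpace X] {n : Bd X}

theorem self0 (h : Core X) (x : X) : bus n x x = 0 := by
  have := h.c3.add n x x x
  linarith

theorem busline (h : Core X) {l : ℝ → X} (hl : Line n l) (s t : ℝ) :
    bus n (l s) (l t) = s - t := by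
  have key : ∀ s t : ℝ, s ≤ t → bus n (l s) (l t) = s - t := by
    intro s t hst
    have h1 := h.c2.rpline n l hl s (t - s) (by linarith)
    have h2 := h.c3.self n (l s) (t - s) (by linarith)
    rw [h1, show s + (t - s) = t by ring] at h2
    linarith
  rcases le_total s t with hst | hst
  · exact key s t hst
  · have h1 := key t s hst
    have h2 := h.c3.add n (l s) (l t) (l s)
    have h3 := self0 (n := n) h (l s)
    linarith

theorem shift (h : Core X) {l : ℝ → X} (hl : Line n l) (a : ℝ) : Line n fun t => l (t + a) := by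
  obtain ⟨hi, c, hc, hn⟩ := hl
  have hi' : Isometry fun t : ℝ => l (t + a) := hi.comp (isometry_add_right a)
  refine ⟨hi', ⟨fun t : ℝ≥0 => l (t + a), hi'.comp NNReal.isometry_coe⟩, fun _ => rfl, ?_⟩
  rw [← hn, h.c1.asym]
  refine ⟨|a|, fun t => ?_⟩
  show dist (l (t + a)) (c.1 t) ≤ |a|
  rw [hc, hi.dist_eq, Real.dist_eq]
  simp

theorem map (φ : X ≃ᵢ X) (hφ : act φ n = n) {l : ℝ → X} (hl : Line n l) :
    Line n fun t => φ (l t) := by
  obtain ⟨hi, c, hc, hn⟩ := hl
  refine ⟨φ.isometry.comp hi, rmap φ c, fun t => ?_, ?_⟩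
  · show φ (c.1 t) = _
    rw [hc]
  · rw [← act_mk, hn, hφ]

theorem uniq (h : Core X) (hP : Pyth n) {l m : ℝ → X} (hl : Line n l) (hm : Line n m)
    (h0 : l 0 = m 0) (t : ℝ) : l t = m t := by
  have := hP l m hl hm (by rw [h0]; exact self0 h _) t t
  rw [h0] at this
  simpa using this

end SplitA

open SplitA in
theorem sSplit : SSplit := by
  intro X G _ _ ρ n l₀ h hfix hP hl₀
  set o := l₀ 0 with ho
  have hex : ∀ x : Sec n o, ∃ l, Line n l ∧ l 0 = x := fun x => x.2.1
  choose Φ hΦ hΦ0 using hex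
  have hb : ∀ x y : Sec n o, bus n x.1 y.1 = 0 := by
    intro x y
    have h1 := h.c3.add n o x.1 y.1
    have h2 := x.2.2
    have h3 := y.2.2
    linarith
  have pyth : ∀ (x y : Sec n o) (s t : ℝ),
      dist (Φ x s) (Φ y t) ^ 2 = dist x y ^ 2 + (s - t) ^ 2 := by
    intro x y s t
    have := hP (Φ x) (Φ y) (hΦ x) (hΦ y) (by rw [hΦ0, hΦ0]; exact hb x y) s t
    rw [hΦ0, hΦ0] at this
    exact this
  have inj : ∀ (x y : Sec n o) (s t : ℝ), Φ x s = Φ y t → x = y := by
    intro x y s t hst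
    have h1 := pyth x y s t
    rw [hst, dist_self] at h1
    have h2 : dist x y ^ 2 = 0 := by nlinarith [sq_nonneg (dist x y), sq_nonneg (s - t)]
    exact dist_eq_zero.1 (pow_eq_zero_iff (two_ne_zero) |>.1 h2)
  let χ : G → ℝ := fun g => -bus n o (ρ g o)
  have equiv : ∀ (g : G) (x y : X), bus n (ρ g x) (ρ g y) = bus n x y := by
    intro g x y
    have := h.c3.equi (ρ g) n x y
    rwa [hfix] at this
  have hline : ∀ (g : G) (x : Sec n o), Line n fun t => ρ g (Φ x (t + -χ g)) := fun g x =>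
    map (ρ g) (hfix g) (shift h (hΦ x) (-χ g))
  have hmem : ∀ (g : G) (x : Sec n o), ρ g (Φ x (0 + -χ g)) ∈ Sec n o := by
    intro g x
    refine ⟨⟨_, hline g x, rfl⟩, ?_⟩
    have h1 := h.c3.add n o (ρ g o) (ρ g (Φ x (0 + -χ g)))
    have h2 := h.c3.add n o (Φ x 0) (Φ x (0 + -χ g))
    have h3 := busline h (hΦ x) 0 (0 + -χ g)
    have h4 := x.2.2
    rw [← hΦ0] at h4
    rw [equiv] at h1
    have h5 : χ g = -bus n o (ρ g o) := rfl
    linarith
  let F : G → Sec n o → Sec n o := fun g x => ⟨_, hmem g x⟩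
  have equi : ∀ (g : G) (x : Sec n o) (t : ℝ), ρ g (Φ x t) = Φ (F g x) (t + χ g) := by
    intro g x t
    have := uniq h hP (hΦ (F g x)) (hline g x) (hΦ0 (F g x)) (t + χ g)
    rw [this, show t + χ g + -χ g = t by ring]
  have Fmul : ∀ (g k : G) (x : Sec n o), F (g * k) x = F g (F k x) := by
    intro g k x
    refine inj _ _ (0 + χ (g * k)) (0 + χ k + χ g) ?_
    rw [← equi, ← equi, ← equi, map_mul]
    rfl
  have Fone : ∀ x : Sec n o, F 1 x = x := by
    intro x
    refine inj _ _ (0 + χ 1) 0 ?_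
    rw [← equi, map_one]
    rfl
  have Fd : ∀ (g : G) (x y : Sec n o), dist (F g x) (F g y) = dist x y := by
    intro g x y
    have h1 := pyth (F g x) (F g y) (0 + χ g) (0 + χ g)
    rw [← equi, ← equi, (ρ g).dist_eq, pyth] at h1
    have h2 : dist (F g x) (F g y) ^ 2 = dist x y ^ 2 := by linarith
    exact (pow_left_inj₀ dist_nonneg dist_nonneg two_ne_zero).1 h2
  let E : G → Sec n o ≃ᵢ Sec n o := fun g =>
    { toFun := F g
      invFun := F g⁻¹
      left_inv := fun x => by rw [← Fmul, inv_mul_cancel, Fone]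
      right_inv := fun x => by rw [← Fmul, mul_inv_cancel, Fone]
      isometry_toFun := Isometry.of_dist_eq (Fd g) }
  let ρ' : G →* Sec n o ≃ᵢ Sec n o :=
    MonoidHom.mk' E fun g k => IsometryEquiv.ext fun x => Fmul g k x
  exact ⟨Φ, ρ', χ, ⟨pyth, equi⟩, hΦ, ⟨⟨o, ⟨l₀, hl₀, rfl⟩, self0 h o⟩⟩⟩

end Pool.Agent.MP_0c1703_gt.H58
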